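import Pool.Agent.Burnside.Defs

/-!
Task M: aligned base points of loxodromic isometries.
-/

namespace Pool.Agent.Burnside

variable {G : Type*} [Group G]

/-- Local to global, one side. -/
theorem ab_oneside {V : Type*} {d : V → V → ℤ} {D : ℤ} (hd : IsMet d) (hH : Hyp D d) (q : ℤ → V)
    (M J : ℕ) (hJ : 1 ≤ J) (hJM : J ≤ M)
    (hloc : ∀ i j k : ℤ, i ≤ j → j ≤ k → j - i ≤ M → k - j ≤ M →
      gp d (q i) (q k) (q j) ≤ 12 * D)
    (hlong : ∀ i : ℤ, 20 * D + 1 ≤ d (q i) (q (i + J))) :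
    ∀ (N : ℕ) (i j k : ℤ), i ≤ j → j ≤ k → j - i ≤ M → k - j ≤ N →
      gp d (q i) (q k) (q j) ≤ 13 * D := by
  intro N
  induction N with
  | zero =>
    intro i j k hij hjk hji hkj
    have hD : 0 ≤ D := hH.nonneg hd (q i)
    have : k = j := by push_cast at hkj; omega
    subst this
    have h1 := hd.self (q k)
    unfold gp
    omega
  | succ N ih =>
    intro i j k hij hjk hji hkj
    have hD : 0 ≤ D := hH.nonneg hd (q i)
    by_cases h : k - j ≤ M
    · have := hloc i j k hij hjk hji h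
      omega
    · push_cast at hkj
      have h1 := hloc i j (j + J) hij (by omega) hji (by omega)
      have h2 := ih j (j + J) k (by omega) (by omega) (by omega) (by omega)
      have h3 := hH.gp_ge hd (q i) (q (j + J)) (q k) (q j)
      have h4 := hlong j
      have e1 := hd.symm (q k) (q j)
      have e2 := hd.symm (q k) (q (j + J))
      have e3 := hd.symm (q (j + J)) (q j)
      unfold gp at *
      omega

/-- Local to global. -/
theorem ab_twoside {V : Type*} {d : V → V → ℤ} {D : ℤ} (hd : IsMet d) (hH : Hyp D d) (q : ℤ → V)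
    (M J : ℕ) (hJ : 1 ≤ J) (hJM : J ≤ M)
    (hloc : ∀ i j k : ℤ, i ≤ j → j ≤ k → j - i ≤ M → k - j ≤ M →
      gp d (q i) (q k) (q j) ≤ 12 * D)
    (hlong : ∀ i : ℤ, 20 * D + 1 ≤ d (q i) (q (i + J))) :
    Al d (14 * D) q := by
  intro i j k hij hjk
  have hD : 0 ≤ D := hH.nonneg hd (q i)
  have A := ab_oneside hd hH q M J hJ hJM hloc hlong
  have B := ab_oneside hd hH (fun i => q (-i)) M J hJ hJM
    (fun i j k hij hjk hji hkj => by
      have := hloc (-k) (-j) (-i) (by omega) (by omega) (by omega) (by omega)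
      rw [gp_symm hd] at this
      exact this)
    (fun i => by
      have := hlong (-i - J)
      have e : -i - (J : ℤ) + J = -i := by ring
      rw [e] at this
      rw [hd.symm]
      have e2 : -(i + (J : ℤ)) = -i - J := by ring
      rw [e2]
      exact this)
  by_cases h : j - i ≤ J
  · have := A (k - j).toNat i j k hij hjk (by omega) (by omega)
    omega
  · have h1 := A (k - j).toNat (j - J) j k (by omega) hjk (by omega) (by omega)
    have h2 := B (j - J - i).toNat (-j) (-(j - J)) (-i) (by omega) (by omega) (by omega)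
      (by omega)
    simp only [neg_neg] at h2
    have h3 := hH.gp_ge hd (q (j - J)) (q k) (q i) (q j)
    have h4 := hlong (j - J)
    have e : j - (J : ℤ) + J = j := by ring
    rw [e] at h4
    have e1 := hd.symm (q i) (q j)
    have e2 := hd.symm (q i) (q (j - J))
    have e3 := hd.symm (q j) (q (j - J))
    have e4 := hd.symm (q (j - J)) (q j)
    unfold gp at *
    omega

/-- Quasi-additivity implies a bound on multiples. -/
theorem ab_mult (b : ℤ → ℤ) (D : ℤ) (m0 : ℕ)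
    (hadd : ∀ i j : ℤ, |i| ≤ m0 → |j| ≤ m0 → |i + j| ≤ m0 → |b (i + j) - b i - b j| ≤ D)
    (j : ℕ) : ∀ k : ℕ, 1 ≤ k → k * j ≤ m0 → |b ((k * j : ℕ) : ℤ) - k * b j| ≤ (k - 1) * D := by
  intro k hk
  induction k, hk using Nat.le_induction with
  | base => intro _; simp
  | succ k hk ih =>
    intro hkj
    have hkj' : k * j ≤ m0 := by nlinarith
    have hj : j ≤ m0 := by nlinarith
    have h1 := ih hkj'
    have h2 := hadd ((k * j : ℕ) : ℤ) (j : ℤ) (by rw [abs_of_nonneg (by positivity)]; exact_mod_cast hkj')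
      (by rw [abs_of_nonneg (by positivity)]; exact_mod_cast hj)
      (by
        have e : ((k * j : ℕ) : ℤ) + (j : ℤ) = (((k + 1) * j : ℕ) : ℤ) := by push_cast; ring
        rw [e, abs_of_nonneg (by positivity)]; exact_mod_cast hkj)
    have e : ((k * j : ℕ) : ℤ) + (j : ℤ) = (((k + 1) * j : ℕ) : ℤ) := by push_cast; ring
    rw [e] at h2
    rw [abs_le] at h1 h2 ⊢
    push_cast at h1 h2 ⊢
    constructor <;> nlinarith

/-- The sign lemma. -/
theorem ab_sign (b : ℤ → ℤ) (D L : ℤ) (_hD : 0 ≤ D) (_hL : 0 ≤ L) (m0 J0 : ℕ)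
    (hadd : ∀ i j : ℤ, |i| ≤ m0 → |j| ≤ m0 → |i + j| ≤ m0 → |b (i + j) - b i - b j| ≤ D)
    (h1 : |b 1| ≤ L + D) (hbig : ∀ j : ℕ, J0 ≤ j → j ≤ m0 → L + 7 * D + 1 ≤ |b j|)
    (hJ0 : 1 ≤ J0) (hJ : J0 * J0 ≤ m0) (hpos : 0 < b J0) :
    ∀ j : ℕ, j ≤ m0 → - D ≤ b j := by
  have key : ∀ t : ℕ, J0 + t ≤ m0 → 0 < b ((J0 + t : ℕ) : ℤ) := by
    intro t
    induction t with
    | zero => intro _; simpa using hpos
    | succ t ih =>
      intro ht
      have h2 := ih (by omega)
      have h3 := hbig (J0 + t) (by omega) (by omega)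
      have h4 := hbig (J0 + (t + 1)) (by omega) (by omega)
      have h5 := hadd ((J0 + t : ℕ) : ℤ) 1 (by rw [abs_of_nonneg (by positivity)]; exact_mod_cast (by omega))
        (by rw [abs_one]; exact_mod_cast (by omega))
        (by rw [abs_of_nonneg (by positivity)]; exact_mod_cast (by omega))
      have e : ((J0 + t : ℕ) : ℤ) + 1 = ((J0 + (t + 1) : ℕ) : ℤ) := by push_cast; ring
      rw [e] at h5
      rw [abs_of_pos h2] at h3
      by_contra hcon
      push Not at hcon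
      rw [abs_of_nonpos hcon] at h4
      rw [abs_le] at h5 h1
      omega
  intro j hj
  by_cases hjJ : J0 ≤ j
  · have := key (j - J0) (by omega)
    have e : J0 + (j - J0) = j := by omega
    rw [e] at this
    omega
  · push Not at hjJ
    by_contra hcon
    push Not at hcon
    have hj1 : 1 ≤ j := by
      rcases Nat.eq_zero_or_pos j with h0 | h0
      · exfalso
        subst h0
        have h5 := hadd 0 0 (by simp) (by simp) (by simp)
        rw [abs_le] at h5
        simp at h5 hcon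
        omega
      · exact h0
    have hle : J0 * j ≤ m0 := le_trans (Nat.mul_le_mul_left _ hjJ.le) hJ
    have h2 := ab_mult b D m0 hadd j J0 hJ0 hle
    have h3 := key (J0 * j - J0) (by
      have : J0 ≤ J0 * j := Nat.le_mul_of_pos_right _ hj1
      omega)
    have e : J0 + (J0 * j - J0) = J0 * j := by
      have : J0 ≤ J0 * j := Nat.le_mul_of_pos_right _ hj1
      omega
    rw [e] at h3
    rw [abs_le] at h2
    have hJ0' : (1 : ℤ) ≤ J0 := by exact_mod_cast hJ0
    nlinarith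

/-- Displacement of a point between two points. -/
theorem ab_disp {d : G → G → ℤ} {D : ℤ} (hd : IsMet d) (hl : LInv d) (hH : Hyp D d) (g P Q x : G)
    (l : ℤ) (hx : gp d P Q x ≤ 0) (hP : d P (g * P) ≤ l) (hQ : d Q (g * Q) ≤ l) :
    d x (g * x) ≤ l + D := by
  have h1 := hH.near_pt hd hx (g * x)
  have h2 := hd.tri (g * x) (g * P) P
  have h3 := hd.tri (g * x) (g * Q) Q
  have e1 := hl g x P
  have e2 := hl g x Q
  have e3 := hd.symm (g * P) P
  have e4 := hd.symm (g * Q) Q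
  have e5 := hd.symm (g * x) x
  have e6 := hd.symm P x
  have e7 := hd.symm Q x
  omega

theorem ab_shift {d : G → G → ℤ} (hl : LInv d) (u : G) (a b : ℤ) (z w : G) :
    d (u ^ a * z) (u ^ b * w) = d z (u ^ (b - a) * w) := by
  have := hl (u ^ a) z (u ^ (b - a) * w)
  rw [← mul_assoc, ← zpow_add] at this
  have e : a + (b - a) = b := by ring
  rwa [e] at this

theorem ab_iter {d : G → G → ℤ} (hd : IsMet d) (hl : LInv d) (u y : G) (m0 : ℕ) (j : ℤ)
    (hj : |j| ≤ m0) : d y (u ^ j * y) ≤ m0 * d y (u * y) := by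
  have hS : 0 ≤ d y (u * y) := hd.nonneg _ _
  have key : ∀ n : ℕ, d y (u ^ (n : ℤ) * y) ≤ n * d y (u * y) := by
    intro n
    induction n with
    | zero => simp [hd.self]
    | succ n ih =>
      have h1 := hd.tri y (u ^ (n : ℤ) * y) (u ^ ((n + 1 : ℕ) : ℤ) * y)
      have h2 := ab_shift hl u (n : ℤ) ((n + 1 : ℕ) : ℤ) y y
      have e : ((n + 1 : ℕ) : ℤ) - n = 1 := by push_cast; ring
      rw [e, zpow_one] at h2
      push_cast at *
      linarith
  have key2 : ∀ n : ℕ, n ≤ m0 → d y (u ^ (n : ℤ) * y) ≤ m0 * d y (u * y) := by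
    intro n hn
    have : (n : ℤ) ≤ m0 := by exact_mod_cast hn
    have := key n
    nlinarith
  rcases le_total 0 j with h | h
  · obtain ⟨n, rfl⟩ := Int.eq_ofNat_of_zero_le h
    rw [abs_of_nonneg h] at hj
    exact key2 n (by exact_mod_cast hj)
  · obtain ⟨n, hn⟩ := Int.eq_ofNat_of_zero_le (neg_nonneg.2 h)
    have hj' : j = -(n : ℤ) := by
      have : (n : ℤ) = -j := hn.symm
      omega
    subst hj'
    rw [abs_neg, abs_of_nonneg (by positivity)] at hj
    have h1 := ab_shift hl u (-(n : ℤ)) 0 y y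
    rw [zpow_zero, one_mul] at h1
    have e : (0 : ℤ) - -(n : ℤ) = n := by ring
    rw [e] at h1
    rw [hd.symm, h1]
    exact key2 n (by exact_mod_cast hj)

/-- Task M. -/
theorem aligned_base (d : G → G → ℤ) {D : ℤ} (hd : IsMet d) (hl : LInv d) (hH : Hyp D d) (u : G)
    (R : ℤ) (hlox : Lox d R u) (L : ℤ) (hL : 0 ≤ L) (y : G) (m : ℕ) (hm : 0 < m)
    (hy : d y (u ^ m * y) ≤ m * L) :
    ∃ b : G, d b (u * b) ≤ L + 4 * D ∧ Al d (14 * D) (fun i : ℤ => u ^ i * b) := by
  have hD : 0 ≤ D := hH.nonneg hd y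
  have hR : 1 ≤ R := by
    by_contra hcon
    push Not at hcon
    have h1 := hlox y 1
    have h2 := hd.nonneg y (u ^ 1 * y)
    push_cast at h1
    have : R ≤ 0 := by omega
    nlinarith
  obtain ⟨r, rfl⟩ := Int.eq_ofNat_of_zero_le (by omega : 0 ≤ R)
  obtain ⟨D', rfl⟩ := Int.eq_ofNat_of_zero_le hD
  obtain ⟨L', rfl⟩ := Int.eq_ofNat_of_zero_le hL
  have hr : 1 ≤ r := by exact_mod_cast hR
  have hS0 : 0 ≤ d y (u * y) := hd.nonneg _ _
  obtain ⟨S, hS⟩ := Int.eq_ofNat_of_zero_le hS0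
  obtain ⟨J0, hJ0⟩ : ∃ J0 : ℕ, J0 = r * (L' + 10 * D' + 1) := ⟨_, rfl⟩
  obtain ⟨J, hJ⟩ : ∃ J : ℕ, J = r * (20 * D' + 1) := ⟨_, rfl⟩
  obtain ⟨m0, hm0⟩ : ∃ m0 : ℕ, m0 = m + J0 * J0 + 2 * J + 2 := ⟨_, rfl⟩
  obtain ⟨ρ, hρ⟩ : ∃ ρ : ℕ, ρ = m0 * S := ⟨_, rfl⟩
  have hJ01 : 1 ≤ J0 := by rw [hJ0]; exact Nat.mul_pos hr (by omega)
  have hJ1 : 1 ≤ J := by rw [hJ]; exact Nat.mul_pos hr (by omega)
  have hJ0m : J0 ≤ m0 := by
    have : J0 ≤ J0 * J0 := Nat.le_mul_of_pos_left _ hJ01
    omega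
  have hδ : ∀ j : ℤ, |j| ≤ m0 → d y (u ^ j * y) ≤ ρ := by
    intro j hj
    have := ab_iter hd hl u y m0 j hj
    rw [hS] at this
    rw [hρ]; push_cast; exact this
  obtain ⟨W, hW⟩ : ∃ W : ℕ, W = 4 * ρ + 4 * D' + 4 := ⟨_, rfl⟩
  obtain ⟨K, hK⟩ : ∃ K : ℕ, K = r * W := ⟨_, rfl⟩
  obtain ⟨P, hP⟩ : ∃ P : G, P = u ^ (-(K : ℤ)) * y := ⟨_, rfl⟩
  obtain ⟨Q, hQ⟩ : ∃ Q : G, Q = u ^ (K : ℤ) * y := ⟨_, rfl⟩
  have hdispP : ∀ j : ℤ, d P (u ^ j * P) = d y (u ^ j * y) := by
    intro j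
    rw [hP, ← mul_assoc, ← zpow_add, ab_shift hl]
    congr 3; ring
  have hdispQ : ∀ j : ℤ, d Q (u ^ j * Q) = d y (u ^ j * y) := by
    intro j
    rw [hQ, ← mul_assoc, ← zpow_add, ab_shift hl]
    congr 3; ring
  have hT : 2 * (W : ℤ) ≤ d P Q := by
    have h1 := hlox P (2 * K)
    have e : u ^ (2 * K) * P = Q := by
      rw [hP, hQ, ← mul_assoc, ← zpow_natCast, ← zpow_add]
      congr 2; push_cast; ring
    rw [e, hK] at h1
    push_cast at h1
    have hr' : (0 : ℤ) < r := by exact_mod_cast hr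
    have h2 : (r : ℤ) * (2 * W) ≤ r * d P Q := by linarith
    exact le_of_mul_le_mul_left h2 hr'
  obtain ⟨x, hx1, hx2⟩ := hd.geo P Q (d P Q / 2) (by omega) (by omega)
  have hgp : gp d P Q x ≤ 0 := by
    have e := hd.symm Q x
    unfold gp; omega
  have hPx : (W : ℤ) ≤ d P x := by omega
  have hQx : (W : ℤ) ≤ d Q x := by
    have e := hd.symm Q x
    omega
  -- displacement of `P`, `Q`, `x`
  have hA2P : ∀ j : ℤ, |j| ≤ m0 → d P (u ^ j * P) ≤ ρ := fun j hj => by
    rw [hdispP]; exact hδ j hj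
  have hA2Q : ∀ j : ℤ, |j| ≤ m0 → d Q (u ^ j * Q) ≤ ρ := fun j hj => by
    rw [hdispQ]; exact hδ j hj
  have hA3 : ∀ j : ℤ, |j| ≤ m0 → d x (u ^ j * x) ≤ ρ + D' := fun j hj =>
    ab_disp hd hl hH _ P Q x _ hgp (hA2P j hj) (hA2Q j hj)
  have hA3m : d x (u ^ (m : ℤ) * x) ≤ m * L' + D' := by
    refine ab_disp hd hl hH _ P Q x _ hgp ?_ ?_
    · rw [hdispP, zpow_natCast]; exact hy
    · rw [hdispQ, zpow_natCast]; exact hy
  have hfarP : ∀ j : ℤ, |j| ≤ m0 → d P x - ρ ≤ d P (u ^ j * x) := fun j hj => by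
    have h1 := hA2P j hj
    have h2 := hl (u ^ j) P x
    have h3 := hd.tri (u ^ j * P) P (u ^ j * x)
    have h4 := hd.symm (u ^ j * P) P
    omega
  have hfarQ : ∀ j : ℤ, |j| ≤ m0 → d Q x - ρ ≤ d Q (u ^ j * x) := fun j hj => by
    have h1 := hA2Q j hj
    have h2 := hl (u ^ j) Q x
    have h3 := hd.tri (u ^ j * Q) Q (u ^ j * x)
    have h4 := hd.symm (u ^ j * Q) Q
    omega
  have hA4 : ∀ j : ℤ, |j| ≤ m0 → gp d P Q (u ^ j * x) ≤ 2 * D' := fun j hj => by
    have h1 := hH.gp_ge hd (u ^ j * P) (u ^ j * Q) P (u ^ j * x)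
    have h2 := hH.gp_ge hd P (u ^ j * Q) Q (u ^ j * x)
    have h3 := hA2P j hj
    have h4 := hA2Q j hj
    have h5 := hl (u ^ j) P x
    have h6 := hl (u ^ j) Q x
    have h7 := hl (u ^ j) P Q
    have h8 := hd.symm (u ^ j * P) P
    have h9 := hfarP j hj
    have h10 := hfarQ j hj
    unfold gp at *
    omega
  -- the Busemann-like function
  obtain ⟨b, hb⟩ : ∃ b : ℤ → ℤ, ∀ j, b j = d P (u ^ j * x) - d P x := ⟨_, fun _ => rfl⟩
  have hadd : ∀ i j : ℤ, |i| ≤ m0 → |j| ≤ m0 → |i + j| ≤ m0 →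
      |b (i + j) - b i - b j| ≤ D' := by
    intro i j hi hj hij
    have e1 : d (u ^ (-i) * P) (u ^ j * x) = d P (u ^ (i + j) * x) := by
      rw [ab_shift hl]; congr 3; ring
    have e2 : d (u ^ (-i) * P) x = d P (u ^ i * x) := by
      have := ab_shift hl u (-i) 0 P x
      rw [zpow_zero, one_mul] at this
      rw [this]; congr 3; ring
    have h1 := hH P (u ^ (-i) * P) x (u ^ j * x)
    have h2 := hH P (u ^ (-i) * P) (u ^ j * x) x
    have h3 := hA2P (-i) (by rwa [abs_neg])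
    have h4 := hA3 j hj
    have h5 := hfarP i hi
    have h6 := hfarP j hj
    have h7 := hfarP (i + j) hij
    have e3 := hd.symm (u ^ j * x) x
    rw [e1, e2] at h1 h2
    rw [hb, hb, hb, abs_le]
    constructor <;> omega
  have hlow : ∀ i j : ℤ, |b i - b j| ≤ d (u ^ i * x) (u ^ j * x) := by
    intro i j
    have h1 := hd.tri P (u ^ i * x) (u ^ j * x)
    have h2 := hd.tri P (u ^ j * x) (u ^ i * x)
    have e := hd.symm (u ^ i * x) (u ^ j * x)
    rw [hb, hb, abs_le]
    constructor <;> omega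
  have hup : ∀ i j : ℤ, |i| ≤ m0 → |j| ≤ m0 →
      d (u ^ i * x) (u ^ j * x) ≤ |b i - b j| + 3 * D' := by
    intro i j hi hj
    have h1 := hH (u ^ i * x) P (u ^ j * x) Q
    have h2 := hA4 i hi
    have h3 := hA4 j hj
    have e1 := hd.symm (u ^ i * x) P
    have e2 := hd.symm (u ^ j * x) Q
    have e3 := hd.symm (u ^ i * x) Q
    have h4 := le_abs_self (b i - b j)
    have h5 := neg_le_abs (b i - b j)
    rw [hb, hb] at h4 h5 ⊢
    unfold gp at h2 h3
    omega
  have hb0 : b 0 = 0 := by rw [hb]; simp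
  have hx0 : ∀ j : ℤ, d (u ^ j * x) (u ^ (0 : ℤ) * x) = d x (u ^ j * x) := fun j => by
    rw [zpow_zero, one_mul, hd.symm]
  have hmm0 : m ≤ m0 := by omega
  have h1m : |b 1| ≤ L' + D' := by
    have h1 := ab_mult b D' m0 hadd 1 m hm (by omega)
    have h2 := hlow m 0
    rw [hx0, hb0, sub_zero] at h2
    have h3 := h2.trans hA3m
    simp only [mul_one, Nat.cast_one] at h1
    rw [abs_le] at h1 h3 ⊢
    have hm' : (0 : ℤ) < m := by exact_mod_cast hm
    constructor
    · by_contra hcon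
      push Not at hcon
      have : b 1 + 1 ≤ -((L' : ℤ) + D') := by omega
      nlinarith
    · by_contra hcon
      push Not at hcon
      have : (L' : ℤ) + D' + 1 ≤ b 1 := by omega
      nlinarith
  have hr' : (0 : ℤ) < r := by exact_mod_cast hr
  have hbig : ∀ j : ℕ, J0 ≤ j → j ≤ m0 → (L' : ℤ) + 7 * D' + 1 ≤ |b j| := by
    intro j hj1 hj2
    have h1 := hlox x j
    have h2 := hup j 0 (by rw [abs_of_nonneg (by positivity)]; exact_mod_cast hj2) (by simp)
    rw [hx0, hb0, sub_zero, zpow_natCast] at h2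
    have h3 : (r : ℤ) * (L' + 10 * D' + 1) ≤ r * (|b j| + 3 * D') := by
      calc (r : ℤ) * (L' + 10 * D' + 1) = (J0 : ℤ) := by rw [hJ0]; push_cast; ring
        _ ≤ j := by exact_mod_cast hj1
        _ ≤ r * d x (u ^ j * x) := h1
        _ ≤ r * (|b j| + 3 * D') := mul_le_mul_of_nonneg_left h2 hr'.le
    have h4 := le_of_mul_le_mul_left h3 hr'
    omega
  -- the sign
  obtain ⟨s, hs, hsign⟩ : ∃ s : ℤ, (s = 1 ∨ s = -1) ∧ ∀ j : ℕ, j ≤ m0 → -(D' : ℤ) ≤ s * b j := by
    have hJJ : J0 * J0 ≤ m0 := by omega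
    have hne : b J0 ≠ 0 := by
      intro h0
      have := hbig J0 le_rfl hJ0m
      rw [h0] at this
      simp at this
      omega
    rcases lt_or_gt_of_ne hne with h | h
    · refine ⟨-1, Or.inr rfl, ?_⟩
      have := ab_sign (fun j => - b j) D' L' (by positivity) (by positivity) m0 J0
        (fun i j hi hj hij => by
          have := hadd i j hi hj hij
          rw [abs_le] at this ⊢
          constructor <;> omega)
        (by simpa using h1m) (fun j h1 h2 => by simpa using hbig j h1 h2) hJ01 hJJ (by simpa using h)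
      intro j hj
      have := this j hj
      simpa using this
    · refine ⟨1, Or.inl rfl, ?_⟩
      have := ab_sign b D' L' (by positivity) (by positivity) m0 J0 hadd h1m hbig hJ01 hJJ h
      intro j hj
      rw [one_mul]
      exact this j hj
  -- local alignment at `x`
  have hF6 : ∀ i j : ℤ, 0 ≤ i → 0 ≤ j → i ≤ J → j ≤ J →
      d x (u ^ (-i) * x) + d x (u ^ j * x) - d (u ^ (-i) * x) (u ^ j * x) ≤ 12 * D' := by
    intro i j hi hj hiJ hjJ
    have h1 := hsign i.toNat (by omega)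
    have h2 := hsign j.toNat (by omega)
    rw [Int.toNat_of_nonneg hi] at h1
    rw [Int.toNat_of_nonneg hj] at h2
    have h3 := hadd i (-i) (by rw [abs_of_nonneg hi]; omega) (by rw [abs_neg, abs_of_nonneg hi]; omega)
      (by simp)
    rw [add_neg_cancel, hb0] at h3
    have h4 := hup (-i) 0 (by rw [abs_neg, abs_of_nonneg hi]; omega) (by simp)
    have h5 := hup j 0 (by rw [abs_of_nonneg hj]; omega) (by simp)
    rw [hx0, hb0, sub_zero] at h4 h5
    have h6 := hlow (-i) j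
    rw [abs_le] at h3
    have h7 := le_abs_self (b (-i) - b j)
    have h8 := neg_le_abs (b (-i) - b j)
    rcases hs with rfl | rfl
    · rcases abs_cases (b (-i)) with h9 | h9 <;> rcases abs_cases (b j) with h10 | h10 <;> omega
    · rcases abs_cases (b (-i)) with h9 | h9 <;> rcases abs_cases (b j) with h10 | h10 <;> omega
  have hstep : d x (u * x) ≤ L' + 4 * D' := by
    have h1 := hup 1 0 (by rw [abs_one]; exact_mod_cast (by omega)) (by simp)
    rw [hx0, hb0, sub_zero, zpow_one] at h1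
    omega
  refine ⟨x, hstep, ab_twoside hd hH (fun i : ℤ => u ^ i * x) J J hJ1 le_rfl ?_ ?_⟩
  · intro i j k hij hjk hji hkj
    have h1 := hF6 (j - i) (k - j) (by omega) (by omega) hji hkj
    have e1 : d (u ^ i * x) (u ^ j * x) = d x (u ^ (-(j - i)) * x) := by
      rw [hd.symm, ab_shift hl]; congr 3; ring
    have e2 : d (u ^ k * x) (u ^ j * x) = d x (u ^ (k - j) * x) := by
      rw [hd.symm, ab_shift hl]
    have e3 : d (u ^ i * x) (u ^ k * x) = d (u ^ (-(j - i)) * x) (u ^ (k - j) * x) := by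
      rw [ab_shift hl, ab_shift hl]; congr 3; ring
    unfold gp
    rw [e1, e2, e3]
    exact h1
  · intro i
    have e1 : d (u ^ i * x) (u ^ (i + (J : ℤ)) * x) = d x (u ^ J * x) := by
      rw [ab_shift hl]
      have : i + (J : ℤ) - i = J := by ring
      rw [this, zpow_natCast]
    have h1 := hlox x J
    change 20 * (D' : ℤ) + 1 ≤ d (u ^ i * x) (u ^ (i + (J : ℤ)) * x)
    rw [e1]
    have h3 : (r : ℤ) * (20 * D' + 1) ≤ r * d x (u ^ J * x) := by
      calc (r : ℤ) * (20 * D' + 1) = (J : ℤ) := by rw [hJ]; push_cast; ring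
        _ ≤ r * d x (u ^ J * x) := h1
    exact le_of_mul_le_mul_left h3 hr'

end Pool.Agent.Burnside
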