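import Mathlib

/-!
Avoiding finitely many residues.
-/

namespace Pool.Agent.Burnside

theorem exists_avoid (m : ℕ → ℤ) (k : ℕ) (n C : ℤ) (hC : 0 ≤ C)
    (hn : 8 * (k + 2) * (2 * C + 1) ≤ n) :
    ∃ θ : ℤ, n ≤ 4 * θ ∧ 4 * θ ≤ 3 * n ∧ ∀ i < k, ∀ l : ℤ, C < |m i + l * n - θ| := by
  by_contra hcon
  push Not at hcon
  obtain ⟨c, hc⟩ : ∃ c, c = 2 * C + 1 := ⟨_, rfl⟩
  rw [← hc] at hn
  have hn' : 8 * (k * c) + 16 * c ≤ n := by linarith
  have key : ∀ s : Fin (k + 1), ∃ i : Fin k, ∃ l : ℤ,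
      |m i + l * n - ((n + 3) / 4 + (s : ℕ) * c)| ≤ C := by
    intro s
    have hs : ((s : ℕ) : ℤ) ≤ k := by have := s.2; omega
    have h1 : ((s : ℕ) : ℤ) * c ≤ k * c := mul_le_mul_of_nonneg_right hs (by omega)
    have h0 : 0 ≤ ((s : ℕ) : ℤ) * c := mul_nonneg (by positivity) (by omega)
    obtain ⟨i, hi, l, hl⟩ := hcon ((n + 3) / 4 + (s : ℕ) * c) (by omega) (by omega)
    exact ⟨⟨i, hi⟩, l, hl⟩
  choose f l hl using key
  obtain ⟨s, s', hne, hff⟩ := Fintype.exists_ne_map_eq_of_card_lt f (by simp)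
  wlog hlt : s < s' generalizing s s'
  · exact this s' s hne.symm hff.symm (lt_of_le_of_ne (not_lt.1 hlt) hne.symm)
  have h1 := abs_le.1 (hl s)
  have h2 := abs_le.1 (hl s')
  rw [hff] at h1
  have hs1 : ((s : ℕ) : ℤ) + 1 ≤ (s' : ℕ) := by
    have : (s : ℕ) < (s' : ℕ) := hlt
    omega
  have hs2 : ((s' : ℕ) : ℤ) ≤ k := by have := s'.2; omega
  have hs0 : (0 : ℤ) ≤ (s : ℕ) := by positivity
  have hcc : 0 < c := by omega
  have a1 : (((s : ℕ) : ℤ) + 1) * c ≤ (s' : ℕ) * c := mul_le_mul_of_nonneg_right hs1 hcc.le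
  have a2 : ((s' : ℕ) : ℤ) * c ≤ k * c := mul_le_mul_of_nonneg_right hs2 hcc.le
  have a3 : 0 ≤ ((s : ℕ) : ℤ) * c := mul_nonneg hs0 hcc.le
  have a4 : (((s : ℕ) : ℤ) + 1) * c = (s : ℕ) * c + c := by ring
  rw [a4] at a1
  have hdiff : (l s' - l s) * n = l s' * n - l s * n := by ring
  rcases lt_trichotomy (l s' - l s) 0 with h | h | h
  · have : (l s' - l s) * n ≤ (-1) * n := mul_le_mul_of_nonneg_right (by omega) (by omega)
    omega
  · rw [h, zero_mul] at hdiff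
    omega
  · have : 1 * n ≤ (l s' - l s) * n := mul_le_mul_of_nonneg_right (by omega) (by omega)
    omega

end Pool.Agent.Burnside
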