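import Pool.Agent.Burnside.Central

/-!
The equivariant system of axes of short loxodromic elements.
-/

namespace Pool.Agent.Burnside

variable {G : Type*} [Group G] {d : G → G → ℤ} {n : ℕ} {R κ a : ℤ}

/-- Generators of centralisers of short loxodromic elements. -/
def Prm (n : ℕ) (d : G → G → ℤ) : Set G :=
  {h | h ^ n ≠ 1 ∧ (∀ g, g * h = h * g → g ∈ Subgroup.zpowers h) ∧
    ∃ m : ℕ, 0 < m ∧ ∃ x, d x (h ^ m * x) ≤ 100}

theorem Prm.conj (hl : LInv d) {h : G} (hh : h ∈ Prm n d) (g : G) : g * h * g⁻¹ ∈ Prm n d := by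
  obtain ⟨h1, h2, m, hm, x, hx⟩ := hh
  refine ⟨?_, ?_, m, hm, g * x, ?_⟩
  · rw [conj_pow]
    intro h3
    apply h1
    have : g * h ^ n * g⁻¹ = g * g⁻¹ := by rw [h3, mul_inv_cancel]
    simpa using this
  · intro t ht
    have h3 : (g⁻¹ * t * g) * h = h * (g⁻¹ * t * g) := by
      have : g⁻¹ * (t * (g * h * g⁻¹)) * g = g⁻¹ * ((g * h * g⁻¹) * t) * g := by rw [ht]
      simpa [mul_assoc] using this
    obtain ⟨k, hk⟩ := Subgroup.mem_zpowers_iff.1 (h2 _ h3)
    refine Subgroup.mem_zpowers_iff.2 ⟨k, ?_⟩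
    rw [conj_zpow, hk]
    group
  · rw [conj_pow]
    have : g * h ^ m * g⁻¹ * (g * x) = g * (h ^ m * x) := by group
    rw [this, hl]
    exact hx

theorem Prm.inv (hM : IsMet d) (hl : LInv d) {h : G} (hh : h ∈ Prm n d) : h⁻¹ ∈ Prm n d := by
  obtain ⟨h1, h2, m, hm, x, hx⟩ := hh
  refine ⟨?_, ?_, m, hm, x, ?_⟩
  · rw [inv_pow]
    simpa using h1
  · intro t ht
    rw [Subgroup.zpowers_inv]
    apply h2
    have : Commute t h⁻¹ := ht
    exact (Commute.inv_right_iff.1 this).eq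
  · rw [inv_pow, hl.inv_right, hM.symm]
    exact hx

/-- No element inverts a loxodromic element of `Prm`. -/
theorem Prm.not_conj_inv (I : Inv n R κ a 3 d) (hn : Odd n) {h : G} (hh : h ∈ Prm n d) (g : G) :
    g * h * g⁻¹ ≠ h⁻¹ := by
  intro hg
  have hM := I.met
  have hl := I.left
  have hlox := I.lox' hh.1
  have h1 : g ^ 2 * h = h * g ^ 2 := by
    have e1 : g * h = h⁻¹ * g := by rw [← hg]; group
    have e2 : g * h⁻¹ = h * g := by
      have t : g * h⁻¹ * g⁻¹ = h := by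
        calc g * h⁻¹ * g⁻¹ = (g * h * g⁻¹)⁻¹ := by group
          _ = h := by rw [hg, inv_inv]
      calc g * h⁻¹ = (g * h⁻¹ * g⁻¹) * g := by group
        _ = h * g := by rw [t]
    rw [pow_two, mul_assoc, e1, ← mul_assoc, e2, mul_assoc]
  obtain ⟨k, hk⟩ := Subgroup.mem_zpowers_iff.1 (hh.2.1 _ h1)
  have h2 : h ^ (2 * k) = 1 := by
    have e : g * h ^ k * g⁻¹ = h ^ (-k) := by
      rw [← conj_zpow, hg, inv_zpow, zpow_neg]
    have e' : g * h ^ k * g⁻¹ = h ^ k := by
      rw [hk]; group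
    rw [e'] at e
    have : h ^ k * h ^ k = 1 := by
      nth_rewrite 2 [e]
      rw [← zpow_add]; simp
    rw [two_mul, zpow_add]
    exact this
  have hk0 : k = 0 := by
    by_contra hne
    exact hlox.zpow_ne_one hM hl (m := 2 * k) (by omega) h2
  have hg2 : g ^ 2 = 1 := by rw [← hk, hk0, zpow_zero]
  have hgn : g ^ n = 1 := by
    rcases I.lox g with h3 | h3
    · exact h3
    · exact absurd hg2 (h3.ne_one hM (by norm_num))
  obtain ⟨r, hr⟩ := hn
  have hg1 : g = 1 := by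
    rw [hr, pow_add, pow_mul, hg2, one_pow, one_mul, pow_one] at hgn
    exact hgn
  rw [hg1] at hg
  have : h ^ 2 = 1 := by
    have h4 : h = h⁻¹ := by simpa using hg
    rw [pow_two]
    nth_rewrite 2 [h4]
    exact mul_inv_cancel h
  exact hlox.ne_one hM (by norm_num) this

omit [Group G] in
theorem exists_near (hM : IsMet d) (q : ℤ → G) (z : G) : ∃ i, Near d q z i := by
  classical
  have hex : ∃ k : ℕ, ∃ i, d z (q i) = k := ⟨(d z (q 0)).toNat, 0, by
    have := hM.nonneg z (q 0); omega⟩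
  obtain ⟨i, hi⟩ := Nat.find_spec hex
  refine ⟨i, fun j => ?_⟩
  rw [hi]
  have h1 := Nat.find_min' hex (m := (d z (q j)).toNat) ⟨j, by
    have := hM.nonneg z (q j); omega⟩
  have := hM.nonneg z (q j)
  omega

theorem exists_least_near (hM : IsMet d) (hl : LInv d) {u b : G} (hlox : Lox d R u)
    (z : G) : ∃ i, Near d (fun i : ℤ => u ^ i * b) z i ∧
      ∀ j, Near d (fun i : ℤ => u ^ i * b) z j → i ≤ j := by
  have hR := hlox.pos hM
  obtain ⟨i₀, hi₀⟩ := exists_near hM (fun i : ℤ => u ^ i * b) z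
  refine Int.exists_least_of_bdd ⟨-(R * (2 * d z b)), fun j hj => ?_⟩ ⟨i₀, hi₀⟩
  have h1 := hj 0
  simp only [zpow_zero, one_mul] at h1
  have h2 := hlox.zpow hM hl b j
  have h3 := hM.tri b z (u ^ j * b)
  have h4 := hM.symm b z
  have h5 : R * d b (u ^ j * b) ≤ R * (2 * d z b) :=
    mul_le_mul_of_nonneg_left (by linarith) hR.le
  have := neg_abs_le j
  linarith

/-- The axis system. -/
structure AxSys (n : ℕ) (d : G → G → ℤ) (P : Set G) (b : G → G) (p : G → G → ℤ) : Prop where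
  conj : ∀ h ∈ P, ∀ g, g * h * g⁻¹ ∈ P
  noninv : ∀ h ∈ P, h⁻¹ ∉ P
  prm : ∀ h ∈ P, h ∈ Prm n d
  all : ∀ u : G, u ^ n ≠ 1 → ∀ x, d x (u * x) ≤ 100 → ∃ h ∈ P, u ∈ Subgroup.zpowers h
  base : ∀ h ∈ P, Base d h (b h)
  near : ∀ h ∈ P, ∀ z, Near d (fun i : ℤ => h ^ i * b h) z (p h z)
  shift : ∀ h ∈ P, ∀ z, p h (h * z) = p h z + 1
  equiv : ∀ h ∈ P, ∀ g x y, p (g * h * g⁻¹) (g * x) - p (g * h * g⁻¹) (g * y) = p h x - p h y
  Oequiv : ∀ h ∈ P, ∀ g, ∃ k : ℤ, g * b h = (g * h * g⁻¹) ^ k * b (g * h * g⁻¹)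

theorem exists_axSys (I : Inv n R κ a 3 d) (hn : Odd n) (hκ : 1000 ≤ κ) :
    ∃ P b p, AxSys (G := G) n d P b p := by
  classical
  have hM := I.met
  have hl := I.left
  have hn0 : 0 < n := hn.pos
  -- bases for elements of Prm
  have hb0 : ∀ h : G, ∃ b, h ∈ Prm n d → Base d h b := by
    intro h
    by_cases hh : h ∈ Prm n d
    · obtain ⟨h1, h2, m, hm, x, hx⟩ := hh
      obtain ⟨b, hb⟩ := exists_base I h1 hm hx
      exact ⟨b, fun _ => hb⟩
    · exact ⟨1, fun h1 => absurd h1 hh⟩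
  choose b₀ hb₀ using hb0
  have hp0 : ∀ h z : G, ∃ i : ℤ, h ∈ Prm n d → (Near d (fun i : ℤ => h ^ i * b₀ h) z i ∧
      ∀ j, Near d (fun i : ℤ => h ^ i * b₀ h) z j → i ≤ j) := by
    intro h z
    by_cases hh : h ∈ Prm n d
    · obtain ⟨i, hi⟩ := exists_least_near hM hl (I.lox' hh.1) (b := b₀ h) z
      exact ⟨i, fun _ => hi⟩
    · exact ⟨0, fun h1 => absurd h1 hh⟩
  choose p₀ hp₀ using hp0
  have hshift0 : ∀ h ∈ Prm n d, ∀ z, p₀ h (h * z) = p₀ h z + 1 := by
    intro h hh z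
    have key : ∀ z i, Near d (fun i : ℤ => h ^ i * b₀ h) z i ↔
        Near d (fun i : ℤ => h ^ i * b₀ h) (h * z) (i + 1) := by
      intro z i
      have e : ∀ j : ℤ, d (h * z) (h ^ (j + 1) * b₀ h) = d z (h ^ j * b₀ h) := by
        intro j
        rw [← hl h z (h ^ j * b₀ h)]
        congr 1
        rw [← mul_assoc, ← zpow_one_add, add_comm]
      constructor
      · intro hi j
        have := hi (j - 1)
        simp only at this ⊢
        rw [e i]
        have e2 := e (j - 1)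
        rw [sub_add_cancel] at e2
        rw [e2]
        exact this
      · intro hi j
        have := hi (j + 1)
        simp only at this ⊢
        rw [e, e] at this
        exact this
    have h1 := hp₀ h z hh
    have h2 := hp₀ h (h * z) hh
    apply le_antisymm
    · exact h2.2 _ ((key z _).1 h1.1)
    · have h3 : Near d (fun i : ℤ => h ^ i * b₀ h) z (p₀ h (h * z) - 1) := by
        rw [key]
        simpa using h2.1
      have := h1.2 _ h3
      omega
  have hshiftk : ∀ h ∈ Prm n d, ∀ (k : ℤ) z, p₀ h (h ^ k * z) = p₀ h z + k := by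
    intro h hh k
    induction k with
    | zero => intro z; simp
    | succ k ih =>
      intro z
      rw [zpow_add_one, mul_assoc, ih, hshift0 h hh]
      ring
    | pred k ih =>
      intro z
      have := hshift0 h hh (h ^ (-(k : ℤ) - 1) * z)
      rw [← mul_assoc, ← zpow_one_add] at this
      have e : 1 + (-(k : ℤ) - 1) = -k := by ring
      rw [e, ih] at this
      omega
  -- representatives
  set rep : G → G := fun h => Quotient.out (ConjClasses.mk h) with hrep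
  have hrepc : ∀ h, ConjClasses.mk (rep h) = ConjClasses.mk h := fun h => by
    exact Quotient.out_eq (ConjClasses.mk h)
  have hγ : ∀ h, ∃ g, g * rep h * g⁻¹ = h := fun h =>
    isConj_iff.1 (ConjClasses.mk_eq_mk_iff_isConj.1 (hrepc h))
  choose γ hγ using hγ
  have hrepP : ∀ h ∈ Prm n d, rep h ∈ Prm n d := by
    intro h hh
    have h1 : rep h = (γ h)⁻¹ * h * (γ h)⁻¹⁻¹ := by
      calc rep h = (γ h)⁻¹ * (γ h * rep h * (γ h)⁻¹) * (γ h)⁻¹⁻¹ := by group
        _ = _ := by rw [hγ]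
    rw [h1]
    exact Prm.conj hl hh _
  have hmk : ∀ g h : G, ConjClasses.mk (g * h * g⁻¹) = ConjClasses.mk h := fun g h => by
    rw [ConjClasses.mk_eq_mk_iff_isConj]
    exact (isConj_iff.2 ⟨g, rfl⟩ : IsConj h (g * h * g⁻¹)).symm
  set P : Set G := {h | h ∈ Prm n d ∧
    WellOrderingRel (ConjClasses.mk h) (ConjClasses.mk h⁻¹)} with hP
  have hrepg : ∀ g h : G, rep (g * h * g⁻¹) = rep h := fun g h => by
    rw [hrep]; simp only; rw [hmk]
  -- the key relation between the choices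
  have hkey : ∀ h ∈ Prm n d, ∀ g, ∃ k : ℤ, g * γ h = γ (g * h * g⁻¹) * rep h ^ k := by
    intro h hh g
    have h1 := hγ (g * h * g⁻¹)
    rw [hrepg] at h1
    have h2 := hγ h
    have h3 : (γ (g * h * g⁻¹))⁻¹ * g * γ h * rep h = rep h * ((γ (g * h * g⁻¹))⁻¹ * g * γ h) := by
      have e1 : g * γ h * rep h = (g * h * g⁻¹) * (g * γ h) := by
        nth_rewrite 3 [← h2]
        group
      have e2 : (γ (g * h * g⁻¹))⁻¹ * (g * h * g⁻¹) = rep h * (γ (g * h * g⁻¹))⁻¹ := by
        nth_rewrite 2 [← h1]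
        group
      calc (γ (g * h * g⁻¹))⁻¹ * g * γ h * rep h
          = (γ (g * h * g⁻¹))⁻¹ * (g * γ h * rep h) := by group
        _ = ((γ (g * h * g⁻¹))⁻¹ * (g * h * g⁻¹)) * (g * γ h) := by rw [e1]; group
        _ = _ := by rw [e2]; group
    obtain ⟨k, hk⟩ := Subgroup.mem_zpowers_iff.1 ((hrepP h hh).2.1 _ h3)
    refine ⟨k, ?_⟩
    rw [hk]
    group
  refine ⟨P, fun h => γ h * b₀ (rep h), fun h z => p₀ (rep h) ((γ h)⁻¹ * z), ?_, ?_, ?_, ?_, ?_,
    ?_, ?_, ?_, ?_⟩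
  · intro h hh g
    refine ⟨Prm.conj hl hh.1 g, ?_⟩
    have e : (g * h * g⁻¹)⁻¹ = g * h⁻¹ * g⁻¹ := by group
    rw [e, hmk, hmk]
    exact hh.2
  · intro h hh hi
    have h1 := hh.2
    have h2 := hi.2
    rw [inv_inv] at h2
    exact asymm_of WellOrderingRel h1 h2
  · exact fun h hh => hh.1
  · intro u hu x hx
    obtain ⟨b, hb⟩ := exists_base I hu (m := 1) (x := x) (by norm_num) (by simpa using hx)
    obtain ⟨h, h1, h2, h3⟩ := central_cyclic I hn0 hκ hu hb
    obtain ⟨j, hj⟩ := Subgroup.mem_zpowers_iff.1 h1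
    have hu1 : u ≠ 1 := fun h => hu (by rw [h, one_pow])
    have hj0 : j ≠ 0 := by
      intro h0
      rw [h0, zpow_zero] at hj
      exact hu1 hj.symm
    have hPrm : h ∈ Prm n d := by
      refine ⟨?_, ?_, j.natAbs, Int.natAbs_pos.2 hj0, x, ?_⟩
      · intro h4
        have := central_torsion I hn0 hκ hu hb h2 h4
        rw [this, one_zpow] at hj
        exact hu1 hj.symm
      · intro g hg
        apply h3
        rw [← hj]
        exact ((show Commute g h from hg).zpow_right j).eq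
      · rcases Int.natAbs_eq j with h4 | h4
        · rw [← zpow_natCast, ← h4, hj]; exact hx
        · have : h ^ j.natAbs = u⁻¹ := by
            rw [← hj, ← zpow_natCast, ← zpow_neg]
            congr 1
            omega
          rw [this, hl.inv_right, hM.symm]
          exact hx
    have hne : ConjClasses.mk h ≠ ConjClasses.mk h⁻¹ := by
      intro h4
      obtain ⟨g, hg⟩ := isConj_iff.1 (ConjClasses.mk_eq_mk_iff_isConj.1 h4)
      exact Prm.not_conj_inv I hn hPrm g hg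
    rcases trichotomous_of WellOrderingRel (ConjClasses.mk h) (ConjClasses.mk h⁻¹) with h4 | h4 | h4
    · exact ⟨h, ⟨hPrm, h4⟩, h1⟩
    · exact absurd h4 hne
    · refine ⟨h⁻¹, ⟨Prm.inv hM hl hPrm, ?_⟩, ?_⟩
      · rw [inv_inv]; exact h4
      · rw [Subgroup.zpowers_inv]; exact h1
  · intro h hh
    have hb := hb₀ (rep h) (hrepP h hh.1)
    have e : ∀ i : ℤ, h ^ i * (γ h * b₀ (rep h)) = γ h * (rep h ^ i * b₀ (rep h)) := by
      intro i
      conv_lhs => rw [← hγ h, conj_zpow]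
      rw [hγ h]
      group
    refine ⟨?_, ?_⟩
    · have := e 1
      rw [zpow_one, zpow_one] at this
      rw [this, hl]
      exact hb.step
    · have : (fun i : ℤ => h ^ i * (γ h * b₀ (rep h))) =
          fun i : ℤ => γ h * (rep h ^ i * b₀ (rep h)) := funext e
      rw [this]
      intro i j k hij hjk
      rw [gp_left hl]
      exact hb.al i j k hij hjk
  · intro h hh z j
    have h1 := (hp₀ (rep h) ((γ h)⁻¹ * z) (hrepP h hh.1)).1 j
    have e : ∀ i : ℤ, h ^ i * (γ h * b₀ (rep h)) = γ h * (rep h ^ i * b₀ (rep h)) := by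
      intro i
      conv_lhs => rw [← hγ h, conj_zpow]
      rw [hγ h]
      group
    simp only at h1 ⊢
    rw [hl.inv_left, hl.inv_left] at h1
    rw [e, e]
    exact h1
  · intro h hh z
    have e : (γ h)⁻¹ * (h * z) = rep h * ((γ h)⁻¹ * z) := by
      nth_rewrite 2 [← hγ h]
      group
    rw [e]
    exact hshift0 _ (hrepP h hh.1) _
  · intro h hh g x y
    obtain ⟨k, hk⟩ := hkey h hh.1 g
    have e : ∀ x, (γ (g * h * g⁻¹))⁻¹ * (g * x) = rep h ^ k * ((γ h)⁻¹ * x) := by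
      intro x
      have : g = γ (g * h * g⁻¹) * rep h ^ k * (γ h)⁻¹ := by rw [← hk]; group
      calc (γ (g * h * g⁻¹))⁻¹ * (g * x) = (γ (g * h * g⁻¹))⁻¹ * (g * γ h) * ((γ h)⁻¹ * x) := by group
        _ = _ := by rw [hk]; group
    rw [hrepg, e, e, hshiftk _ (hrepP h hh.1), hshiftk _ (hrepP h hh.1)]
    ring
  · intro h hh g
    obtain ⟨k, hk⟩ := hkey h hh.1 g
    refine ⟨k, ?_⟩
    rw [hrepg, ← mul_assoc, hk]
    have h1 := hγ (g * h * g⁻¹)
    rw [hrepg] at h1
    have e : (g * h * g⁻¹) ^ k = γ (g * h * g⁻¹) * rep h ^ k * (γ (g * h * g⁻¹))⁻¹ := by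
      rw [← conj_zpow, h1]
    rw [e]
    group

end Pool.Agent.Burnside
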