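import Mathlib

/-!
Integer valued geodesic metrics, doubled Gromov products, four point hyperbolicity, and
aligned sequences (discrete quasi-geodesics with bounded Gromov products).
-/

namespace Pool.Agent.Burnside

variable {V : Type*}

/-- An integer valued geodesic metric. -/
structure IsMet (d : V → V → ℤ) : Prop where
  self : ∀ x, d x x = 0
  sep : ∀ x y, d x y = 0 → x = y
  symm : ∀ x y, d x y = d y x
  tri : ∀ x y z, d x z ≤ d x y + d y z
  geo : ∀ x y t, 0 ≤ t → t ≤ d x y → ∃ z, d x z = t ∧ d z y = d x y - t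

/-- Four point hyperbolicity. -/
def Hyp (D : ℤ) (d : V → V → ℤ) : Prop :=
  ∀ x y z w, d x z + d y w ≤ max (d x y + d z w) (d x w + d y z) + D

/-- Doubled Gromov product of `x` and `y` based at `z`. -/
def gp (d : V → V → ℤ) (x y z : V) : ℤ := d x z + d y z - d x y

theorem IsMet.nonneg {d : V → V → ℤ} (h : IsMet d) (x y : V) : 0 ≤ d x y := by
  have h1 := h.self x
  have h2 := h.tri x y x
  have h3 := h.symm x y
  omega

theorem IsMet.pos {d : V → V → ℤ} (h : IsMet d) {x y : V} (hxy : x ≠ y) : 1 ≤ d x y := by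
  have h1 := h.nonneg x y
  rcases eq_or_lt_of_le h1 with h2 | h2
  · exact absurd (h.sep x y h2.symm) hxy
  · omega

theorem gp_symm {d : V → V → ℤ} (h : IsMet d) (x y z : V) : gp d x y z = gp d y x z := by
  unfold gp
  have := h.symm x y
  omega

theorem gp_nonneg {d : V → V → ℤ} (h : IsMet d) (x y z : V) : 0 ≤ gp d x y z := by
  unfold gp
  have h1 := h.tri x z y
  have h2 := h.symm z y
  omega

theorem Hyp.nonneg {D : ℤ} {d : V → V → ℤ} (h : IsMet d) (hH : Hyp D d) (z : V) : 0 ≤ D := by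
  have := hH z z z z
  simp only [h.self] at this
  omega

/-- The Gromov product form of hyperbolicity. -/
theorem Hyp.gp_ge {D : ℤ} {d : V → V → ℤ} (h : IsMet d) (hH : Hyp D d) (x y z w : V) :
    min (gp d x z w) (gp d z y w) - D ≤ gp d x y w := by
  have h1 := hH x z y w
  have e1 := h.symm x w
  have e2 := h.symm y w
  have e3 := h.symm z w
  have e4 := h.symm z y
  have e5 := h.symm x z
  have e6 := h.symm x y
  unfold gp
  omega

/-- A point of small Gromov product is close to everything in between. -/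
theorem Hyp.near_pt {D : ℤ} {d : V → V → ℤ} (h : IsMet d) (hH : Hyp D d) {x y z : V} {c : ℤ}
    (hz : gp d x y z ≤ c) (w : V) :
    d w z ≤ max (d w x - d x z) (d w y - d y z) + D + c := by
  have h1 := hH x z y w
  have e1 := h.symm x w
  have e2 := h.symm y w
  have e3 := h.symm z w
  have e4 := h.symm z y
  unfold gp at hz
  omega

/-- Aligned sequence. -/
def Al (d : V → V → ℤ) (C : ℤ) (q : ℤ → V) : Prop :=
  ∀ i j k, i ≤ j → j ≤ k → gp d (q i) (q k) (q j) ≤ C

/-- Bounded steps. -/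
def Stp (d : V → V → ℤ) (L : ℤ) (q : ℤ → V) : Prop := ∀ i, d (q i) (q (i + 1)) ≤ L

/-- `q i` is a nearest point to `z` on the sequence `q`. -/
def Near (d : V → V → ℤ) (q : ℤ → V) (z : V) (i : ℤ) : Prop := ∀ k, d z (q i) ≤ d z (q k)

/-- Discrete intermediate value: a function with increments at most `L`. -/
theorem exists_step {f : ℤ → ℤ} {L : ℤ} (hL : ∀ i, f (i + 1) ≤ f i + L) {a b t : ℤ}
    (hab : a ≤ b) (ha : f a ≤ t) (hb : t ≤ f b) :
    ∃ k, a ≤ k ∧ k ≤ b ∧ t - L ≤ f k ∧ f k ≤ t ∨ (k = b ∧ f b = t) := by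
  obtain ⟨n, rfl⟩ : ∃ n : ℕ, b = a + n := ⟨(b - a).toNat, by omega⟩
  clear hab
  induction n with
  | zero =>
    refine ⟨a, Or.inr ⟨by simp, ?_⟩⟩
    simp at hb ⊢; omega
  | succ n ih =>
    by_cases h : t ≤ f (a + n)
    · obtain ⟨k, hk⟩ := ih h
      rcases hk with hk | hk
      · exact ⟨k, Or.inl (by push_cast; omega)⟩
      · refine ⟨a + n, Or.inl ?_⟩
        by_cases hL0 : 0 ≤ L
        · push_cast; omega
        · exfalso
          have := hL (a + n)
          push_cast at hb
          have e : a + ((n : ℤ) + 1) = a + n + 1 := by ring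
          rw [e] at hb
          omega
    · have := hL (a + n)
      push_cast at hb
      have e : a + ((n : ℤ) + 1) = a + n + 1 := by ring
      rw [e] at hb
      refine ⟨a + n, Or.inl ?_⟩
      push_cast
      omega

/-- Version with both monotone directions of time. -/
theorem exists_step' {f : ℤ → ℤ} {L : ℤ} (hL0 : 0 ≤ L) (hL : ∀ i, f (i + 1) ≤ f i + L)
    {a b t : ℤ} (hab : a ≤ b) (ha : f a ≤ t) (hb : t ≤ f b) :
    ∃ k, a ≤ k ∧ k ≤ b ∧ t - L ≤ f k ∧ f k ≤ t := by
  obtain ⟨k, hk | ⟨rfl, hk⟩⟩ := exists_step hL hab ha hb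
  · exact ⟨k, hk⟩
  · exact ⟨k, hab, le_refl _, by omega, by omega⟩

/-- If `y` has small Gromov product with respect to two points of an aligned sequence then it
is close to the sequence in between. -/
theorem exists_near_between {D C L c : ℤ} {d : V → V → ℤ} (h : IsMet d) (hH : Hyp D d)
    {q : ℤ → V} (hq : Al d C q) (hs : Stp d L q) {a b : ℤ} (hab : a ≤ b) {y : V}
    (hy : gp d (q a) (q b) y ≤ c) :
    ∃ k, a ≤ k ∧ k ≤ b ∧ d y (q k) ≤ max L c + D + C := by
  have hL0 : 0 ≤ L := le_trans (h.nonneg _ _) (hs 0)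
  have hc0 : 0 ≤ c := le_trans (gp_nonneg h _ _ _) hy
  have hinc : ∀ i, d (q a) (q (i + 1)) ≤ d (q a) (q i) + L := fun i => by
    have h1 := h.tri (q a) (q i) (q (i + 1))
    have h2 := hs i
    omega
  by_cases hcase : d (q a) y ≤ d (q a) (q b)
  · obtain ⟨k, hk1, hk2, hk3, hk4⟩ := exists_step' (f := fun i => d (q a) (q i)) hL0 hinc hab
      (t := d (q a) y) (by simp [h.self, h.nonneg]) hcase
    refine ⟨k, hk1, hk2, ?_⟩
    have h1 := hH.near_pt h (hq a k b hk1 hk2) y
    have e1 := h.symm (q a) y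
    have e2 := h.symm (q b) y
    have h2 := h.tri (q a) (q k) (q b)
    have e3 := h.symm (q k) (q b)
    have h3 := hy
    unfold gp at h3
    omega
  · refine ⟨b, hab, le_refl _, ?_⟩
    have h3 := hy
    unfold gp at h3
    have h4 := gp_nonneg h (q a) (q b) (q a)
    have h5 := hq a b b hab (le_refl _)
    have h6 := gp_nonneg h (q a) (q b) (q b)
    have h7 : 0 ≤ C := le_trans h6 h5
    have e1 := h.symm (q b) y
    have hD : 0 ≤ D := hH.nonneg h y
    omega

/-- Projection lemma. -/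
theorem gp_proj {D C L : ℤ} {d : V → V → ℤ} (h : IsMet d) (hH : Hyp D d)
    {q : ℤ → V} (hq : Al d C q) (hs : Stp d L q) {z : V} {i : ℤ} (hi : Near d q z i) (j : ℤ) :
    gp d z (q j) (q i) ≤ 2 * (L + D + C) + 1 := by
  have hL0 : 0 ≤ L := le_trans (h.nonneg _ _) (hs 0)
  have hD : 0 ≤ D := hH.nonneg h z
  have hC0 : 0 ≤ C := le_trans (gp_nonneg h _ _ _) (hq 0 0 0 le_rfl le_rfl)
  by_contra hcon
  push Not at hcon
  -- `m` is half of the product
  obtain ⟨m, hm1, hm2⟩ : ∃ m, 2 * m ≤ gp d z (q j) (q i) ∧ gp d z (q j) (q i) ≤ 2 * m + 1 :=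
    ⟨gp d z (q j) (q i) / 2, by omega, by omega⟩
  have hmj : m ≤ d (q i) (q j) := by
    have h1 := h.tri z (q j) (q i)
    have e := h.symm (q j) (q i)
    unfold gp at hm1
    have h2 := h.nonneg (q i) (q j)
    omega
  have hm0 : 0 ≤ m := by omega
  rcases le_total i j with hij | hij
  · have hinc : ∀ t, d (q i) (q (t + 1)) ≤ d (q i) (q t) + L := fun t => by
      have h1 := h.tri (q i) (q t) (q (t + 1))
      have h2 := hs t
      omega
    obtain ⟨k, hk1, hk2, hk3, hk4⟩ := exists_step' (f := fun t => d (q i) (q t)) hL0 hinc hij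
      (t := m) (by simp [h.self, hm0]) hmj
    have h1 := hH.near_pt h (hq i k j hk1 hk2) z
    have h2 := hi k
    have h3 := h.tri (q i) (q k) (q j)
    have e3 := h.symm (q k) (q j)
    have e4 := h.symm z (q i)
    have e5 := h.symm (q i) (q j)
    unfold gp at hm1 hm2 hcon
    omega
  · have hinc : ∀ t, d (q i) (q (-(t + 1))) ≤ d (q i) (q (-t)) + L := fun t => by
      have h1 := h.tri (q i) (q (-t)) (q (-(t + 1)))
      have h2 := hs (-(t + 1))
      have e : -(t + 1) + 1 = -t := by ring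
      rw [e] at h2
      have e2 := h.symm (q (-t)) (q (-(t + 1)))
      omega
    obtain ⟨k, hk1, hk2, hk3, hk4⟩ := exists_step' (f := fun t => d (q i) (q (-t))) hL0 hinc
      (a := -i) (b := -j) (by omega)
      (t := m) (by simp [h.self, hm0]) (by simpa using hmj)
    have h1 := hH.near_pt h (hq j (-k) i (by omega) (by omega)) z
    have h2 := hi (-k)
    have h3 := h.tri (q i) (q (-k)) (q j)
    have e3 := h.symm (q (-k)) (q j)
    have e4 := h.symm z (q i)
    have e5 := h.symm (q i) (q j)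
    have e6 := h.symm (q i) (q (-k))
    unfold gp at hm1 hm2 hcon
    omega

/-- Three small products along a chain of four points with a long middle segment. -/
theorem gp_chain {D c : ℤ} {d : V → V → ℤ} (h : IsMet d) (hH : Hyp D d) {z x y w : V}
    (h1 : gp d z y x ≤ c) (h2 : gp d x w y ≤ c) (h3 : c + D < d x y) :
    gp d z w x ≤ c + D ∧ gp d z w y ≤ c + D := by
  have hD : 0 ≤ D := hH.nonneg h z
  have a1 := hH.gp_ge h z y w x
  have a2 := hH.gp_ge h x w z y
  have e1 := h.symm x y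
  have e2 := h.symm w y
  have e3 := h.symm w x
  have e4 := h.symm z x
  have e5 := h.symm z y
  have e6 := h.symm z w
  unfold gp at *
  omega

/-- Crossing lemma. -/
theorem crossing {D C L : ℤ} {d : V → V → ℤ} (h : IsMet d) (hH : Hyp D d)
    {q : ℤ → V} (hq : Al d C q) (hs : Stp d L q) {z w : V} {i j : ℤ} (hi : Near d q z i)
    (hj : Near d q w j) (hij : 2 * (L + D + C) + 1 + D < d (q i) (q j)) :
    gp d z w (q i) ≤ 2 * (L + D + C) + 1 + D ∧ gp d z w (q j) ≤ 2 * (L + D + C) + 1 + D ∧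
      d z (q i) + d (q i) (q j) + d (q j) w - (4 * (L + D + C) + 2 + D) ≤ d z w := by
  have h1 := gp_proj h hH hq hs hi j
  have h2 := gp_proj h hH hq hs hj i
  rw [gp_symm h] at h2
  obtain ⟨h3, h4⟩ := gp_chain h hH h1 h2 hij
  refine ⟨h3, h4, ?_⟩
  unfold gp at *
  have e1 := h.symm (q j) w
  have e2 := h.symm w (q i)
  have e3 := h.symm (q i) (q j)
  omega

/-- The projection to an aligned sequence is coarsely Lipschitz. -/
theorem proj_lip {D C L : ℤ} {d : V → V → ℤ} (h : IsMet d) (hH : Hyp D d)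
    {q : ℤ → V} (hq : Al d C q) (hs : Stp d L q) {z w : V} {i j : ℤ} (hi : Near d q z i)
    (hj : Near d q w j) : d (q i) (q j) ≤ d z w + (4 * (L + D + C) + 2 + D) := by
  have hL0 : 0 ≤ L := le_trans (h.nonneg _ _) (hs 0)
  have hC0 : 0 ≤ C := le_trans (gp_nonneg h _ _ _) (hq 0 0 0 le_rfl le_rfl)
  have hD : 0 ≤ D := hH.nonneg h z
  by_cases hc : 2 * (L + D + C) + 1 + D < d (q i) (q j)
  · have h1 := (crossing h hH hq hs hi hj hc).2.2
    have h2 := h.nonneg z (q i)
    have h3 := h.nonneg (q j) w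
    omega
  · have := h.nonneg z w
    omega

end Pool.Agent.Burnside
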