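import Pool.Agent.Burnside.Proj

/-!
Tube lemma, monotonicity of the coordinate along geodesics, and the descent lemma.
-/

namespace Pool.Agent.Burnside

variable {G : Type*} [Group G] {d e : G → G → ℤ} {n : ℕ} {R κ a : ℤ}
variable {P : Set G} {b : G → G} {p : G → G → ℤ}

/-- displacement along the axis -/
theorem ax_dist_le (I : Inv n R κ a 3 d) (S : AxSys n d P b p) {h : G} (hh : h ∈ P) (i j : ℤ) :
    d (ax b h i) (ax b h j) ≤ 112 * |i - j| := by
  have hM := I.met
  have key : ∀ (m : ℕ) (i : ℤ), d (ax b h i) (ax b h (i + m)) ≤ 112 * m := by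
    intro m
    induction m with
    | zero => intro i; simp [hM.self]
    | succ m ih =>
      intro i
      have h1 := hM.tri (ax b h i) (ax b h (i + m)) (ax b h (i + (m + 1 : ℕ)))
      have h2 := ih i
      have h3 := S.hst I hh (i + m)
      have e : i + ((m + 1 : ℕ) : ℤ) = i + m + 1 := by push_cast; ring
      rw [e] at h1 ⊢
      push_cast
      linarith
  rcases le_total i j with hij | hij
  · have h1 := key (j - i).toNat i
    have e : i + ((j - i).toNat : ℤ) = j := by omega
    rw [e] at h1
    have e2 : |i - j| = ((j - i).toNat : ℤ) := by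
      rw [abs_of_nonpos (by omega)]; omega
    rw [e2]; exact h1
  · have h1 := key (i - j).toNat j
    have e : j + ((i - j).toNat : ℤ) = i := by omega
    rw [e] at h1
    have e2 : |i - j| = ((i - j).toNat : ℤ) := by
      rw [abs_of_nonneg (by omega)]; omega
    rw [e2, hM.symm]; exact h1

theorem pr_zpow (I : Inv n R κ a 3 d) (S : AxSys n d P b p) {h : G} (hh : h ∈ P) (k : ℤ) (z : G) :
    pr b p h (h ^ k * z) = h ^ k * pr b p h z := by
  unfold pr ax
  rw [S.shiftk I hh, add_comm, zpow_add, mul_assoc]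

theorem tube (I : Inv n R κ a 3 d) (S : AxSys n d P b p) {h : G} (hh : h ∈ P) {u z : G} {k : ℤ}
    (hu : u = h ^ k) (hk : k ≠ 0) (j : ℕ) (hj : 318 * R < 2 ^ j)
    (hz : gp d (u⁻¹ * z) (u * z) z ≤ 48 ∨ d z (u * z) ≤ 369) :
    d z (pr b p h z) ≤ 161 * j + 1000 := by
  have hM := I.met
  have hl := I.left
  have hR : 0 < R := (S.hlox I hh).pos hM
  set o := pr b p h z with ho
  -- the powers
  have hv : ∀ i : ℕ, u ^ (2 ^ i) = h ^ (k * 2 ^ i) := by
    intro i
    rw [hu, ← zpow_natCast, ← zpow_mul]
    congr 1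
  have hpr : ∀ i : ℕ, pr b p h (u ^ (2 ^ i) * z) = u ^ (2 ^ i) * o := by
    intro i
    rw [hv, pr_zpow I S hh]
  have hsq : ∀ (i : ℕ) (y : G), u ^ (2 ^ (i + 1)) * y = u ^ (2 ^ i) * (u ^ (2 ^ i) * y) := by
    intro i y
    rw [← mul_assoc, ← pow_add]
    congr 2
    ring
  have hδ : ∀ i : ℕ, (2 : ℤ) ^ i ≤ R * d o (u ^ (2 ^ i) * o) := by
    intro i
    have h1 := (S.hlox I hh).zpow hM hl o (k * 2 ^ i)
    rw [← hv] at h1
    have h2 : (2 : ℤ) ^ i ≤ |k * 2 ^ i| := by
      rw [abs_mul, abs_of_pos (by positivity : (0 : ℤ) < 2 ^ i)]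
      have : 1 ≤ |k| := Int.one_le_abs hk
      nlinarith [(by positivity : (0 : ℤ) < 2 ^ i)]
    exact le_trans h2 h1
  -- doubling
  have hdbl : ∀ v : G, d z (v * (v * z)) ≤ d z (v * z) + d o (v * o) + 3 := by
    intro v
    have h1 := I.hyp z (v * z) (v * (v * z)) (v * o)
    have e1 : d (v * z) (v * o) = d z o := hl _ _ _
    have e2 : d (v * (v * z)) (v * o) = d (v * z) o := hl _ _ _
    have e3 : d (v * z) (v * (v * z)) = d z (v * z) := hl _ _ _
    have t1 := hM.tri (v * z) (v * o) o
    have t2 := hM.tri z o (v * o)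
    have s1 := hM.symm (v * o) o
    rw [e1] at h1 t1
    rw [e2, e3] at h1
    omega
  have hcross : ∀ i : ℕ, 318 < d o (u ^ (2 ^ i) * o) →
      2 * d z o + d o (u ^ (2 ^ i) * o) - 633 ≤ d z (u ^ (2 ^ i) * z) := by
    intro i hi
    have h1 := (S.cross I hh z (u ^ (2 ^ i) * z) (by rw [hpr]; exact hi)).2.2
    rw [hpr, hl, ← ho] at h1
    have := hM.symm o z
    omega
  have h20 : u ^ (2 ^ 0) = u := by simp
  have h2u : d z (u * (u * z)) = d (u⁻¹ * z) (u * z) := by
    rw [hl.inv_left]
  by_cases hcase : 318 < d o (u * o)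
  · have h1 := hcross 0 (by rw [h20]; exact hcase)
    rw [h20] at h1
    have h2 := hM.tri z o (u * (u * z))
    have h3 := hM.tri o (u * o) (u * (u * z))
    have h4 := hM.tri (u * o) (u * (u * o)) (u * (u * z))
    have e1 : d (u * o) (u * (u * o)) = d o (u * o) := hl _ _ _
    have e2 : d (u * (u * o)) (u * (u * z)) = d o z := by rw [hl, hl]
    have s1 := hM.symm o z
    rcases hz with hz | hz
    · unfold gp at hz
      have e3 : d (u⁻¹ * z) z = d z (u * z) := hl.inv_left _ _ _
      have e4 := hM.symm (u * z) z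
      rw [e3] at hz
      have hj0 : (0 : ℤ) ≤ j := by positivity
      omega
    · have hj0 : (0 : ℤ) ≤ j := by positivity
      omega
  · push Not at hcase
    have hd : d z (u * z) ≤ 369 := by
      rcases hz with hz | hz
      · unfold gp at hz
        have e3 : d (u⁻¹ * z) z = d z (u * z) := hl.inv_left _ _ _
        have e4 := hM.symm (u * z) z
        rw [e3] at hz
        have h1 := hdbl u
        omega
      · exact hz
    have hex : ∃ i : ℕ, 318 < d o (u ^ (2 ^ i) * o) := by
      refine ⟨j, ?_⟩
      have h1 := hδ j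
      by_contra hcon
      push Not at hcon
      have : R * d o (u ^ (2 ^ j) * o) ≤ R * 318 := mul_le_mul_of_nonneg_left hcon hR.le
      linarith
    classical
    set i₀ := Nat.find hex with hi₀
    have hi1 : 318 < d o (u ^ (2 ^ i₀) * o) := Nat.find_spec hex
    have hi2 : i₀ ≤ j := by
      apply Nat.find_min' hex
      have h1 := hδ j
      by_contra hcon
      push Not at hcon
      have : R * d o (u ^ (2 ^ j) * o) ≤ R * 318 := mul_le_mul_of_nonneg_left hcon hR.le
      linarith
    have hi3 : ∀ i ≤ i₀, d z (u ^ (2 ^ i) * z) ≤ 369 + 321 * i := by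
      intro i
      induction i with
      | zero => intro _; rw [h20]; simpa using hd
      | succ i ih =>
        intro hi
        have h1 := ih (by omega)
        have h2 : ¬ (318 < d o (u ^ (2 ^ i) * o)) := Nat.find_min hex (by omega)
        have h3 := hdbl (u ^ (2 ^ i))
        rw [hsq]
        push_cast
        omega
    have h1 := hi3 i₀ le_rfl
    have h2 := hcross i₀ hi1
    have h3 : (i₀ : ℤ) ≤ j := by exact_mod_cast hi2
    omega

theorem mono (I : Inv n R κ a 3 d) (S : AxSys n d P b p) {h : G} (hh : h ∈ P) {x y z : G} {c : ℤ}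
    (hz : gp d x y z ≤ c) :
    p h z ≤ max (p h x) (p h y) + R * (c + 1308) ∧
      min (p h x) (p h y) - R * (c + 1308) ≤ p h z := by
  have hM := I.met
  have hR : 0 < R := (S.hlox I hh).pos hM
  have hc : 0 ≤ c := le_trans (gp_nonneg hM x y z) hz
  have hpos : 0 ≤ R * (c + 1308) := by positivity
  -- the common metric estimate
  have key : ∀ x y : G, gp d x y z ≤ c →
      d (pr b p h z) (pr b p h y) + d (pr b p h y) (pr b p h x) - 42 ≤
        d (pr b p h z) (pr b p h x) →
      |am p h y z| ≤ R * (c + 1308) := by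
    intro x y hz hal
    have h1 := S.am_le I hh y z
    by_cases hfar : d (pr b p h y) (pr b p h z) ≤ c + 1308
    · exact h1.trans (mul_le_mul_of_nonneg_left hfar hR.le)
    · exfalso
      push Not at hfar
      have s1 := hM.symm (pr b p h y) (pr b p h z)
      have n1 := hM.nonneg (pr b p h y) (pr b p h x)
      have h2 := (S.cross I hh z y (by omega)).2.2
      have h3 := (S.cross I hh z x (by omega)).2.2
      have t1 := hM.tri x (pr b p h x) y
      have t2 := hM.tri (pr b p h x) (pr b p h y) y
      have s2 := hM.symm (pr b p h x) x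
      have s3 := hM.symm (pr b p h x) (pr b p h y)
      have s4 := hM.symm z x
      have s5 := hM.symm z y
      have n2 := hM.nonneg z (pr b p h z)
      unfold gp at hz
      omega
  have hal : ∀ i j k : ℤ, (i ≤ j ∧ j ≤ k ∨ k ≤ j ∧ j ≤ i) →
      d (ax b h k) (ax b h j) + d (ax b h j) (ax b h i) - 42 ≤ d (ax b h k) (ax b h i) := by
    intro i j k hijk
    rcases hijk with ⟨h1, h2⟩ | ⟨h1, h2⟩
    · have := S.hal I hh i j k h1 h2
      unfold gp at this
      have s1 := hM.symm (ax b h i) (ax b h j)
      have s2 := hM.symm (ax b h i) (ax b h k)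
      omega
    · have := S.hal I hh k j i h1 h2
      unfold gp at this
      have s1 := hM.symm (ax b h i) (ax b h j)
      omega
  have hz' : gp d y x z ≤ c := by rw [gp_symm hM]; exact hz
  constructor
  · by_cases h1 : p h z ≤ max (p h x) (p h y)
    · linarith
    · push Not at h1
      rcases le_total (p h x) (p h y) with hxy | hxy
      · rw [max_eq_right hxy] at h1 ⊢
        have h2 := key x y hz (hal (p h x) (p h y) (p h z) (Or.inl ⟨hxy, h1.le⟩))
        have h3 := le_abs_self (am p h y z)
        unfold am at h2 h3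
        linarith
      · rw [max_eq_left hxy] at h1 ⊢
        have h2 := key y x hz' (hal (p h y) (p h x) (p h z) (Or.inl ⟨hxy, h1.le⟩))
        have h3 := le_abs_self (am p h x z)
        unfold am at h2 h3
        linarith
  · by_cases h1 : min (p h x) (p h y) ≤ p h z
    · linarith
    · push Not at h1
      rcases le_total (p h x) (p h y) with hxy | hxy
      · rw [min_eq_left hxy] at h1 ⊢
        have h2 := key y x hz' (hal (p h y) (p h x) (p h z) (Or.inr ⟨h1.le, hxy⟩))
        have h3 := neg_abs_le (am p h x z)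
        unfold am at h2 h3
        linarith
      · rw [min_eq_right hxy] at h1 ⊢
        have h2 := key x y hz (hal (p h x) (p h y) (p h z) (Or.inr ⟨h1.le, hxy⟩))
        have h3 := neg_abs_le (am p h y z)
        unfold am at h2 h3
        linarith

theorem desc (I : Inv n R κ a 3 d) (S : AxSys n d P b p) {h : G} (hh : h ∈ P) {x y : G} {k : ℤ}
    (hk : k ≠ 0) {KG : ℤ} (hKG : 0 ≤ KG) (hn : KG + R * (633 + 112 * KG) < n)
    (hxy : |am p h x y - k * n| ≤ KG) : d x (h ^ (-(k * n)) * y) < d x y := by
  have hM := I.met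
  have hl := I.left
  have hR : 0 < R := (S.hlox I hh).pos hM
  set y' := h ^ (-(k * n)) * y with hy'
  have hp : p h y' = p h y - k * n := by
    rw [hy', S.shiftk I hh]; ring
  have hpr : d (pr b p h y') y' = d (pr b p h y) y := by
    rw [hy', pr_zpow I S hh, hl]
  have h1 : d (pr b p h x) (pr b p h y') ≤ 112 * KG := by
    refine (ax_dist_le I S hh _ _).trans ?_
    have : |p h x - p h y'| ≤ KG := by
      rw [abs_sub_comm, hp]
      unfold am at hxy
      have e : p h y - k * n - p h x = p h y - p h x - k * n := by ring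
      rw [e]; exact hxy
    linarith
  have h2 : (n : ℤ) - KG ≤ |am p h x y| := by
    have e1 : |k * (n : ℤ)| ≤ |am p h x y| + |am p h x y - k * n| := by
      have := abs_sub_abs_le_abs_sub (k * (n : ℤ)) (am p h x y)
      rw [abs_sub_comm (k * (n : ℤ))] at this
      linarith
    have e2 : (n : ℤ) ≤ |k * (n : ℤ)| := by
      rw [abs_mul, Nat.abs_cast]
      have : 1 ≤ |k| := Int.one_le_abs hk
      nlinarith [(Nat.cast_nonneg n : (0 : ℤ) ≤ n)]
    linarith
  have h3 := S.am_le I hh x y
  have h4 : 633 + 112 * KG < d (pr b p h x) (pr b p h y) := by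
    by_contra hcon
    push Not at hcon
    have := mul_le_mul_of_nonneg_left hcon hR.le
    linarith
  have h5 := (S.cross I hh x y (by linarith)).2.2
  have t1 := hM.tri x (pr b p h x) y'
  have t2 := hM.tri (pr b p h x) (pr b p h y') y'
  linarith

end Pool.Agent.Burnside
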