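import Pool.Agent.Burnside.Exact
import Pool.Agent.Burnside.Tube
import Pool.Agent.Burnside.Avoid

/-!
Bending electric geodesics: common lifts of almost fixed segments.
-/

namespace Pool.Agent.Burnside

variable {G : Type*} [Group G] {d e : G → G → ℤ} {n : ℕ} {R κ a : ℤ}
variable {P : Set G} {b : G → G} {p : G → G → ℤ}

theorem Ox_zpow {h x : G} (m : ℤ) (hx : x ∈ Ox b h) : h ^ m * x ∈ Ox b h := by
  obtain ⟨i, rfl⟩ := hx
  refine ⟨m + i, ?_⟩
  unfold ax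
  rw [zpow_add, mul_assoc]

theorem Ox_unique (I : Inv n R κ a 3 d) (S : AxSys n d P b p) (hκ : 1000 ≤ κ) (ha : 1000 ≤ a)
    {h h' : G} (hh : h ∈ P) (hh' : h' ∈ P) {x y : G} (hx : x ∈ Ox b h) (hy : y ∈ Ox b h)
    (hx' : x ∈ Ox b h') (hy' : y ∈ Ox b h') (hd : a ≤ d x y) : h = h' := by
  by_contra hne
  have := S.overlap I hκ (by omega) hh hh' hne hx' hy'
  rw [S.pr_of_mem I hh hx, S.pr_of_mem I hh hy] at this
  omega

theorem am_mem_le (I : Inv n R κ a 3 d) (S : AxSys n d P b p) {h : G} (hh : h ∈ P) {x y : G}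
    (hx : x ∈ Ox b h) (hy : y ∈ Ox b h) : |am p h x y| ≤ R * d x y := by
  have := S.am_le I hh x y
  rwa [S.pr_of_mem I hh hx, S.pr_of_mem I hh hy] at this

theorem am_zpow (I : Inv n R κ a 3 d) (S : AxSys n d P b p) {h : G} (hh : h ∈ P) (x y : G)
    (m : ℤ) : am p h x (h ^ m * y) = am p h x y + m := by
  unfold am
  rw [S.shiftk I hh]
  ring

theorem pull (I : Inv n R κ a 3 d) (S : AxSys n d P b p) {h : G} (hh : h ∈ P) (g : G) :
    ∃ h' ∈ P, h = g * h' * g⁻¹ ∧ (∀ x, g * x ∈ Ox b h → x ∈ Ox b h') ∧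
      ∀ x y, am p h (g * x) (g * y) = am p h' x y := by
  have e1 : h = g * (g⁻¹ * h * g⁻¹⁻¹) * g⁻¹ := by group
  have h1 := S.conj h hh g⁻¹
  refine ⟨_, h1, e1, ?_, ?_⟩
  · intro x hx
    rw [e1] at hx
    exact S.ax_equiv' I h1 g hx
  · intro x y
    rw [e1]
    have := S.equiv _ h1 g y x
    unfold am
    rw [this]
    congr 2 <;> group

theorem chain_am (I : Inv n R κ a 3 d) (S : AxSys n d P b p) (E : El d e P b) (hκ : 1000 ≤ κ)
    (ha : 1000 ≤ a) {h : G} (hh : h ∈ P) {x y : G} {k : ℕ} {α : ℕ → G} (c : Chain e x y k α)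
    {i : ℕ} (hi : i < k) (m1 : α i ∈ Ox b h) (m2 : α (i + 1) ∈ Ox b h) :
    |am p h x (α i)| ≤ R * (1130 * a) ∧ |am p h (α (i + 1)) y| ≤ R * (1130 * a) := by
  constructor
  · by_contra hcon
    push Not at hcon
    have c' := c.sub (i := 0) (j := i) (by omega) (by omega)
    rw [c.zero] at c'
    obtain ⟨s, hs, hs1, -, -⟩ := exact_edge' I S E hκ ha hh c' hcon
    simp only [zero_add, tsub_zero] at hs hs1
    have h1 := (E.adj (α s) (α (i + 1))).2 (Or.inr ⟨h, hh, hs1, m2⟩)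
    have h2 := c.dist s (i + 1) (by omega) (by omega)
    push_cast at h2
    omega
  · by_contra hcon
    push Not at hcon
    have c' := c.sub (i := i + 1) (j := k) (by omega) le_rfl
    rw [c.last] at c'
    obtain ⟨s, hs, -, hs1, -⟩ := exact_edge' I S E hκ ha hh c' hcon
    have h1 := (E.adj (α i) (α (i + 1 + (s + 1)))).2 (Or.inr ⟨h, hh, m1, hs1⟩)
    have h2 := c.dist i (i + 1 + (s + 1)) (by omega) (by omega)
    push_cast at h2
    omega

theorem far_am (I : Inv n R κ a 3 d) (S : AxSys n d P b p) (E : El d e P b) (hκ : 1000 ≤ κ)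
    (ha : 1000 ≤ a) {h : G} (hh : h ∈ P) {x y : G} {κ' : ℤ} (hxy : e x y ≤ κ')
    (hf : ∀ z ∈ Ox b h, κ' ≤ e x z) : |am p h x y| ≤ R * (1130 * a) := by
  by_contra hcon
  push Not at hcon
  obtain ⟨k, α, c⟩ := exists_chain E.met x y
  obtain ⟨i, hi, h1, -, -⟩ := exact_edge' I S E hκ ha hh c hcon
  have h2 := hf _ h1
  have h3 := c.dist 0 i (by omega) hi.le
  rw [c.zero] at h3
  have h4 := c.len
  push_cast at h3
  omega

theorem match_edge (I : Inv n R κ a 3 d) (S : AxSys n d P b p) (E : El d e P b) (hκ : 1000 ≤ κ)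
    (ha : 1000 ≤ a) {h : G} (hh : h ∈ P) {x x' y y' : G} {k : ℕ} {α β : ℕ → G}
    (c1 : Chain e x x' k α) (c2 : Chain e y y' k β) {κ' : ℤ} (h0 : e x y ≤ κ') (h1 : e x' y' ≤ κ')
    {i : ℕ} (hi : κ' < i) (hik : i < k) (hi' : κ' + i + 1 < k) (m1 : α i ∈ Ox b h)
    (m2 : α (i + 1) ∈ Ox b h) (hbig : 5 * (R * (1130 * a)) < |am p h (α i) (α (i + 1))|) :
    ∃ j < k, β j ∈ Ox b h ∧ β (j + 1) ∈ Ox b h ∧
      |am p h (β j) (β (j + 1)) - am p h (α i) (α (i + 1))| ≤ 6 * (R * (1130 * a)) := by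
  obtain ⟨b1, b2⟩ := chain_am I S E hκ ha hh c1 hik m1 m2
  have far1 : ∀ z ∈ Ox b h, κ' ≤ e x z := by
    intro z hz
    have t1 := (E.adj z (α i)).2 (Or.inr ⟨h, hh, hz, m1⟩)
    have t2 := E.met.tri x z (α i)
    have t3 := c1.dist 0 i (by omega) hik.le
    rw [c1.zero] at t3
    push_cast at t3
    omega
  have far2 : ∀ z ∈ Ox b h, κ' ≤ e x' z := by
    intro z hz
    have t1 := (E.adj (α (i + 1)) z).2 (Or.inr ⟨h, hh, m2, hz⟩)
    have t2 := E.met.tri (α (i + 1)) z x'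
    have t4 := E.met.symm x' z
    have t3 := c1.dist (i + 1) k (by omega) le_rfl
    rw [c1.last] at t3
    push_cast at t3
    omega
  have f1 := far_am I S E hκ ha hh h0 far1
  have f2 := far_am I S E hκ ha hh h1 far2
  have hb : R * (1130 * a) < |am p h y y'| := by
    unfold am at *
    rw [lt_abs] at hbig ⊢
    rw [abs_le] at b1 b2 f1 f2
    omega
  obtain ⟨j, hj, j1, j2, j3, j4⟩ := exact_edge' I S E hκ ha hh c2 hb
  refine ⟨j, hj, j1, j2, ?_⟩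
  unfold am at *
  rw [abs_le] at *
  omega

/-- `β` bends the chain `α`. -/
structure Adm (P : Set G) (b : G → G) (n : ℕ) (N : Subgroup G) (k : ℕ) (α β : ℕ → G) : Prop where
  mem : ∀ i, β i ∈ N
  adm : ∀ i < k, (β i)⁻¹ * β (i + 1) = 1 ∨ ∃ h ∈ P, ∃ l : ℤ, α i ∈ Ox b h ∧ α (i + 1) ∈ Ox b h ∧
    (β i)⁻¹ * β (i + 1) = h ^ (l * n)

variable {N : Subgroup G} {k : ℕ} {α β : ℕ → G}

theorem Adm.lmul (A : Adm P b n N k α β) {ν : G} (hν : ν ∈ N) :
    Adm P b n N k α (fun i => ν * β i) := by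
  refine ⟨fun i => N.mul_mem hν (A.mem i), fun i hi => ?_⟩
  have e1 : (ν * β i)⁻¹ * (ν * β (i + 1)) = (β i)⁻¹ * β (i + 1) := by group
  rw [e1]
  exact A.adm i hi

theorem Adm.const {ν : G} (hν : ν ∈ N) : Adm P b n N k α (fun _ => ν) :=
  ⟨fun _ => hν, fun _ _ => Or.inl (by simp)⟩

theorem Adm.step (A : Adm P b n N k α β) (E : El d e P b) {i : ℕ} (hi : i < k)
    (hs : e (α i) (α (i + 1)) ≤ 1) : e (β i * α i) (β (i + 1) * α (i + 1)) ≤ 1 := by
  have e1 : β (i + 1) * α (i + 1) = β i * ((β i)⁻¹ * β (i + 1) * α (i + 1)) := by group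
  rw [e1, E.left]
  rcases A.adm i hi with h | ⟨h, hh, l, h1, h2, h3⟩
  · rw [h, one_mul]
    exact hs
  · rw [h3]
    exact (E.adj _ _).2 (Or.inr ⟨h, hh, h1, Ox_zpow _ h2⟩)

theorem steps_le {V : Type*} {d : V → V → ℤ} (h : IsMet d) (α : ℕ → V) (k : ℕ)
    (hs : ∀ i < k, d (α i) (α (i + 1)) ≤ 1) : d (α 0) (α k) ≤ k := by
  induction k with
  | zero => simp [h.self]
  | succ k ih =>
    have h1 := ih (fun i hi => hs i (by omega))
    have h2 := hs k (by omega)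
    have h3 := h.tri (α 0) (α k) (α (k + 1))
    push_cast
    omega

/-- the rotated bending -/
def bendAt (β : ℕ → G) (i : ℕ) (g : G) (j : ℕ) : G := if j ≤ i then β j else g * β j

theorem bendAt_of_ne (β : ℕ → G) (i : ℕ) (g : G) {j : ℕ} (hj : j ≠ i) :
    (bendAt β i g j)⁻¹ * bendAt β i g (j + 1) = (β j)⁻¹ * β (j + 1) := by
  unfold bendAt
  by_cases h : j < i
  · rw [if_pos (by omega), if_pos (by omega)]
  · rw [if_neg (by omega), if_neg (by omega)]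
    group

theorem bendAt_self (β : ℕ → G) (i : ℕ) (g : G) :
    (bendAt β i g i)⁻¹ * bendAt β i g (i + 1) = (β i)⁻¹ * g * β (i + 1) := by
  unfold bendAt
  rw [if_pos le_rfl, if_neg (by omega), mul_assoc]

theorem Adm.axis (A : Adm P b n N k α β) (I : Inv n R κ a 3 d) (S : AxSys n d P b p)
    (hκ : 1000 ≤ κ) (ha : 1000 ≤ a) {h : G} (hh : h ∈ P) {i : ℕ} (hi : i < k)
    (h1 : β i * α i ∈ Ox b h) (h2 : β (i + 1) * α (i + 1) ∈ Ox b h)
    (h3 : a ≤ d (β i * α i) (β (i + 1) * α (i + 1))) :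
    ∃ h' ∈ P, h = β i * h' * (β i)⁻¹ ∧ α i ∈ Ox b h' ∧ α (i + 1) ∈ Ox b h' ∧
      ∃ l : ℤ, (β i)⁻¹ * β (i + 1) = h' ^ (l * n) ∧
        am p h (β i * α i) (β (i + 1) * α (i + 1)) = am p h' (α i) (α (i + 1)) + l * n := by
  obtain ⟨h', hh', e1, m, am'⟩ := pull I S hh (β i)
  have ew : β (i + 1) * α (i + 1) = β i * ((β i)⁻¹ * β (i + 1) * α (i + 1)) := by group
  have m1 := m _ h1
  rw [ew] at h2 h3
  have m2 := m _ h2
  rw [I.left] at h3
  rcases A.adm i hi with h | ⟨h'', hh'', l, g1, g2, g3⟩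
  · refine ⟨h', hh', e1, m1, ?_, 0, ?_, ?_⟩
    · rw [h, one_mul] at m2
      exact m2
    · rw [h]; simp
    · rw [ew, am', h, one_mul]
      simp
  · have g4 : (β i)⁻¹ * β (i + 1) * α (i + 1) ∈ Ox b h'' := by
      rw [g3]
      exact Ox_zpow _ g2
    have : h' = h'' := Ox_unique I S hκ ha hh' hh'' m1 m2 g1 g4 h3
    subst this
    refine ⟨h', hh', e1, m1, g2, l, g3, ?_⟩
    rw [ew, am', g3, am_zpow I S hh']

theorem Adm.rot (A : Adm P b n N k α β) (I : Inv n R κ a 3 d) (S : AxSys n d P b p)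
    (hκ : 1000 ≤ κ) (ha : 1000 ≤ a) (hN : ∀ h ∈ P, h ^ n ∈ N) {h : G} (hh : h ∈ P) {i : ℕ}
    (hi : i < k) (h1 : β i * α i ∈ Ox b h) (h2 : β (i + 1) * α (i + 1) ∈ Ox b h)
    (h3 : a ≤ d (β i * α i) (β (i + 1) * α (i + 1))) (l : ℤ) :
    Adm P b n N k α (bendAt β i (h ^ (l * n))) := by
  have hNl : ∀ l : ℤ, h ^ (l * n) ∈ N := fun l => by
    rw [mul_comm, zpow_mul, zpow_natCast]
    exact N.zpow_mem (hN h hh) l
  refine ⟨fun j => ?_, fun j hj => ?_⟩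
  · unfold bendAt
    split_ifs
    · exact A.mem j
    · exact N.mul_mem (hNl l) (A.mem j)
  · by_cases hji : j = i
    · subst hji
      right
      obtain ⟨h', hh', e1, m1, m2, l', w, -⟩ := A.axis I S hκ ha hh hi h1 h2 h3
      refine ⟨h', hh', l + l', m1, m2, ?_⟩
      rw [bendAt_self, e1, conj_zpow, add_mul, zpow_add, ← w]
      group
    · rw [bendAt_of_ne _ _ _ hji]
      exact A.adm j hj


theorem dist_of_am (I : Inv n R κ a 3 d) (S : AxSys n d P b p) (ha : 1000 ≤ a) (hR : 0 < R)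
    {h : G} (hh : h ∈ P) {x y : G} (hx : x ∈ Ox b h) (hy : y ∈ Ox b h)
    (hxy : R * (1130 * a) < |am p h x y|) : a ≤ d x y := by
  have h1 := am_mem_le I S hh hx hy
  have h2 : R * (1130 * a) < R * d x y := lt_of_lt_of_le hxy h1
  have h3 := lt_of_mul_lt_mul_left h2 hR.le
  omega

theorem bendAt_zero (β : ℕ → G) (i : ℕ) (g : G) : bendAt β i g 0 = β 0 := by
  unfold bendAt
  rw [if_pos (by omega)]

theorem bendAt_last (β : ℕ → G) {i k : ℕ} (g : G) (hi : i < k) : bendAt β i g k = g * β k := by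
  unfold bendAt
  rw [if_neg (by omega)]

/-- Closed pair of bendings. -/
structure Cl (P : Set G) (b : G → G) (n : ℕ) (N : Subgroup G) (k : ℕ) (e : G → G → ℤ) (κ' : ℤ)
    (α₁ α₂ β γ : ℕ → G) : Prop where
  a1 : Adm P b n N k α₁ β
  a2 : Adm P b n N k α₂ γ
  c0 : e (β 0 * α₁ 0) (γ 0 * α₂ 0) ≤ κ'
  ck : e (β k * α₁ k) (γ k * α₂ k) ≤ κ'

theorem Cl.symm {κ' : ℤ} {α₁ α₂ γ : ℕ → G} (hM : IsMet e) (C : Cl P b n N k e κ' α₁ α₂ β γ) :
    Cl P b n N k e κ' α₂ α₁ γ β :=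
  ⟨C.a2, C.a1, by rw [hM.symm]; exact C.c0, by rw [hM.symm]; exact C.ck⟩

theorem close_up (I : Inv n R κ a 3 d) (S : AxSys n d P b p) (E : El d e P b) (hκ : 1000 ≤ κ)
    (ha : 1000 ≤ a) (hR : 0 < R) (hN : ∀ h ∈ P, h ^ n ∈ N) {KG : ℤ} (hKG : 0 ≤ KG)
    (green : ∀ g ∈ N, g ≠ 1 → ∀ x, ∃ h ∈ P, ∃ k : ℤ, k ≠ 0 ∧ |am p h x (g * x) - k * n| ≤ KG)
    (hn₁ : KG + R * (633 + 112 * KG) < n) (hn₂ : 100 * (R * (1130 * a) + KG + 1) < n)
    {κ' : ℤ} {α₁ α₂ : ℕ → G}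
    (geo1 : ∀ β, Adm P b n N k α₁ β → Chain e (β 0 * α₁ 0) (β k * α₁ k) k (fun i => β i * α₁ i))
    (geo2 : ∀ β, Adm P b n N k α₂ β → Chain e (β 0 * α₂ 0) (β k * α₂ k) k (fun i => β i * α₂ i)) :
    ∀ (m : ℕ) (β γ : ℕ → G) (g : G), (d (α₁ 0) (g * α₁ 0)).toNat = m →
      Adm P b n N k α₁ β → Adm P b n N k α₂ γ → g ∈ N → β 0 = 1 →
      e (β k * α₁ k) (γ k * α₂ k) ≤ κ' → e (γ 0 * α₂ 0) (g * α₁ 0) ≤ κ' →
      ∃ β' γ', Cl P b n N k e κ' α₁ α₂ β' γ' := by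
  have hC0 : 0 ≤ R * (1130 * a) := mul_nonneg hR.le (by omega)
  intro m
  induction m using Nat.strong_induction_on with
  | _ m ih =>
  intro β γ g hm A1 A2 hg hβ hk h0
  by_cases hg1 : g = 1
  · refine ⟨β, γ, A1, A2, ?_, hk⟩
    rw [hg1, one_mul] at h0
    rw [hβ, one_mul, E.met.symm]
    exact h0
  obtain ⟨h, hh, l, hl, hgr⟩ := green g hg hg1 (α₁ 0)
  have hNl : ∀ l : ℤ, h ^ (l * n) ∈ N := fun l => by
    rw [mul_comm, zpow_mul, zpow_natCast]
    exact N.zpow_mem (hN h hh) l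
  have hdesc := desc I S hh hl hKG hn₁ hgr
  have e0 : -(l * (n : ℤ)) = (-l) * n := by ring
  rw [e0] at hdesc
  set ρ := h ^ ((-l) * (n : ℤ)) with hρ
  have hρN : ρ ∈ N := hNl _
  have hm' : (d (α₁ 0) (ρ * g * α₁ 0)).toNat < m := by
    rw [mul_assoc]
    have := I.met.nonneg (α₁ 0) (ρ * (g * α₁ 0))
    omega
  have hbig : (n : ℤ) - KG ≤ |am p h (α₁ 0) (g * α₁ 0)| := by
    have h1 : (n : ℤ) ≤ |l * n| := by
      rw [abs_mul, Nat.abs_cast]
      have : 1 ≤ |l| := Int.one_le_abs hl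
      calc (n : ℤ) = 1 * n := by ring
        _ ≤ |l| * n := mul_le_mul_of_nonneg_right this (by positivity)
    have h2 := abs_sub_abs_le_abs_sub (l * (n : ℤ)) (am p h (α₁ 0) (g * α₁ 0))
    rw [abs_sub_comm] at h2
    linarith
  have hsplit : 4 * (R * (1130 * a)) < |am p h (β 0 * α₁ 0) (β k * α₁ k)| ∨
      R * (1130 * a) < |am p h (β k * α₁ k) (γ k * α₂ k)| ∨
      4 * (R * (1130 * a)) < |am p h (γ 0 * α₂ 0) (γ k * α₂ k)| ∨
      R * (1130 * a) < |am p h (γ 0 * α₂ 0) (g * α₁ 0)| := by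
    by_contra hcon
    push Not at hcon
    obtain ⟨c1, c2, c3, c4⟩ := hcon
    rw [hβ, one_mul] at c1
    unfold am at *
    rw [abs_le] at c1 c2 c3 c4
    have : |p h (g * α₁ 0) - p h (α₁ 0)| ≤ 10 * (R * (1130 * a)) := by
      rw [abs_le]; omega
    omega
  rcases hsplit with hs | hs | hs | hs
  · obtain ⟨i, hi, i1, i2, i3, i4⟩ := exact_edge' I S E hκ ha hh (geo1 β A1) (by omega)
    have i5 : R * (1130 * a) < |am p h (β i * α₁ i) (β (i + 1) * α₁ (i + 1))| := by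
      unfold am at *
      rw [lt_abs] at *
      rw [abs_le] at i3 i4
      omega
    have i6 := dist_of_am I S ha hR hh i1 i2 i5
    refine ih _ hm' (bendAt β i ρ) (fun j => ρ * γ j) (ρ * g) rfl
      (A1.rot I S hκ ha hN hh hi i1 i2 i6 (-l)) (A2.lmul hρN) (N.mul_mem hρN hg) ?_ ?_ ?_
    · rw [bendAt_zero, hβ]
    · rw [bendAt_last _ _ hi, mul_assoc, mul_assoc, E.left]
      exact hk
    · rw [mul_assoc, mul_assoc, E.left]
      exact h0
  · refine ih _ hm' β (fun j => ρ * γ j) (ρ * g) rfl A1 (A2.lmul hρN) (N.mul_mem hρN hg) hβ ?_ ?_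
    · rw [mul_assoc]
      exact (exact_rot I S E hκ ha hh hs _).trans hk
    · rw [mul_assoc, mul_assoc, E.left]
      exact h0
  · obtain ⟨i, hi, i1, i2, i3, i4⟩ := exact_edge' I S E hκ ha hh (geo2 γ A2) (by omega)
    have i5 : R * (1130 * a) < |am p h (γ i * α₂ i) (γ (i + 1) * α₂ (i + 1))| := by
      unfold am at *
      rw [lt_abs] at *
      rw [abs_le] at i3 i4
      omega
    have i6 := dist_of_am I S ha hR hh i1 i2 i5
    refine ih _ hm' β (fun j => ρ * bendAt γ i (h ^ (l * (n : ℤ))) j) (ρ * g) rfl A1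
      ((A2.rot I S hκ ha hN hh hi i1 i2 i6 l).lmul hρN) (N.mul_mem hρN hg) hβ ?_ ?_
    · have e1 : ρ * bendAt γ i (h ^ (l * (n : ℤ))) k = γ k := by
        rw [bendAt_last _ _ hi, hρ, ← mul_assoc, ← zpow_add]
        have : -l * (n : ℤ) + l * n = 0 := by ring
        rw [this, zpow_zero, one_mul]
      show e (β k * α₁ k) (ρ * bendAt γ i (h ^ (l * (n : ℤ))) k * α₂ k) ≤ κ'
      rw [e1]
      exact hk
    · show e (ρ * bendAt γ i (h ^ (l * (n : ℤ))) 0 * α₂ 0) (ρ * g * α₁ 0) ≤ κ'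
      rw [bendAt_zero, mul_assoc, mul_assoc, E.left]
      exact h0
  · refine ih _ hm' β γ (ρ * g) rfl A1 A2 (N.mul_mem hρN hg) hβ hk ?_
    rw [mul_assoc]
    exact (exact_rot I S E hκ ha hh hs _).trans h0

open Classical in
/-- number of bends -/
noncomputable def cnt (k : ℕ) (β : ℕ → G) : ℕ :=
  ((Finset.range k).filter (fun i => (β i)⁻¹ * β (i + 1) ≠ 1)).card

theorem cnt_bendAt_le (β : ℕ → G) (k i : ℕ) (g : G) (h : (β i)⁻¹ * g * β (i + 1) = 1) :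
    cnt k (bendAt β i g) ≤ cnt k β := by
  classical
  unfold cnt
  apply Finset.card_le_card
  intro j hj
  rw [Finset.mem_filter] at hj ⊢
  refine ⟨hj.1, ?_⟩
  by_cases hji : j = i
  · subst hji
    rw [bendAt_self] at hj
    exact absurd h hj.2
  · rw [bendAt_of_ne _ _ _ hji] at hj
    exact hj.2

theorem cnt_bendAt_lt (β : ℕ → G) {k i : ℕ} (hi : i < k) (g : G)
    (h : (β i)⁻¹ * g * β (i + 1) = 1) (h' : (β i)⁻¹ * β (i + 1) ≠ 1) :
    cnt k (bendAt β i g) < cnt k β := by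
  classical
  unfold cnt
  apply Finset.card_lt_card
  rw [Finset.ssubset_iff_of_subset]
  · refine ⟨i, ?_, ?_⟩
    · rw [Finset.mem_filter, Finset.mem_range]
      exact ⟨hi, h'⟩
    · rw [Finset.mem_filter, bendAt_self]
      exact fun hc => hc.2 h
  · intro j hj
    rw [Finset.mem_filter] at hj ⊢
    refine ⟨hj.1, ?_⟩
    by_cases hji : j = i
    · subst hji
      rw [bendAt_self] at hj
      exact absurd h hj.2
    · rw [bendAt_of_ne _ _ _ hji] at hj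
      exact hj.2

/-- Normalised amounts. -/
def Nrm (P : Set G) (b : G → G) (p : G → G → ℤ) (k : ℕ) (n θ C : ℤ) (α : ℕ → G) : Prop :=
  ∀ i < k, ∀ h ∈ P, α i ∈ Ox b h → α (i + 1) ∈ Ox b h →
    θ - n + C < am p h (α i) (α (i + 1)) ∧ am p h (α i) (α (i + 1)) < θ - C

theorem unbend (I : Inv n R κ a 3 d) (S : AxSys n d P b p) (E : El d e P b) (hκ : 1000 ≤ κ)
    (ha : 1000 ≤ a) (hR : 0 < R) (hN : ∀ h ∈ P, h ^ n ∈ N)
    (hn₂ : 100 * (R * (1130 * a) + 1) < n) {κ' θ : ℤ} {α₁ α₂ γ : ℕ → G}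
    (geo1 : ∀ β, Adm P b n N k α₁ β → Chain e (β 0 * α₁ 0) (β k * α₁ k) k (fun i => β i * α₁ i))
    (geo2 : ∀ β, Adm P b n N k α₂ β → Chain e (β 0 * α₂ 0) (β k * α₂ k) k (fun i => β i * α₂ i))
    (N1 : Nrm P b p k n θ (6 * (R * (1130 * a))) α₁)
    (N2 : Nrm P b p k n θ (6 * (R * (1130 * a))) α₂) (hθ1 : n ≤ 4 * θ) (hθ2 : 4 * θ ≤ 3 * n)
    (C : Cl P b n N k e κ' α₁ α₂ β γ) {i : ℕ} (hi : κ' < i) (hik : i < k) (hi' : κ' + i + 1 < k)
    (hw : (β i)⁻¹ * β (i + 1) ≠ 1) :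
    ∃ β' γ', Cl P b n N k e κ' α₁ α₂ β' γ' ∧ cnt k β' + cnt k γ' < cnt k β + cnt k γ := by
  have hC0 : 0 ≤ R * (1130 * a) := mul_nonneg hR.le (by omega)
  obtain ⟨h₀, hh₀, l, m1, m2, hwl⟩ := (C.a1.adm i hik).resolve_left hw
  have hl : l ≠ 0 := by
    rintro rfl
    rw [zero_mul, zpow_zero] at hwl
    exact hw hwl
  have hh := S.conj h₀ hh₀ (β i)
  set h := β i * h₀ * (β i)⁻¹ with hdef
  have ew : β (i + 1) * α₁ (i + 1) = β i * (h₀ ^ (l * (n : ℤ)) * α₁ (i + 1)) := by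
    rw [← hwl]; group
  have q1 : β i * α₁ i ∈ Ox b h := S.ax_equiv I hh₀ (β i) m1
  have q2 : β (i + 1) * α₁ (i + 1) ∈ Ox b h := by
    rw [ew]
    exact S.ax_equiv I hh₀ (β i) (Ox_zpow _ m2)
  have q3 : am p h (β i * α₁ i) (β (i + 1) * α₁ (i + 1)) =
      am p h₀ (α₁ i) (α₁ (i + 1)) + l * n := by
    rw [ew, ← am_zpow I S hh₀]
    unfold am
    exact S.equiv h₀ hh₀ (β i) _ _
  have nb := N1 i hik h₀ hh₀ m1 m2
  have hln : (n : ℤ) ≤ l * n ∨ l * n ≤ -n := by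
    rcases lt_or_gt_of_ne hl with h | h
    · right
      have : l * n ≤ (-1) * (n : ℤ) := mul_le_mul_of_nonneg_right (by omega) (by positivity)
      linarith
    · left
      have : 1 * (n : ℤ) ≤ l * n := mul_le_mul_of_nonneg_right (by omega) (by positivity)
      linarith
  have hbig : 5 * (R * (1130 * a)) + (R * (1130 * a)) + (R * (1130 * a)) <
      |am p h (β i * α₁ i) (β (i + 1) * α₁ (i + 1))| := by
    rw [q3, lt_abs]
    omega
  obtain ⟨j, hj, j1, j2, j3⟩ := match_edge I S E hκ ha hh (geo1 β C.a1) (geo2 γ C.a2) C.c0 C.ck hi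
    hik hi' q1 q2 (by omega)
  have j4 : R * (1130 * a) < |am p h (γ j * α₂ j) (γ (j + 1) * α₂ (j + 1))| := by
    rw [lt_abs] at hbig ⊢
    rw [abs_le] at j3
    omega
  have j5 := dist_of_am I S ha hR hh j1 j2 j4
  have q5 := dist_of_am I S ha hR hh q1 q2 (by omega)
  obtain ⟨h', hh', e1, r1, r2, l', r3, r4⟩ := C.a2.axis I S hκ ha hh hj j1 j2 j5
  have nb' := N2 j hj h' hh' r1 r2
  have hll : l = l' := by
    by_contra hne
    rw [q3, r4, abs_le] at j3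
    have hdiff : (l - l') * (n : ℤ) = l * n - l' * n := by ring
    rcases lt_or_gt_of_ne (sub_ne_zero.2 hne) with h | h
    · have : (l - l') * (n : ℤ) ≤ (-1) * n := mul_le_mul_of_nonneg_right (by omega) (by positivity)
      omega
    · have : 1 * (n : ℤ) ≤ (l - l') * n := mul_le_mul_of_nonneg_right (by omega) (by positivity)
      omega
  subst hll
  have w1 : (β i)⁻¹ * h ^ ((-l) * (n : ℤ)) * β (i + 1) = 1 := by
    have e2 : β (i + 1) = β i * h₀ ^ (l * (n : ℤ)) := by rw [← hwl]; group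
    rw [hdef, conj_zpow, e2]
    have e3 : (-l) * (n : ℤ) = -(l * n) := by ring
    rw [e3, zpow_neg]
    group
  have w2 : (γ j)⁻¹ * h ^ ((-l) * (n : ℤ)) * γ (j + 1) = 1 := by
    have e2 : γ (j + 1) = γ j * h' ^ (l * (n : ℤ)) := by rw [← r3]; group
    rw [e1, conj_zpow, e2]
    have e3 : (-l) * (n : ℤ) = -(l * n) := by ring
    rw [e3, zpow_neg]
    group
  refine ⟨bendAt β i (h ^ ((-l) * (n : ℤ))), bendAt γ j (h ^ ((-l) * (n : ℤ))),
    ⟨C.a1.rot I S hκ ha hN hh hik q1 q2 q5 _, C.a2.rot I S hκ ha hN hh hj j1 j2 j5 _, ?_, ?_⟩, ?_⟩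
  · rw [bendAt_zero, bendAt_zero]
    exact C.c0
  · rw [bendAt_last _ _ hik, bendAt_last _ _ hj, mul_assoc, mul_assoc, E.left]
    exact C.ck
  · have := cnt_bendAt_lt β hik _ w1 hw
    have := cnt_bendAt_le γ k j _ w2
    omega

theorem straighten (I : Inv n R κ a 3 d) (S : AxSys n d P b p) (E : El d e P b) (hκ : 1000 ≤ κ)
    (ha : 1000 ≤ a) (hR : 0 < R) (hN : ∀ h ∈ P, h ^ n ∈ N)
    (hn₂ : 100 * (R * (1130 * a) + 1) < n) {κ' θ : ℤ} {α₁ α₂ : ℕ → G}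
    (geo1 : ∀ β, Adm P b n N k α₁ β → Chain e (β 0 * α₁ 0) (β k * α₁ k) k (fun i => β i * α₁ i))
    (geo2 : ∀ β, Adm P b n N k α₂ β → Chain e (β 0 * α₂ 0) (β k * α₂ k) k (fun i => β i * α₂ i))
    (N1 : Nrm P b p k n θ (6 * (R * (1130 * a))) α₁)
    (N2 : Nrm P b p k n θ (6 * (R * (1130 * a))) α₂) (hθ1 : n ≤ 4 * θ) (hθ2 : 4 * θ ≤ 3 * n) :
    ∀ (m : ℕ) (β γ : ℕ → G), cnt k β + cnt k γ = m → Cl P b n N k e κ' α₁ α₂ β γ →
      ∃ β' γ', Cl P b n N k e κ' α₁ α₂ β' γ' ∧ ∀ i : ℕ, κ' < i → i < k → κ' + i + 1 < k →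
        (β' i)⁻¹ * β' (i + 1) = 1 ∧ (γ' i)⁻¹ * γ' (i + 1) = 1 := by
  intro m
  induction m using Nat.strong_induction_on with
  | _ m ih =>
  intro β γ hm C
  by_cases hall : ∀ i : ℕ, κ' < i → i < k → κ' + i + 1 < k →
        (β i)⁻¹ * β (i + 1) = 1 ∧ (γ i)⁻¹ * γ (i + 1) = 1
  · exact ⟨β, γ, C, hall⟩
  push Not at hall
  obtain ⟨i, h1, h2, h3, h4⟩ := hall
  by_cases h5 : (β i)⁻¹ * β (i + 1) = 1
  · obtain ⟨γ', β', C', hlt⟩ := unbend I S E hκ ha hR hN hn₂ geo2 geo1 N2 N1 hθ1 hθ2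
      (C.symm E.met) h1 h2 h3 (h4 h5)
    exact ih _ (by omega) β' γ' rfl (C'.symm E.met)
  · obtain ⟨β', γ', C', hlt⟩ := unbend I S E hκ ha hR hN hn₂ geo1 geo2 N1 N2 hθ1 hθ2
      C h1 h2 h3 h5
    exact ih _ (by omega) β' γ' rfl C'


/-- cumulative product -/
def cum (w : ℕ → G) : ℕ → G
  | 0 => 1
  | i + 1 => cum w i * w i

theorem exists_norm (I : Inv n R κ a 3 d) (S : AxSys n d P b p) (hκ : 1000 ≤ κ)
    (ha : 1000 ≤ a) (hR : 0 < R) (hN : ∀ h ∈ P, h ^ n ∈ N)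
    (hn₂ : 100 * (R * (1130 * a) + 1) < n)
    (hn₃ : 8 * ((k : ℤ) + 2) * (2 * (6 * (R * (1130 * a))) + 1) ≤ n) (α : ℕ → G) :
    ∃ θ : ℤ, n ≤ 4 * θ ∧ 4 * θ ≤ 3 * n ∧ ∃ β, Adm P b n N k α β ∧ β 0 = 1 ∧
      Nrm P b p k n θ (6 * (R * (1130 * a))) (fun i => β i * α i) := by
  classical
  have hC0 : 0 ≤ R * (1130 * a) := mul_nonneg hR.le (by omega)
  have hRa : R * a ≤ R * (1130 * a) := mul_le_mul_of_nonneg_left (by omega) hR.le
  obtain ⟨B, hB⟩ : ∃ B : ℕ → G → Prop, B = fun i h => h ∈ P ∧ α i ∈ Ox b h ∧ α (i + 1) ∈ Ox b h ∧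
    R * (1130 * a) < |am p h (α i) (α (i + 1))| := ⟨_, rfl⟩
  obtain ⟨H, hH⟩ : ∃ H : ℕ → G, ∀ i, (∃ h, B i h) → B i (H i) :=
    ⟨fun i => if h : ∃ h, B i h then h.choose else 1, fun i h => by
      simp only [h, dif_pos]; exact h.choose_spec⟩
  obtain ⟨m, hm⟩ : ∃ m : ℕ → ℤ, ∀ i, m i = am p (H i) (α i) (α (i + 1)) := ⟨_, fun _ => rfl⟩
  obtain ⟨θ, h1, h2, h3⟩ := exists_avoid m k n (6 * (R * (1130 * a))) (by omega) hn₃
  obtain ⟨L, hL⟩ : ∃ L : ℕ → ℤ, ∀ i, L i = -((m i - θ) / n) - 1 := ⟨_, fun _ => rfl⟩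
  obtain ⟨w, hw1, hw2⟩ : ∃ w : ℕ → G, (∀ i, (∃ h, B i h) → w i = H i ^ (L i * n)) ∧
      ∀ i, (¬ ∃ h, B i h) → w i = 1 :=
    ⟨fun i => if ∃ h, B i h then H i ^ (L i * n) else 1, fun i h => by simp [h], fun i h => by
      simp only [h, if_false]⟩
  have hn0 : (0 : ℤ) < n := by omega
  refine ⟨θ, h1, h2, cum w, ⟨?_, ?_⟩, rfl, ?_⟩
  · have hwN : ∀ i, w i ∈ N := by
      intro i
      by_cases h : ∃ h, B i h
      · rw [hw1 i h, mul_comm, zpow_mul, zpow_natCast]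
        have := hH i h
        rw [hB] at this
        exact N.zpow_mem (hN _ this.1) _
      · rw [hw2 i h]
        exact N.one_mem
    intro i
    induction i with
    | zero => exact N.one_mem
    | succ i ih => exact N.mul_mem ih (hwN i)
  · intro i hi
    have e1 : (cum w i)⁻¹ * cum w (i + 1) = w i := by
      show (cum w i)⁻¹ * (cum w i * w i) = w i
      group
    rw [e1]
    by_cases h : ∃ h, B i h
    · right
      have := hH i h
      rw [hB] at this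
      exact ⟨H i, this.1, L i, this.2.1, this.2.2.1, hw1 i h⟩
    · left
      exact hw2 i h
  · intro i hi h hh m1 m2
    obtain ⟨h', hh', -, pm, pam⟩ := pull I S hh (cum w i)
    have e1 : cum w (i + 1) * α (i + 1) = cum w i * (w i * α (i + 1)) := by
      show cum w i * w i * α (i + 1) = _
      rw [mul_assoc]
    have m1' := pm _ m1
    simp only [e1] at m2 ⊢
    have m2' := pm _ m2
    rw [pam]
    by_cases hex : ∃ h, B i h
    · have hBi := hH i hex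
      rw [hB] at hBi
      obtain ⟨b1, b2, b3, b4⟩ := hBi
      rw [hw1 i hex] at m2' ⊢
      by_cases hne : h' = H i
      · rw [hne, am_zpow I S b1, ← hm]
        have d1 := Int.emod_add_mul_ediv (m i - θ) n
        have d2 := Int.emod_nonneg (m i - θ) hn0.ne'
        have d3 := Int.emod_lt_of_pos (m i - θ) hn0
        have a1 := h3 i hi (L i)
        have a2 := h3 i hi (L i + 1)
        have e2 : L i * (n : ℤ) = -(n * ((m i - θ) / n)) - n := by rw [hL]; ring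
        have e3 : (L i + 1) * (n : ℤ) = -(n * ((m i - θ) / n)) := by rw [hL]; ring
        rw [e2, lt_abs] at a1
        rw [e3, lt_abs] at a2
        rw [e2]
        omega
      · have hd : ¬ a ≤ d (α i) (H i ^ (L i * (n : ℤ)) * α (i + 1)) := fun hd =>
          hne (Ox_unique I S hκ ha hh' b1 m1' m2' b2 (Ox_zpow _ b3) hd)
        have h4 := am_mem_le I S hh' m1' m2'
        have h5 : R * d (α i) (H i ^ (L i * (n : ℤ)) * α (i + 1)) ≤ R * a :=
          mul_le_mul_of_nonneg_left (by omega) hR.le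
        have h6 := abs_le.1 (h4.trans (h5.trans hRa))
        omega
    · rw [hw2 i hex, one_mul] at m2' ⊢
      have h4 : ¬ R * (1130 * a) < |am p h' (α i) (α (i + 1))| := by
        intro h5
        apply hex
        refine ⟨h', ?_⟩
        rw [hB]
        exact ⟨hh', m1', m2', h5⟩
      have h6 := abs_le.1 (not_lt.1 h4)
      omega

theorem mk_mul_left (N : Subgroup G) [N.Normal] {g : G} (hg : g ∈ N) (x : G) :
    ((g * x : G) : G ⧸ N) = (x : G ⧸ N) := by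
  rw [QuotientGroup.mk_mul, (QuotientGroup.eq_one_iff g).2 hg, one_mul]

theorem bend (I : Inv n R κ a 3 d) (S : AxSys n d P b p) (E : El d e P b) (hκ : 1000 ≤ κ)
    (ha : 1000 ≤ a) (hR : 0 < R) (N : Subgroup G) [N.Normal] (hN : ∀ h ∈ P, h ^ n ∈ N) {KG : ℤ}
    (hKG : 0 ≤ KG)
    (green : ∀ g ∈ N, g ≠ 1 → ∀ x, ∃ h ∈ P, ∃ k : ℤ, k ≠ 0 ∧ |am p h x (g * x) - k * n| ≤ KG)
    (hn₁ : KG + R * (633 + 112 * KG) < n)
    (q : G ⧸ N → G ⧸ N → ℤ) (hq : IsMet q) (hql : LInv q) (hqe : ∀ x y : G, q x y ≤ e x y)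
    (hqN : ∀ x y : G, ∃ g ∈ N, q x y = e x (g * y))
    {κ' : ℤ} (hκ' : 0 ≤ κ') (x y : G) (k : ℕ) (hk : q x y = k)
    (hn₂ : 100 * ((k : ℤ) + 10) * (KG + R * (1130 * a) + 1) < n) (hk' : 2 * κ' + 10 ≤ k) :
    ∃ x' y' : G, k - 2 * (κ' + 3) ≤ e x' y' ∧
      (∀ h ∈ P, 4 * |am p h x' y'| ≤ 3 * n + 8 * (R * (1130 * a))) ∧
      ∀ u : G, q x ((u * x : G) : G ⧸ N) ≤ κ' → q y ((u * y : G) : G ⧸ N) ≤ κ' →
        ∃ g ∈ N, e x' (g * u * x') ≤ κ' + 4880 ∧ e y' (g * u * y') ≤ κ' + 4880 := by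
  have hC0 : 0 ≤ R * (1130 * a) := mul_nonneg hR.le (by omega)
  have hM := E.met
  -- numerical consequences
  have hk0 : (0 : ℤ) ≤ k := by positivity
  have hx1 : 0 ≤ (k : ℤ) * (KG + R * (1130 * a) + 1) := mul_nonneg hk0 (by omega)
  have hx2 : 100 * ((k : ℤ) + 10) * (KG + R * (1130 * a) + 1) =
    100 * ((k : ℤ) * (KG + R * (1130 * a) + 1)) + 1000 * (KG + R * (1130 * a) + 1) := by ring
  have hx3 : 8 * ((k : ℤ) + 2) * (2 * (6 * (R * (1130 * a))) + 1) ≤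
      96 * ((k : ℤ) * (KG + R * (1130 * a) + 1)) + 192 * (KG + R * (1130 * a) + 1) := by
    have : (k : ℤ) * (2 * (6 * (R * (1130 * a))) + 1) ≤ k * (12 * (KG + R * (1130 * a) + 1)) :=
      mul_le_mul_of_nonneg_left (by omega) hk0
    nlinarith
  rw [hx2] at hn₂
  have hn₃ : 8 * ((k : ℤ) + 2) * (2 * (6 * (R * (1130 * a))) + 1) ≤ n := by omega
  have hn₄ : 100 * (R * (1130 * a) + KG + 1) < n := by omega
  have hn₅ : 100 * (R * (1130 * a) + 1) < n := by omega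
  obtain ⟨ν₀, hν₀, hν₀'⟩ := hqN x y
  obtain ⟨k', α₀, c₀⟩ := exists_chain hM x (ν₀ * y)
  have hkk : k' = k := by
    have := c₀.len
    omega
  subst hkk
  obtain ⟨θ, hθ1, hθ2, β₀, A₀, hβ₀, hNrm⟩ := exists_norm (N := N) (k := k') I S hκ ha hR hN hn₅
    hn₃ α₀
  obtain ⟨α, hα⟩ : ∃ α : ℕ → G, α = fun i => β₀ i * α₀ i := ⟨_, rfl⟩
  rw [← hα] at hNrm
  have hα0 : α 0 = x := by rw [hα]; simp [hβ₀, c₀.zero]
  have hαk : (α k' : G ⧸ N) = (y : G ⧸ N) := by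
    rw [hα]
    simp only
    rw [mk_mul_left N (A₀.mem _), c₀.last, mk_mul_left N hν₀]
  have hαs : ∀ i < k', e (α i) (α (i + 1)) ≤ 1 := by
    intro i hi
    rw [hα]
    exact A₀.step E hi (c₀.step hi)
  have geo : ∀ α : ℕ → G, (∀ i < k', e (α i) (α (i + 1)) ≤ 1) →
      q (α 0 : G ⧸ N) (α k' : G ⧸ N) = k' → ∀ β, Adm P b n N k' α β →
        Chain e (β 0 * α 0) (β k' * α k') k' (fun i => β i * α i) := by
    intro α hs hqk β A
    have s1 : ∀ i < k', e (β i * α i) (β (i + 1) * α (i + 1)) ≤ 1 := fun i hi =>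
      A.step E hi (hs i hi)
    have s2 := steps_le hM (fun i => β i * α i) k' s1
    have s3 := hqe (β 0 * α 0) (β k' * α k')
    rw [mk_mul_left N (A.mem _), mk_mul_left N (A.mem _), hqk] at s3
    exact chain_of_steps hM (le_antisymm s2 s3) rfl rfl s1
  have hq1 : q (α 0 : G ⧸ N) (α k' : G ⧸ N) = k' := by rw [hα0, hαk, hk]
  have geo1 := geo α hαs hq1
  have c : Chain e (α 0) (α k') k' α := by
    have := geo1 (fun _ => 1) (Adm.const N.one_mem)
    simpa using this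
  obtain ⟨i₁, hi₁⟩ : ∃ i₁ : ℕ, (i₁ : ℤ) = κ' + 3 := ⟨(κ' + 3).toNat, by omega⟩
  have hik : i₁ ≤ k' - i₁ := by omega
  have hik' : ((k' - i₁ : ℕ) : ℤ) = k' - i₁ := by omega
  refine ⟨α i₁, α (k' - i₁), ?_, ?_, ?_⟩
  · rw [c.dist i₁ (k' - i₁) hik (by omega)]
    omega
  · intro h hh
    by_cases hsm : R * (1130 * a) < |am p h (α i₁) (α (k' - i₁))|
    · have c' := c.sub hik (by omega)
      obtain ⟨i, hi, j1, j2, j3, j4⟩ := exact_edge' I S E hκ ha hh c' hsm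
      have hb := hNrm (i₁ + i) (by omega) h hh j1 j2
      have j4' : |am p h (α (i₁ + i + 1)) (α (k' - i₁))| ≤ R * (1130 * a) := j4
      have j3' : |am p h (α i₁) (α (i₁ + i))| ≤ R * (1130 * a) := j3
      clear j3 j4
      have h5 : |am p h (α i₁) (α (k' - i₁))| ≤ 2 * (R * (1130 * a)) +
          |am p h (α (i₁ + i)) (α (i₁ + i + 1))| := by
        unfold am at *
        rw [abs_le] at *
        have := abs_le.1 (le_refl |p h (α (i₁ + i + 1)) - p h (α (i₁ + i))|)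
        omega
      have h6 : |am p h (α (i₁ + i)) (α (i₁ + i + 1))| ≤ max θ (n - θ) := by
        rw [abs_le]
        omega
      omega
    · omega
  · intro u hux huy
    have hαs2 : ∀ i < k', e (u * α i) (u * α (i + 1)) ≤ 1 := by
      intro i hi
      rw [E.left]
      exact hαs i hi
    have hq2 : q ((u * α 0 : G) : G ⧸ N) ((u * α k' : G) : G ⧸ N) = k' := by
      rw [QuotientGroup.mk_mul, QuotientGroup.mk_mul, hql, hq1]
    have geo2 := geo (fun i => u * α i) hαs2 hq2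
    have hNrm2 : Nrm P b p k' n θ (6 * (R * (1130 * a))) (fun i => u * α i) := by
      intro i hi h hh m1 m2
      obtain ⟨h', hh', -, pm, pam⟩ := pull I S hh u
      simp only
      rw [pam]
      exact hNrm i hi h' hh' (pm _ m1) (pm _ m2)
    obtain ⟨ν, hν, hν'⟩ := hqN (α k') (u * α k')
    have hνk : e (α k') (ν * (u * α k')) ≤ κ' := by
      rw [← hν', QuotientGroup.mk_mul, hαk, ← QuotientGroup.mk_mul]
      exact huy
    obtain ⟨g, hg, hg'⟩ := hqN (ν * (u * α 0)) (α 0)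
    have hg0 : e (ν * (u * α 0)) (g * α 0) ≤ κ' := by
      rw [← hg', mk_mul_left N hν, hα0, hq.symm]
      exact hux
    obtain ⟨β₁, γ₁, C₁⟩ := close_up (N := N) (k := k') I S E hκ ha hR hN hKG green hn₁ hn₄ geo1
      geo2 _ (fun _ => 1) (fun _ => ν) g rfl (Adm.const N.one_mem) (Adm.const hν) hg rfl
      (by rw [one_mul]; exact hνk) hg0
    obtain ⟨β, γ, C, hst⟩ := straighten I S E hκ ha hR hN hn₅ geo1 geo2 hNrm hNrm2 hθ1 hθ2 _ β₁ γ₁
      rfl C₁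
    have hconst : ∀ t : ℕ, i₁ + t ≤ k' - i₁ → β (i₁ + t) = β i₁ ∧ γ (i₁ + t) = γ i₁ := by
      intro t
      induction t with
      | zero => intro _; exact ⟨rfl, rfl⟩
      | succ t ih =>
        intro ht
        obtain ⟨h1, h2⟩ := ih (by omega)
        obtain ⟨h3, h4⟩ := hst (i₁ + t) (by push_cast; omega) (by omega) (by push_cast; omega)
        rw [inv_mul_eq_one] at h3 h4
        rw [← add_assoc]
        exact ⟨h3.symm.trans h1, h4.symm.trans h2⟩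
    have hnear : ∀ i ≤ k', e (β i * α i) (γ i * (u * α i)) ≤ κ' + 4880 := by
      intro i hi
      have c1 := geo1 β C.a1
      have c2 := geo2 γ C.a2
      have d1 := c1.dist 0 i (by omega) hi
      have d2 := c1.dist i k' hi le_rfl
      have d3 := c2.dist 0 i (by omega) hi
      have d4 := c2.dist i k' hi le_rfl
      have d5 := c1.len
      have hz : gp e (β 0 * α 0) (β k' * α k') (β i * α i) ≤ 0 := by
        unfold gp
        have := hM.symm (β k' * α k') (β i * α i)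
        push_cast at d1
        omega
      have h1 := E.hyp.near_pt hM hz (γ i * (u * α i))
      have t1 := hM.tri (γ i * (u * α i)) (γ 0 * (u * α 0)) (β 0 * α 0)
      have t2 := hM.tri (γ i * (u * α i)) (γ k' * (u * α k')) (β k' * α k')
      have s1 := hM.symm (γ i * (u * α i)) (γ 0 * (u * α 0))
      have s2 := hM.symm (γ 0 * (u * α 0)) (β 0 * α 0)
      have s3 := hM.symm (γ k' * (u * α k')) (β k' * α k')
      have s4 := hM.symm (β k' * α k') (β i * α i)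
      have s5 := hM.symm (γ i * (u * α i)) (β i * α i)
      have k0 := C.c0
      have k1 := C.ck
      push_cast at d1 d3
      omega
    refine ⟨(β i₁)⁻¹ * γ i₁, N.mul_mem (N.inv_mem (C.a1.mem _)) (C.a2.mem _), ?_, ?_⟩
    · have h1 := hnear i₁ (by omega)
      have e1 : (β i₁)⁻¹ * γ i₁ * u * α i₁ = (β i₁)⁻¹ * (γ i₁ * (u * α i₁)) := by group
      have e2 := E.left (β i₁) (α i₁) ((β i₁)⁻¹ * γ i₁ * u * α i₁)
      rw [← e2, e1, mul_inv_cancel_left]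
      exact h1
    · have h1 := hnear (k' - i₁) (by omega)
      obtain ⟨h2, h3⟩ := hconst (k' - i₁ - i₁) (by omega)
      have e0 : i₁ + (k' - i₁ - i₁) = k' - i₁ := by omega
      rw [e0] at h2 h3
      rw [h2, h3] at h1
      have e1 : (β i₁)⁻¹ * γ i₁ * u * α (k' - i₁) =
        (β i₁)⁻¹ * (γ i₁ * (u * α (k' - i₁))) := by group
      have e2 := E.left (β i₁) (α (k' - i₁)) ((β i₁)⁻¹ * γ i₁ * u * α (k' - i₁))
      rw [← e2, e1, mul_inv_cancel_left]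
      exact h1

end Pool.Agent.Burnside
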