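import Pool.Agent.Burnside.Iso
import Pool.Agent.Burnside.AlignedBase

/-!
Centralisers of short loxodromic elements are infinite cyclic and self normalising.
-/

namespace Pool.Agent.Burnside

variable {G : Type*} [Group G] {d : G → G → ℤ} {n : ℕ} {R κ a : ℤ}

theorem Inv.lox' (I : Inv n R κ a 3 d) {u : G} (hu : u ^ n ≠ 1) : Lox d R u :=
  (I.lox u).resolve_left hu

/-- Data: an aligned orbit of a loxodromic element with bounded steps. -/
structure Base (d : G → G → ℤ) (u b : G) : Prop where
  step : d b (u * b) ≤ 112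
  al : Al d 42 (fun i : ℤ => u ^ i * b)

theorem Base.stp {u b : G} (hl : LInv d) (hb : Base d u b) :
    Stp d 112 (fun i : ℤ => u ^ i * b) := by
  intro i
  have e : d (u ^ i * b) (u ^ (i + 1) * b) = d b (u * b) := by
    rw [← hl (u ^ i) b (u * b)]
    congr 1
    rw [← mul_assoc, ← zpow_add_one]
  show d (u ^ i * b) (u ^ (i + 1) * b) ≤ 112
  rw [e]
  exact hb.step

theorem exists_base (I : Inv n R κ a 3 d) {u : G} (hu : u ^ n ≠ 1) {x : G} {m : ℕ} (hm : 0 < m)
    (hx : d x (u ^ m * x) ≤ 100) : ∃ b, Base d u b := by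
  have h1 : d x (u ^ m * x) ≤ m * 100 := by
    have : (1 : ℤ) ≤ m := by exact_mod_cast hm
    linarith
  obtain ⟨b, hb1, hb2⟩ := aligned_base d I.met I.left I.hyp u R (I.lox' hu) 100 (by norm_num) x m hm
    h1
  exact ⟨b, by linarith, by simpa using hb2⟩

/-- Elements commuting with `u` map the base point close to the orbit. -/
theorem near_orbit (I : Inv n R κ a 3 d) {u b : G} (hu : u ^ n ≠ 1) (hb : Base d u b) {g : G}
    (hg : g * u = u * g) : ∃ c : ℤ, d (g * b) (u ^ c * b) ≤ 157 := by
  have hM := I.met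
  have hl := I.left
  have hlox := I.lox' hu
  obtain ⟨K, hK⟩ := hlox.exists_far hM b (3 * d b (g * b) + 100)
  have hgz : ∀ k : ℤ, g * u ^ k = u ^ k * g := fun k =>
    ((show Commute g u from hg).zpow_right k).eq
  set B := d b (g * b) with hB
  have hB0 : 0 ≤ B := hM.nonneg _ _
  set P := u ^ (-(K : ℤ)) * b with hP
  set Q := u ^ (K : ℤ) * b with hQ
  have hPb : d P b = d b (u ^ K * b) := by
    rw [hP, zpow_neg, hl.inv_left, zpow_natCast]
  have hQb : d b Q = d b (u ^ K * b) := by rw [hQ, zpow_natCast]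
  have hfar := hK K le_rfl
  have hPP : d P (g * P) = B := by
    rw [hP, ← mul_assoc, hgz, mul_assoc, hl]
  have hQQ : d Q (g * Q) = B := by
    rw [hQ, ← mul_assoc, hgz, mul_assoc, hl]
  have h1 : gp d (g * P) (g * Q) (g * b) ≤ 42 := by
    rw [gp_left hl]
    have := hb.al (-(K : ℤ)) 0 K (by omega) (by omega)
    simpa [hP, hQ] using this
  -- products
  have hPz : d (g * P) (g * b) = d P b := hl _ _ _
  have hQz : d (g * Q) (g * b) = d Q b := hl _ _ _
  have t1 := hM.tri P (g * b) b
  have t2 := hM.tri Q (g * b) b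
  have s1 := hM.symm b (g * b)
  have s2 := hM.symm Q b
  have s3 := hM.symm P b
  have s4 := hM.symm P (g * P)
  have s5 := hM.symm Q (g * Q)
  have g1 := I.hyp.gp_ge hM (g * P) (g * Q) P (g * b)
  have g2 := I.hyp.gp_ge hM P (g * Q) Q (g * b)
  have h2 : gp d P Q (g * b) ≤ 48 := by
    unfold gp at *
    omega
  have hKK : (-(K : ℤ)) ≤ K := by omega
  obtain ⟨k, -, -, hk⟩ := exists_near_between hM I.hyp hb.al (hb.stp hl) hKK (y := g * b)
    (c := 48) (by simpa [hP, hQ] using h2)
  exact ⟨k, by simpa using hk⟩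

/-- The commuting elements are controlled by small displacements. -/
theorem central_comm (I : Inv n R κ a 3 d) {u b : G} (hu : u ^ n ≠ 1) {g g' : G} (hg : g * u = u * g) (hg' : g' * u = u * g')
    (hd : d b (g * b) ≤ κ) (hd' : d b (g' * b) ≤ κ) :
    g * g' = g' * g ∧ (g ^ n = 1 → g = 1) := by
  have hM := I.met
  have hl := I.left
  obtain ⟨K, hK⟩ := (I.lox' hu).exists_far hM b a
  have h1 := hK K le_rfl
  have hgz : ∀ k : ℕ, g * u ^ k = u ^ k * g := fun k =>
    ((show Commute g u from hg).pow_right k).eq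
  have hgz' : ∀ k : ℕ, g' * u ^ k = u ^ k * g' := fun k =>
    ((show Commute g' u from hg').pow_right k).eq
  refine I.comm b (u ^ K * b) g g' h1 hd ?_ hd' ?_
  · rw [← mul_assoc, hgz, mul_assoc, hl]; exact hd
  · rw [← mul_assoc, hgz', mul_assoc, hl]; exact hd'

theorem central_torsion (I : Inv n R κ a 3 d) (hn : 0 < n) (hκ : 1000 ≤ κ) {u b : G}
    (hu : u ^ n ≠ 1) (hb : Base d u b) {g : G} (hg : g * u = u * g) (hgn : g ^ n = 1) : g = 1 := by
  have hM := I.met
  have hl := I.left
  obtain ⟨c, hc⟩ := near_orbit I hu hb hg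
  have hgz : ∀ k : ℤ, g * u ^ k = u ^ k * g := fun k =>
    ((show Commute g u from hg).zpow_right k).eq
  -- the inverse
  have hc' : d (g⁻¹ * b) (u ^ (-c) * b) ≤ 157 := by
    rw [hl.inv_left, ← mul_assoc, hgz, mul_assoc, zpow_neg, hl.inv_right, hM.symm]
    exact hc
  have hgp : gp d (u ^ (-c) * b) (u ^ c * b) b ≤ 42 := by
    rcases le_total 0 c with h0 | h0
    · have := hb.al (-c) 0 c (by omega) h0
      simpa using this
    · have := hb.al c 0 (-c) h0 (by omega)
      rw [gp_symm hM] at this
      simpa using this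
  have h2 := gp_lip hM (u ^ (-c) * b) (u ^ c * b) b (g⁻¹ * b) (g * b)
  have e1 : d (g⁻¹ * b) b = d b (g * b) := hl.inv_left _ _ _
  have e2 : d (g⁻¹ * b) (g * b) = d b (g ^ 2 * b) := by
    rw [hl.inv_left, ← mul_assoc, pow_two]
  have h3 := disp_torsion hM hl I.hyp g b hn hgn
  have s1 := hM.symm (u ^ (-c) * b) (g⁻¹ * b)
  have s2 := hM.symm (u ^ c * b) (g * b)
  have s3 := hM.symm b (g * b)
  have h4 : d b (g * b) ≤ κ := by
    unfold gp at h2 hgp
    omega
  exact (central_comm I hu hg hg h4 h4).2 hgn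

/-- Centralisers of short loxodromic elements are abelian. -/
theorem central_abelian (I : Inv n R κ a 3 d) (hκ : 1000 ≤ κ) {u b : G}
    (hu : u ^ n ≠ 1) (hb : Base d u b) {g g' : G} (hg : g * u = u * g) (hg' : g' * u = u * g') :
    g * g' = g' * g := by
  have hM := I.met
  have hl := I.left
  obtain ⟨c, hc⟩ := near_orbit I hu hb hg
  obtain ⟨c', hc'⟩ := near_orbit I hu hb hg'
  have C1 : Commute g u := hg
  have C2 : Commute g' u := hg'
  have k1 : (u ^ (-c) * g) * u = u * (u ^ (-c) * g) :=
    (((Commute.refl u).zpow_left (-c)).mul_left C1).eq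
  have k2 : (u ^ (-c') * g') * u = u * (u ^ (-c') * g') :=
    (((Commute.refl u).zpow_left (-c')).mul_left C2).eq
  have d1 : d b (u ^ (-c) * g * b) ≤ κ := by
    rw [mul_assoc, zpow_neg, hl.inv_right, hM.symm]; linarith
  have d2 : d b (u ^ (-c') * g' * b) ≤ κ := by
    rw [mul_assoc, zpow_neg, hl.inv_right, hM.symm]; linarith
  have h := (central_comm I hu k1 k2 d1 d2).1
  -- remove the central factors
  have hh : Commute (u ^ (-c) * g) (u ^ (-c') * g') := h
  have c1 : Commute (u ^ (-c)) (u ^ (-c') * g') := by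
    have : Commute u (u ^ (-c') * g') := (show Commute (u ^ (-c') * g') u from k2).symm
    exact this.zpow_left _
  have h5 : Commute g (u ^ (-c') * g') := by
    have := (c1.inv_left).mul_left hh
    simpa [← mul_assoc] using this
  have c2 : Commute g (u ^ (-c')) := C1.zpow_right _
  have h6 : Commute g g' := by
    have := (c2.inv_right).mul_right h5
    simpa [← mul_assoc] using this
  exact h6.eq

/-- Centralisers of short loxodromic elements are cyclic. -/
theorem central_cyclic (I : Inv n R κ a 3 d) (hn : 0 < n) (hκ : 1000 ≤ κ) {u b : G}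
    (hu : u ^ n ≠ 1) (hb : Base d u b) :
    ∃ h : G, u ∈ Subgroup.zpowers h ∧ h * u = u * h ∧
      ∀ g : G, g * u = u * g → g ∈ Subgroup.zpowers h := by
  classical
  have hM := I.met
  have hl := I.left
  have hlox := I.lox' hu
  have hR := hlox.pos hM
  -- the centraliser as a commutative group
  set A : Subgroup G := Subgroup.centralizer {u} with hA
  have memA : ∀ {g : G}, g ∈ A ↔ g * u = u * g := by
    intro g
    rw [hA, Subgroup.mem_centralizer_singleton_iff]
  have huA : u ∈ A := memA.2 rfl
  -- near index functions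
  have hnear : ∀ g : A, ∃ c : ℤ, d ((g : G) * b) (u ^ c * b) ≤ 157 := fun g =>
    near_orbit I hu hb (memA.1 g.2)
  -- the fixed exponent
  obtain ⟨m, hm⟩ : ∃ m : ℕ, R * 314 < m := ⟨(R * 314).toNat + 1, by omega⟩
  have hm0 : 0 < m := by
    have : 0 < R * 314 := by positivity
    omega
  choose cf hcf using fun g : A => hnear (g ^ m)
  have hinj : Function.Injective cf := by
    intro g g' hgg
    by_contra hne
    have hc1 := hcf g
    have hc2 := hcf g'
    rw [← hgg] at hc2
    push_cast at hc1 hc2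
    have hcomm : Commute (g : G) (g' : G) :=
      central_abelian I hκ hu hb (memA.1 g.2) (memA.1 g'.2)
    have ht : ((g : G)⁻¹ * g') ^ n ≠ 1 := by
      intro h1
      have : ((g : G)⁻¹ * g') = 1 := by
        refine central_torsion I hn hκ hu hb ?_ h1
        exact memA.1 (A.mul_mem (A.inv_mem g.2) g'.2)
      apply hne
      ext
      exact (inv_mul_eq_one.1 this)
    have h2 := (I.lox' ht) b m
    have e : d b (((g : G)⁻¹ * g') ^ m * b) = d ((g : G) ^ m * b) ((g' : G) ^ m * b) := by
      rw [hcomm.inv_left.mul_pow, inv_pow, mul_assoc, hl.inv_right]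
    rw [e] at h2
    have h3 := hM.tri ((g : G) ^ m * b) (u ^ cf g * b) ((g' : G) ^ m * b)
    have s := hM.symm (u ^ cf g * b) ((g' : G) ^ m * b)
    have h4 : d ((g : G) ^ m * b) ((g' : G) ^ m * b) ≤ 314 := by omega
    have h5 : R * d ((g : G) ^ m * b) ((g' : G) ^ m * b) ≤ R * 314 :=
      mul_le_mul_of_nonneg_left h4 hR.le
    omega
  -- finiteness of the set of elements of small displacement
  set W : Set A := {g | d b ((g : G) * b) ≤ 157} with hW
  have hWfin : W.Finite := by
    have : Set.MapsTo cf W (Set.Icc (-(R * (m * 157 + 157))) (R * (m * 157 + 157))) := by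
      intro g hg
      have h1 := hcf g
      push_cast at h1
      have h2 : ∀ k : ℕ, d b ((g : G) ^ k * b) ≤ k * 157 := by
        intro k
        induction k with
        | zero => simp [hM.self]
        | succ k ih =>
          have t := hM.tri b ((g : G) ^ k * b) ((g : G) ^ (k + 1) * b)
          have e : d ((g : G) ^ k * b) ((g : G) ^ (k + 1) * b) = d b ((g : G) * b) := by
            rw [pow_succ, mul_assoc, hl]
          have hg' : d b ((g : G) * b) ≤ 157 := hg
          push_cast
          rw [e] at t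
          linarith
      have h3 := h2 m
      have h4 := hM.tri b ((g : G) ^ m * b) (u ^ cf g * b)
      have h5 := hlox.zpow hM hl b (cf g)
      have h6 : d b (u ^ cf g * b) ≤ m * 157 + 157 := by linarith
      have h7 : R * d b (u ^ cf g * b) ≤ R * (m * 157 + 157) := mul_le_mul_of_nonneg_left h6 hR.le
      have h8 := abs_le.1 (h5.trans h7)
      exact ⟨h8.1, h8.2⟩
    exact Set.Finite.of_injOn this hinj.injOn (Set.finite_Icc _ _)
  -- A is a commutative group
  let _ : CommGroup A := { (inferInstance : Group A) with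
    mul_comm := fun g g' => by
      ext
      exact central_abelian I hκ hu hb (memA.1 g.2) (memA.1 g'.2) }
  set uA : A := ⟨u, huA⟩ with huAdef
  -- finite index
  have hfi : Finite (A ⧸ Subgroup.zpowers uA) := by
    have : Finite W := hWfin
    refine Finite.of_surjective (fun w : W => (QuotientGroup.mk (w : A) : A ⧸ Subgroup.zpowers uA)) ?_
    intro g
    induction g using QuotientGroup.induction_on with
    | H g =>
      obtain ⟨c, hc⟩ := hnear g
      have hw : (uA ^ (-c) * g) ∈ W := by
        show d b (((uA ^ (-c) * g : A) : G) * b) ≤ 157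
        have : ((uA ^ (-c) * g : A) : G) = u ^ (-c) * g := by
          simp [huAdef]
        rw [this, mul_assoc, zpow_neg, hl.inv_right, hM.symm]
        exact hc
      refine ⟨⟨_, hw⟩, ?_⟩
      simp only
      rw [QuotientGroup.eq]
      refine Subgroup.mem_zpowers_iff.2 ⟨c, ?_⟩
      rw [mul_comm (uA ^ (-c)) g, mul_inv_rev, ← zpow_neg, neg_neg, mul_assoc, inv_mul_cancel, mul_one]
  have hidx : (Subgroup.zpowers uA).FiniteIndex := Subgroup.finiteIndex_of_finite_quotient
  set q := (Subgroup.zpowers uA).index with hq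
  have hq0 : q ≠ 0 := hidx.index_ne_zero
  have hpow : ∀ g : A, ∃ c : ℤ, uA ^ c = g ^ q := fun g =>
    Subgroup.mem_zpowers_iff.1 (Subgroup.pow_index_mem (Subgroup.zpowers uA) g)
  choose φ hφ using hpow
  have huinj : Function.Injective (fun c : ℤ => uA ^ c) := by
    intro c c' hcc
    by_contra hne
    have h1 : (u : G) ^ (c - c') = 1 := by
      have : (uA ^ c : A) = uA ^ c' := hcc
      have h2 : ((uA ^ c : A) : G) = ((uA ^ c' : A) : G) := by rw [this]
      rw [zpow_sub]
      simp only [huAdef, Subgroup.coe_zpow] at h2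
      rw [h2, mul_inv_cancel]
    exact hlox.zpow_ne_one hM hl (sub_ne_zero.2 hne) h1
  let Φ : A →* Multiplicative ℤ := MonoidHom.mk' (fun g => Multiplicative.ofAdd (φ g)) (by
    intro g g'
    rw [← ofAdd_add]
    congr 1
    apply huinj
    simp only
    rw [hφ, zpow_add, hφ, hφ, mul_pow])
  have hΦ : Function.Injective Φ := by
    rw [injective_iff_map_eq_one]
    intro g hg
    have h1 : φ g = 0 := by
      have : Multiplicative.ofAdd (φ g) = Multiplicative.ofAdd 0 := hg
      exact Multiplicative.ofAdd.injective this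
    have h2 := hφ g
    rw [h1, zpow_zero] at h2
    by_contra hne
    have ht : (g : G) ^ n ≠ 1 := by
      intro h3
      apply hne
      ext
      exact central_torsion I hn hκ hu hb (memA.1 g.2) h3
    have h4 : (g : G) ^ q = 1 := by
      have : ((g ^ q : A) : G) = 1 := by rw [← h2]; rfl
      simpa using this
    exact (I.lox' ht).ne_one hM (Nat.pos_of_ne_zero hq0) h4
  have : IsCyclic A := isCyclic_of_injective Φ hΦ
  obtain ⟨h, hh⟩ := IsCyclic.exists_generator (α := A)
  have hgen : ∀ g : G, g * u = u * g → g ∈ Subgroup.zpowers (h : G) := by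
    intro g hg
    obtain ⟨c, hc⟩ := Subgroup.mem_zpowers_iff.1 (hh ⟨g, memA.2 hg⟩)
    refine Subgroup.mem_zpowers_iff.2 ⟨c, ?_⟩
    have : ((h ^ c : A) : G) = g := by rw [hc]
    simpa using this
  exact ⟨h, hgen u rfl, memA.1 h.2, hgen⟩

end Pool.Agent.Burnside
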