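import Pool.Agent.Burnside.Basic

/-!
Definitions for the inductive step: left invariant metrics on a group, loxodromic elements,
the inductive invariant, rotation systems.
-/

namespace Pool.Agent.Burnside

variable {G : Type*} [Group G]

/-- Left invariance. -/
def LInv (d : G → G → ℤ) : Prop := ∀ u x y, d (u * x) (u * y) = d x y

/-- Loxodromic, stable translation length at least `1 / R`. -/
def Lox (d : G → G → ℤ) (R : ℤ) (u : G) : Prop := ∀ (x : G) (m : ℕ), (m : ℤ) ≤ R * d x (u ^ m * x)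

/-- The invariant of the induction. -/
structure Inv (n : ℕ) (R κ a D : ℤ) (d : G → G → ℤ) : Prop where
  met : IsMet d
  hyp : Hyp D d
  left : LInv d
  lox : ∀ u, u ^ n = 1 ∨ Lox d R u
  comm : ∀ x y u v, a ≤ d x y → d x (u * x) ≤ κ → d y (u * y) ≤ κ → d x (v * x) ≤ κ →
    d y (v * y) ≤ κ → u * v = v * u ∧ (u ^ n = 1 → u = 1)

/-- Abstract system of axes: `P` is a set of oriented generators, `O h` is the axis of `h`,
`a h x y` is the (signed) difference of the coordinates of `x`, `y` on the axis of `h`. -/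
structure RotSys (P : Set G) (a : G → G → G → ℤ) (O : G → Set G) (dist : G → G → ℤ)
    (θ K : ℤ) : Prop where
  conj : ∀ h ∈ P, ∀ g, g * h * g⁻¹ ∈ P
  noninv : ∀ h ∈ P, h⁻¹ ∉ P
  nonempty : ∀ h ∈ P, (O h).Nonempty
  add : ∀ h ∈ P, ∀ x y z, a h x z = a h x y + a h y z
  equiv : ∀ h ∈ P, ∀ g x y, a (g * h * g⁻¹) (g * x) (g * y) = a h x y
  shift : ∀ h ∈ P, ∀ x y, a h x (h * y) = a h x y + 1
  Oequiv : ∀ h ∈ P, ∀ g x, x ∈ O h → g * x ∈ O (g * h * g⁻¹)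
  bdd : ∀ h ∈ P, ∀ h' ∈ P, h ≠ h' → ∀ x ∈ O h', ∀ y ∈ O h', |a h x y| ≤ θ
  beh : ∀ h ∈ P, ∀ h' ∈ P, h ≠ h' → ∀ x, ∀ y ∈ O h, ∀ z ∈ O h', |a h x z| ≤ θ ∨ |a h' x y| ≤ θ
  dist_nonneg : ∀ h ∈ P, ∀ x, 0 ≤ dist x h
  dist_equiv : ∀ h ∈ P, ∀ g x, dist (g * x) (g * h * g⁻¹) = dist x h
  sep : ∀ h ∈ P, ∀ h' ∈ P, h ≠ h' → ∀ x, ∀ y ∈ O h, K < |a h' x y| → dist x h' < dist x h

/-- The subgroup generated by the rotations. -/
def rotN (P : Set G) (n : ℕ) : Subgroup G := Subgroup.closure {g | ∃ h ∈ P, g = h ^ n}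

/-- The one step theorem (for one exponent `n`), as used by the limit argument. -/
def StepHolds (n : ℕ) (R κ a D : ℤ) : Prop :=
  ∀ (G : Type) [Group G] (d : G → G → ℤ), Inv n R κ a D d → ¬ IsCyclic G → (∃ u : G, u ^ n ≠ 1) →
    ∃ (N : Subgroup G) (_ : N.Normal) (d' : G ⧸ N → G ⧸ N → ℤ), Inv n R κ a D d' ∧
      N ≤ Subgroup.normalClosure {g : G | ∃ u, g = u ^ n} ∧
      (∀ g : G, d 1 g ≤ 1 → g ^ n ∈ N) ∧
      (∀ g : G, 2 * d' 1 (g : G ⧸ N) ≤ d 1 g + 1) ∧ (∃ u : G ⧸ N, u ^ n ≠ 1)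

end Pool.Agent.Burnside
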