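import Pool.Agent.Burnside.Defs

/-!
Task E: the electric metric (chain metric) of `{d ≤ 1} ∪ E` and Bowditch's guessing geodesics,
for integer valued geodesic metrics.
-/

namespace Pool.Agent.Burnside

namespace Elec

variable {V : Type*}

/-- Chains of length `k` with steps in `A`, all of whose points satisfy `p`. -/
def Ch (A : V → V → Prop) (p : V → Prop) : ℕ → V → V → Prop
  | 0, x, y => x = y ∧ p x
  | k + 1, x, y => ∃ z, A x z ∧ p x ∧ Ch A p k z y

variable {A : V → V → Prop} {p : V → Prop}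

theorem Ch.left : ∀ {k : ℕ} {x y : V}, Ch A p k x y → p x
  | 0, _, _, h => h.2
  | _ + 1, _, _, ⟨_, _, h, _⟩ => h

theorem Ch.right : ∀ {k : ℕ} {x y : V}, Ch A p k x y → p y
  | 0, _, _, ⟨rfl, h⟩ => h
  | _ + 1, _, _, ⟨_, _, _, h⟩ => Ch.right h

theorem Ch.trans : ∀ {j k : ℕ} {x y z : V}, Ch A p j x y → Ch A p k y z → Ch A p (j + k) x z
  | 0, k, x, y, z, h1, h2 => by
      obtain ⟨rfl, _⟩ := h1
      simpa using h2
  | j + 1, k, x, y, z, h1, h2 => by
      obtain ⟨u, a, b, c⟩ := h1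
      have h3 := Ch.trans c h2
      rw [Nat.add_right_comm]
      exact ⟨u, a, b, h3⟩

theorem Ch.single {x y : V} (h : A x y) (hx : p x) (hy : p y) : Ch A p 1 x y :=
  ⟨y, h, hx, rfl, hy⟩

theorem Ch.symm (hA : ∀ x y, A x y → A y x) : ∀ {k : ℕ} {x y : V}, Ch A p k x y → Ch A p k y x
  | 0, _, _, ⟨rfl, h⟩ => ⟨rfl, h⟩
  | _ + 1, _, _, ⟨_, a, b, c⟩ => (Ch.symm hA c).trans (Ch.single (hA _ _ a) c.left b)

theorem Ch.split : ∀ {j k : ℕ} {x z : V}, Ch A p (j + k) x z → ∃ y, Ch A p j x y ∧ Ch A p k y z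
  | 0, k, x, z, h => ⟨x, ⟨rfl, h.left⟩, by simpa using h⟩
  | j + 1, k, x, z, h => by
      rw [Nat.add_right_comm] at h
      obtain ⟨u, a, b, c⟩ := h
      obtain ⟨y, h1, h2⟩ := Ch.split c
      exact ⟨y, ⟨u, a, b, h1⟩, h2⟩

theorem Ch.mono {q : V → Prop} (hpq : ∀ x, p x → q x) :
    ∀ {k : ℕ} {x y : V}, Ch A p k x y → Ch A q k x y
  | 0, _, _, ⟨h1, h2⟩ => ⟨h1, hpq _ h2⟩
  | _ + 1, _, _, ⟨u, a, b, c⟩ => ⟨u, a, hpq _ b, Ch.mono hpq c⟩

theorem Ch.of_fun (α : ℕ → V) : ∀ (k i : ℕ), (∀ s, i ≤ s → s < i + k → A (α s) (α (s + 1))) →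
    (∀ s, i ≤ s → s ≤ i + k → p (α s)) → Ch A p k (α i) (α (i + k))
  | 0, i, _, h2 => ⟨rfl, h2 i le_rfl le_rfl⟩
  | k + 1, i, h1, h2 => by
      refine ⟨α (i + 1), h1 i le_rfl (by omega), h2 i le_rfl (by omega), ?_⟩
      have e : i + (k + 1) = i + 1 + k := by ring
      rw [e]
      exact Ch.of_fun α k (i + 1) (fun s hs hs' => h1 s (by omega) (by omega))
        (fun s hs hs' => h2 s (by omega) (by omega))

theorem Ch.pad (hA : ∀ x, A x x) : ∀ (j : ℕ) {k : ℕ} {x y : V}, Ch A p k x y → Ch A p (j + k) x y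
  | 0, k, x, y, h => by simpa using h
  | j + 1, k, x, y, h => by
      rw [Nat.add_right_comm]
      exact ⟨x, hA x, h.left, Ch.pad hA j h⟩

/-- The chain metric as a natural number. -/
noncomputable def eN (A : V → V → Prop) (x y : V) : ℕ := sInf {k | Ch A (fun _ => True) k x y}

/-- Integer geodesics exist as functions. -/
theorem exists_geod {d : V → V → ℤ} (h : IsMet d) : ∀ (k : ℕ) (x y : V), d x y = k →
    ∃ σ : ℕ → V, σ 0 = x ∧ σ k = y ∧ ∀ i < k, d (σ i) (σ (i + 1)) ≤ 1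
  | 0, x, y, hk => by
      have := h.sep x y (by simpa using hk)
      subst this
      exact ⟨fun _ => x, rfl, rfl, fun i hi => absurd hi (Nat.not_lt_zero i)⟩
  | k + 1, x, y, hk => by
      obtain ⟨z, hz1, hz2⟩ := h.geo x y 1 (by norm_num) (by rw [hk]; push_cast; omega)
      obtain ⟨σ, s0, s1, s2⟩ := exists_geod h k z y (by rw [hz2, hk]; push_cast; ring)
      refine ⟨fun i => Nat.casesOn i x (fun j => σ j), rfl, s1, ?_⟩
      intro i hi
      cases i with
      | zero => show d x (σ 0) ≤ 1; rw [s0, hz1]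
      | succ i => exact s2 i (by omega)

theorem step_le {d : V → V → ℤ} (h : IsMet d) (σ : ℕ → V) (k : ℕ)
    (hs : ∀ i < k, d (σ i) (σ (i + 1)) ≤ 1) : ∀ (j i : ℕ), i + j ≤ k → d (σ i) (σ (i + j)) ≤ j
  | 0, i, _ => by simp [h.self]
  | j + 1, i, hij => by
      have h1 := step_le h σ k hs j i (by omega)
      have h2 := hs (i + j) (by omega)
      have h3 := h.tri (σ i) (σ (i + j)) (σ (i + (j + 1)))
      have e : i + (j + 1) = i + j + 1 := by ring
      rw [e] at h3 ⊢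
      push_cast
      omega

theorem geod_eq {d : V → V → ℤ} (h : IsMet d) (σ : ℕ → V) (k : ℕ) (hk : d (σ 0) (σ k) = k)
    (hs : ∀ i < k, d (σ i) (σ (i + 1)) ≤ 1) {i j : ℕ} (hij : i ≤ j) (hj : j ≤ k) :
    d (σ i) (σ j) = (j : ℤ) - i := by
  obtain ⟨t, rfl⟩ : ∃ t, j = i + t := ⟨j - i, by omega⟩
  have h1 := step_le h σ k hs t i hj
  have h2 := step_le h σ k hs i 0 (by omega)
  obtain ⟨s, rfl⟩ : ∃ s, k = i + t + s := ⟨k - (i + t), by omega⟩
  have h3 := step_le h σ (i + t + s) hs s (i + t) le_rfl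
  have h4 := h.tri (σ 0) (σ i) (σ (i + t + s))
  have h5 := h.tri (σ i) (σ (i + t)) (σ (i + t + s))
  rw [Nat.zero_add] at h2
  push_cast at *
  omega

section Setup

variable {d : V → V → ℤ} {D : ℤ}

/-- A point on one side of a triangle is `2D`-close to a point on one of the other two sides. -/
theorem side_near (hd : IsMet d) (hH : Hyp D d) {x y w : V} (hw : gp d x y w = 0) (m : V) :
    ∃ w', d w w' ≤ 2 * D ∧ (gp d x m w' = 0 ∨ gp d m y w' = 0) := by
  have hD : 0 ≤ D := hH.nonneg hd x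
  have key : ∀ x y w : V, gp d x y w = 0 → gp d x m w ≤ D →
      ∃ w', d w w' ≤ 2 * D ∧ gp d x m w' = 0 := by
    intro x y w hw hm
    by_cases hc : d x w ≤ d x m
    · obtain ⟨z, hz1, hz2⟩ := hd.geo x m (d x w) (hd.nonneg _ _) hc
      have hz : gp d x m z = 0 := by
        unfold gp
        have := hd.symm m z
        omega
      refine ⟨z, ?_, hz⟩
      have h1 := hH.near_pt hd (le_of_eq hz) w
      have e1 := hd.symm w x
      have e2 := hd.symm w m
      have e3 := hd.symm m z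
      unfold gp at hm
      omega
    · refine ⟨m, ?_, ?_⟩
      · have e1 := hd.symm m w
        unfold gp at hm
        omega
      · unfold gp
        have := hd.self m
        omega
  have h1 := hH x y w m
  have h1' := hH x w y m
  have e1 := hd.symm x y
  have e2 := hd.symm w m
  have e3 := hd.symm w y
  have e4 := hd.symm y m
  have e5 := hd.symm w x
  have hw' := hw
  unfold gp at hw'
  have h2 := hH x w m y
  have e6 := hd.symm m y
  have e7 := hd.symm m w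
  have hor : gp d x m w ≤ D ∨ gp d y m w ≤ D := by
    unfold gp
    have h3 := hH x w y m
    omega
  rcases hor with hc | hc
  · obtain ⟨w', a, b⟩ := key x y w hw hc
    exact ⟨w', a, Or.inl b⟩
  · obtain ⟨w', a, b⟩ := key y x w (by rw [gp_symm hd]; exact hw) hc
    exact ⟨w', a, Or.inr (by rw [gp_symm hd]; exact b)⟩

end Setup


section Metric

theorem eN_le {k : ℕ} {x y : V} (h : Ch A (fun _ => True) k x y) : eN A x y ≤ k := Nat.sInf_le h

theorem eN_spec (hc : ∀ x y, ∃ k, Ch A (fun _ => True) k x y) (x y : V) :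
    Ch A (fun _ => True) (eN A x y) x y := Nat.sInf_mem (hc x y)

theorem eN_isMet (hs : ∀ x y, A x y → A y x)
    (hc : ∀ x y, ∃ k, Ch A (fun _ => True) k x y) : IsMet (fun x y => (eN A x y : ℤ)) where
  self x := by
    have h : eN A x x ≤ 0 := eN_le ⟨rfl, trivial⟩
    simp only [Nat.cast_eq_zero]
    omega
  sep x y h := by
    have h1 := eN_spec hc x y
    have h0 : eN A x y = 0 := by exact_mod_cast h
    rw [h0] at h1
    exact h1.1
  symm x y := by
    have h1 : eN A y x ≤ eN A x y := eN_le (Ch.symm hs (eN_spec hc x y))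
    have h2 : eN A x y ≤ eN A y x := eN_le (Ch.symm hs (eN_spec hc y x))
    have h3 : eN A x y = eN A y x := le_antisymm h2 h1
    simp only [h3]
  tri x y z := by
    have h1 : eN A x z ≤ eN A x y + eN A y z := eN_le ((eN_spec hc x y).trans (eN_spec hc y z))
    exact_mod_cast h1
  geo x y t h0 h1 := by
    obtain ⟨t, rfl⟩ : ∃ s : ℕ, t = s := ⟨t.toNat, by omega⟩
    have h1' : t ≤ eN A x y := by exact_mod_cast h1
    obtain ⟨r, hr⟩ : ∃ r, eN A x y = t + r := ⟨eN A x y - t, by omega⟩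
    have h2 := eN_spec hc x y
    rw [hr] at h2
    obtain ⟨z, hz1, hz2⟩ := Ch.split h2
    have a1 : eN A x z ≤ t := eN_le hz1
    have a2 : eN A z y ≤ r := eN_le hz2
    have a3 : eN A x y ≤ eN A x z + eN A z y := eN_le ((eN_spec hc x z).trans (eN_spec hc z y))
    refine ⟨z, ?_, ?_⟩
    · show (eN A x z : ℤ) = t
      omega
    · show (eN A z y : ℤ) = (eN A x y : ℤ) - t
      omega

theorem eN_le_one (hr : ∀ x, A x x) (hc : ∀ x y, ∃ k, Ch A (fun _ => True) k x y) (x y : V) :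
    (eN A x y : ℤ) ≤ 1 ↔ A x y := by
  constructor
  · intro h
    have h' : eN A x y ≤ 1 := by exact_mod_cast h
    have h1 := eN_spec hc x y
    obtain ⟨r, hr1⟩ : ∃ r, 1 = r + eN A x y := ⟨1 - eN A x y, by omega⟩
    have h2 : Ch A (fun _ => True) 1 x y := by
      rw [hr1]; exact Ch.pad hr r h1
    obtain ⟨z, hz, -, hz2, -⟩ := h2
    rw [← hz2]
    exact hz
  · intro h
    have : eN A x y ≤ 1 := eN_le (Ch.single h trivial trivial)
    exact_mod_cast this

end Metric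

section Key

variable {d e : V → V → ℤ} {D K : ℤ} {E : V → V → Prop}

/-- Every point of a `d`-geodesic is close to every chain with the same end points. -/
theorem key (hd : IsMet d) (hH : Hyp D d) (he : IsMet e) (hed : ∀ x y, e x y ≤ d x y)
    (he1 : ∀ x y, E x y → e x y ≤ 1) (hK : 0 ≤ K) (Es : ∀ x y, E x y → E y x)
    (hE : ∀ x y w, E x y → gp d x y w = 0 → ∃ z, d w z ≤ K ∧ (z = x ∨ E x z)) :
    ∀ (c k : ℕ), k ≤ 2 ^ c → ∀ x y w : V, gp d x y w = 0 →
      Ch (fun x y => d x y ≤ 1 ∨ E x y) p k x y → ∃ v, p v ∧ e w v ≤ K + 1 + 2 * D * c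
  | 0, k, hk, x, y, w, hw, hch => by
      have hk' : k = 0 ∨ k = 1 := by
        have : k ≤ 1 := by simpa using hk
        omega
      have hxw : ∀ z : V, d x z ≤ 1 → gp d x z w = 0 → p x → p z → ∃ v, p v ∧ e w v ≤ 0 := by
        intro z hz hw hx hpz
        have a1 := hd.nonneg x w
        have a2 := hd.nonneg w z
        have a3 := hd.symm z w
        have a4 := hd.symm x w
        unfold gp at hw
        by_cases h0 : d x w = 0
        · exact ⟨x, hx, by have := hed w x; omega⟩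
        · exact ⟨z, hpz, by have := hed w z; omega⟩
      rcases hk' with rfl | rfl
      · obtain ⟨rfl, hx⟩ := hch
        obtain ⟨v, hv, hv'⟩ := hxw x (by rw [hd.self]; norm_num) hw hx hx
        exact ⟨v, hv, by push_cast; omega⟩
      · obtain ⟨z, hz, hx, rfl, hpz⟩ := hch
        rcases hz with hz | hz
        · obtain ⟨v, hv, hv'⟩ := hxw z hz hw hx hpz
          exact ⟨v, hv, by push_cast; omega⟩
        · obtain ⟨u, hu1, hu2⟩ := hE x z w hz hw
          refine ⟨x, hx, ?_⟩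
          have h1 := hed w u
          have h2 := he.tri w u x
          have h3 : e u x ≤ 1 := by
            rcases hu2 with rfl | hu2
            · rw [he.self]; norm_num
            · rw [he.symm]; exact he1 _ _ hu2
          push_cast
          omega
  | c + 1, k, hk, x, y, w, hw, hch => by
      have hD : 0 ≤ D := hH.nonneg hd x
      obtain ⟨j, i, hk1, hj, hi⟩ : ∃ j i, k = j + i ∧ j ≤ 2 ^ c ∧ i ≤ 2 ^ c := by
        rw [pow_succ] at hk
        exact ⟨min k (2 ^ c), k - min k (2 ^ c), by omega, by omega, by omega⟩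
      rw [hk1] at hch
      obtain ⟨m, hm1, hm2⟩ := Ch.split hch
      obtain ⟨w', hw1, hw2⟩ := side_near hd hH hw m
      have h1 := hed w w'
      rcases hw2 with hw2 | hw2
      · obtain ⟨v, hv1, hv2⟩ := key hd hH he hed he1 hK Es hE c j hj x m w' hw2 hm1
        refine ⟨v, hv1, ?_⟩
        have h2 := he.tri w w' v
        have h3 : 2 * D * ((c + 1 : ℕ) : ℤ) = 2 * D * c + 2 * D := by push_cast; ring
        omega
      · obtain ⟨v, hv1, hv2⟩ := key hd hH he hed he1 hK Es hE c i hi m y w' hw2 hm2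
        refine ⟨v, hv1, ?_⟩
        have h2 := he.tri w w' v
        have h3 : 2 * D * ((c + 1 : ℕ) : ℤ) = 2 * D * c + 2 * D := by push_cast; ring
        omega

end Key


section Close

variable {d e : V → V → ℤ} {D K B : ℤ} {E : V → V → Prop}

/-- A geodesic chain, with the distance from its origin controlled. -/
theorem exists_ch (he : IsMet e) (hA : ∀ x y, e x y ≤ 1 → A x y) {x y : V} {j : ℕ}
    (hj : e x y = j) : Ch A (fun v => e x v ≤ j) j x y := by
  obtain ⟨σ, s0, s1, s2⟩ := exists_geod he j x y hj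
  have h := Ch.of_fun (A := A) (p := fun v => e x v ≤ j) σ j 0 (fun s _ hs => hA _ _ (s2 s (by omega)))
    (fun s _ hs => by
      have h1 := step_le he σ j s2 s 0 (by omega)
      rw [Nat.zero_add, s0] at h1
      show e x (σ s) ≤ j
      omega)
  rw [Nat.zero_add, s0, s1] at h
  exact h

theorem walk (he : IsMet e) (hA : ∀ x y, e x y ≤ 1 → A x y) (τ : ℕ → V) (m : ℕ)
    (hst : ∀ i < m, e (τ i) (τ (i + 1)) ≤ 1) (α : ℕ → V) (k R : ℕ)
    (hnear : ∀ i ≤ m, ∃ j ≤ k, e (τ i) (α j) ≤ R) (hfar : ∀ j ≤ k, (R : ℤ) ≤ e (τ 0) (α j))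
    (hend : ∃ j ≤ k, τ m = α j) :
    ∃ i ≤ m, ∃ j ≤ k, ∃ l ≤ R, Ch A (fun v => (R : ℤ) ≤ e (τ 0) v) l (τ i) (α j) ∧
      e (τ 0) (τ i) ≤ 2 * R + 1 ∧ e (τ i) (α j) ≤ R := by
  classical
  by_cases hc : ∃ i, i ≤ m ∧ 2 * (R : ℤ) + 1 ≤ e (τ 0) (τ i)
  · obtain ⟨h1, h2⟩ := Nat.find_spec hc
    set i := Nat.find hc with hi
    have hi0 : i ≠ 0 := by
      intro h0
      rw [h0, he.self] at h2
      omega
    obtain ⟨i', hi'⟩ : ∃ i', i = i' + 1 := ⟨i - 1, by omega⟩
    have h3 : ¬ (i' ≤ m ∧ 2 * (R : ℤ) + 1 ≤ e (τ 0) (τ i')) := Nat.find_min hc (by omega)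
    have h4 : e (τ 0) (τ i') ≤ 2 * R := by
      by_contra h5
      exact h3 ⟨by omega, by omega⟩
    have h5 := hst i' (by omega)
    rw [hi'] at h1 h2
    have h6 := he.tri (τ 0) (τ i') (τ (i' + 1))
    obtain ⟨j, hj, hj'⟩ := hnear (i' + 1) h1
    obtain ⟨l, hl⟩ : ∃ l : ℕ, e (τ (i' + 1)) (α j) = l :=
      ⟨(e (τ (i' + 1)) (α j)).toNat, by have := he.nonneg (τ (i' + 1)) (α j); omega⟩
    refine ⟨i' + 1, h1, j, hj, l, by omega, ?_, by omega, hj'⟩
    refine Ch.mono ?_ (exists_ch he hA hl)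
    intro v hv
    have h7 := he.tri (τ 0) v (τ (i' + 1))
    have h8 := he.symm v (τ (i' + 1))
    omega
  · push Not at hc
    obtain ⟨j, hj, hj'⟩ := hend
    refine ⟨m, le_rfl, j, hj, 0, Nat.zero_le _, ⟨hj', ?_⟩, ?_, ?_⟩
    · show (R : ℤ) ≤ e (τ 0) (τ m)
      rw [hj']
      exact hfar j hj
    · have := hc m le_rfl
      omega
    · rw [hj', he.self]
      omega

/-- Points of `d`-geodesics are close to every `e`-geodesic chain. -/
theorem close (hd : IsMet d) (hH : Hyp D d) (he : IsMet e) (hed : ∀ x y, e x y ≤ d x y)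
    (heA : ∀ x y, e x y ≤ 1 ↔ (d x y ≤ 1 ∨ E x y)) (hK : 0 ≤ K) (Es : ∀ x y, E x y → E y x)
    (hE : ∀ x y w, E x y → gp d x y w = 0 → ∃ z, d w z ≤ K ∧ (z = x ∨ E x z))
    (hB : ∀ r : ℕ, (r : ℤ) ≤ K + 5 + 2 * D * (Nat.clog 2 (8 * r + 8) + 1) → (r : ℤ) ≤ B)
    (x y w : V) (hw : gp d x y w = 0) (k : ℕ) (α : ℕ → V) (hk : e x y = k) (h0 : α 0 = x)
    (h1 : α k = y) (hα : ∀ i < k, e (α i) (α (i + 1)) ≤ 1) : ∃ i ≤ k, e w (α i) ≤ B := by
  classical
  have hD : 0 ≤ D := hH.nonneg hd x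
  -- the `d`-geodesic through `w`
  obtain ⟨a, ha⟩ : ∃ a : ℕ, d x w = a := ⟨(d x w).toNat, by have := hd.nonneg x w; omega⟩
  obtain ⟨b, hb⟩ : ∃ b : ℕ, d w y = b := ⟨(d w y).toNat, by have := hd.nonneg w y; omega⟩
  obtain ⟨σ₁, s0, s1, s2⟩ := exists_geod hd a x w ha
  obtain ⟨σ₂, t0, t1, t2⟩ := exists_geod hd b w y hb
  obtain ⟨σ, hσ⟩ : ∃ σ : ℕ → V, σ = fun i => if i ≤ a then σ₁ i else σ₂ (i - a) := ⟨_, rfl⟩
  have hσ0 : σ 0 = x := by rw [hσ]; simp [s0]
  have hσa : σ a = w := by rw [hσ]; simp [s1]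
  have hσL : σ (a + b) = y := by
    rw [hσ]
    by_cases hb0 : b = 0
    · subst hb0
      simp only [add_zero, le_refl, if_true, s1]
      rw [← t0, t1]
    · have : ¬ a + b ≤ a := by omega
      simp only [this, if_false, Nat.add_sub_cancel_left, t1]
  have hσs : ∀ i < a + b, d (σ i) (σ (i + 1)) ≤ 1 := by
    intro i hi
    rw [hσ]
    rcases lt_trichotomy i a with h | h | h
    · have e1 : i ≤ a := h.le
      have e2 : i + 1 ≤ a := h
      simp only [e1, e2, if_true]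
      exact s2 i h
    · subst h
      have e2 : ¬ i + 1 ≤ i := by omega
      simp only [le_refl, e2, if_true, if_false, s1, Nat.add_sub_cancel_left]
      rw [← t0]
      exact t2 0 (by omega)
    · have e1 : ¬ i ≤ a := by omega
      have e2 : ¬ i + 1 ≤ a := by omega
      simp only [e1, e2, if_false]
      have e3 : i + 1 - a = i - a + 1 := by omega
      rw [e3]
      exact t2 (i - a) (by omega)
  have hL : d (σ 0) (σ (a + b)) = ((a + b : ℕ) : ℤ) := by
    rw [hσ0, hσL]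
    unfold gp at hw
    have := hd.symm y w
    push_cast
    omega
  have hgeo : ∀ {i j : ℕ}, i ≤ j → j ≤ a + b → d (σ i) (σ j) = (j : ℤ) - i :=
    fun hij hj => geod_eq hd σ (a + b) hL hσs hij hj
  -- the minimal `R`
  have hex : ∃ r : ℕ, ∀ t ≤ a + b, ∃ i ≤ k, e (σ t) (α i) ≤ r := by
    refine ⟨a + b, fun t ht => ⟨0, Nat.zero_le _, ?_⟩⟩
    have g1 := hgeo (Nat.zero_le t) ht
    have g2 := hed (σ 0) (σ t)
    have g3 := he.symm (σ 0) (σ t)
    rw [h0, ← hσ0]
    push_cast at *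
    omega
  have hR := Nat.find_spec hex
  set R := Nat.find hex with hRdef
  have hRB : (R : ℤ) ≤ B := by
    obtain ⟨t₀, ht₀, hfar⟩ : ∃ t₀ ≤ a + b, ∀ j ≤ k, (R : ℤ) ≤ e (σ t₀) (α j) := by
      by_cases hR0 : R = 0
      · exact ⟨0, Nat.zero_le _, fun j _ => by rw [hR0]; exact_mod_cast he.nonneg _ _⟩
      · have := Nat.find_min hex (m := R - 1) (by omega)
        push Not at this
        obtain ⟨t, ht, ht'⟩ := this
        refine ⟨t, ht, fun j hj => ?_⟩
        have := ht' j hj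
        have hR1 : ((R - 1 : ℕ) : ℤ) = (R : ℤ) - 1 := by omega
        rw [hR1] at this
        omega
    have hA : ∀ x y, e x y ≤ 1 → (d x y ≤ 1 ∨ E x y) := fun x y h => (heA x y).1 h
    have hAs : ∀ x y, (d x y ≤ 1 ∨ E x y) → (d y x ≤ 1 ∨ E y x) := by
      rintro x y (h | h)
      · exact Or.inl (by rw [hd.symm]; exact h)
      · exact Or.inr (Es _ _ h)
    obtain ⟨i₁, hi₁, j₁, hj₁, l₁, hl₁, c₁, d₁, n₁⟩ := walk (A := fun x y => d x y ≤ 1 ∨ E x y)
      he hA (fun i => σ (t₀ - i)) t₀ (fun i hi => by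
        have g := hgeo (i := t₀ - (i + 1)) (j := t₀ - i) (by omega) (by omega)
        have g2 := hed (σ (t₀ - (i + 1))) (σ (t₀ - i))
        have g3 := he.symm (σ (t₀ - (i + 1))) (σ (t₀ - i))
        show e (σ (t₀ - i)) (σ (t₀ - (i + 1))) ≤ 1
        omega) α k R (fun i hi => hR (t₀ - i) (by omega))
      (fun j hj => by simpa using hfar j hj) ⟨0, Nat.zero_le _, by simp [hσ0, h0]⟩
    obtain ⟨i₂, hi₂, j₂, hj₂, l₂, hl₂, c₂, d₂, n₂⟩ := walk (A := fun x y => d x y ≤ 1 ∨ E x y)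
      he hA (fun i => σ (t₀ + i)) (a + b - t₀) (fun i hi => by
        have g := hgeo (i := t₀ + i) (j := t₀ + (i + 1)) (by omega) (by omega)
        have g2 := hed (σ (t₀ + i)) (σ (t₀ + (i + 1)))
        show e (σ (t₀ + i)) (σ (t₀ + (i + 1))) ≤ 1
        push_cast at g
        omega) α k R (fun i hi => hR (t₀ + i) (by omega))
      (fun j hj => by simpa using hfar j hj) ⟨k, le_rfl, by
        have : t₀ + (a + b - t₀) = a + b := by omega
        simp only [this, hσL, h1]⟩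
    simp only [Nat.sub_zero, Nat.add_zero] at c₁ d₁ c₂ d₂ n₁ n₂
    -- the chain along `α`
    have hαgeo : ∀ {i j : ℕ}, i ≤ j → j ≤ k → e (α i) (α j) = (j : ℤ) - i :=
      fun hij hj => geod_eq he α k (by rw [h0, h1, hk]) hα hij hj
    have hseg : ∀ i j : ℕ, i ≤ j → j ≤ k → Ch (fun x y => d x y ≤ 1 ∨ E x y)
        (fun v => (R : ℤ) ≤ e (σ t₀) v) (j - i) (α i) (α j) := by
      intro i j hij hj
      have h := Ch.of_fun (A := fun x y => d x y ≤ 1 ∨ E x y)
        (p := fun v => (R : ℤ) ≤ e (σ t₀) v) α (j - i) i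
        (fun s _ hs => hA _ _ (hα s (by omega))) (fun s _ hs => hfar s (by omega))
      have e1 : i + (j - i) = j := by omega
      rw [e1] at h
      exact h
    obtain ⟨l₃, hl₃, c₃⟩ : ∃ l₃ : ℕ, (l₃ : ℤ) = e (α j₁) (α j₂) ∧
        Ch (fun x y => d x y ≤ 1 ∨ E x y) (fun v => (R : ℤ) ≤ e (σ t₀) v) l₃ (α j₁) (α j₂) := by
      rcases le_total j₁ j₂ with h | h
      · exact ⟨j₂ - j₁, by rw [hαgeo h hj₂]; omega, hseg j₁ j₂ h hj₂⟩
      · refine ⟨j₁ - j₂, by rw [he.symm, hαgeo h hj₁]; omega, Ch.symm hAs (hseg j₂ j₁ h hj₁)⟩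
    have hl₃' : l₃ ≤ 6 * R + 2 := by
      have g1 := he.tri (α j₁) (σ (t₀ - i₁)) (α j₂)
      have g2 := he.tri (σ (t₀ - i₁)) (σ t₀) (α j₂)
      have g3 := he.tri (σ t₀) (σ (t₀ + i₂)) (α j₂)
      have g4 := he.symm (α j₁) (σ (t₀ - i₁))
      have g5 := he.symm (σ t₀) (σ (t₀ - i₁))
      omega
    have c := (c₁.trans c₃).trans (Ch.symm hAs c₂)
    have hgp : gp d (σ (t₀ - i₁)) (σ (t₀ + i₂)) (σ t₀) = 0 := by
      unfold gp
      rw [hd.symm (σ (t₀ + i₂)), hgeo (i := t₀ - i₁) (j := t₀) (by omega) (by omega),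
        hgeo (i := t₀) (j := t₀ + i₂) (by omega) (by omega),
        hgeo (i := t₀ - i₁) (j := t₀ + i₂) (by omega) (by omega)]
      ring
    obtain ⟨v, hv1, hv2⟩ := key hd hH he hed (fun x y h => (heA x y).2 (Or.inr h)) hK Es hE
      (Nat.clog 2 (8 * R + 8)) (l₁ + l₃ + l₂)
      (le_trans (by omega) (Nat.le_pow_clog (by norm_num) (8 * R + 8))) _ _ _ hgp c
    refine hB R ?_
    have h5 : 2 * D * ((Nat.clog 2 (8 * R + 8) : ℤ) + 1) = 2 * D * (Nat.clog 2 (8 * R + 8) : ℤ)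
      + 2 * D := by ring
    rw [h5]
    omega
  obtain ⟨i, hi, hi'⟩ := hR a (by omega)
  rw [hσa] at hi'
  exact ⟨i, hi, by omega⟩

end Close


section Thin

variable {d e : V → V → ℤ} {D B : ℤ}

/-- Conversely every point of an `e`-geodesic is close to the `d`-geodesic, and hence
`e`-geodesic triangles are thin. -/
theorem thin (hd : IsMet d) (he : IsMet e) (hed : ∀ x y, e x y ≤ d x y)
    (hB0 : 0 ≤ B)
    (hclose : ∀ x y w, gp d x y w = 0 → ∀ (k : ℕ) (α : ℕ → V), e x y = k → α 0 = x → α k = y →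
        (∀ i < k, e (α i) (α (i + 1)) ≤ 1) → ∃ i ≤ k, e w (α i) ≤ B)
    (x y : V) (k : ℕ) (α : ℕ → V) (hk : e x y = k) (h0 : α 0 = x) (h1 : α k = y)
    (hα : ∀ i < k, e (α i) (α (i + 1)) ≤ 1) (i : ℕ) (hi : i ≤ k) :
    ∃ w, gp d x y w = 0 ∧ e (α i) w ≤ 2 * B + 1 := by
  classical
  obtain ⟨L, hL⟩ : ∃ L : ℕ, d x y = L := ⟨(d x y).toNat, by have := hd.nonneg x y; omega⟩
  obtain ⟨σ, s0, s1, s2⟩ := exists_geod hd L x y hL
  have hgeo : ∀ {i j : ℕ}, i ≤ j → j ≤ L → d (σ i) (σ j) = (j : ℤ) - i :=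
    fun hij hj => geod_eq hd σ L (by rw [s0, s1, hL]) s2 hij hj
  have hσw : ∀ t ≤ L, gp d x y (σ t) = 0 := by
    intro t ht
    have g1 := hgeo (Nat.zero_le t) ht
    have g2 := hgeo ht le_rfl
    have g3 := hd.symm y (σ t)
    rw [s0] at g1
    rw [s1] at g2
    unfold gp
    push_cast at g1
    omega
  have hαgeo : ∀ {i j : ℕ}, i ≤ j → j ≤ k → e (α i) (α j) = (j : ℤ) - i :=
    fun hij hj => geod_eq he α k (by rw [h0, h1, hk]) hα hij hj
  -- last `t` such that `σ t` is close to some `α j`, `j ≤ i`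
  by_cases hlast : ∃ j ≤ i, e (σ L) (α j) ≤ B
  · obtain ⟨j, hj, hj'⟩ := hlast
    refine ⟨σ L, hσw L le_rfl, ?_⟩
    rw [s1] at hj' ⊢
    have g1 := hαgeo (i := j) (j := k) (by omega) le_rfl
    have g2 := hαgeo hi le_rfl
    have g3 := he.symm y (α j)
    rw [h1] at g1 g2
    omega
  · have hstart : ∃ j ≤ i, e (σ 0) (α j) ≤ B :=
      ⟨0, Nat.zero_le _, by rw [s0, h0, he.self]; exact hB0⟩
    have hex : ∃ t, ¬ ∃ j ≤ i, e (σ t) (α j) ≤ B := ⟨L, hlast⟩
    have hsp := Nat.find_spec hex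
    obtain ⟨t, ht⟩ : ∃ t, Nat.find hex = t + 1 := by
      refine ⟨Nat.find hex - 1, ?_⟩
      have : Nat.find hex ≠ 0 := fun h => by rw [h] at hsp; exact hsp hstart
      omega
    have hmin : ∃ j ≤ i, e (σ t) (α j) ≤ B := by
      have := Nat.find_min hex (m := t) (by omega)
      exact not_not.1 this
    have htL : t + 1 ≤ L := by
      rw [← ht]
      exact Nat.find_min' hex hlast
    rw [ht] at hsp
    obtain ⟨j, hj, hj'⟩ := hmin
    obtain ⟨j', hj1, hj2⟩ := hclose x y (σ (t + 1)) (hσw _ htL) k α hk h0 h1 hα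
    have hj3 : i < j' := by
      by_contra hcon
      exact hsp ⟨j', by omega, hj2⟩
    have g1 := hαgeo (i := j) (j := j') (by omega) hj1
    have g2 := he.tri (α j) (σ t) (α j')
    have g3 := he.tri (σ t) (σ (t + 1)) (α j')
    have g4 := hed (σ t) (σ (t + 1))
    have g5 := s2 t (by omega)
    have g6 := he.symm (α j) (σ t)
    have g7 := hαgeo (i := j) (j := i) hj hi
    have g8 := hαgeo (i := i) (j := j') hj3.le hj1
    by_cases hc : (i : ℤ) - j ≤ B
    · refine ⟨σ t, hσw t (by omega), ?_⟩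
      have g9 := he.tri (α i) (α j) (σ t)
      have g10 := he.symm (α i) (α j)
      omega
    · refine ⟨σ (t + 1), hσw _ htL, ?_⟩
      have g9 := he.tri (α i) (α j') (σ (t + 1))
      have g10 := he.symm (α j') (σ (t + 1))
      omega

/-- Hyperbolicity of the electric metric. -/
theorem hyp_of_close (hd : IsMet d) (hH : Hyp D d) (he : IsMet e) (hed : ∀ x y, e x y ≤ d x y)
    (hB0 : 0 ≤ B)
    (hclose : ∀ x y w, gp d x y w = 0 → ∀ (k : ℕ) (α : ℕ → V), e x y = k → α 0 = x → α k = y →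
        (∀ i < k, e (α i) (α (i + 1)) ≤ 1) → ∃ i ≤ k, e w (α i) ≤ B) :
    Hyp (6 * (3 * B + 2 * D + 1) + 2) e := by
  classical
  obtain ⟨τ, hτ⟩ : ∃ τ, τ = 3 * B + 2 * D + 1 := ⟨_, rfl⟩
  rw [← hτ]
  -- thin triangles
  have thin' : ∀ (x y z : V) (k : ℕ) (α : ℕ → V), e x y = k → α 0 = x → α k = y →
      (∀ i < k, e (α i) (α (i + 1)) ≤ 1) → ∀ i ≤ k,
      (∃ c, e (α i) c ≤ τ ∧ gp e x z c = 0) ∨ (∃ c, e (α i) c ≤ τ ∧ gp e z y c = 0) := by
    intro x y z k α hk h0 h1 hα i hi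
    obtain ⟨w, hw, hw'⟩ := thin hd he hed hB0 hclose x y k α hk h0 h1 hα i hi
    obtain ⟨w', hw1, hw2⟩ := side_near hd hH hw z
    have main : ∀ x y : V, gp d x y w' = 0 → ∃ c, e (α i) c ≤ τ ∧ gp e x y c = 0 := by
      intro x y hxy
      obtain ⟨l, hl⟩ : ∃ l : ℕ, e x y = l := ⟨(e x y).toNat, by have := he.nonneg x y; omega⟩
      obtain ⟨β, b0, b1, b2⟩ := exists_geod he l x y hl
      obtain ⟨j, hj, hj'⟩ := hclose x y w' hxy l β hl b0 b1 b2
      refine ⟨β j, ?_, ?_⟩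
      · have g1 := he.tri (α i) w (β j)
        have g2 := he.tri w w' (β j)
        have g3 := hed w w'
        omega
      · have g1 := geod_eq he β l (by rw [b0, b1, hl]) b2 (Nat.zero_le j) hj
        have g2 := geod_eq he β l (by rw [b0, b1, hl]) b2 hj le_rfl
        have g3 := he.symm y (β j)
        rw [b0] at g1
        rw [b1] at g2
        unfold gp
        push_cast at g1
        omega
    rcases hw2 with hw2 | hw2
    · exact Or.inl (main x z hw2)
    · exact Or.inr (main z y hw2)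
  -- the point `b`
  have cen : ∀ x y z : V, ∀ (k : ℕ) (α : ℕ → V), e x y = k → α 0 = x → α k = y →
      (∀ i < k, e (α i) (α (i + 1)) ≤ 1) → ∃ i ≤ k, 2 * e (α i) z ≤ gp e x y z + 4 * τ + 2 := by
    intro x y z k α hk h0 h1 hα
    have hτ0 : 0 ≤ τ := by have := hH.nonneg hd x; omega
    have hαgeo : ∀ {i j : ℕ}, i ≤ j → j ≤ k → e (α i) (α j) = (j : ℤ) - i :=
      fun hij hj => geod_eq he α k (by rw [h0, h1, hk]) hα hij hj
    -- last index close to `[x, z]`
    have hP0 : ∃ c, e (α 0) c ≤ τ ∧ gp e x z c = 0 := by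
      refine ⟨x, by rw [h0, he.self]; exact hτ0, ?_⟩
      unfold gp
      have := he.symm x z
      have := he.self x
      omega
    have hPk : ∃ c, e (α k) c ≤ τ ∧ gp e z y c = 0 := by
      refine ⟨y, by rw [h1, he.self]; exact hτ0, ?_⟩
      unfold gp
      have := he.self y
      omega
    -- first index close to `[z, y]`
    have hex : ∃ i, ∃ c, e (α i) c ≤ τ ∧ gp e z y c = 0 := ⟨k, hPk⟩
    have hsp := Nat.find_spec hex
    have hfk : Nat.find hex ≤ k := Nat.find_min' hex hPk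
    obtain ⟨i, hik, c₁, hc1, hc1', b', hb', c₂, hc2, hc2'⟩ : ∃ i ≤ k, ∃ c₁, e (α i) c₁ ≤ τ ∧
        gp e x z c₁ = 0 ∧ ∃ b', e (α i) b' ≤ 1 ∧ ∃ c₂, e b' c₂ ≤ τ ∧ gp e z y c₂ = 0 := by
      by_cases hf0 : Nat.find hex = 0
      · rw [hf0] at hsp
        obtain ⟨c₁, hc1, hc1'⟩ := hP0
        exact ⟨0, Nat.zero_le _, c₁, hc1, hc1', α 0, by rw [he.self]; norm_num, hsp⟩
      · obtain ⟨i, hi⟩ : ∃ i, Nat.find hex = i + 1 := ⟨Nat.find hex - 1, by omega⟩
        have hmin := Nat.find_min hex (m := i) (by omega)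
        rw [hi] at hsp
        rcases thin' x y z k α hk h0 h1 hα i (by omega) with h | h
        · obtain ⟨c₁, hc1, hc1'⟩ := h
          exact ⟨i, by omega, c₁, hc1, hc1', α (i + 1), hα i (by omega), hsp⟩
        · exact absurd h hmin
    refine ⟨i, hik, ?_⟩
    have g1 := he.tri (α i) c₁ z
    have g2 := he.tri x c₁ (α i)
    have g3 := he.symm (α i) c₁
    have g4 := he.symm c₁ z
    have g5 := he.tri b' c₂ z
    have g6 := he.tri y c₂ b'
    have g7 := he.symm b' c₂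
    have g8 := he.symm c₂ z
    have g9 := he.tri (α i) b' z
    have g10 := he.tri (α i) b' y
    have g11 := he.symm b' y
    have g12 := he.tri x (α i) y
    have g13 := he.symm z y
    have g14 := he.tri b' (α i) z
    have g15 := he.symm (α i) b'
    have g16 := he.symm z c₁
    unfold gp at *
    omega
  -- conclusion
  intro x z y w
  obtain ⟨k, hk⟩ : ∃ k : ℕ, e x y = k := ⟨(e x y).toNat, by have := he.nonneg x y; omega⟩
  obtain ⟨α, a0, a1, a2⟩ := exists_geod he k x y hk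
  obtain ⟨i, hi, hi'⟩ := cen x y w k α hk a0 a1 a2
  have g0 := he.symm y w
  have g1 := he.symm x y
  have g2 := he.symm z w
  have g3 := he.symm z y
  rcases thin' x y z k α hk a0 a1 a2 i hi with ⟨c, hc, hc'⟩ | ⟨c, hc, hc'⟩
  · have g4 := he.tri c (α i) w
    have g5 := he.symm c (α i)
    have g6 := he.tri x c w
    have g7 := he.tri z c w
    unfold gp at *
    omega
  · have g4 := he.tri c (α i) w
    have g5 := he.symm c (α i)
    have g6 := he.tri y c w
    have g7 := he.tri z c w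
    unfold gp at *
    omega

end Thin

end Elec

/-- **Electric metric** (Bowditch's criterion for the chain metric of `{d ≤ 1} ∪ E`). -/
theorem electric {V : Type*} (d : V → V → ℤ) {D : ℤ} (hd : IsMet d) (hH : Hyp D d)
    (E : V → V → Prop) (Es : ∀ x y, E x y → E y x) (K : ℤ) (hK : 0 ≤ K)
    (hE : ∀ x y w, E x y → gp d x y w = 0 → ∃ z, d w z ≤ K ∧ (z = x ∨ E x z))
    (B : ℤ) (hB : ∀ r : ℕ, (r : ℤ) ≤ K + 5 + 2 * D * (Nat.clog 2 (8 * r + 8) + 1) → (r : ℤ) ≤ B) :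
    ∃ e : V → V → ℤ, IsMet e ∧ (∀ x y, e x y ≤ d x y) ∧
      (∀ x y, e x y ≤ 1 ↔ (d x y ≤ 1 ∨ E x y)) ∧
      -- points of `d`-geodesics are close to every `e`-geodesic chain
      (∀ x y w, gp d x y w = 0 → ∀ (k : ℕ) (α : ℕ → V), e x y = k → α 0 = x → α k = y →
        (∀ i < k, e (α i) (α (i + 1)) ≤ 1) → ∃ i ≤ k, e w (α i) ≤ B) ∧
      Hyp (20 * B + 20 * D + 20) e ∧
      -- `e` is the largest such metric: it is the chain metric
      (∀ (x y : V) (k : ℕ) (α : ℕ → V), α 0 = x → α k = y →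
        (∀ i < k, d (α i) (α (i + 1)) ≤ 1 ∨ E (α i) (α (i + 1))) → e x y ≤ k) := by
  have hof : ∀ (x y : V) (k : ℕ) (α : ℕ → V), α 0 = x → α k = y →
      (∀ i < k, d (α i) (α (i + 1)) ≤ 1 ∨ E (α i) (α (i + 1))) →
      Elec.Ch (fun x y => d x y ≤ 1 ∨ E x y) (fun _ => True) k x y := by
    intro x y k α h0 h1 hs
    have h := Elec.Ch.of_fun (A := fun x y => d x y ≤ 1 ∨ E x y) (p := fun _ => True) α k 0
      (fun s _ hs' => hs s (by omega)) (fun _ _ _ => trivial)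
    rw [Nat.zero_add, h0, h1] at h
    exact h
  have hconn : ∀ (x y : V) (k : ℕ), d x y = k →
      Elec.Ch (fun x y => d x y ≤ 1 ∨ E x y) (fun _ => True) k x y := by
    intro x y k hk
    obtain ⟨σ, s0, s1, s2⟩ := Elec.exists_geod hd k x y hk
    exact hof x y k σ s0 s1 (fun i hi => Or.inl (s2 i hi))
  have hc : ∀ x y : V, ∃ k, Elec.Ch (fun x y => d x y ≤ 1 ∨ E x y) (fun _ => True) k x y :=
    fun x y => ⟨(d x y).toNat, hconn x y _ (by have := hd.nonneg x y; omega)⟩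
  have hs : ∀ x y : V, (d x y ≤ 1 ∨ E x y) → (d y x ≤ 1 ∨ E y x) := by
    rintro x y (h | h)
    · exact Or.inl (by rw [hd.symm]; exact h)
    · exact Or.inr (Es _ _ h)
  have hr : ∀ x : V, d x x ≤ 1 ∨ E x x := fun x => Or.inl (by rw [hd.self]; norm_num)
  have he := Elec.eN_isMet hs hc
  obtain ⟨e, hedef⟩ : ∃ e : V → V → ℤ,
      e = fun x y => (Elec.eN (fun x y => d x y ≤ 1 ∨ E x y) x y : ℤ) := ⟨_, rfl⟩
  rw [← hedef] at he
  have hed : ∀ x y, e x y ≤ d x y := by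
    intro x y
    obtain ⟨k, hk⟩ : ∃ k : ℕ, d x y = k := ⟨(d x y).toNat, by have := hd.nonneg x y; omega⟩
    have h1 : Elec.eN (fun x y => d x y ≤ 1 ∨ E x y) x y ≤ k := Elec.eN_le (hconn x y k hk)
    rw [hedef, hk]
    show (Elec.eN (fun x y => d x y ≤ 1 ∨ E x y) x y : ℤ) ≤ k
    exact_mod_cast h1
  have heA : ∀ x y, e x y ≤ 1 ↔ (d x y ≤ 1 ∨ E x y) := by
    intro x y
    rw [hedef]
    exact Elec.eN_le_one hr hc x y
  have hclose : ∀ x y w, gp d x y w = 0 → ∀ (k : ℕ) (α : ℕ → V), e x y = k → α 0 = x → α k = y →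
        (∀ i < k, e (α i) (α (i + 1)) ≤ 1) → ∃ i ≤ k, e w (α i) ≤ B :=
    fun x y w hw k α hk h0 h1 hα =>
      Elec.close hd hH he hed heA hK Es hE hB x y w hw k α hk h0 h1 hα
  refine ⟨e, he, hed, heA, hclose, ?_, ?_⟩
  · intro x y z w
    have hD : 0 ≤ D := hH.nonneg hd x
    have hB0 : 0 ≤ B := by
      have := hB 0 (by
        have : 0 ≤ 2 * D * ((Nat.clog 2 (8 * 0 + 8) : ℤ) + 1) := by positivity
        push_cast
        push_cast at this
        omega)
      exact_mod_cast this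
    have h := Elec.hyp_of_close hd hH he hed hB0 hclose x y z w
    omega
  · intro x y k α h0 h1 hs'
    have h1 : Elec.eN (fun x y => d x y ≤ 1 ∨ E x y) x y ≤ k := Elec.eN_le (hof x y k α h0 h1 hs')
    rw [hedef]
    show (Elec.eN (fun x y => d x y ≤ 1 ∨ E x y) x y : ℤ) ≤ k
    exact_mod_cast h1

end Pool.Agent.Burnside
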