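import Pool.Agent.Burnside.Proj
import Pool.Agent.Burnside.Electric

/-!
The electric metric of the axis system.
-/

namespace Pool.Agent.Burnside

section chains

variable {V : Type*} {d : V → V → ℤ}

/-- Geodesic chains. -/
structure Chain (d : V → V → ℤ) (x y : V) (k : ℕ) (α : ℕ → V) : Prop where
  len : d x y = k
  zero : α 0 = x
  last : α k = y
  dist : ∀ i j, i ≤ j → j ≤ k → d (α i) (α j) = (j : ℤ) - i

theorem chain_of_steps (h : IsMet d) {x y : V} {k : ℕ} {α : ℕ → V} (hk : d x y = k)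
    (h0 : α 0 = x) (h1 : α k = y) (hs : ∀ i < k, d (α i) (α (i + 1)) ≤ 1) : Chain d x y k α := by
  have up : ∀ i j, i ≤ j → j ≤ k → d (α i) (α j) ≤ (j : ℤ) - i := by
    intro i j hij
    induction j, hij using Nat.le_induction with
    | base => intro _; simp [h.self]
    | succ j hij ih =>
      intro hj
      have t := h.tri (α i) (α j) (α (j + 1))
      have := ih (by omega)
      have := hs j (by omega)
      push_cast
      omega
  refine ⟨hk, h0, h1, fun i j hij hj => ?_⟩
  have t1 := h.tri (α 0) (α i) (α k)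
  have t2 := h.tri (α i) (α j) (α k)
  have u1 := up 0 i (by omega) (by omega)
  have u2 := up i j hij hj
  have u3 := up j k hj le_rfl
  rw [h0, h1, hk] at t1
  rw [h1] at t2 u3
  rw [h0] at u1
  push_cast at *
  omega

theorem Chain.step {x y : V} {k : ℕ} {α : ℕ → V} (c : Chain d x y k α) {i : ℕ} (hi : i < k) :
    d (α i) (α (i + 1)) ≤ 1 := by
  have := c.dist i (i + 1) (by omega) (by omega)
  push_cast at this
  omega

theorem Chain.sub {x y : V} {k : ℕ} {α : ℕ → V} (c : Chain d x y k α) {i j : ℕ} (hij : i ≤ j)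
    (hj : j ≤ k) : Chain d (α i) (α j) (j - i) (fun t => α (i + t)) := by
  refine ⟨?_, rfl, ?_, ?_⟩
  · rw [c.dist i j hij hj]; omega
  · show α (i + (j - i)) = α j
    congr 1; omega
  · intro s t hst ht
    rw [c.dist (i + s) (i + t) (by omega) (by omega)]
    push_cast
    ring

theorem exists_chain (h : IsMet d) (x y : V) : ∃ (k : ℕ) (α : ℕ → V), Chain d x y k α := by
  obtain ⟨k, hk⟩ : ∃ k : ℕ, d x y = k := ⟨(d x y).toNat, by have := h.nonneg x y; omega⟩
  suffices H : ∀ k : ℕ, ∀ x : V, d x y = k → ∃ α : ℕ → V, α 0 = x ∧ α k = y ∧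
      ∀ i < k, d (α i) (α (i + 1)) ≤ 1 by
    obtain ⟨α, h0, h1, h2⟩ := H k x hk
    exact ⟨k, α, chain_of_steps h hk h0 h1 h2⟩
  intro k
  induction k with
  | zero =>
    intro x hx
    refine ⟨fun _ => x, rfl, h.sep _ _ (by simpa using hx), ?_⟩
    intro i hi; omega
  | succ k ih =>
    intro x hx
    obtain ⟨z, hz1, hz2⟩ := h.geo x y 1 (by norm_num) (by rw [hx]; push_cast; omega)
    obtain ⟨α, h0, h1, h2⟩ := ih z (by rw [hz2, hx]; push_cast; ring)
    refine ⟨fun i => if i = 0 then x else α (i - 1), by simp, by simpa using h1, ?_⟩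
    intro i hi
    rcases Nat.eq_zero_or_pos i with rfl | hi0
    · simp [h0, hz1]
    · have := h2 (i - 1) (by omega)
      have e1 : i ≠ 0 := by omega
      have e2 : i - 1 + 1 = i := by omega
      simp only [e1, if_false, Nat.add_eq_zero_iff, one_ne_zero, and_false, Nat.add_sub_cancel]
      rwa [e2] at this

/-- A point with small product is close to a point on a geodesic. -/
theorem exists_geo_pt {D : ℤ} (h : IsMet d) (hH : Hyp D d) {x y z : V} {c : ℤ}
    (hz : gp d x y z ≤ c) : ∃ w, gp d x y w = 0 ∧ d z w ≤ c + D := by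
  obtain ⟨w, hw1, hw2⟩ := h.geo x y (min (d x z) (d x y)) (by
    have := h.nonneg x z; have := h.nonneg x y; omega) (by omega)
  have s1 := h.symm y w
  have hw : gp d x y w = 0 := by unfold gp; omega
  refine ⟨w, hw, ?_⟩
  have h1 := hH.near_pt h hw.le z
  have s2 := h.symm x z
  have s3 := h.symm y z
  have n1 := h.nonneg y z
  have n2 := h.nonneg x z
  have n3 := gp_nonneg h x y z
  have n4 := hH.nonneg h x
  have s4 := h.symm w y
  have s5 := h.symm z y
  have t1 := h.tri x y z
  unfold gp at hz n3 hw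
  rcases le_total (d x z) (d x y) with hc | hc
  · rw [min_eq_left hc] at hw1 hw2
    omega
  · rw [min_eq_right hc] at hw1 hw2
    have : w = y := h.sep _ _ (by omega)
    subst this
    omega

end chains

variable {G : Type*} [Group G] {d : G → G → ℤ} {n : ℕ} {R κ a : ℤ}
variable {P : Set G} {b : G → G} {p : G → G → ℤ}

/-- Two points on a common axis. -/
def Eax (P : Set G) (b : G → G) (x y : G) : Prop := ∃ h ∈ P, x ∈ Ox b h ∧ y ∈ Ox b h

/-- The electric metric. -/
structure El (d e : G → G → ℤ) (P : Set G) (b : G → G) : Prop where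
  met : IsMet e
  le : ∀ x y, e x y ≤ d x y
  adj : ∀ x y, e x y ≤ 1 ↔ (d x y ≤ 1 ∨ Eax P b x y)
  fel : ∀ x y w, gp d x y w = 0 → ∀ (k : ℕ) (α : ℕ → G), Chain e x y k α → ∃ i ≤ k, e w (α i) ≤ 240
  hyp : Hyp 4880 e
  left : LInv e

theorem clog_bound (r : ℕ) (hr : (r : ℤ) ≤ 157 + 5 + 2 * 3 * (Nat.clog 2 (8 * r + 8) + 1)) :
    (r : ℤ) ≤ 240 := by
  by_contra hcon
  push Not at hcon
  obtain ⟨j, i, hi, hj⟩ : ∃ j i : ℕ, i < 6 ∧ r = 241 + 6 * j + i :=
    ⟨(r - 241) / 6, (r - 241) % 6, Nat.mod_lt _ (by norm_num), by omega⟩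
  have h1 : 8 * r + 8 ≤ 2 ^ (11 + j) := by
    have : ∀ j : ℕ, 8 * (241 + 6 * j + 5) + 8 ≤ 2 ^ (11 + j) := by
      intro j
      induction j with
      | zero => norm_num
      | succ j ih =>
        have e : 2 ^ (11 + (j + 1)) = 2 * 2 ^ (11 + j) := by ring
        rw [e]
        omega
    have := this j
    omega
  have h2 : Nat.clog 2 (8 * r + 8) ≤ 11 + j := Nat.clog_le_of_le_pow h1
  have h3 : ((Nat.clog 2 (8 * r + 8) : ℕ) : ℤ) ≤ 11 + j := by exact_mod_cast h2
  have h4 : (r : ℤ) = 241 + 6 * j + i := by exact_mod_cast hj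
  omega

theorem exists_el (I : Inv n R κ a 3 d) (S : AxSys n d P b p) : ∃ e, El d e P b := by
  have hM := I.met
  obtain ⟨e, h1, h2, h3, h4, h5, h6⟩ := electric d hM I.hyp (Eax P b)
    (fun x y ⟨h, hh, hx, hy⟩ => ⟨h, hh, hy, hx⟩) 157 (by norm_num) (by
      rintro x y w ⟨h, hh, ⟨i, rfl⟩, ⟨j, rfl⟩⟩ hw
      rcases le_total i j with hij | hij
      · obtain ⟨k, -, -, hk⟩ := exists_near_between hM I.hyp (S.hal I hh) (S.hst I hh) hij hw.le
        exact ⟨_, by simpa using hk, Or.inr ⟨h, hh, ax_mem h i, ax_mem h k⟩⟩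
      · rw [gp_symm hM] at hw
        obtain ⟨k, -, -, hk⟩ := exists_near_between hM I.hyp (S.hal I hh) (S.hst I hh) hij hw.le
        exact ⟨_, by simpa using hk, Or.inr ⟨h, hh, ax_mem h i, ax_mem h k⟩⟩) 240 clog_bound
  refine ⟨e, h1, h2, h3, ?_, by simpa using h5, ?_⟩
  · intro x y w hw k α hα
    exact h4 x y w hw k α hα.len hα.zero hα.last (fun i hi => hα.step hi)
  · have key : ∀ u x y, e (u * x) (u * y) ≤ e x y := by
      intro u x y
      obtain ⟨k, α, hα⟩ := exists_chain h1 x y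
      rw [hα.len]
      refine h6 _ _ k (fun i => u * α i) (by simp [hα.zero]) (by simp [hα.last]) ?_
      intro i hi
      rcases (h3 _ _).1 (hα.step hi) with h7 | ⟨h, hh, hx, hy⟩
      · left; rw [I.left]; exact h7
      · right
        exact ⟨_, S.conj h hh u, S.ax_equiv I hh u hx, S.ax_equiv I hh u hy⟩
    intro u x y
    apply le_antisymm (key u x y)
    have := key u⁻¹ (u * x) (u * y)
    simpa using this

end Pool.Agent.Burnside
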