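import Pool.Agent.Burnside.Elec

/-!
Exact edges: a geodesic of the electric metric whose endpoints project far apart on an axis
has an edge with both ends on that axis.
-/

namespace Pool.Agent.Burnside

variable {G : Type*} [Group G] {d e : G → G → ℤ} {n : ℕ} {R κ a : ℤ}
variable {P : Set G} {b : G → G} {p : G → G → ℤ}

theorem exact_near (I : Inv n R κ a 3 d) (S : AxSys n d P b p) (E : El d e P b)
    {h : G} (hh : h ∈ P) {x y : G} {k : ℕ} {α : ℕ → G} (c : Chain e x y k α)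
    (hxy : 318 < d (pr b p h x) (pr b p h y)) :
    ∃ i ≤ k, ∃ z ∈ Ox b h, e (α i) z ≤ 561 := by
  obtain ⟨h1, -, -⟩ := S.cross I hh x y hxy
  obtain ⟨w, hw1, hw2⟩ := exists_geo_pt I.met I.hyp h1
  obtain ⟨i, hi, hi2⟩ := E.fel x y w hw1 k α c
  refine ⟨i, hi, pr b p h x, pr_mem _ _, ?_⟩
  have t1 := E.met.tri (α i) w (pr b p h x)
  have t2 := E.met.symm (α i) w
  have t3 := E.le w (pr b p h x)
  have t4 := I.met.symm w (pr b p h x)
  omega

theorem exact_axis (E : El d e P b) {h : G} (hh : h ∈ P) {z w : G} (hz : z ∈ Ox b h)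
    (hw : w ∈ Ox b h) : e z w ≤ 1 :=
  (E.adj z w).2 (Or.inr ⟨h, hh, hz, hw⟩)

theorem exact_step (I : Inv n R κ a 3 d) (S : AxSys n d P b p) (E : El d e P b) (hκ : 1000 ≤ κ)
    (ha : 1000 ≤ a) {h : G} (hh : h ∈ P) {z w : G} (hzw : e z w ≤ 1)
    (hno : ¬ (z ∈ Ox b h ∧ w ∈ Ox b h)) : d (pr b p h z) (pr b p h w) ≤ a := by
  rcases (E.adj z w).1 hzw with h1 | ⟨h', hh', hz, hw⟩
  · have := S.lip I hh z w
    omega
  · by_cases hne : h = h'
    · subst hne
      exact absurd ⟨hz, hw⟩ hno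
    · exact (S.overlap I hκ (by omega) hh hh' hne hz hw).le

theorem exact_sum (I : Inv n R κ a 3 d) {k : ℕ} {α : ℕ → G} {h : G}
    (hst : ∀ i < k, d (pr b p h (α i)) (pr b p h (α (i + 1))) ≤ a) (i j : ℕ) (hij : i ≤ j)
    (hj : j ≤ k) : d (pr b p h (α i)) (pr b p h (α j)) ≤ ((j : ℤ) - i) * a := by
  induction j, hij using Nat.le_induction with
  | base => simp [I.met.self]
  | succ j hij ih =>
    have t := I.met.tri (pr b p h (α i)) (pr b p h (α j)) (pr b p h (α (j + 1)))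
    have h1 := ih (by omega)
    have h2 := hst j (by omega)
    have e1 : (((j + 1 : ℕ) : ℤ) - i) * a = ((j : ℤ) - i) * a + a := by push_cast; ring
    rw [e1]
    omega

theorem exact_edge (I : Inv n R κ a 3 d) (S : AxSys n d P b p) (E : El d e P b) (hκ : 1000 ≤ κ)
    (ha : 1000 ≤ a) {h : G} (hh : h ∈ P) {x y : G} {k : ℕ} {α : ℕ → G} (c : Chain e x y k α)
    (hxy : 1130 * a < d (pr b p h x) (pr b p h y)) :
    ∃ i < k, α i ∈ Ox b h ∧ α (i + 1) ∈ Ox b h := by
  classical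
  by_contra hcon
  push Not at hcon
  have hst : ∀ i < k, d (pr b p h (α i)) (pr b p h (α (i + 1))) ≤ a := fun i hi =>
    exact_step I S E hκ ha hh (c.step hi) (fun hh2 => hcon i hi hh2.1 hh2.2)
  set F : Finset ℕ := (Finset.range (k + 1)).filter (fun i => ∃ z ∈ Ox b h, e (α i) z ≤ 561)
    with hF
  have hFm : ∀ i, i ∈ F ↔ i ≤ k ∧ ∃ z ∈ Ox b h, e (α i) z ≤ 561 := by
    intro i
    rw [hF, Finset.mem_filter, Finset.mem_range, Nat.lt_succ_iff]
  have hne : F.Nonempty := by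
    obtain ⟨i, hi, hi2⟩ := exact_near I S E hh c (by omega)
    exact ⟨i, (hFm i).2 ⟨hi, hi2⟩⟩
  have hm1 := F.min'_mem hne
  have hm2 := F.max'_mem hne
  have hle1 : ∀ j ∈ F, F.min' hne ≤ j := fun j hj => F.min'_le j hj
  have hle2 : ∀ j ∈ F, j ≤ F.max' hne := fun j hj => F.le_max' j hj
  generalize F.min' hne = i₁ at hm1 hle1
  generalize F.max' hne = i₂ at hm2 hle2
  have h12 := hle1 i₂ hm2
  obtain ⟨hk1, z₁, hz₁, hd₁⟩ := (hFm i₁).1 hm1
  obtain ⟨hk2, z₂, hz₂, hd₂⟩ := (hFm i₂).1 hm2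
  have hlen : (i₂ : ℤ) - i₁ ≤ 1123 := by
    have t0 := c.dist i₁ i₂ h12 hk2
    have t1 := E.met.tri (α i₁) z₁ (α i₂)
    have t2 := E.met.tri z₁ z₂ (α i₂)
    have t3 := exact_axis E hh hz₁ hz₂
    have t4 := E.met.symm z₂ (α i₂)
    omega
  have hmid := exact_sum I hst i₁ i₂ h12 hk2
  have hmid2 : ((i₂ : ℤ) - i₁) * a ≤ 1123 * a :=
    mul_le_mul_of_nonneg_right hlen (by omega)
  have hleft : d (pr b p h x) (pr b p h (α i₁)) ≤ 318 + a := by
    rcases Nat.eq_zero_or_pos i₁ with h0 | h0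
    · rw [h0, c.zero, I.met.self]; omega
    · have hc := c.sub (i := 0) (j := i₁ - 1) (by omega) (by omega)
      have h3 : d (pr b p h x) (pr b p h (α (i₁ - 1))) ≤ 318 := by
        by_contra h4
        push Not at h4
        rw [← c.zero] at h4
        obtain ⟨i, hi, hi2⟩ := exact_near I S E hh hc h4
        have := hle1 (0 + i) ((hFm _).2 ⟨by omega, hi2⟩)
        omega
      have h5 := hst (i₁ - 1) (by omega)
      have e1 : i₁ - 1 + 1 = i₁ := by omega
      rw [e1] at h5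
      have := I.met.tri (pr b p h x) (pr b p h (α (i₁ - 1))) (pr b p h (α i₁))
      omega
  have hright : d (pr b p h (α i₂)) (pr b p h y) ≤ 318 + a := by
    rcases Nat.lt_or_ge i₂ k with h0 | h0
    · have hc := c.sub (i := i₂ + 1) (j := k) (by omega) le_rfl
      have h3 : d (pr b p h (α (i₂ + 1))) (pr b p h y) ≤ 318 := by
        by_contra h4
        push Not at h4
        rw [← c.last] at h4
        obtain ⟨i, hi, hi2⟩ := exact_near I S E hh hc h4
        have := hle2 (i₂ + 1 + i) ((hFm _).2 ⟨by omega, hi2⟩)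
        omega
      have h5 := hst i₂ h0
      have := I.met.tri (pr b p h (α i₂)) (pr b p h (α (i₂ + 1))) (pr b p h y)
      omega
    · have : i₂ = k := by omega
      rw [this, c.last, I.met.self]; omega
  have t1 := I.met.tri (pr b p h x) (pr b p h (α i₁)) (pr b p h y)
  have t2 := I.met.tri (pr b p h (α i₁)) (pr b p h (α i₂)) (pr b p h y)
  omega

theorem exact_far (I : Inv n R κ a 3 d) (S : AxSys n d P b p) {h : G} (hh : h ∈ P) {x y : G}
    {T : ℤ} (hxy : R * T < |am p h x y|) : T < d (pr b p h x) (pr b p h y) := by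
  by_contra hcon
  push Not at hcon
  have hR := (S.hlox I hh).pos I.met
  have h1 := S.am_le I hh x y
  have h2 := mul_le_mul_of_nonneg_left hcon hR.le
  omega

theorem exact_edge' (I : Inv n R κ a 3 d) (S : AxSys n d P b p) (E : El d e P b) (hκ : 1000 ≤ κ)
    (ha : 1000 ≤ a) {h : G} (hh : h ∈ P) {x y : G} {k : ℕ} {α : ℕ → G} (c : Chain e x y k α)
    (hxy : R * (1130 * a) < |am p h x y|) :
    ∃ i < k, α i ∈ Ox b h ∧ α (i + 1) ∈ Ox b h ∧ |am p h x (α i)| ≤ R * (1130 * a) ∧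
      |am p h (α (i + 1)) y| ≤ R * (1130 * a) := by
  obtain ⟨i, hi, h1, h2⟩ := exact_edge I S E hκ ha hh c (exact_far I S hh hxy)
  have key : ∀ i' j', i' < j' → j' ≤ k → α i' ∈ Ox b h → α j' ∈ Ox b h → j' = i' + 1 := by
    intro i' j' hij hj hi' hj'
    have t1 := c.dist i' j' hij.le hj
    have t2 := exact_axis E hh hi' hj'
    omega
  refine ⟨i, hi, h1, h2, ?_, ?_⟩
  · by_contra hcon
    push Not at hcon
    rw [← c.zero] at hcon
    obtain ⟨i', hi', h3, -⟩ := exact_edge I S E hκ ha hh (c.sub (i := 0) (j := i) (by omega) hi.le)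
      (exact_far I S hh hcon)
    have := key (0 + i') (i + 1) (by omega) (by omega) h3 h2
    omega
  · by_contra hcon
    push Not at hcon
    rw [← c.last] at hcon
    obtain ⟨i', hi', -, h4⟩ := exact_edge I S E hκ ha hh (c.sub (i := i + 1) (j := k) (by omega)
      le_rfl) (exact_far I S hh hcon)
    have := key i (i + 1 + (i' + 1)) (by omega) (by omega) h1 h4
    omega

theorem exact_rot (I : Inv n R κ a 3 d) (S : AxSys n d P b p) (E : El d e P b) (hκ : 1000 ≤ κ)
    (ha : 1000 ≤ a) {h : G} (hh : h ∈ P) {x y : G} (hxy : R * (1130 * a) < |am p h x y|) (m : ℤ) :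
    e x (h ^ m * y) ≤ e x y := by
  obtain ⟨k, α, c⟩ := exists_chain E.met x y
  obtain ⟨i, hi, h1, h2, -, -⟩ := exact_edge' I S E hκ ha hh c hxy
  have h3 : h ^ m * α (i + 1) ∈ Ox b h := by
    obtain ⟨j, hj⟩ := h2
    refine ⟨m + j, ?_⟩
    rw [hj]
    unfold ax
    rw [zpow_add, mul_assoc]
  have t1 := E.met.tri x (α i) (h ^ m * y)
  have t2 := E.met.tri (α i) (h ^ m * α (i + 1)) (h ^ m * y)
  have t3 := exact_axis E hh h1 h3
  have t4 := E.left (h ^ m) (α (i + 1)) y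
  have t5 := c.dist 0 i (by omega) hi.le
  have t6 := c.dist (i + 1) k (by omega) le_rfl
  rw [c.zero] at t5
  rw [c.last] at t6
  have t7 := c.len
  push_cast at *
  omega

end Pool.Agent.Burnside
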