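import Pool.Agent.Burnside.Defs

/-!
Task A: the word metric of the free group satisfies the initial invariant.
-/

namespace Pool.Agent.Burnside

open FreeGroup

/-- Length of the longest common prefix. -/
def cpl {β : Type*} [DecidableEq β] : List β → List β → ℕ
  | a :: L, b :: M => if a = b then cpl L M + 1 else 0
  | [], _ => 0
  | _ :: _, [] => 0

theorem cpl_min {β : Type*} [DecidableEq β] (L M K : List β) :
    min (cpl L M) (cpl M K) ≤ cpl L K := by
  induction L generalizing M K with
  | nil => simp [cpl]
  | cons a L ih =>
    cases M with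
    | nil => simp [cpl]
    | cons b M =>
      cases K with
      | nil => simp [cpl]
      | cons c K =>
        by_cases h1 : a = b
        · by_cases h2 : b = c
          · subst h1; subst h2
            have := ih M K
            simp only [cpl, if_true]
            omega
          · simp [cpl, h2]
        · simp [cpl, h1]

theorem cpl_comm {β : Type*} [DecidableEq β] (L M : List β) : cpl L M = cpl M L := by
  induction L generalizing M with
  | nil => cases M <;> simp [cpl]
  | cons a L ih =>
    cases M with
    | nil => simp [cpl]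
    | cons b M =>
      by_cases h1 : a = b
      · subst h1
        simp [cpl, ih M]
      · have h2 : ¬ b = a := fun h => h1 h.symm
        simp [cpl, h1, h2]

variable {α : Type*} [DecidableEq α]

theorem length_reduce_invRev_append {L M : List (α × Bool)} (hL : IsReduced L)
    (hM : IsReduced M) :
    (reduce (invRev L ++ M)).length + 2 * cpl L M = L.length + M.length := by
  induction L generalizing M with
  | nil => simp [cpl, hM.reduce_eq]
  | cons a L ih =>
    cases M with
    | nil =>
      have : cpl (a :: L) ([] : List (α × Bool)) = 0 := rfl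
      rw [List.append_nil, reduce_invRev, hL.reduce_eq, invRev_length, this]
      simp
    | cons b M =>
      have hL' : IsReduced L := List.IsChain.tail hL
      have hM' : IsReduced M := List.IsChain.tail hM
      by_cases h1 : a = b
      · subst h1
        have h2 := ih hL' hM'
        have h3 : reduce (invRev (a :: L) ++ (a :: M)) = reduce (invRev L ++ M) := by
          apply reduce.sound
          rw [← mul_mk, ← mul_mk, ← inv_mk, ← inv_mk]
          have e1 : (mk (a :: L) : FreeGroup α) = mk [a] * mk L := by simp [mul_mk]
          have e2 : (mk (a :: M) : FreeGroup α) = mk [a] * mk M := by simp [mul_mk]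
          rw [e1, e2]
          group
        rw [h3]
        simp only [cpl, if_true, List.length_cons]
        omega
      · have h4 : IsReduced (invRev (a :: L) ++ (b :: M)) := by
          have h5 : IsReduced (invRev (a :: L)) := by
            rw [isReduced_iff_reduce_eq, reduce_invRev, hL.reduce_eq]
          unfold FreeGroup.IsReduced at h5 hM ⊢
          rw [List.isChain_append]
          refine ⟨h5, hM, ?_⟩
          intro x hx y hy
          simp [invRev] at hx hy
          subst hy
          intro h6
          rw [← hx] at h6 ⊢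
          simp only at h6 ⊢
          by_contra h7
          apply h1
          refine Prod.ext h6 ?_
          revert h7
          cases a.2 <;> cases b.2 <;> simp
        rw [h4.reduce_eq]
        simp only [cpl, h1, if_false, List.length_append, invRev_length]
        omega

theorem norm_inv_mul_add (x y : FreeGroup α) :
    norm (x⁻¹ * y) + 2 * cpl x.toWord y.toWord = norm x + norm y := by
  have h := length_reduce_invRev_append (isReduced_toWord (x := x)) (isReduced_toWord (x := y))
  have e : toWord (x⁻¹ * y) = reduce (invRev x.toWord ++ y.toWord) := by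
    rw [toWord_mul, toWord_inv]
  unfold FreeGroup.norm
  rw [e]
  exact h

/-- The word metric. -/
def dF (x y : FreeGroup α) : ℤ := (norm (x⁻¹ * y) : ℤ)

theorem dF_left : LInv (dF (α := α)) := by
  intro u x y
  unfold dF
  congr 2
  group

theorem dF_met : IsMet (dF (α := α)) where
  self x := by simp [dF]
  sep x y h := by
    unfold dF at h
    have h1 : norm (x⁻¹ * y) = 0 := by exact_mod_cast h
    rw [FreeGroup.norm_eq_zero] at h1
    exact (inv_mul_eq_one.1 h1)
  symm x y := by
    unfold dF
    rw [← norm_inv_eq (x := x⁻¹ * y)]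
    simp
  tri x y z := by
    unfold dF
    have h := norm_mul_le (x⁻¹ * y) (y⁻¹ * z)
    have e : x⁻¹ * y * (y⁻¹ * z) = x⁻¹ * z := by group
    rw [e] at h
    exact_mod_cast h
  geo x y t h0 h1 := by
    obtain ⟨s, rfl⟩ := Int.eq_ofNat_of_zero_le h0
    set L := (x⁻¹ * y).toWord with hL
    have hred : IsReduced L := isReduced_toWord
    have hlen : s ≤ L.length := by
      unfold dF at h1
      unfold FreeGroup.norm at h1
      exact_mod_cast h1
    have r1 : IsReduced (L.take s) := List.IsChain.take hred s
    have r2 : IsReduced (L.drop s) := List.IsChain.drop hred s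
    refine ⟨x * mk (L.take s), ?_, ?_⟩
    · unfold dF
      have e : x⁻¹ * (x * mk (L.take s)) = mk (L.take s) := by group
      rw [e]
      unfold FreeGroup.norm
      rw [toWord_mk, r1.reduce_eq, List.length_take]
      simp [hlen]
    · unfold dF
      have e : (x * mk (L.take s))⁻¹ * y = mk (L.drop s) := by
        have e1 : x⁻¹ * y = mk (L.take s) * mk (L.drop s) := by
          rw [mul_mk, List.take_append_drop, hL, mk_toWord]
        have e2 : y = x * (mk (L.take s) * mk (L.drop s)) := by
          rw [← e1]; group
        rw [e2]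
        group
      rw [e]
      unfold FreeGroup.norm
      rw [toWord_mk, r2.reduce_eq, List.length_drop, ← hL]
      push_cast [Nat.cast_sub hlen]
      rfl

theorem dF_hyp : Hyp 0 (dF (α := α)) := by
  intro x y z w
  -- translate to `w = 1`
  have key : ∀ x y z : FreeGroup α,
      dF x z + dF y 1 ≤ max (dF x y + dF z 1) (dF x 1 + dF y z) + 0 := by
    intro x y z
    have h1 := norm_inv_mul_add x z
    have h2 := norm_inv_mul_add x y
    have h3 := norm_inv_mul_add y z
    have h4 := cpl_min x.toWord y.toWord z.toWord
    have e : ∀ t : FreeGroup α, dF t 1 = norm t := by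
      intro t
      unfold dF
      rw [mul_one, norm_inv_eq]
    rw [e, e, e]
    unfold dF
    omega
  have h := key (w⁻¹ * x) (w⁻¹ * y) (w⁻¹ * z)
  have e1 : ∀ s t : FreeGroup α, dF (w⁻¹ * s) (w⁻¹ * t) = dF s t := fun s t => dF_left _ _ _
  have e2 : ∀ s : FreeGroup α, dF (w⁻¹ * s) 1 = dF s w := by
    intro s
    have := e1 s w
    rwa [inv_mul_cancel] at this
  rw [e1, e1, e1, e2, e2, e2] at h
  exact h

theorem le_norm_pow {w : FreeGroup α} (hw : w ≠ 1) (m : ℕ) : m ≤ norm (w ^ m) := by
  rcases Nat.eq_zero_or_pos m with rfl | hm
  · simp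
  unfold FreeGroup.norm
  rw [toWord_pow, reduceCyclically.reduce_flatten_replicate isReduced_toWord, if_neg (by omega)]
  have h1 : reduceCyclically w.toWord ≠ [] := by
    intro h
    apply hw
    have h2 := reduceCyclically.conj_conjugator_reduceCyclically w.toWord
    rw [h] at h2
    have h3 := congrArg (mk (α := α)) h2
    rw [mk_toWord, List.append_nil, ← mul_mk, ← inv_mk, mul_inv_cancel] at h3
    exact h3.symm
  have h2 : 1 ≤ (reduceCyclically w.toWord).length := List.length_pos_iff.2 h1
  simp only [List.length_append, List.length_flatten, List.map_replicate, List.sum_replicate,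
    smul_eq_mul]
  nlinarith

theorem dF_lox {u : FreeGroup α} (hu : u ≠ 1) : Lox (dF (α := α)) 1 u := by
  intro x m
  unfold dF
  have e : x⁻¹ * (u ^ m * x) = (x⁻¹ * u * x) ^ m := by
    have := conj_pow (i := m) (a := x⁻¹) (b := u)
    rw [inv_inv] at this
    rw [this]; group
  rw [e, one_mul]
  have h : x⁻¹ * u * x ≠ 1 := by
    intro h
    apply hu
    have : u = x * (x⁻¹ * u * x) * x⁻¹ := by group
    rw [this, h]; group
  exact_mod_cast le_norm_pow h m

/-- Uniqueness of points on geodesics of a `0`-hyperbolic metric. -/
theorem geo_unique {V : Type*} {d : V → V → ℤ} (h : IsMet d) (hH : Hyp 0 d) {x y z z' : V}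
    {t : ℤ} (h1 : d x z = t) (h2 : d z y = d x y - t) (h3 : d x z' = t)
    (h4 : d z' y = d x y - t) : z = z' := by
  apply h.sep
  have h5 := hH z x z' y
  have h6 := h.nonneg z z'
  have e1 := h.symm z x
  have e2 := h.symm z' y
  omega

/-- An isometry moving both ends of a long segment by at most `κ` translates the middle. -/
theorem trans_mid {V : Type*} {d : V → V → ℤ} (h : IsMet d) (hH : Hyp 0 d) {x y x' y' z w : V}
    {t κ : ℤ} (hx : d x x' ≤ κ) (hy : d y y' ≤ κ) (hxy : d x' y' = d x y)
    (z1 : d x z = t) (z2 : d z y = d x y - t) (w1 : d x' w = t) (w2 : d w y' = d x y - t)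
    (ht1 : κ < t) (ht2 : t < d x y - κ) :
    d x w = t + (d x y' - d x y) ∧ d w y = d x y - t - (d x y' - d x y) := by
  have a1 := hH x x' w y'
  have a2 := hH x w y' x'
  have a3 := hH x x' y' w
  have a4 := h.tri x' x w
  have a5 := h.tri y' y w
  have b1 := hH y y' w x
  have b2 := hH y w x y'
  have b3 := hH y y' x w
  have e1 := h.symm x x'
  have e2 := h.symm y y'
  have e3 := h.symm w x
  have e4 := h.symm w y
  have e5 := h.symm w x'
  have e6 := h.symm w y'
  have e7 := h.symm x y'
  have e8 := h.symm x' y'
  have e9 := h.symm x y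
  have e10 := h.symm x' y
  omega

theorem free_inv (n : ℕ) (hn : 0 < n) (κ : ℤ) (hκ : 0 ≤ κ) :
    ∃ d : FreeGroup (Fin 2) → FreeGroup (Fin 2) → ℤ, Inv n 1 κ (10 * κ + 100) 0 d := by
  refine ⟨dF, dF_met, dF_hyp, dF_left, ?_, ?_⟩
  · intro u
    by_cases hu : u = 1
    · left; simp [hu]
    · right; exact dF_lox hu
  · intro x y u v hxy hux huy hvx hvy
    refine ⟨?_, ?_⟩
    · obtain ⟨T, hT⟩ : ∃ T, T = dF x y := ⟨_, rfl⟩
      -- points on the geodesic
      have hz : ∀ t : ℤ, ∃ z : FreeGroup (Fin 2), 0 ≤ t → t ≤ dF x y →
          dF x z = t ∧ dF z y = dF x y - t := by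
        intro t
        by_cases h : 0 ≤ t ∧ t ≤ dF x y
        · obtain ⟨z, hz⟩ := dF_met.geo x y t h.1 h.2
          exact ⟨z, fun _ _ => hz⟩
        · exact ⟨1, fun h1 h2 => absurd ⟨h1, h2⟩ h⟩
      choose z hz using hz
      -- translation of the middle
      have key : ∀ g : FreeGroup (Fin 2), dF x (g * x) ≤ κ → dF y (g * y) ≤ κ →
          ∀ t, κ < t → t < dF x y - κ → g * z t = z (t + (dF x (g * y) - dF x y)) ∧
            |dF x (g * y) - dF x y| ≤ κ := by
        intro g hgx hgy t ht1 ht2
        have hz1 := hz t (by omega) (by omega)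
        have w1 : dF (g * x) (g * z t) = t := by rw [dF_left]; exact hz1.1
        have w2 : dF (g * z t) (g * y) = dF x y - t := by rw [dF_left]; exact hz1.2
        have hm := trans_mid dF_met dF_hyp hgx hgy (dF_left g x y) hz1.1 hz1.2 w1 w2 ht1 ht2
        have b1 := dF_met.tri x y (g * y)
        have b2 := dF_met.tri x (g * y) y
        have b3 := dF_met.symm (g * y) y
        have hb : |dF x (g * y) - dF x y| ≤ κ := by
          rw [abs_le]; omega
        rw [abs_le] at hb
        have hz2 := hz (t + (dF x (g * y) - dF x y)) (by omega) (by omega)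
        refine ⟨?_, by rw [abs_le]; exact hb⟩
        refine geo_unique dF_met dF_hyp hm.1 ?_ hz2.1 hz2.2
        rw [hm.2]; ring
      obtain ⟨s, hs⟩ : ∃ s : ℤ, s = dF x y / 2 := ⟨_, rfl⟩
      have hu1 := key u hux huy s (by omega) (by omega)
      have hv1 := key v hvx hvy s (by omega) (by omega)
      have au := abs_le.1 hu1.2
      have av := abs_le.1 hv1.2
      have hu2 := key u hux huy (s + (dF x (v * y) - dF x y)) (by omega) (by omega)
      have hv2 := key v hvx hvy (s + (dF x (u * y) - dF x y)) (by omega) (by omega)
      have e1 : u * v * z s = v * u * z s := by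
        rw [mul_assoc, mul_assoc, hv1.1, hu1.1, hu2.1, hv2.1]
        congr 1
        ring
      exact mul_right_cancel e1
    · intro hun
      by_contra hu
      have h1 := dF_lox hu 1 n
      rw [hun] at h1
      simp [dF_met.self] at h1
      omega

end Pool.Agent.Burnside
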