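import Pool.Agent.Burnside.Defs

/-!
Task L: iterate the one step theorem and pass to the limit.
-/

namespace Pool.Agent.Burnside

/-- The set of `n`-th powers. -/
def powSet (G : Type*) [Group G] (n : ℕ) : Set G := {g : G | ∃ u, g = u ^ n}

/-- A stage of the iteration. -/
structure Stage (n : ℕ) (R κ a D : ℤ) where
  G : Type
  grp : Group G
  f : FreeGroup (Fin 2) →* G
  surj : Function.Surjective f
  d : G → G → ℤ
  inv : Inv n R κ a D d
  ker_le : f.ker ≤ Subgroup.normalClosure (powSet (FreeGroup (Fin 2)) n)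
  ex : ∃ u : G, u ^ n ≠ 1

attribute [instance] Stage.grp

/-- The abelian quotient `(ℤ / n)²`. -/
abbrev Ab (n : ℕ) := Multiplicative (ZMod n × ZMod n)

/-- The map to the abelian quotient. -/
def toAb (n : ℕ) : FreeGroup (Fin 2) →* Ab n :=
  FreeGroup.lift ![Multiplicative.ofAdd ((1, 0) : ZMod n × ZMod n), Multiplicative.ofAdd (0, 1)]

theorem toAb_surj (n : ℕ) (hn : 0 < n) : Function.Surjective (toAb n) := by
  have : NeZero n := ⟨hn.ne'⟩
  intro x
  refine ⟨FreeGroup.of 0 ^ (Multiplicative.toAdd x).1.val *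
    FreeGroup.of 1 ^ (Multiplicative.toAdd x).2.val, ?_⟩
  apply Multiplicative.toAdd.injective
  simp [toAb]

theorem Ab_not_cyclic (n : ℕ) (hn : 1 < n) : ¬ IsCyclic (Ab n) := by
  intro h
  have : NeZero n := ⟨by omega⟩
  obtain ⟨g, hg⟩ := IsCyclic.exists_generator (α := Ab n)
  have h1 : orderOf g = Nat.card (Ab n) := orderOf_eq_card_of_forall_mem_zpowers hg
  have h2 : Nat.card (Ab n) = n * n := by
    simp [Ab]
  have h3 : g ^ n = 1 := by
    apply Multiplicative.toAdd.injective
    ext <;> simp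
  have h4 : orderOf g ∣ n := orderOf_dvd_of_pow_eq_one h3
  rw [h1, h2] at h4
  have h5 := Nat.le_of_dvd (by omega) h4
  nlinarith

variable {n : ℕ} {R κ a D : ℤ}

theorem powSet_ab (n : ℕ) : Subgroup.normalClosure (powSet (FreeGroup (Fin 2)) n) ≤
    (toAb n).ker := by
  apply Subgroup.normalClosure_le_normal
  rintro g ⟨u, rfl⟩
  show toAb n (u ^ n) = 1
  rw [map_pow]
  apply Multiplicative.toAdd.injective
  ext <;> simp

theorem Stage.not_cyclic (hn : 1 < n) (s : Stage n R κ a D) : ¬ IsCyclic s.G := by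
  intro h
  have hk : s.f.ker ≤ (toAb n).ker := s.ker_le.trans (powSet_ab n)
  let g : s.G →* Ab n := s.f.liftOfSurjective s.surj ⟨toAb n, hk⟩
  have hg : Function.Surjective g := by
    intro y
    obtain ⟨x, rfl⟩ := toAb_surj n (by omega) y
    exact ⟨s.f x, MonoidHom.liftOfRightInverse_comp_apply _ _ _ _ _⟩
  exact Ab_not_cyclic n hn (isCyclic_of_surjective g hg)

theorem Stage.next (hn : 1 < n) (hS : StepHolds n R κ a D) (s : Stage n R κ a D) :
    ∃ t : Stage n R κ a D, s.f.ker ≤ t.f.ker ∧ (∀ g, s.d 1 (s.f g) ≤ 1 → t.f (g ^ n) = 1) ∧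
      ∀ g, 2 * t.d 1 (t.f g) ≤ s.d 1 (s.f g) + 1 := by
  obtain ⟨N, hN, d', h1, h2, h3, h4, h5⟩ := hS s.G s.d s.inv (s.not_cyclic hn) s.ex
  refine ⟨⟨s.G ⧸ N, inferInstance, (QuotientGroup.mk' N).comp s.f,
    (QuotientGroup.mk'_surjective N).comp s.surj, d', h1, ?_, h5⟩, ?_, ?_, ?_⟩
  · intro g hg
    have hg' : s.f g ∈ N := by
      have : (QuotientGroup.mk' N) (s.f g) = 1 := hg
      simpa using this
    have h6 := h2 hg'
    have h7 : Subgroup.normalClosure {g : s.G | ∃ u, g = u ^ n} =
        (Subgroup.normalClosure (powSet (FreeGroup (Fin 2)) n)).map s.f := by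
      rw [Subgroup.map_normalClosure _ _ s.surj]
      congr 1
      ext x
      constructor
      · rintro ⟨u, rfl⟩
        obtain ⟨v, rfl⟩ := s.surj u
        exact ⟨v ^ n, ⟨v, rfl⟩, by rw [map_pow]⟩
      · rintro ⟨_, ⟨v, rfl⟩, rfl⟩
        exact ⟨s.f v, by rw [map_pow]⟩
    rw [h7] at h6
    obtain ⟨h, hh, hfh⟩ := h6
    have h8 : g * h⁻¹ ∈ s.f.ker := by
      rw [MonoidHom.mem_ker, map_mul, map_inv, ← hfh]
      simp
    have h9 := Subgroup.mul_mem _ (s.ker_le h8) hh
    simpa using h9
  · intro g hg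
    rw [MonoidHom.mem_ker] at hg ⊢
    simp [hg]
  · intro g hg
    have := h3 (s.f g) hg
    show (QuotientGroup.mk' N) (s.f (g ^ n)) = 1
    rw [map_pow]
    exact (QuotientGroup.eq_one_iff _).2 this
  · intro g
    exact h4 (s.f g)

/-- The sequence of stages. -/
noncomputable def stages (hn : 1 < n) (hS : StepHolds n R κ a D) (s₀ : Stage n R κ a D) :
    ℕ → Stage n R κ a D
  | 0 => s₀
  | k + 1 => (Stage.next hn hS (stages hn hS s₀ k)).choose

theorem stages_spec (hn : 1 < n) (hS : StepHolds n R κ a D) (s₀ : Stage n R κ a D) (k : ℕ) :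
    (stages hn hS s₀ k).f.ker ≤ (stages hn hS s₀ (k + 1)).f.ker ∧
    (∀ g, (stages hn hS s₀ k).d 1 ((stages hn hS s₀ k).f g) ≤ 1 →
      (stages hn hS s₀ (k + 1)).f (g ^ n) = 1) ∧
      ∀ g, 2 * (stages hn hS s₀ (k + 1)).d 1 ((stages hn hS s₀ (k + 1)).f g) ≤
        (stages hn hS s₀ k).d 1 ((stages hn hS s₀ k).f g) + 1 :=
  (Stage.next hn hS (stages hn hS s₀ k)).choose_spec

/-- In a stage the group is infinite. -/
theorem Stage.infinite (s : Stage n R κ a D) : Infinite s.G := by
  by_contra hfin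
  rw [not_infinite_iff_finite] at hfin
  obtain ⟨u, hu⟩ := s.ex
  rcases s.inv.lox u with h | h
  · exact hu h
  · have h1 := h 1 (Nat.card s.G)
    rw [pow_card_eq_one', mul_one, s.inv.met.self, mul_zero] at h1
    have h2 : 0 < Nat.card s.G := Nat.card_pos
    omega

theorem exists_small (hn : 1 < n) (hS : StepHolds n R κ a D) (s₀ : Stage n R κ a D)
    (g : FreeGroup (Fin 2)) (m : ℕ) : ∀ k, (stages hn hS s₀ k).d 1 ((stages hn hS s₀ k).f g) ≤ m →
      ∃ j, (stages hn hS s₀ j).d 1 ((stages hn hS s₀ j).f g) ≤ 1 := by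
  induction m with
  | zero => intro k hk; exact ⟨k, by push_cast at hk; omega⟩
  | succ m ih =>
    intro k hk
    by_cases h1 : (stages hn hS s₀ k).d 1 ((stages hn hS s₀ k).f g) ≤ 1
    · exact ⟨k, h1⟩
    · apply ih (k + 1)
      have h2 := (stages_spec hn hS s₀ k).2.2 g
      push_cast at hk
      omega

theorem limit (n : ℕ) (hn : 1 < n) (R κ a D : ℤ) (hS : StepHolds n R κ a D)
    (d₀ : FreeGroup (Fin 2) → FreeGroup (Fin 2) → ℤ) (h₀ : Inv n R κ a D d₀) :
    ∃ (B : Type) (_ : Group B), Group.FG B ∧ Infinite B ∧ ∀ b : B, b ^ n = 1 := by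
  let s₀ : Stage n R κ a D :=
    { G := FreeGroup (Fin 2)
      grp := inferInstance
      f := MonoidHom.id _
      surj := Function.surjective_id
      d := d₀
      inv := h₀
      ker_le := by
        intro g hg
        have : g = 1 := hg
        rw [this]
        exact Subgroup.one_mem _
      ex := by
        refine ⟨FreeGroup.of 0, ?_⟩
        intro h
        have h1 : (FreeGroup.lift (fun _ : Fin 2 => Multiplicative.ofAdd (1 : ℤ)))
          ((FreeGroup.of 0) ^ n) = 1 := by rw [h, map_one]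
        rw [map_pow, FreeGroup.lift_apply_of] at h1
        have h2 := congrArg Multiplicative.toAdd h1
        simp at h2
        omega }
  set S := stages hn hS s₀ with hSdef
  have spec := stages_spec hn hS s₀
  have mono : Monotone (fun k => (S k).f.ker) := monotone_nat_of_le_succ fun k => (spec k).1
  let N : Subgroup (FreeGroup (Fin 2)) := ⨆ k, (S k).f.ker
  have hmem : ∀ g, g ∈ N ↔ ∃ k, g ∈ (S k).f.ker := fun g =>
    Subgroup.mem_iSup_of_directed mono.directed_le
  have hN : N.Normal := by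
    refine ⟨fun g hg h => ?_⟩
    obtain ⟨k, hk⟩ := (hmem g).1 hg
    exact (hmem _).2 ⟨k, (MonoidHom.normal_ker (S k).f).conj_mem g hk h⟩
  refine ⟨FreeGroup (Fin 2) ⧸ N, inferInstance, ?_, ?_, ?_⟩
  · infer_instance
  · by_contra hfin
    rw [not_infinite_iff_finite] at hfin
    have hidx : N.index ≠ 0 := by
      have : N.FiniteIndex := Subgroup.finiteIndex_of_finite_quotient
      exact Subgroup.FiniteIndex.index_ne_zero
    have hfg : N.FG := by
      have : N.FiniteIndex := ⟨hidx⟩
      rw [← Group.fg_iff_subgroup_fg]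
      exact Subgroup.fg_of_index_ne_zero N
    obtain ⟨T, hT⟩ := hfg
    have hk : ∀ T' : Finset (FreeGroup (Fin 2)), (∀ g ∈ T', g ∈ N) →
        ∃ k, ∀ g ∈ T', g ∈ (S k).f.ker := by
      classical
      intro T'
      induction T' using Finset.induction_on with
      | empty => intro _; exact ⟨0, by simp⟩
      | insert x T' hx ih =>
        intro h
        obtain ⟨k, hk⟩ := ih fun g hg => h g (Finset.mem_insert_of_mem hg)
        obtain ⟨j, hj⟩ := (hmem x).1 (h x (Finset.mem_insert_self _ _))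
        refine ⟨max j k, fun g hg => ?_⟩
        rcases Finset.mem_insert.1 hg with rfl | hg
        · exact mono (le_max_left j k) hj
        · exact mono (le_max_right j k) (hk g hg)
    obtain ⟨k, hk⟩ := hk T fun g hg => by
      rw [← hT]
      exact Subgroup.subset_closure hg
    have hle : N ≤ (S k).f.ker := by
      rw [← hT, Subgroup.closure_le]
      exact hk
    have hinf := (S k).infinite
    have : Finite (S k).G := by
      let φ : FreeGroup (Fin 2) ⧸ N →* (S k).G := QuotientGroup.lift N (S k).f hle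
      have hφ : Function.Surjective φ := by
        intro y
        obtain ⟨x, rfl⟩ := (S k).surj y
        exact ⟨(x : FreeGroup (Fin 2) ⧸ N), by simp [φ]⟩
      exact Finite.of_surjective φ hφ
    exact not_finite (S k).G
  · intro b
    obtain ⟨g, rfl⟩ := QuotientGroup.mk_surjective b
    obtain ⟨j, hj⟩ := exists_small hn hS s₀ g ((S 0).d 1 ((S 0).f g)).toNat 0 (by
      rw [← hSdef]
      exact Int.self_le_toNat _)
    have h1 := (spec j).2.1 g hj
    rw [← QuotientGroup.mk_pow, QuotientGroup.eq_one_iff]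
    exact (hmem _).2 ⟨j + 1, h1⟩

end Pool.Agent.Burnside
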