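import Pool.Agent.Burnside.Step
import Pool.Agent.Burnside.Free
import Pool.Agent.Burnside.Limit

/-!
Infinite finitely generated groups of large odd exponent (the theorem of Novikov and Adian, for
all odd exponents at least `10 ^ 30`), proved by iterated small cancellation with integer valued
hyperbolic metrics.
-/

namespace Pool.Agent.Burnside

theorem Inv.relax {G : Type*} [Group G] {n : ℕ} {κ : ℤ} {d : G → G → ℤ}
    (I : Inv n 1 κ (10 * κ + 100) 0 d) {R a : ℤ} (hR : 1 ≤ R) (ha : 10 * κ + 100 ≤ a) :
    Inv n R κ a 3 d := by
  refine ⟨I.met, ?_, I.left, ?_, ?_⟩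
  · intro x y z w
    have := I.hyp x y z w
    omega
  · intro u
    rcases I.lox u with h | h
    · exact Or.inl h
    · right
      intro x m
      have h1 := h x m
      have h2 := I.met.nonneg x (u ^ m * x)
      nlinarith
  · intro x y u v hxy
    exact I.comm x y u v (le_trans ha hxy)

/-- Infinite finitely generated groups of exponent `n`, for every large odd `n`. -/
theorem infinite_burnside (n : ℕ) (hn : Odd n) (hn' : (10 : ℤ) ^ 30 ≤ n) :
    ∃ (B : Type) (_ : Group B), Group.FG B ∧ Infinite B ∧ ∀ b : B, b ^ n = 1 := by
  obtain ⟨d, hd⟩ := free_inv n hn.pos 1000 (by norm_num)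
  have h1 : 1 < n := by
    have : (1 : ℤ) < n := lt_of_lt_of_le (by norm_num) hn'
    exact_mod_cast this
  exact limit n h1 512400000 1000 100000 3 (step_holds n hn hn') d
    (hd.relax (by norm_num) (by norm_num))

end Pool.Agent.Burnside
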