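import Pool.Agent.Burnside.Defs

/-!
Isometries: displacement sequences, torsion and loxodromic elements.
-/

namespace Pool.Agent.Burnside

variable {G : Type*} [Group G] {d : G → G → ℤ}

theorem LInv.inv_left (hl : LInv d) (u x y : G) : d (u⁻¹ * x) y = d x (u * y) := by
  have := hl u (u⁻¹ * x) y
  rw [← this]
  congr 1
  group

theorem LInv.inv_right (hl : LInv d) (u x y : G) : d x (u⁻¹ * y) = d (u * x) y := by
  have := hl u x (u⁻¹ * y)
  rw [← this]
  congr 1
  group

/-- Displacement growth: if the square moves a point essentially further than the element then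
the element is loxodromic. -/
theorem disp_growth {D : ℤ} (h : IsMet d) (hl : LInv d) (hH : Hyp D d) (u x : G) {s : ℤ}
    (hs : 1 ≤ s) (h2 : d x (u * x) + D + s ≤ d x (u ^ 2 * x)) (m : ℕ) :
    d x (u * x) + m * s ≤ d x (u ^ (m + 1) * x) := by
  have key : ∀ m : ℕ, d x (u ^ (m + 1) * x) + s ≤ d x (u ^ (m + 2) * x) := by
    intro m
    induction m with
    | zero =>
      have hD := hH.nonneg h x
      simp only [zero_add, pow_one]
      omega
    | succ m ih =>
      -- points x, u x, u^2 x, u^(m+3) x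
      have h1 := hH x (u * x) (u ^ 2 * x) (u ^ (m + 3) * x)
      have e1 : d (u * x) (u ^ (m + 3) * x) = d x (u ^ (m + 2) * x) := by
        rw [← hl u x (u ^ (m + 2) * x)]
        congr 1
        rw [← mul_assoc, ← pow_succ']
      have e2 : d (u ^ 2 * x) (u ^ (m + 3) * x) = d x (u ^ (m + 1) * x) := by
        rw [← hl (u ^ 2) x (u ^ (m + 1) * x)]
        congr 1
        rw [← mul_assoc, ← pow_add]
        congr 2
        omega
      have e3 : d (u * x) (u ^ 2 * x) = d x (u * x) := by
        rw [← hl u x (u * x)]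
        congr 1
        rw [pow_two, mul_assoc]
      rw [e1, e2, e3] at h1
      have e4 : m + 1 + 1 = m + 2 := rfl
      have e5 : m + 1 + 2 = m + 3 := rfl
      rw [e4, e5]
      omega
  induction m with
  | zero => simp
  | succ m ih =>
    have := key m
    push_cast
    have e4 : m + 1 + 1 = m + 2 := rfl
    rw [e4]
    linarith

/-- A torsion element satisfies the reverse inequality. -/
theorem disp_torsion {D : ℤ} (h : IsMet d) (hl : LInv d) (hH : Hyp D d) (u x : G) {n : ℕ}
    (hn : 0 < n) (hu : u ^ n = 1) : d x (u ^ 2 * x) ≤ d x (u * x) + D := by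
  by_contra hcon
  push Not at hcon
  have h1 := disp_growth h hl hH u x (s := 1) (by norm_num) (by omega) (n - 1)
  have e : n - 1 + 1 = n := by omega
  rw [e, hu, one_mul, h.self] at h1
  have h2 := h.nonneg x (u * x)
  -- then d x (u x) = 0 and n = 1
  have h3 : (n - 1 : ℕ) = 0 := by
    have : ((n - 1 : ℕ) : ℤ) ≤ 0 := by linarith
    omega
  have h4 : n = 1 := by omega
  subst h4
  have h5 : u = 1 := by simpa using hu
  subst h5
  simp only [one_pow, one_mul, h.self] at hcon
  have := hH.nonneg h x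
  omega

theorem Lox.pos {R : ℤ} {u : G} (h : IsMet d) (hu : Lox d R u) : 0 < R := by
  have h1 := hu 1 1
  have h2 := h.nonneg (1 : G) (u ^ 1 * 1)
  by_contra hcon
  push Not at hcon
  have : R * d 1 (u ^ 1 * 1) ≤ 0 := mul_nonpos_of_nonpos_of_nonneg hcon h2
  push_cast at h1
  linarith

theorem Lox.zpow {R : ℤ} {u : G} (h : IsMet d) (hl : LInv d) (hu : Lox d R u) (x : G) (k : ℤ) :
    |k| ≤ R * d x (u ^ k * x) := by
  obtain ⟨m, rfl | rfl⟩ := k.eq_nat_or_neg
  · simpa using hu x m
  · rw [abs_neg, Nat.abs_cast, zpow_neg, zpow_natCast]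
    have h1 := hu x m
    rw [hl.inv_right, h.symm]
    exact h1

theorem Lox.zpow' {R : ℤ} {u : G} (h : IsMet d) (hl : LInv d) (hu : Lox d R u) (x : G) (i j : ℤ) :
    |i - j| ≤ R * d (u ^ i * x) (u ^ j * x) := by
  have h1 := hu.zpow h hl x (j - i)
  rw [abs_sub_comm]
  have e : d x (u ^ (j - i) * x) = d (u ^ i * x) (u ^ j * x) := by
    rw [← hl (u ^ i) x (u ^ (j - i) * x)]
    congr 1
    rw [← mul_assoc, ← zpow_add]
    congr 2
    ring
  rwa [e] at h1

theorem Lox.ne_one {R : ℤ} {u : G} (h : IsMet d) (hu : Lox d R u) {m : ℕ} (hm : 0 < m) :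
    u ^ m ≠ 1 := by
  intro hcon
  have := hu 1 m
  rw [hcon, one_mul, h.self] at this
  simp at this
  omega

theorem Lox.zpow_ne_one {R : ℤ} {u : G} (h : IsMet d) (hl : LInv d) (hu : Lox d R u) {m : ℤ}
    (hm : m ≠ 0) : u ^ m ≠ 1 := by
  intro hcon
  have := hu.zpow h hl 1 m
  rw [hcon, one_mul, h.self] at this
  simp at this
  exact hm this

omit [Group G] in
/-- The Gromov product is Lipschitz. -/
theorem gp_lip (h : IsMet d) (x y z x' y' : G) :
    gp d x' y' z ≤ gp d x y z + 2 * d x x' + 2 * d y y' := by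
  have h1 := h.tri x' x z
  have h2 := h.tri y' y z
  have h3 := h.tri x x' y
  have h4 := h.tri x' y' y
  have e1 := h.symm x x'
  have e2 := h.symm y y'
  unfold gp
  omega

theorem gp_left (hl : LInv d) (u x y z : G) : gp d (u * x) (u * y) (u * z) = gp d x y z := by
  unfold gp
  rw [hl, hl, hl]

/-- An orbit of a loxodromic element is unbounded. -/
theorem Lox.exists_far {R : ℤ} {u : G} (h : IsMet d) (hu : Lox d R u) (x : G) (T : ℤ) :
    ∃ K : ℕ, ∀ m : ℕ, K ≤ m → T ≤ d x (u ^ m * x) := by
  have hR := hu.pos h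
  refine ⟨(R * T).toNat, fun m hm => ?_⟩
  have h1 := hu x m
  have h2 : R * T ≤ R * d x (u ^ m * x) := by
    have : R * T ≤ (m : ℤ) := by omega
    linarith
  exact le_of_mul_le_mul_left h2 hR

end Pool.Agent.Burnside
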