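import Pool.Agent.Burnside.Iso
import Pool.Agent.Burnside.AlignedBase

/-!
Equivariant aligned paths of elements with large displacement (helper64).
-/

namespace Pool.Agent.Burnside

/-- A sequence which is aligned on one scale, one side. -/
theorem lp_oneside {V : Type*} {d : V → V → ℤ} (hd : IsMet d) (hH : Hyp 3 d) (Z : ℤ → V) {A : ℤ}
    (hA : 101 ≤ A) (hstep : ∀ i, d (Z i) (Z (i + 1)) = A)
    (hloc : ∀ i, gp d (Z (i - 1)) (Z (i + 1)) (Z i) ≤ 48) :
    ∀ (N : ℕ) (s : ℤ), gp d (Z (s - 1)) (Z (s + N)) (Z s) ≤ 51 := by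
  intro N
  induction N with
  | zero =>
    intro s
    have h1 := hd.self (Z s)
    unfold gp
    simp only [Nat.cast_zero, add_zero]
    omega
  | succ N ih =>
    intro s
    have h1 := hloc s
    have h2 := ih (s + 1)
    have h3 := hH.gp_ge hd (Z (s - 1)) (Z (s + 1)) (Z (s + (N + 1 : ℕ))) (Z s)
    have e : s + 1 + (N : ℤ) = s + (N + 1 : ℕ) := by push_cast; ring
    have e' : s + 1 - 1 = s := by ring
    rw [e, e'] at h2
    have h4 := hstep s
    have e1 := hd.symm (Z s) (Z (s + 1))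
    have e2 := hd.symm (Z s) (Z (s + (N + 1 : ℕ)))
    unfold gp at *
    omega

/-- Local to global for a coarse sequence. -/
theorem lp_twoside {V : Type*} {d : V → V → ℤ} (hd : IsMet d) (hH : Hyp 3 d) (Z : ℤ → V) {A : ℤ}
    (hA : 101 ≤ A) (hstep : ∀ i, d (Z i) (Z (i + 1)) = A)
    (hloc : ∀ i, gp d (Z (i - 1)) (Z (i + 1)) (Z i) ≤ 48) : Al d 54 Z := by
  have P := lp_oneside hd hH Z hA hstep hloc
  have Q := lp_oneside hd hH (fun i => Z (-i)) hA
    (fun i => by
      have := hstep (-i - 1)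
      have e : -i - 1 + 1 = -i := by ring
      have e2 : -(i + 1) = -i - 1 := by ring
      rw [e] at this
      rw [hd.symm, e2]
      exact this)
    (fun i => by
      have := hloc (-i)
      have e1 : -(i - 1) = -i + 1 := by ring
      have e2 : -(i + 1) = -i - 1 := by ring
      rw [gp_symm hd, e1, e2]
      exact this)
  intro r s t hrs hst
  rcases eq_or_lt_of_le hrs with rfl | hrs
  · have h1 := hd.self (Z r)
    have e := hd.symm (Z r) (Z t)
    unfold gp
    omega
  · have h1 := P (t - s).toNat s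
    have e1 : s + ((t - s).toNat : ℤ) = t := by omega
    rw [e1] at h1
    have h2 := Q (s - 1 - r).toNat (-(s - 1))
    have e2 : -(-(s - 1) - 1) = s := by ring
    have e3 : -(-(s - 1) + ((s - 1 - r).toNat : ℤ)) = r := by omega
    simp only [neg_neg, e2, e3] at h2
    have h3 := hH.gp_ge hd (Z (s - 1)) (Z t) (Z r) (Z s)
    have h4 := hstep (s - 1)
    have e4 : s - 1 + 1 = s := by ring
    rw [e4] at h4
    have e5 := hd.symm (Z (s - 1)) (Z s)
    have e6 := hd.symm (Z (s - 1)) (Z r)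
    have e7 := hd.symm (Z s) (Z r)
    unfold gp at *
    omega

section cells

variable {V : Type*} {d : V → V → ℤ} {Z : ℤ → V} {A : ℤ}

theorem lp_left (hd : IsMet d) (hZ : Al d 54 Z) {r s : ℤ} (hrs : r < s) {w : V}
    (hw : gp d (Z r) (Z (r + 1)) w = 0) :
    d (Z r) w + d w (Z s) - 54 ≤ d (Z r) (Z s) := by
  have h1 := hZ r (r + 1) s (by omega) (by omega)
  have h2 := hd.tri w (Z (r + 1)) (Z s)
  have e1 := hd.symm (Z (r + 1)) (Z s)
  have e2 := hd.symm (Z (r + 1)) w
  unfold gp at *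
  omega

theorem lp_right (hd : IsMet d) (hZ : Al d 54 Z) {s t : ℤ} (hst : s ≤ t) {w : V}
    (hw : gp d (Z t) (Z (t + 1)) w = 0) :
    d (Z s) w + d w (Z (t + 1)) - 54 ≤ d (Z s) (Z (t + 1)) := by
  have h1 := hZ s t (t + 1) (by omega) (by omega)
  have h2 := hd.tri (Z s) (Z t) w
  have e1 := hd.symm (Z (t + 1)) (Z t)
  have e2 := hd.symm (Z (t + 1)) w
  unfold gp at *
  omega

theorem lp_two (hd : IsMet d) (hZ : Al d 54 Z) {r s t : ℤ} (hrs : r < s) (hst : s ≤ t) {w w' : V}
    (hw : gp d (Z r) (Z (r + 1)) w = 0) (hw' : gp d (Z t) (Z (t + 1)) w' = 0) :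
    d w (Z s) + d (Z s) w' - 162 ≤ d w w' := by
  have h1 := lp_left hd hZ hrs hw
  have h2 := lp_right hd hZ hst hw'
  have h3 := hZ r s (t + 1) (by omega) (by omega)
  have h4 := hd.tri (Z r) w (Z (t + 1))
  have h5 := hd.tri w w' (Z (t + 1))
  have e1 := hd.symm (Z (t + 1)) (Z s)
  unfold gp at h3
  omega

theorem lp_next (hd : IsMet d) (hZ : Al d 54 Z) {s t : ℤ} (hst : s < t) {w' : V}
    (hw' : gp d (Z t) (Z (t + 1)) w' = 0) :
    d (Z s) (Z (s + 1)) + d (Z (s + 1)) w' - 108 ≤ d (Z s) w' := by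
  have h2 := lp_right hd hZ (show s + 1 ≤ t by omega) hw'
  have h3 := hZ s (s + 1) (t + 1) (by omega) (by omega)
  have h4 := hd.tri (Z s) w' (Z (t + 1))
  have e1 := hd.symm (Z (t + 1)) (Z (s + 1))
  unfold gp at h3
  omega

/-- A path made of geodesic cells over an aligned sequence. -/
theorem lp_al (hd : IsMet d) (hZ : Al d 54 Z) (hA : 0 < A) {q : ℤ → V}
    (hq0 : ∀ r, q (r * A) = Z r)
    (hq : ∀ r i j, 0 ≤ i → i ≤ j → j ≤ A → d (q (r * A + i)) (q (r * A + j)) = j - i) :
    Al d 270 q := by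
  have on : ∀ r i, 0 ≤ i → i ≤ A → gp d (Z r) (Z (r + 1)) (q (r * A + i)) = 0 := by
    intro r i hi hiA
    have h1 := hq r 0 i le_rfl hi hiA
    have h2 := hq r i A hi hiA le_rfl
    have h3 := hq r 0 A le_rfl hA.le le_rfl
    rw [add_zero, hq0] at h1 h3
    have e : r * A + A = (r + 1) * A := by ring
    rw [e, hq0] at h2 h3
    have e2 := hd.symm (q (r * A + i)) (Z (r + 1))
    unfold gp
    omega
  intro i j k hij hjk
  have hi := Int.emod_add_mul_ediv i A
  have hj := Int.emod_add_mul_ediv j A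
  have hk := Int.emod_add_mul_ediv k A
  have hi0 := Int.emod_nonneg i hA.ne'
  have hj0 := Int.emod_nonneg j hA.ne'
  have hk0 := Int.emod_nonneg k hA.ne'
  have hi1 := Int.emod_lt_of_pos i hA
  have hj1 := Int.emod_lt_of_pos j hA
  have hk1 := Int.emod_lt_of_pos k hA
  have hrs : i / A ≤ j / A := Int.ediv_le_ediv hA hij
  have hst : j / A ≤ k / A := Int.ediv_le_ediv hA hjk
  generalize hr : i / A = r at *
  generalize hs : j / A = s at *
  generalize ht : k / A = t at *
  generalize i % A = x at *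
  generalize j % A = y at *
  generalize k % A = v at *
  obtain rfl : i = r * A + x := by rw [← hi]; ring
  obtain rfl : j = s * A + y := by rw [← hj]; ring
  obtain rfl : k = t * A + v := by rw [← hk]; ring
  have oi := on r x hi0 hi1.le
  have oj := on s y hj0 hj1.le
  have ok := on t v hk0 hk1.le
  have cell : ∀ r i, 0 ≤ i → i ≤ A → d (q (r * A + i)) (Z (r + 1)) = A - i := by
    intro r i hi hiA
    have h2 := hq r i A hi hiA le_rfl
    have e : r * A + A = (r + 1) * A := by ring
    rwa [e, hq0] at h2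
  have cell' : ∀ r i, 0 ≤ i → i ≤ A → d (Z r) (q (r * A + i)) = i := by
    intro r i hi hiA
    have h1 := hq r 0 i le_rfl hi hiA
    rw [add_zero, hq0] at h1
    omega
  have e1 := hd.symm (q (t * A + v)) (q (s * A + y))
  rcases eq_or_lt_of_le hrs with rfl | hrs'
  · rcases eq_or_lt_of_le hst with rfl | hst'
    · have h1 := hq r x y hi0 (by omega) hj1.le
      have h2 := hq r y v hj0 (by omega) hk1.le
      have h3 := hq r x v hi0 (by omega) hk1.le
      unfold gp
      omega
    · have h1 := hq r x y hi0 (by omega) hj1.le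
      have h2 := cell r y hj0 hj1.le
      have h3 := cell r x hi0 hi1.le
      have h4 := lp_two hd hZ (show r < r + 1 by omega) (show r + 1 ≤ t by omega) oi ok
      have h5 := hd.tri (q (r * A + y)) (Z (r + 1)) (q (t * A + v))
      unfold gp
      omega
  · rcases eq_or_lt_of_le hst with rfl | hst'
    · have h2 := hq s y v hj0 (by omega) hk1.le
      have h3 := cell' s y hj0 hj1.le
      have h4 := cell' s v hk0 hk1.le
      have h5 := lp_two hd hZ hrs' le_rfl oi ok
      have h6 := hd.tri (q (r * A + x)) (Z s) (q (s * A + y))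
      unfold gp
      omega
    · have h1 := lp_two hd hZ hrs' hst'.le oi ok
      have h2 := lp_next hd hZ hst' ok
      have h3 := hd.tri (q (r * A + x)) (Z s) (q (s * A + y))
      have h4 := hd.tri (q (s * A + y)) (Z (s + 1)) (q (t * A + v))
      have h5 := cell' s y hj0 hj1.le
      have h6 := cell s y hj0 hj1.le
      have h7 := cell' s A hA.le le_rfl
      have e : s * A + A = (s + 1) * A := by ring
      rw [e, hq0] at h7
      unfold gp
      omega

end cells

variable {G : Type*} [Group G] {d : G → G → ℤ}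

/-- A `g`-equivariant aligned path of period `A`. -/
structure LPath (d : G → G → ℤ) (g : G) (A : ℤ) (q : ℤ → G) : Prop where
  step : Stp d 1 q
  eqv : ∀ i, q (i + A) = g * q i
  al : Al d 270 q
  speed : ∀ i, A - 48 ≤ d (q i) (q (i + A))
  orb : ∀ m : ℕ, m * (A - 54) ≤ d (q 0) (q (m * A))

omit [Group G] in
/-- Geodesics as sequences. -/
theorem lp_geo (h : IsMet d) (x y : G) : ∃ α : ℤ → G, α 0 = x ∧ α (d x y) = y ∧
    ∀ i j, 0 ≤ i → i ≤ j → j ≤ d x y → d (α i) (α j) = j - i := by
  obtain ⟨k, hk⟩ : ∃ k : ℕ, d x y = k := ⟨(d x y).toNat, by have := h.nonneg x y; omega⟩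
  suffices H : ∀ k : ℕ, ∀ x : G, d x y = k → ∃ α : ℕ → G, α 0 = x ∧ α k = y ∧
      ∀ i < k, d (α i) (α (i + 1)) ≤ 1 by
    obtain ⟨α, h0, h1, hs⟩ := H k x hk
    have up : ∀ i j, i ≤ j → j ≤ k → d (α i) (α j) ≤ (j : ℤ) - i := by
      intro i j hij
      induction j, hij using Nat.le_induction with
      | base => intro _; simp [h.self]
      | succ j hij ih =>
        intro hj
        have t := h.tri (α i) (α j) (α (j + 1))
        have := ih (by omega)
        have := hs j (by omega)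
        push_cast
        omega
    refine ⟨fun i => α i.toNat, by simpa using h0, by simpa [hk] using h1, ?_⟩
    intro i j hi hij hj
    have hjk : j.toNat ≤ k := by omega
    have hij' : i.toNat ≤ j.toNat := by omega
    have t1 := h.tri (α 0) (α i.toNat) (α k)
    have t2 := h.tri (α i.toNat) (α j.toNat) (α k)
    have u1 := up 0 i.toNat (by omega) (by omega)
    have u2 := up i.toNat j.toNat hij' hjk
    have u3 := up j.toNat k hjk le_rfl
    rw [h0, h1, hk] at t1
    rw [h1] at t2 u3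
    rw [h0] at u1
    have e1 : (i.toNat : ℤ) = i := by omega
    have e2 : (j.toNat : ℤ) = j := by omega
    rw [e1] at u1 u2
    rw [e2] at u2 u3
    push_cast at u1
    show d (α i.toNat) (α j.toNat) = j - i
    omega
  intro k
  induction k with
  | zero =>
    intro x hx
    refine ⟨fun _ => x, rfl, h.sep _ _ (by simpa using hx), ?_⟩
    intro i hi; omega
  | succ k ih =>
    intro x hx
    obtain ⟨z, hz1, hz2⟩ := h.geo x y 1 (by norm_num) (by rw [hx]; push_cast; omega)
    obtain ⟨α, h0, h1, h2⟩ := ih z (by rw [hz2, hx]; push_cast; ring)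
    refine ⟨fun i => if i = 0 then x else α (i - 1), by simp, by simpa using h1, ?_⟩
    intro i hi
    rcases Nat.eq_zero_or_pos i with rfl | hi0
    · simp [h0, hz1]
    · have := h2 (i - 1) (by omega)
      have e1 : i ≠ 0 := by omega
      have e2 : i - 1 + 1 = i := by omega
      simp only [e1, if_false, Nat.add_eq_zero_iff, one_ne_zero, and_false, Nat.add_sub_cancel]
      rwa [e2] at this

theorem exists_lpath (hd : IsMet d) (hl : LInv d) (hH : Hyp 3 d) {g z : G}
    (hA : 101 ≤ d z (g * z)) (hc : gp d (g⁻¹ * z) (g * z) z ≤ 48) :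
    ∃ q, LPath d g (d z (g * z)) q ∧ q 0 = z ∧
      ∀ i, ∃ r : ℤ, ∃ w, gp d z (g * z) w = 0 ∧ q i = g ^ r * w := by
  obtain ⟨α, h0, h1, h2⟩ := lp_geo hd z (g * z)
  obtain ⟨A, hAdef⟩ : ∃ A : ℤ, d z (g * z) = A := ⟨_, rfl⟩
  rw [hAdef] at hA h1 h2 ⊢
  have hA0 : 0 < A := by omega
  obtain ⟨Z, hZdef⟩ : ∃ Z : ℤ → G, ∀ r, Z r = g ^ r * z := ⟨_, fun _ => rfl⟩
  have hstep : ∀ i, d (Z i) (Z (i + 1)) = A := by
    intro i
    rw [hZdef, hZdef, zpow_add_one, mul_assoc, hl, hAdef]
  have hloc : ∀ i, gp d (Z (i - 1)) (Z (i + 1)) (Z i) ≤ 48 := by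
    intro i
    rw [hZdef, hZdef, hZdef, zpow_add_one, zpow_sub_one, mul_assoc, mul_assoc, gp_left hl]
    exact hc
  have hZ := lp_twoside hd hH Z hA hstep hloc
  obtain ⟨q, hqdef⟩ : ∃ q : ℤ → G, ∀ i, q i = g ^ (i / A) * α (i % A) := ⟨_, fun _ => rfl⟩
  have hq' : ∀ r i, 0 ≤ i → i ≤ A → q (r * A + i) = g ^ r * α i := by
    intro r i hi hiA
    rcases eq_or_lt_of_le hiA with rfl | hiA
    · have e : r * i + i = (r + 1) * i := by ring
      rw [hqdef, e, Int.mul_ediv_cancel _ hA0.ne', Int.mul_emod_left, h0, h1, zpow_add_one,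
        mul_assoc]
    · rw [hqdef, add_comm, Int.add_mul_ediv_right _ _ hA0.ne', Int.ediv_eq_zero_of_lt hi hiA,
        zero_add, Int.add_mul_emod_self_right, Int.emod_eq_of_lt hi hiA]
  have hq0 : ∀ r, q (r * A) = Z r := by
    intro r
    have := hq' r 0 le_rfl hA0.le
    rw [add_zero, h0] at this
    rw [this, hZdef]
  have hqd : ∀ r i j, 0 ≤ i → i ≤ j → j ≤ A → d (q (r * A + i)) (q (r * A + j)) = j - i := by
    intro r i j hi hij hj
    rw [hq' r i hi (by omega), hq' r j (by omega) hj, hl, h2 i j hi hij hj]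
  have dec : ∀ i : ℤ, ∃ r x, 0 ≤ x ∧ x < A ∧ i = r * A + x := fun i =>
    ⟨i / A, i % A, Int.emod_nonneg _ hA0.ne', Int.emod_lt_of_pos _ hA0, by
      have := Int.emod_add_mul_ediv i A
      rw [← this]
      have e : i % A + A * (i / A) = i := this
      rw [e]
      linarith⟩
  have heqv : ∀ i, q (i + A) = g * q i := by
    intro i
    obtain ⟨r, x, hx0, hx1, rfl⟩ := dec i
    have e : r * A + x + A = (r + 1) * A + x := by ring
    rw [e, hq' _ x hx0 hx1.le, hq' _ x hx0 hx1.le, add_comm r 1, zpow_one_add, mul_assoc]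
  refine ⟨q, ⟨?_, heqv, lp_al hd hZ hA0 hq0 hqd, ?_, ?_⟩, ?_, ?_⟩
  · intro i
    obtain ⟨r, x, hx0, hx1, rfl⟩ := dec i
    have := hqd r x (x + 1) hx0 (by omega) (by omega)
    rw [add_assoc, this]
    omega
  · intro i
    rw [heqv]
    obtain ⟨r, x, hx0, hx1, rfl⟩ := dec i
    have h3 := hloc (r + 1)
    have e : r + 1 - 1 = r := by ring
    rw [e] at h3
    have h4 := hd.tri (Z r) (q (r * A + x)) (Z (r + 1 + 1))
    have h5 := hd.tri (q (r * A + x)) (g * q (r * A + x)) (Z (r + 1 + 1))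
    have h6 := hqd r 0 x le_rfl hx0 hx1.le
    have h7 := hqd r x A hx0 hx1.le le_rfl
    have e2 : r * A + A = (r + 1) * A := by ring
    rw [add_zero, hq0] at h6
    rw [e2, hq0] at h7
    have h8 : d (g * q (r * A + x)) (Z (r + 1 + 1)) = d (q (r * A + x)) (Z (r + 1)) := by
      have : Z (r + 1 + 1) = g * Z (r + 1) := by
        rw [hZdef, hZdef, add_comm (r + 1) 1, zpow_one_add, mul_assoc]
      rw [this, hl]
    have h9 := hstep r
    have h10 := hstep (r + 1)
    have e3 := hd.symm (Z (r + 1 + 1)) (Z (r + 1))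
    unfold gp at h3
    omega
  · intro m
    have e0 : q 0 = Z 0 := by simpa using hq0 0
    rw [e0, hq0]
    induction m with
    | zero => simp [hd.self]
    | succ m ih =>
      have h3 := hZ 0 m (m + 1) (by omega) (by omega)
      have h4 := hstep m
      have e1 := hd.symm (Z ((m : ℤ) + 1)) (Z m)
      push_cast
      unfold gp at h3
      linarith
  · have : q 0 = Z 0 := by simpa using hq0 0
    rw [this, hZdef]
    simp
  · intro i
    obtain ⟨r, x, hx0, hx1, rfl⟩ := dec i
    refine ⟨r, α x, ?_, hq' r x hx0 hx1.le⟩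
    have h3 := h2 0 x le_rfl hx0 hx1.le
    have h4 := h2 x A hx0 hx1.le le_rfl
    rw [h0] at h3
    rw [h1] at h4
    have e1 := hd.symm (g * z) (α x)
    unfold gp
    omega

end Pool.Agent.Burnside
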