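import Pool.Agent.Burnside.Ov
import Pool.Agent.Burnside.Tube

/-!
Translates of a point by the powers of a long element have bounded differences of coordinates
on every axis.
-/

namespace Pool.Agent.Burnside

variable {G : Type*} [Group G] {d : G → G → ℤ} {n : ℕ} {R κ a : ℤ}
variable {P : Set G} {b : G → G} {p : G → G → ℤ}

/-- The path at time `m * A`. -/
theorem LPath.mul_eq {g : G} {A : ℤ} {q : ℤ → G} (Q : LPath d g A q) (m : ℕ) :
    q (m * A) = g ^ m * q 0 := by
  induction m with
  | zero => simp
  | succ m ih =>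
    have e : ((m + 1 : ℕ) : ℤ) * A = m * A + A := by push_cast; ring
    rw [e, Q.eqv, ih, pow_succ', mul_assoc]

/-- One period of the path. -/
theorem am_period (S : AxSys n d P b p) {g z : G} {A : ℤ} {q : ℤ → G} (Q : LPath d g A q)
    (hq : ∀ i, ∃ r : ℤ, ∃ w, gp d z (g * z) w = 0 ∧ q i = g ^ r * w) {W : ℤ}
    (hW : ∀ w, gp d z (g * z) w = 0 → ∀ h ∈ P, |am p h w (g * w)| ≤ W) (i : ℤ) {h : G}
    (hh : h ∈ P) : |am p h (q i) (q (i + A))| ≤ W := by
  obtain ⟨r, w, hw, hr⟩ := hq i
  have h1 : (g ^ r)⁻¹ * h * (g ^ r)⁻¹⁻¹ ∈ P := S.conj h hh _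
  have h2 := hW w hw _ h1
  have h3 := S.equiv _ h1 (g ^ r) (g * w) w
  have e1 : g ^ r * ((g ^ r)⁻¹ * h * (g ^ r)⁻¹⁻¹) * (g ^ r)⁻¹ = h := by group
  have e2 : g ^ r * (g * w) = q (i + A) := by
    rw [Q.eqv, hr, ← mul_assoc, ← mul_assoc, ← zpow_add_one, ← zpow_one_add, add_comm]
  rw [e1, e2, ← hr] at h3
  unfold am at h2 ⊢
  rw [h3]
  exact h2

/-- `P4` of the blueprint. -/
theorem long_am (I : Inv n R κ a 3 d) (S : AxSys n d P b p) (hκ : 1000 ≤ κ)
    (ha : 2000 ≤ a) {g z : G} (hA : 101 ≤ d z (g * z)) (hc : gp d (g⁻¹ * z) (g * z) z ≤ 48)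
    (hg : ∀ h ∈ P, g ∉ Subgroup.zpowers h) {W : ℤ}
    (hW : ∀ w, gp d z (g * z) w = 0 → ∀ h ∈ P, |am p h w (g * w)| ≤ W) (m : ℕ) :
    ∀ h ∈ P, |am p h z (g ^ m * z)| ≤ W + R * (a + 8000) := by
  intro h hh
  have hM := I.met
  have hR := (S.hlox I hh).pos hM
  obtain ⟨q, Q, hq0, hq⟩ := exists_lpath hM I.left I.hyp hA hc
  set A := d z (g * z) with hAdef
  have hper := fun i => am_period S Q hq hW i hh
  have hW0 : 0 ≤ W := (abs_nonneg _).trans (hper 0)
  have hRa : 0 ≤ R * (a + 8000) := mul_nonneg hR.le (by linarith)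
  rw [← hq0, ← Q.mul_eq m]
  -- the trivial case
  by_cases hm0 : m = 0
  · subst hm0
    have e : ((0 : ℕ) : ℤ) * A = 0 := by simp
    rw [e]
    unfold am
    simp only [sub_self, abs_zero]
    linarith
  -- one period
  by_cases hm1 : m = 1
  · subst hm1
    have h1 := hper 0
    rw [zero_add] at h1
    have e : ((1 : ℕ) : ℤ) * A = A := by simp
    rw [e]
    linarith
  -- small case
  by_cases hXY : d (pr b p h (q 0)) (pr b p h (q (m * A))) ≤ 1500
  · have h1 := (S.am_le I hh (q 0) (q (m * A))).trans (mul_le_mul_of_nonneg_left hXY hR.le)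
    have h2 : R * 1500 ≤ R * (a + 8000) := mul_le_mul_of_nonneg_left (by linarith) hR.le
    linarith
  push Not at hXY
  have hmA : (0 : ℤ) ≤ m * A := mul_nonneg (by positivity) (by linarith)
  obtain ⟨c1, c2, -⟩ := S.cross I hh (q 0) (q (m * A)) (by linarith)
  obtain ⟨t1, ht10, ht1m, ht1⟩ := exists_near_between hM I.hyp Q.al Q.step hmA c1
  obtain ⟨t2, ht20, ht2m, ht2⟩ := exists_near_between hM I.hyp Q.al Q.step hmA c2
  set X := pr b p h (q 0) with hX
  set Y := pr b p h (q (m * A)) with hY
  have hXm : X ∈ Ox b h := pr_mem _ _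
  have hYm : Y ∈ Ox b h := pr_mem _ _
  norm_num at ht1 ht2
  have hm2 : 2 ≤ m := by omega
  have hprY := S.proj I hh (q 0) hYm
  rw [← hX] at hprY
  have sXY := hM.symm X Y
  have s1 := hM.symm X (q t1)
  have s2 := hM.symm Y (q t2)
  -- the order of the two times
  have ht : t1 < t2 := by
    by_contra hcon
    push Not at hcon
    have h1 := Q.al 0 t2 t1 ht20 hcon
    have h2 := hM.tri (q 0) (q t2) Y
    have h3 := hM.tri (q 0) X (q t1)
    have h4 := hM.tri X (q t1) Y
    have h5 := hM.tri (q t1) (q t2) Y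
    have h6 := hM.symm (q t1) (q t2)
    unfold gp at h1 hprY
    linarith
  have hq12 : d (q t1) (q t2) ≤ A + a + 4382 := by
    have h1 := Q.ov I S hκ ha hA hh (hg h hh) 0 (m * A)
    rw [← hX, ← hY] at h1
    have h2 := hM.tri (q t1) X (q t2)
    have h3 := hM.tri X Y (q t2)
    linarith
  have hb1 : |am p h (q 0) (q t1)| ≤ R * 1182 := by
    have h1 := S.pr_le I hh (q t1) hXm
    have h2 := hM.tri X (q t1) (pr b p h (q t1))
    exact (S.am_le I hh (q 0) (q t1)).trans (mul_le_mul_of_nonneg_left (by linarith) hR.le)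
  have hb2 : |am p h (q t2) (q (m * A))| ≤ R * 1182 := by
    have h1 := S.pr_le I hh (q t2) hYm
    have h2 := hM.tri (pr b p h (q t2)) (q t2) Y
    have h3 := hM.symm (q t2) (pr b p h (q t2))
    exact (S.am_le I hh (q t2) (q (m * A))).trans
      (mul_le_mul_of_nonneg_left (by linarith) hR.le)
  have hsplit : ∀ t, |am p h (q 0) (q t)| + |am p h (q (t + A)) (q (m * A))| ≤ R * (a + 8000) →
      |am p h (q 0) (q (m * A))| ≤ W + R * (a + 8000) := by
    intro t htt
    have h1 : am p h (q 0) (q (m * A)) = am p h (q 0) (q t) + am p h (q t) (q (t + A)) +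
        am p h (q (t + A)) (q (m * A)) := by unfold am; ring
    rw [h1]
    have h2 := abs_add_three (am p h (q 0) (q t)) (am p h (q t) (q (t + A)))
      (am p h (q (t + A)) (q (m * A)))
    have h3 := hper t
    linarith
  by_cases hcase : t1 + A ≤ m * A
  · -- first case
    apply hsplit t1
    have hlast : |am p h (q (t1 + A)) (q (m * A))| ≤ R * (a + 6515) := by
      rcases le_total t2 (t1 + A) with h12 | h12
      · have h1 := mono I S hh (Q.al t2 (t1 + A) (m * A) h12 hcase)
        have h2 := abs_le.1 hb2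
        have h3 : R * 2760 ≤ R * (a + 6515) := mul_le_mul_of_nonneg_left (by linarith) hR.le
        unfold am at h2 ⊢
        rw [abs_le]
        rcases le_total (p h (q t2)) (p h (q (m * A))) with h4 | h4
        · rw [max_eq_right h4, min_eq_left h4] at h1
          constructor <;> linarith
        · rw [max_eq_left h4, min_eq_right h4] at h1
          constructor <;> linarith
      · have h1 := Q.al t1 (t1 + A) t2 (by linarith) h12
        have h2 := Q.speed t1
        have h3 := S.lip I hh (q (t1 + A)) (q t2)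
        have h4 := hM.symm (q (t1 + A)) (q t2)
        have h5 : d (pr b p h (q (t1 + A))) (pr b p h (q t2)) ≤ a + 5333 := by
          unfold gp at h1
          linarith
        have h6 := (S.am_le I hh (q (t1 + A)) (q t2)).trans
          (mul_le_mul_of_nonneg_left h5 hR.le)
        have h7 : am p h (q (t1 + A)) (q (m * A)) = am p h (q (t1 + A)) (q t2) +
          am p h (q t2) (q (m * A)) := by unfold am; ring
        rw [h7]
        have h8 := abs_add_le (am p h (q (t1 + A)) (q t2)) (am p h (q t2) (q (m * A)))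
        linarith
    linarith
  · -- second case
    push Not at hcase
    have hmA' : 0 ≤ t2 - A := by
      have h1 : (2 : ℤ) * A ≤ m * A :=
        mul_le_mul_of_nonneg_right (by exact_mod_cast hm2) (by linarith)
      linarith
    obtain ⟨t, rfl⟩ : ∃ t, t2 = t + A := ⟨t2 - A, by ring⟩
    apply hsplit t
    have ht0 : 0 ≤ t := by linarith
    have hfirst : |am p h (q 0) (q t)| ≤ R * (a + 6515) := by
      rcases le_total t t1 with h12 | h12
      · have h1 := mono I S hh (Q.al 0 t t1 ht0 h12)
        have h2 := abs_le.1 hb1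
        have h3 : R * 2760 ≤ R * (a + 6515) := mul_le_mul_of_nonneg_left (by linarith) hR.le
        unfold am at h2 ⊢
        rw [abs_le]
        rcases le_total (p h (q 0)) (p h (q t1)) with h4 | h4
        · rw [max_eq_right h4, min_eq_left h4] at h1
          constructor <;> linarith
        · rw [max_eq_left h4, min_eq_right h4] at h1
          constructor <;> linarith
      · have h1 := Q.al t1 t (t + A) h12 (by linarith)
        have h2 := Q.speed t
        have h3 := S.lip I hh (q t1) (q t)
        have h4 := hM.symm (q t) (q (t + A))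
        have h5 : d (pr b p h (q t1)) (pr b p h (q t)) ≤ a + 5333 := by
          unfold gp at h1
          linarith
        have h6 := (S.am_le I hh (q t1) (q t)).trans
          (mul_le_mul_of_nonneg_left h5 hR.le)
        have h7 : am p h (q 0) (q t) = am p h (q 0) (q t1) + am p h (q t1) (q t) := by
          unfold am; ring
        rw [h7]
        have h8 := abs_add_le (am p h (q 0) (q t1)) (am p h (q t1) (q t))
        linarith
    linarith

end Pool.Agent.Burnside
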