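import Pool.Agent.Burnside.Ov

/-!
Elements which are long for the metric `d` are loxodromic for the electric metric.
-/

namespace Pool.Agent.Burnside

variable {G : Type*} [Group G] {d e : G → G → ℤ} {n : ℕ} {R κ a : ℤ}
variable {P : Set G} {b : G → G} {p : G → G → ℤ}

theorem LPath.pow_eq {g : G} {A : ℤ} {q : ℤ → G} (Q : LPath d g A q) (m : ℕ) :
    q (m * A) = g ^ m * q 0 := by
  induction m with
  | zero => simp
  | succ m ih =>
    have e : ((m + 1 : ℕ) : ℤ) * A = m * A + A := by push_cast; ring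
    rw [e, Q.eqv, ih, pow_succ', mul_assoc]

/-- One edge of the electric metric moves the projection to the path by a bounded amount. -/
theorem LPath.edge (I : Inv n R κ a 3 d) (S : AxSys n d P b p) (E : El d e P b) (hκ : 1000 ≤ κ)
    (ha : 2000 ≤ a) {g : G} {A : ℤ} {q : ℤ → G} (Q : LPath d g A q) (hA : 101 ≤ A)
    (hg : ∀ h ∈ P, g ∉ Subgroup.zpowers h) {x y : G} (hxy : e x y ≤ 1) {s t : ℤ}
    (hs : Near d q x s) (ht : Near d q y t) : d (q s) (q t) ≤ A + a + 4394 := by
  have hM := I.met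
  rcases (E.adj x y).1 hxy with h1 | ⟨h, hh, hx, hy⟩
  · have h2 := proj_lip hM I.hyp Q.al Q.step hs ht
    norm_num at h2
    omega
  · by_contra hcon
    push Not at hcon
    obtain ⟨h3, h4, -⟩ := crossing hM I.hyp Q.al Q.step hs ht (by norm_num; omega)
    norm_num at h3 h4
    obtain ⟨w, hw, hdw⟩ := S.near_axis I hh hx hy (by norm_num) h3
    obtain ⟨w', hw', hdw'⟩ := S.near_axis I hh hx hy (by norm_num) h4
    have p1 := S.pr_le I hh (q s) hw
    have p2 := S.pr_le I hh (q t) hw'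
    have h5 := Q.ov I S hκ ha hA hh (hg h hh) s t
    have t1 := hM.tri (q s) (pr b p h (q s)) (q t)
    have t2 := hM.tri (pr b p h (q s)) (pr b p h (q t)) (q t)
    have s1 := hM.symm (pr b p h (q t)) (q t)
    omega

theorem long_e (I : Inv n R κ a 3 d) (S : AxSys n d P b p) (E : El d e P b) (hκ : 1000 ≤ κ)
    (ha : 2000 ≤ a) {g z : G} (hA : 101 ≤ d z (g * z)) (hc : gp d (g⁻¹ * z) (g * z) z ≤ 48)
    (hg : ∀ h ∈ P, g ∉ Subgroup.zpowers h) (m : ℕ) : (m : ℤ) ≤ (a + 5000) * e z (g ^ m * z) := by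
  have hM := I.met
  obtain ⟨q, Q, hq0, -⟩ := exists_lpath I.met I.left I.hyp hA hc
  obtain ⟨A, hAd⟩ : ∃ A, A = d z (g * z) := ⟨_, rfl⟩
  rw [← hAd] at Q hA
  obtain ⟨k, α, c⟩ := exists_chain E.met z (g ^ m * z)
  choose τ hτ using exists_near hM q
  have hfix : ∀ i, q (τ (q i)) = q i := by
    intro i
    have h1 := hτ (q i) i
    rw [hM.self] at h1
    exact (hM.sep _ _ (le_antisymm h1 (hM.nonneg _ _))).symm
  have hsum : ∀ i : ℕ, i ≤ k → d (q (τ (α 0))) (q (τ (α i))) ≤ i * (A + a + 4394) := by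
    intro i
    induction i with
    | zero => intro _; simp [hM.self]
    | succ i ih =>
      intro hi
      have h1 := ih (by omega)
      have h2 := Q.edge I S E hκ ha hA hg (c.step (by omega : i < k)) (hτ (α i)) (hτ (α (i + 1)))
      have h3 := hM.tri (q (τ (α 0))) (q (τ (α i))) (q (τ (α (i + 1))))
      push_cast
      rw [add_mul, one_mul]
      omega
  have h1 := hsum k le_rfl
  rw [c.zero, c.last] at h1
  have e1 : q (τ z) = z := by
    have := hfix 0
    rwa [hq0] at this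
  have e2 : q (m * A) = g ^ m * z := by rw [Q.pow_eq, hq0]
  have e3 : q (τ (g ^ m * z)) = g ^ m * z := by rw [← e2, hfix]
  rw [e1, e3] at h1
  have h2 := Q.orb m
  rw [e2, hq0] at h2
  rw [c.len]
  have hk : (0 : ℤ) ≤ k := by positivity
  have h3 : (k : ℤ) * (A + a + 4394) ≤ k * ((a + 5000) * (A - 54)) := by
    apply mul_le_mul_of_nonneg_left _ hk
    nlinarith
  have h4 : (m : ℤ) * (A - 54) ≤ ((a + 5000) * k) * (A - 54) := by
    calc (m : ℤ) * (A - 54) ≤ k * ((a + 5000) * (A - 54)) := by linarith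
      _ = ((a + 5000) * k) * (A - 54) := by ring
  exact le_of_mul_le_mul_right h4 (by omega)

end Pool.Agent.Burnside
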