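import Pool.Agent.Burnside.Proj

/-!
A lift of minimal displacement.
-/

namespace Pool.Agent.Burnside

variable {G : Type*} [Group G] {d : G → G → ℤ} {n : ℕ} {R κ a : ℤ}
variable {P : Set G} {b : G → G} {p : G → G → ℤ}

/-- Rotation by `h ^ (-n)` brings `y` closer to `x` when the coordinate difference is
more than about `n / 2`. -/
theorem min_desc (I : Inv n R κ a 3 d) (S : AxSys n d P b p) (hn : 1000 * R ≤ n) {h : G}
    (hh : h ∈ P) {x y : G} (hxy : (n : ℤ) + 1000 * R < 2 * (p h y - p h x)) :
    d x (h ^ (-(n : ℤ)) * y) < d x y := by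
  have hM := I.met
  have hR := (S.hlox I hh).pos hM
  obtain ⟨i, hi⟩ : ∃ i, i = p h x := ⟨_, rfl⟩
  obtain ⟨j, hj⟩ : ∃ j, j = p h y := ⟨_, rfl⟩
  rw [← hi, ← hj] at hxy
  have lt_of : ∀ s t : ℤ, R * s < R * t → s < t := fun s t h => lt_of_mul_lt_mul_left h hR.le
  have far : ∀ s t : ℤ, 1000 * R ≤ t - s → 1000 ≤ d (ax b h s) (ax b h t) := by
    intro s t hst
    have h1 := S.ax_dist I hh t s
    rw [hM.symm] at h1
    have h2 := le_abs_self (t - s)
    have h3 : 1000 < d (ax b h s) (ax b h t) + 1 := by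
      apply lt_of
      rw [mul_add, mul_one]
      linarith
    omega
  have shiftd : ∀ s t k : ℤ, d (ax b h s) (ax b h t) = d (ax b h (s + k)) (ax b h (t + k)) := by
    intro s t k
    have e : ∀ s, h ^ k * ax b h s = ax b h (s + k) := by
      intro s
      unfold ax
      rw [← mul_assoc, ← zpow_add, add_comm]
    rw [← e s, ← e t, I.left]
  have hprx : pr b p h x = ax b h i := by rw [hi]; rfl
  have hpry : pr b p h y = ax b h j := by rw [hj]; rfl
  have h1 := (S.cross I hh x y (by
    rw [hprx, hpry]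
    have := far i j (by omega)
    omega)).2.2
  rw [hprx, hpry] at h1
  -- the path through the axis
  have h2 : d x (h ^ (-(n : ℤ)) * y) ≤
      d x (ax b h i) + d (ax b h i) (ax b h (j - n)) + d (ax b h j) y := by
    have t1 := hM.tri x (ax b h i) (h ^ (-(n : ℤ)) * y)
    have t2 := hM.tri (ax b h i) (ax b h (j - n)) (h ^ (-(n : ℤ)) * y)
    have e : ax b h (j - n) = h ^ (-(n : ℤ)) * ax b h j := by
      unfold ax
      rw [← mul_assoc, ← zpow_add]
      congr 2
      ring
    have t3 : d (ax b h (j - n)) (h ^ (-(n : ℤ)) * y) = d (ax b h j) y := by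
      rw [e, I.left]
    omega
  have h3 : d (ax b h i) (ax b h (j - n)) + 958 ≤ d (ax b h i) (ax b h j) := by
    by_cases hc : i ≤ j - n
    · have h4 := S.hal I hh i (j - n) j hc (by omega)
      have h5 := far (j - n) j (by linarith)
      have s1 := hM.symm (ax b h j) (ax b h (j - n))
      unfold gp at h4
      omega
    · push Not at hc
      have e1 : d (ax b h i) (ax b h (j - n)) = d (ax b h i) (ax b h (i + (i - (j - n)))) := by
        rw [hM.symm, shiftd (j - n) i (i - (j - n))]
        congr 2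
        ring
      have h4 := S.hal I hh i (i + (i - (j - n))) j (by omega) (by omega)
      have h5 := far (i + (i - (j - n))) j (by omega)
      have s1 := hM.symm (ax b h j) (ax b h (i + (i - (j - n))))
      rw [e1]
      unfold gp at h4
      omega
  omega

theorem exists_min (I : Inv n R κ a 3 d) (S : AxSys n d P b p) (_hκ : 1000 ≤ κ) (_ha : 1000 ≤ a)
    (hn : 1000 * R ≤ n) (N : Subgroup G) [N.Normal] (hN : ∀ h ∈ P, h ^ n ∈ N) {u : G}
    (hu : u ^ n ∉ N) :
    ∃ g z : G, u⁻¹ * g ∈ N ∧ 101 ≤ d z (g * z) ∧ gp d (g⁻¹ * z) (g * z) z ≤ 48 ∧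
      (∀ h ∈ P, g ∉ Subgroup.zpowers h) ∧
      ∀ w, gp d z (g * z) w = 0 → ∀ h ∈ P, 2 * |am p h w (g * w)| ≤ n + 1000 * R := by
  classical
  have hM := I.met
  have hl := I.left
  -- the minimum
  have hex : ∃ k : ℕ, ∃ g z : G, u⁻¹ * g ∈ N ∧ d z (g * z) = k := by
    refine ⟨(d 1 (u * 1)).toNat, u, 1, ?_, ?_⟩
    · rw [inv_mul_cancel]; exact N.one_mem
    · have := hM.nonneg 1 (u * 1)
      omega
  obtain ⟨g, z, hg, hz⟩ := Nat.find_spec hex
  have hmin : ∀ g' w : G, u⁻¹ * g' ∈ N → d z (g * z) ≤ d w (g' * w) := by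
    intro g' w hg'
    have h1 := hM.nonneg w (g' * w)
    have h2 := Nat.find_min' hex (m := (d w (g' * w)).toNat) ⟨g', w, hg', by omega⟩
    omega
  clear hz
  -- the image of `g` in the quotient
  have hgn : g ^ n ∉ N := by
    intro h1
    apply hu
    have e : (QuotientGroup.mk' N) u = (QuotientGroup.mk' N) g := by
      simp only [QuotientGroup.mk'_apply]
      exact QuotientGroup.eq.2 hg
    have h2 : (QuotientGroup.mk' N) (u ^ n) = (QuotientGroup.mk' N) (g ^ n) := by
      rw [map_pow, map_pow, e]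
    have h3 : (QuotientGroup.mk' N) (g ^ n) = 1 := by
      simp only [QuotientGroup.mk'_apply]
      exact (QuotientGroup.eq_one_iff _).2 h1
    rw [h3] at h2
    simp only [QuotientGroup.mk'_apply] at h2
    exact (QuotientGroup.eq_one_iff _).1 h2
  have hgP : ∀ h ∈ P, g ∉ Subgroup.zpowers h := by
    intro h hh h1
    obtain ⟨k, hk⟩ := Subgroup.mem_zpowers_iff.1 h1
    apply hgn
    rw [← hk, ← zpow_natCast, ← zpow_mul, mul_comm, zpow_mul, zpow_natCast]
    exact N.zpow_mem (hN h hh) k
  have hA : 101 ≤ d z (g * z) := by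
    by_contra hcon
    push Not at hcon
    obtain ⟨h, hh, h1⟩ := S.all g (fun h1 => hgn (h1 ▸ N.one_mem)) z (by omega)
    exact hgP h hh h1
  refine ⟨g, z, hg, hA, ?_, hgP, ?_⟩
  · -- the midpoint
    obtain ⟨m, hm1, hm2⟩ := hM.geo z (g * z) (d z (g * z) / 2) (by omega) (by omega)
    have h1 := hmin g m hg
    have e1 : d (g * z) (g * m) = d z m := hl g z m
    have e2 : d (g * z) (g * (g * z)) = d z (g * z) := hl g _ _
    have e3 : d (g * m) (g * (g * z)) = d m (g * z) := hl g _ _
    have g1 := I.hyp.gp_ge hM m (g * m) z (g * z)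
    have g2 := I.hyp.gp_ge hM z (g * m) (g * (g * z)) (g * z)
    have e4 : gp d (g⁻¹ * z) (g * z) z = gp d z (g * (g * z)) (g * z) := by
      rw [← gp_left hl g (g⁻¹ * z) (g * z) z, mul_inv_cancel_left]
    rw [e4]
    have s1 := hM.symm m z
    have s2 := hM.symm (g * m) (g * z)
    have s3 := hM.symm (g * (g * z)) (g * z)
    have s4 := hM.symm (g * (g * z)) (g * m)
    unfold gp at *
    omega
  · intro w hw h hh
    have hwA : d w (g * w) ≤ d z (g * z) := by
      have t := hM.tri w (g * z) (g * w)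
      have e1 : d (g * z) (g * w) = d z w := hl g z w
      have s1 := hM.symm w (g * z)
      unfold gp at hw
      omega
    by_contra hcon
    push Not at hcon
    have conjN : ∀ t ∈ N, u⁻¹ * (t * g) ∈ N := by
      intro t ht
      have e : u⁻¹ * (t * g) = (u⁻¹ * t * u⁻¹⁻¹) * (u⁻¹ * g) := by group
      rw [e]
      exact N.mul_mem (Subgroup.Normal.conj_mem inferInstance t ht u⁻¹) hg
    rcases le_total 0 (am p h w (g * w)) with hc | hc
    · rw [abs_of_nonneg hc] at hcon
      unfold am at hcon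
      have h1 := min_desc I S hn hh hcon
      have h2 := hmin (h ^ (-(n : ℤ)) * g) w (conjN _ (by
        rw [zpow_neg, zpow_natCast]
        exact N.inv_mem (hN h hh)))
      rw [mul_assoc] at h2
      omega
    · rw [abs_of_nonpos hc] at hcon
      unfold am at hcon
      have h1 := min_desc I S hn hh (x := g * w) (y := w) (by omega)
      have h2 := hmin (h ^ n * g) w (conjN _ (hN h hh))
      have e : d (g * w) (h ^ (-(n : ℤ)) * w) = d w (h ^ n * g * w) := by
        rw [zpow_neg, zpow_natCast, hl.inv_right, hM.symm, mul_assoc]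
      have s := hM.symm (g * w) w
      omega

end Pool.Agent.Burnside
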