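import Pool.Agent.Burnside.LPath
import Pool.Agent.Burnside.Elec

/-!
Bounded overlap of an equivariant aligned path with the axes of the system.
-/

namespace Pool.Agent.Burnside

variable {G : Type*} [Group G] {d e : G → G → ℤ} {n : ℕ} {R κ a : ℤ}
variable {P : Set G} {b : G → G} {p : G → G → ℤ}

theorem LPath.dist_le (hM : IsMet d) {g : G} {A : ℤ} {q : ℤ → G} (Q : LPath d g A q) {s t : ℤ}
    (hst : s ≤ t) : d (q s) (q t) ≤ t - s := by
  obtain ⟨k, rfl⟩ : ∃ k : ℕ, t = s + k := ⟨(t - s).toNat, by omega⟩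
  clear hst
  induction k with
  | zero => simp [hM.self]
  | succ k ih =>
    have h1 := hM.tri (q s) (q (s + k)) (q (s + k + 1))
    have h2 := Q.step (s + k)
    push_cast
    rw [← add_assoc]
    omega

/-- A point with small product with respect to two points of an axis is close to the axis. -/
theorem AxSys.near_axis (I : Inv n R κ a 3 d) (S : AxSys n d P b p) {h : G} (hh : h ∈ P)
    {x y z : G} (hx : x ∈ Ox b h) (hy : y ∈ Ox b h) {c : ℤ} (hc : 112 ≤ c)
    (hz : gp d x y z ≤ c) : ∃ w ∈ Ox b h, d z w ≤ c + 45 := by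
  have hM := I.met
  obtain ⟨i, rfl⟩ := hx
  obtain ⟨j, rfl⟩ := hy
  rcases le_total i j with hij | hij
  · obtain ⟨k, -, -, hk⟩ := exists_near_between hM I.hyp (S.hal I hh) (S.hst I hh) hij hz
    exact ⟨_, ax_mem h k, by omega⟩
  · rw [gp_symm hM] at hz
    obtain ⟨k, -, -, hk⟩ := exists_near_between hM I.hyp (S.hal I hh) (S.hst I hh) hij hz
    exact ⟨_, ax_mem h k, by omega⟩

theorem LPath.ov_aux (I : Inv n R κ a 3 d) (S : AxSys n d P b p) (hκ : 1000 ≤ κ) (ha : 2000 ≤ a)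
    {g : G} {A : ℤ} {q : ℤ → G} (Q : LPath d g A q) (hA : 101 ≤ A) {h : G} (hh : h ∈ P)
    (hg : g ∉ Subgroup.zpowers h) {i j : ℤ} (hij : i ≤ j) :
    d (pr b p h (q i)) (pr b p h (q j)) ≤ A + a + 3200 := by
  by_contra hcon
  push Not at hcon
  have hM := I.met
  have hl := I.left
  obtain ⟨X, hX⟩ : ∃ X, X = pr b p h (q i) := ⟨_, rfl⟩
  obtain ⟨Y, hY⟩ : ∃ Y, Y = pr b p h (q j) := ⟨_, rfl⟩
  have hXm : X ∈ Ox b h := hX ▸ pr_mem _ _
  have hYm : Y ∈ Ox b h := hY ▸ pr_mem _ _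
  have hcr := S.cross I hh (q i) (q j) (by omega)
  have hpj := S.proj I hh (q i) hYm
  rw [← hX, ← hY] at hcr hcon
  rw [← hX] at hpj
  obtain ⟨t₁, ha₁, hb₁, hd₁⟩ := exists_near_between hM I.hyp Q.al Q.step hij hcr.1
  obtain ⟨t₂, ha₂, hb₂, hd₂⟩ := exists_near_between hM I.hyp Q.al Q.step hij hcr.2.1
  replace hd₁ : d X (q t₁) ≤ 591 := by simpa using hd₁
  replace hd₂ : d Y (q t₂) ≤ 591 := by simpa using hd₂
  -- distance from `q t₁` to `q t₂`
  have hfar : A + a + 2019 ≤ d (q t₁) (q t₂) := by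
    have h1 := hM.tri X (q t₁) Y
    have h2 := hM.tri (q t₁) (q t₂) Y
    have s1 := hM.symm (q t₂) Y
    omega
  have h12 : t₁ < t₂ := by
    by_contra hle
    push Not at hle
    have h1 := Q.al i t₂ t₁ ha₂ hle
    have h2 := hM.tri (q i) (q t₂) Y
    have h3 := hM.tri (q i) X (q t₁)
    have s1 := hM.symm (q t₂) Y
    have s2 := hM.symm Y X
    have n1 := hM.nonneg (q i) X
    unfold gp at h1 hpj
    omega
  -- the points `r₁`, `r₂`
  have hinc : ∀ s t, d (q s) (q (t + 1)) ≤ d (q s) (q t) + 1 := fun s t => by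
    have h1 := hM.tri (q s) (q t) (q (t + 1))
    have h2 := Q.step t
    omega
  obtain ⟨r₁, hr₁a, hr₁b, hr₁c, hr₁d⟩ := exists_step' (f := fun t => d (q t₁) (q t)) (L := 1)
    (by norm_num) (hinc t₁) h12.le (t := 1001) (by simp [hM.self]) (by
      show (1001 : ℤ) ≤ d (q t₁) (q t₂)
      omega)
  have hinc' : ∀ t, d (q t₂) (q (-(t + 1))) ≤ d (q t₂) (q (-t)) + 1 := fun t => by
    have h1 := hM.tri (q t₂) (q (-t)) (q (-(t + 1)))
    have h2 := Q.step (-(t + 1))
    have e : -(t + 1) + 1 = -t := by ring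
    rw [e] at h2
    have s := hM.symm (q (-t)) (q (-(t + 1)))
    omega
  obtain ⟨r₂', hr₂a, hr₂b, hr₂c, hr₂d⟩ := exists_step' (f := fun t => d (q t₂) (q (-t))) (L := 1)
    (by norm_num) hinc' (a := -t₂) (b := -t₁) (by omega) (t := 1001) (by simp [hM.self]) (by
      show (1001 : ℤ) ≤ d (q t₂) (q (- -t₁))
      rw [neg_neg, hM.symm]
      omega)
  obtain ⟨r₂, rfl⟩ : ∃ r₂, r₂' = -r₂ := ⟨-r₂', by ring⟩
  simp only [neg_neg] at hr₂c hr₂d hr₁c hr₁d
  have hrr : A + a + 17 ≤ d (q r₁) (q r₂) := by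
    have h1 := hM.tri (q t₁) (q r₁) (q t₂)
    have h2 := hM.tri (q r₁) (q r₂) (q t₂)
    have s1 := hM.symm (q r₂) (q t₂)
    omega
  have hle : r₁ ≤ r₂ := by
    by_contra hlt
    push Not at hlt
    have h1 := Q.al t₁ r₂ r₁ (by omega) hlt.le
    have s1 := hM.symm (q r₁) (q r₂)
    have n1 := hM.nonneg (q t₁) (q r₂)
    unfold gp at h1
    omega
  have hlen : A + a + 17 ≤ r₂ - r₁ := hrr.trans (Q.dist_le hM hle)
  -- points in between are close to the axis
  have key : ∀ t, r₁ ≤ t → t ≤ r₂ → d (q t) (h * q t) ≤ 1000 := by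
    intro t ht₁ ht₂
    have h1 := Q.al t₁ r₁ t (by omega) ht₁
    have h2 := Q.al t r₂ t₂ ht₂ (by omega)
    have h3 := Q.al t₁ t t₂ (by omega) (by omega)
    have n1 := hM.nonneg (q t) (q r₁)
    have n2 := hM.nonneg (q t) (q r₂)
    have g1 := I.hyp.gp_ge hM (q t₁) (q t₂) X (q t)
    have g2 := I.hyp.gp_ge hM X (q t₂) Y (q t)
    have tr1 := hM.tri (q t₁) X (q t)
    have tr2 := hM.tri (q t₂) Y (q t)
    have s1 := hM.symm X (q t₁)
    have s2 := hM.symm Y (q t₂)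
    have s3 := hM.symm (q t) (q r₁)
    have s4 := hM.symm (q t) (q t₂)
    have s5 := hM.symm (q r₂) (q t₂)
    have hgp : gp d X Y (q t) ≤ 276 := by
      unfold gp at *
      omega
    obtain ⟨w, hw, hdw⟩ := S.near_axis I hh hXm hYm (by norm_num) hgp
    have := S.disp_near I hh hw hdw
    omega
  -- the commutation
  have hAr := Q.dist_le hM (show r₁ ≤ r₁ + A by omega)
  have hdist : a ≤ d (q (r₁ + A)) (q r₂) := by
    have h1 := hM.tri (q r₁) (q (r₁ + A)) (q r₂)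
    omega
  have k1 := key r₁ le_rfl hle
  have k2 := key (r₁ + A) (by omega) (by omega)
  have k3 := key (r₂ - A) (by omega) (by omega)
  have k4 := key r₂ hle le_rfl
  have conjd : ∀ y, d (g * y) (g * h * g⁻¹ * (g * y)) = d y (h * y) := by
    intro y
    have e : g * h * g⁻¹ * (g * y) = g * (h * y) := by group
    rw [e, hl]
  have e1 : q (r₁ + A) = g * q r₁ := Q.eqv r₁
  have e2 : q r₂ = g * q (r₂ - A) := by
    rw [← Q.eqv, sub_add_cancel]
  have c1 : d (q (r₁ + A)) (g * h * g⁻¹ * q (r₁ + A)) ≤ 1000 := by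
    rw [e1, conjd]
    exact k1
  have c2 : d (q r₂) (g * h * g⁻¹ * q r₂) ≤ 1000 := by
    rw [e2, conjd]
    exact k3
  have hcomm := (I.comm (q (r₁ + A)) (q r₂) h (g * h * g⁻¹) hdist (by omega) (by omega)
    (by omega) (by omega)).1
  have heq := S.disj I hh (S.conj h hh g) hcomm
  apply hg
  apply (S.prm h hh).2.1 g
  calc g * h = g * h * g⁻¹ * g := by group
    _ = h * g := by rw [← heq]

/-- bounded overlap of the path of `g` with the axis of `h` -/
theorem LPath.ov (I : Inv n R κ a 3 d) (S : AxSys n d P b p) (hκ : 1000 ≤ κ) (ha : 2000 ≤ a)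
    {g : G} {A : ℤ} {q : ℤ → G} (Q : LPath d g A q) (hA : 101 ≤ A) {h : G} (hh : h ∈ P)
    (hg : g ∉ Subgroup.zpowers h) (i j : ℤ) :
    d (pr b p h (q i)) (pr b p h (q j)) ≤ A + a + 3200 := by
  rcases le_total i j with hij | hij
  · exact Q.ov_aux I S hκ ha hA hh hg hij
  · rw [I.met.symm]
    exact Q.ov_aux I S hκ ha hA hh hg hij

end Pool.Agent.Burnside
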