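import Pool.Agent.Burnside.Axes

/-!
Projections to the axes: bounded overlap, Behrstock inequality, rotation system.
-/

namespace Pool.Agent.Burnside

variable {G : Type*} [Group G] {d : G → G → ℤ} {n : ℕ} {R κ a : ℤ}
variable {P : Set G} {b : G → G} {p : G → G → ℤ}

/-- Points of the axis of `h`. -/
def ax (b : G → G) (h : G) (i : ℤ) : G := h ^ i * b h

/-- Projection to the axis of `h`. -/
def pr (b : G → G) (p : G → G → ℤ) (h x : G) : G := ax b h (p h x)

/-- The axis of `h` as a set. -/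
def Ox (b : G → G) (h : G) : Set G := {x | ∃ i : ℤ, x = ax b h i}

/-- Signed difference of coordinates. -/
def am (p : G → G → ℤ) (h x y : G) : ℤ := p h y - p h x

theorem pr_mem (h x : G) : pr b p h x ∈ Ox b h := ⟨_, rfl⟩

theorem ax_mem (h : G) (i : ℤ) : ax b h i ∈ Ox b h := ⟨_, rfl⟩

namespace AxSys

variable (I : Inv n R κ a 3 d) (S : AxSys n d P b p)

include I S

theorem hlox {h : G} (hh : h ∈ P) : Lox d R h := I.lox' (S.prm h hh).1

theorem hal {h : G} (hh : h ∈ P) : Al d 42 (ax b h) := (S.base h hh).al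

theorem hst {h : G} (hh : h ∈ P) : Stp d 112 (ax b h) := (S.base h hh).stp I.left

theorem hnear {h : G} (hh : h ∈ P) (z : G) : Near d (ax b h) z (p h z) := S.near h hh z

theorem shiftk {h : G} (hh : h ∈ P) (k : ℤ) (z : G) : p h (h ^ k * z) = p h z + k := by
  induction k generalizing z with
  | zero => simp
  | succ k ih =>
    rw [zpow_add_one, mul_assoc, ih, S.shift h hh]
    ring
  | pred k ih =>
    have := S.shift h hh (h ^ (-(k : ℤ) - 1) * z)
    rw [← mul_assoc, ← zpow_one_add] at this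
    have e : 1 + (-(k : ℤ) - 1) = -k := by ring
    rw [e, ih] at this
    omega

theorem ax_dist {h : G} (hh : h ∈ P) (i j : ℤ) : |i - j| ≤ R * d (ax b h i) (ax b h j) :=
  (S.hlox I hh).zpow' I.met I.left (b h) i j

theorem p_ax {h : G} (hh : h ∈ P) (i : ℤ) : p h (ax b h i) = i := by
  have h1 := S.hnear I hh (ax b h i) i
  rw [I.met.self] at h1
  have h2 := I.met.nonneg (ax b h i) (ax b h (p h (ax b h i)))
  have h3 : d (ax b h i) (ax b h (p h (ax b h i))) = 0 := le_antisymm h1 h2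
  have h4 := S.ax_dist I hh i (p h (ax b h i))
  rw [h3, mul_zero] at h4
  have := abs_nonpos_iff.1 h4
  omega

theorem pr_ax {h : G} (hh : h ∈ P) (i : ℤ) : pr b p h (ax b h i) = ax b h i := by
  unfold pr
  rw [S.p_ax I hh]

theorem pr_of_mem {h : G} (hh : h ∈ P) {x : G} (hx : x ∈ Ox b h) : pr b p h x = x := by
  obtain ⟨i, rfl⟩ := hx
  exact S.pr_ax I hh i

/-- `P1`. -/
theorem proj {h : G} (hh : h ∈ P) (z : G) {y : G} (hy : y ∈ Ox b h) :
    gp d z y (pr b p h z) ≤ 315 := by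
  obtain ⟨j, rfl⟩ := hy
  have := gp_proj I.met I.hyp (S.hal I hh) (S.hst I hh) (S.hnear I hh z) j
  norm_num at this
  exact this

/-- `P2`. -/
theorem cross {h : G} (hh : h ∈ P) (z w : G) (hzw : 318 < d (pr b p h z) (pr b p h w)) :
    gp d z w (pr b p h z) ≤ 318 ∧ gp d z w (pr b p h w) ≤ 318 ∧
      d z (pr b p h z) + d (pr b p h z) (pr b p h w) + d (pr b p h w) w - 633 ≤ d z w := by
  have := crossing I.met I.hyp (S.hal I hh) (S.hst I hh) (S.hnear I hh z) (S.hnear I hh w)
    (by norm_num; exact hzw)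
  norm_num at this
  refine ⟨this.1, this.2.1, ?_⟩
  have h3 := this.2.2
  unfold pr
  omega

/-- `P3`. -/
theorem lip {h : G} (hh : h ∈ P) (z w : G) : d (pr b p h z) (pr b p h w) ≤ d z w + 633 := by
  have := proj_lip I.met I.hyp (S.hal I hh) (S.hst I hh) (S.hnear I hh z) (S.hnear I hh w)
  norm_num at this
  exact this

theorem pr_le {h : G} (hh : h ∈ P) (z : G) {y : G} (hy : y ∈ Ox b h) :
    d z (pr b p h z) ≤ d z y := by
  obtain ⟨j, rfl⟩ := hy
  exact S.hnear I hh z j

/-- displacement by a generator near its axis -/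
theorem disp_near {h : G} (hh : h ∈ P) {x y : G} (hy : y ∈ Ox b h) {c : ℤ} (hc : d x y ≤ c) :
    d x (h * x) ≤ 112 + 2 * c := by
  obtain ⟨i, rfl⟩ := hy
  have h1 := I.met.tri x (ax b h i) (h * x)
  have h2 := I.met.tri (ax b h i) (h * ax b h i) (h * x)
  rw [I.left] at h2
  have h3 : d (ax b h i) (h * ax b h i) ≤ 112 := by
    have := S.hst I hh i
    have e : ax b h (i + 1) = h * ax b h i := by
      unfold ax
      rw [← mul_assoc, ← zpow_one_add, add_comm]
    rwa [e] at this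
  have h4 := I.met.symm x (ax b h i)
  omega

theorem disj {h h' : G} (hh : h ∈ P) (hh' : h' ∈ P) (hc : h * h' = h' * h) : h = h' := by
  obtain ⟨i, hi⟩ := Subgroup.mem_zpowers_iff.1 ((S.prm h hh).2.1 h' hc.symm)
  obtain ⟨j, hj⟩ := Subgroup.mem_zpowers_iff.1 ((S.prm h' hh').2.1 h hc)
  have h1 : h ^ (i * j - 1) = 1 := by
    rw [zpow_sub, zpow_mul, hi, hj, zpow_one, mul_inv_cancel]
  have h2 : i * j - 1 = 0 := by
    by_contra hne
    exact (S.hlox I hh).zpow_ne_one I.met I.left hne h1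
  have h3 : i * j = 1 := by omega
  rcases Int.eq_one_or_neg_one_of_mul_eq_one h3 with h4 | h4
  · rw [h4, zpow_one] at hi
    exact hi
  · rw [h4, zpow_neg, zpow_one] at hi
    exact absurd hh' (hi ▸ S.noninv h hh)

/-- `P4`: bounded overlap. -/
theorem overlap (hκ : 1000 ≤ κ) (ha : 319 ≤ a) {h h' : G} (hh : h ∈ P) (hh' : h' ∈ P)
    (hne : h ≠ h') {x y : G} (hx : x ∈ Ox b h') (hy : y ∈ Ox b h') :
    d (pr b p h x) (pr b p h y) < a := by
  by_contra hcon
  push Not at hcon
  have hM := I.met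
  obtain ⟨h1, h2, -⟩ := S.cross I hh x y (by omega)
  obtain ⟨i, rfl⟩ := hx
  obtain ⟨j, rfl⟩ := hy
  have key : ∀ z, gp d (ax b h' i) (ax b h' j) z ≤ 318 → ∃ w ∈ Ox b h', d z w ≤ 363 := by
    intro z hz
    rcases le_total i j with hij | hij
    · obtain ⟨k, -, -, hk⟩ := exists_near_between hM I.hyp (S.hal I hh') (S.hst I hh') hij hz
      exact ⟨_, ax_mem h' k, by simpa using hk⟩
    · rw [gp_symm hM] at hz
      obtain ⟨k, -, -, hk⟩ := exists_near_between hM I.hyp (S.hal I hh') (S.hst I hh') hij hz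
      exact ⟨_, ax_mem h' k, by simpa using hk⟩
  obtain ⟨w1, hw1, hd1⟩ := key _ h1
  obtain ⟨w2, hw2, hd2⟩ := key _ h2
  have e1 := S.disp_near I hh' hw1 hd1
  have e2 := S.disp_near I hh' hw2 hd2
  have e3 := S.disp_near I hh (pr_mem (b := b) (p := p) h (ax b h' i)) (c := 0)
    (by rw [hM.self])
  have e4 := S.disp_near I hh (pr_mem (b := b) (p := p) h (ax b h' j)) (c := 0)
    (by rw [hM.self])
  have := (I.comm _ _ h h' hcon (by linarith) (by linarith) (by linarith) (by linarith)).1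
  exact hne (S.disj I hh hh' this)

/-- `P5`: Behrstock inequality. -/
theorem behr (hκ : 1000 ≤ κ) (ha : 319 ≤ a) {h h' : G} (hh : h ∈ P) (hh' : h' ∈ P)
    (hne : h ≠ h') (x : G) {y z : G} (hy : y ∈ Ox b h) (hz : z ∈ Ox b h') :
    d (pr b p h x) (pr b p h z) ≤ a + 633 ∨ d (pr b p h' x) (pr b p h' y) ≤ a + 633 := by
  by_contra hcon
  push Not at hcon
  obtain ⟨c1, c2⟩ := hcon
  have hM := I.met
  -- the projection of x to the second axis
  set q' := pr b p h' x with hq'
  have hq'm : q' ∈ Ox b h' := pr_mem _ _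
  have o1 := S.overlap I hκ ha hh hh' hne hq'm hz
  have t1 := hM.tri (pr b p h x) (pr b p h q') (pr b p h z)
  have h1 := (S.cross I hh x q' (by omega)).2.1
  set yq := pr b p h q' with hyq
  have hyqm : yq ∈ Ox b h := pr_mem _ _
  have h2 := S.pr_le I hh' x (pr_mem (b := b) (p := p) h' yq)
  set q'' := pr b p h' yq with hq''
  rw [← hq'] at h2
  have t2 := hM.tri x yq q''
  have h3 := S.proj I hh' yq hq'm
  rw [← hq''] at h3
  have o2 := S.overlap I hκ ha hh' hh hne.symm hyqm hy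
  have t3 := hM.tri q' q'' (pr b p h' y)
  have s1 := hM.symm q' yq
  have s2 := hM.symm q' q''
  have s3 := hM.symm yq q''
  unfold gp at h1 h3
  rw [← hq''] at o2
  omega

/-- `P6`. -/
theorem sepd (hκ : 1000 ≤ κ) (ha : 319 ≤ a) {h h' : G} (hh : h ∈ P) (hh' : h' ∈ P)
    (hne : h ≠ h') (x : G) {y : G} (hy : y ∈ Ox b h)
    (hxy : a + 633 < d (pr b p h' x) (pr b p h' y)) :
    d x (pr b p h' x) < d x (pr b p h x) := by
  have hM := I.met
  have o1 := S.overlap I hκ ha hh' hh hne.symm (pr_mem (b := b) (p := p) h x) hy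
  have t1 := hM.tri (pr b p h' x) (pr b p h' (pr b p h x)) (pr b p h' y)
  have h1 := (S.cross I hh' x (pr b p h x) (by omega)).2.2
  have h2 := hM.nonneg (pr b p h' (pr b p h x)) (pr b p h x)
  omega

theorem am_le {h : G} (hh : h ∈ P) (x y : G) :
    |am p h x y| ≤ R * d (pr b p h x) (pr b p h y) := by
  have := S.ax_dist I hh (p h x) (p h y)
  rw [abs_sub_comm] at this
  exact this

theorem ax_equiv {h : G} (hh : h ∈ P) (g : G) {x : G} (hx : x ∈ Ox b h) :
    g * x ∈ Ox b (g * h * g⁻¹) := by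
  obtain ⟨i, rfl⟩ := hx
  obtain ⟨k, hk⟩ := S.Oequiv h hh g
  refine ⟨i + k, ?_⟩
  unfold ax
  have e : g * (h ^ i * b h) = (g * h * g⁻¹) ^ i * (g * b h) := by
    rw [conj_zpow]; group
  rw [e, hk, zpow_add]
  exact (mul_assoc _ _ _).symm

theorem ax_equiv' {h : G} (hh : h ∈ P) (g : G) {x : G} (hx : g * x ∈ Ox b (g * h * g⁻¹)) :
    x ∈ Ox b h := by
  have h1 := S.ax_equiv I (S.conj h hh g) g⁻¹ hx
  have e1 : g⁻¹ * (g * x) = x := by group
  have e2 : g⁻¹ * (g * h * g⁻¹) * g⁻¹⁻¹ = h := by group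
  rwa [e1, e2] at h1

theorem pr_equiv_dist {h : G} (hh : h ∈ P) (g x : G) :
    d (g * x) (pr b p (g * h * g⁻¹) (g * x)) = d x (pr b p h x) := by
  apply le_antisymm
  · have h1 := S.pr_le I (S.conj h hh g) (g * x) (S.ax_equiv I hh g (pr_mem (b := b) (p := p) h x))
    rwa [I.left] at h1
  · have h2 : g⁻¹ * pr b p (g * h * g⁻¹) (g * x) ∈ Ox b h := by
      apply S.ax_equiv' I hh g
      rw [mul_inv_cancel_left]
      exact pr_mem _ _
    have h3 := S.pr_le I hh x h2
    rw [I.left.inv_right] at h3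
    exact h3

/-- The rotation system. -/
theorem rotSys (hκ : 1000 ≤ κ) (ha : 319 ≤ a) :
    RotSys P (am p) (Ox b) (fun x h => d x (pr b p h x)) (R * (a + 633)) (R * (a + 633)) := by
  have hM := I.met
  by_cases hPe : P = ∅
  · subst hPe
    constructor <;> intro h hh <;> exact absurd hh (Set.notMem_empty h)
  obtain ⟨h₀, hh₀⟩ := Set.nonempty_iff_ne_empty.2 hPe
  have hR := (S.hlox I hh₀).pos hM
  refine ⟨S.conj, S.noninv, fun h _ => ⟨_, ax_mem h 0⟩, ?_, ?_, ?_, ?_, ?_, ?_, ?_, ?_, ?_⟩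
  · intro h _ x y z
    unfold am; ring
  · intro h hh g x y
    unfold am
    exact S.equiv h hh g y x
  · intro h hh x y
    unfold am
    rw [S.shift h hh]; ring
  · exact fun h hh g x hx => S.ax_equiv I hh g hx
  · intro h hh h' hh' hne x hx y hy
    refine (S.am_le I hh x y).trans (mul_le_mul_of_nonneg_left ?_ hR.le)
    have := S.overlap I hκ ha hh hh' hne hx hy
    linarith
  · intro h hh h' hh' hne x y hy z hz
    rcases S.behr I hκ ha hh hh' hne x hy hz with h1 | h1
    · exact Or.inl ((S.am_le I hh x z).trans (mul_le_mul_of_nonneg_left h1 hR.le))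
    · exact Or.inr ((S.am_le I hh' x y).trans (mul_le_mul_of_nonneg_left h1 hR.le))
  · exact fun h _ x => hM.nonneg _ _
  · exact fun h hh g x => S.pr_equiv_dist I hh g x
  · intro h hh h' hh' hne x y hy hK
    apply S.sepd I hκ ha hh hh' hne x hy
    by_contra hcon
    push Not at hcon
    have := (S.am_le I hh' x y).trans (mul_le_mul_of_nonneg_left hcon hR.le)
    omega

end AxSys

end Pool.Agent.Burnside
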