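import Pool.Agent.Burnside.Windmill
import Pool.Agent.Burnside.Proj

/-!
Ping pong: an element whose powers have bounded coordinates on all axes.
-/

namespace Pool.Agent.Burnside

variable {G : Type*} [Group G]

namespace Windmill

/-- Abstract chain of axes with large jumps. -/
theorem chain_ping {P : Set G} {a : G → G → G → ℤ} {O : G → Set G} {dist : G → G → ℤ} {θ K : ℤ}
    (S : RotSys P a O dist θ K) {Y : ℕ → G} (hP : ∀ j, Y j ∈ P) (hn : ∀ j, Y j ≠ Y (j + 1))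
    {k : ℤ} (hJ : ∀ j, ∀ y ∈ O (Y j), ∀ z ∈ O (Y (j + 2)), |a (Y (j + 1)) y z - k| ≤ θ)
    {Δ : ℤ} (hD : ∀ j, ∀ h ∈ P, h ≠ Y j → h ≠ Y (j + 1) → ∀ y ∈ O (Y j), ∀ z ∈ O (Y (j + 1)),
      |a h y z| ≤ Δ)
    (hθ : 0 ≤ θ) (hΔ : 0 ≤ Δ) (hk : 10 * θ < k) {M : ℕ} {x x' : G} (hx : x ∈ O (Y 0))
    (hx' : x' ∈ O (Y (M + 2)))
    (h0 : ∀ y ∈ O (Y 1), |a (Y 0) x y| ≤ k + Δ)
    (hM : ∀ y ∈ O (Y (M + 1)), |a (Y (M + 2)) y x'| ≤ Δ) :
    x ≠ x' ∧ ∀ h ∈ P, |a h x x'| ≤ k + 3 * θ + Δ := by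
  -- from the left
  have hL : ∀ t i : ℕ, ∀ y ∈ O (Y i), ∀ z ∈ O (Y (i + t)), |a (Y (i + t + 1)) y z| ≤ θ := by
    intro t
    induction t with
    | zero =>
      intro i y hy z hz
      exact S.bdd _ (hP _) _ (hP i) (hn i).symm y hy z hz
    | succ t ih =>
      intro i y hy z hz
      obtain ⟨u, hu⟩ := S.nonempty _ (hP (i + t))
      obtain ⟨v, hv⟩ := S.nonempty _ (hP (i + t + 2))
      have h1 := ih i y hy u hu
      have h2 := hJ (i + t) u hu v hv
      have h3 := S.add _ (hP (i + t + 1)) y u v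
      rcases S.beh _ (hP (i + t + 2)) _ (hP (i + t + 1)) (hn (i + t + 1)).symm y v hv z hz with h | h
      · exact h
      · exfalso
        rw [abs_le] at h1 h2 h
        omega
  -- from the right
  have hR : ∀ t i : ℕ, ∀ y ∈ O (Y (i + t + 1)), ∀ z ∈ O (Y (i + 1)), |a (Y i) y z| ≤ θ := by
    intro t
    induction t with
    | zero =>
      intro i y hy z hz
      exact S.bdd _ (hP _) _ (hP (i + 1)) (hn i) y hy z hz
    | succ t ih =>
      intro i y hy z hz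
      obtain ⟨u, hu⟩ := S.nonempty _ (hP (i + 2))
      obtain ⟨v, hv⟩ := S.nonempty _ (hP i)
      have e : i + 1 + t + 1 = i + (t + 1) + 1 := by ring
      have h1 := ih (i + 1) y (e ▸ hy) u hu
      have h2 := hJ i v hv u hu
      have h3 := S.add _ (hP (i + 1)) y u v
      have h4 := a_symm S (hP (i + 1)) v u
      rcases S.beh _ (hP i) _ (hP (i + 1)) (hn i) y v hv z hz with h | h
      · exact h
      · exfalso
        rw [abs_le] at h1 h2 h
        omega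
  have hmid : ∀ j, j ≤ M → |a (Y (j + 1)) x x' - k| ≤ 3 * θ := by
    intro j hj
    obtain ⟨t, rfl⟩ := Nat.exists_eq_add_of_le hj
    obtain ⟨u, hu⟩ := S.nonempty _ (hP j)
    obtain ⟨v, hv⟩ := S.nonempty _ (hP (j + 2))
    have h1 := hL j 0 x hx u (by simpa using hu)
    rw [Nat.zero_add] at h1
    have h2 := hJ j u hu v hv
    have e : j + t + 2 = j + 1 + t + 1 := by ring
    have h3 := hR t (j + 1) x' (e ▸ hx') v hv
    have h4 := S.add _ (hP (j + 1)) x u v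
    have h5 := S.add _ (hP (j + 1)) x v x'
    have h6 := a_symm S (hP (j + 1)) x' v
    rw [abs_le] at *
    constructor <;> omega
  refine ⟨?_, ?_⟩
  · rintro rfl
    have h1 := hmid 0 (Nat.zero_le _)
    rw [a_self S (hP _), abs_le] at h1
    omega
  · intro h hh
    by_cases hc : ∃ j, j ≤ M + 2 ∧ h = Y j
    · obtain ⟨j, hj, rfl⟩ := hc
      rcases Nat.eq_zero_or_pos j with rfl | hj0
      · obtain ⟨u, hu⟩ := S.nonempty _ (hP 1)
        have h1 := h0 u hu
        have h2 := hR (M + 1) 0 x' (by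
          have e : 0 + (M + 1) + 1 = M + 2 := by ring
          rw [e]; exact hx') u hu
        have h3 := S.add _ (hP 0) x u x'
        have h4 := a_symm S (hP 0) x' u
        rw [abs_le] at *
        constructor <;> omega
      · obtain ⟨i, rfl⟩ : ∃ i, j = i + 1 := ⟨j - 1, by omega⟩
        rcases Nat.lt_or_ge M i with hi | hi
        · have : i = M + 1 := by omega
          subst this
          obtain ⟨u, hu⟩ := S.nonempty _ (hP (M + 1))
          have h1 := hM u hu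
          have h2 := hL (M + 1) 0 x hx u (by simpa using hu)
          rw [Nat.zero_add] at h2
          change |a (Y (M + 2)) x u| ≤ θ at h2
          have h3 := S.add _ (hP (M + 2)) x u x'
          change |a (Y (M + 2)) x x'| ≤ _
          rw [abs_le] at *
          constructor <;> omega
        · have h1 := hmid i hi
          rw [abs_le] at *
          constructor <;> omega
    · push Not at hc
      obtain ⟨o, ho⟩ := S.nonempty h hh
      have hA0 : ∀ y ∈ O (Y 0), |a h x y| ≤ θ := fun y hy =>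
        S.bdd h hh _ (hP 0) (hc 0 (by omega)) x hx y hy
      have hBM : ∀ y ∈ O (Y (M + 2)), |a h x' y| ≤ θ := fun y hy =>
        S.bdd h hh _ (hP (M + 2)) (hc (M + 2) le_rfl) x' hx' y hy
      have hAB : ∀ j, j ≤ M + 2 → (∀ y ∈ O (Y j), |a h x y| ≤ θ) ∨ (∀ y ∈ O (Y j), |a h x' y| ≤ θ) := by
        intro j hj
        rcases Nat.eq_zero_or_pos j with rfl | hj0
        · exact Or.inl hA0
        obtain ⟨i, rfl⟩ : ∃ i, j = i + 1 := ⟨j - 1, by omega⟩
        rcases Nat.lt_or_ge M i with hi | hi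
        · have : i = M + 1 := by omega
          subst this
          exact Or.inr hBM
        · have h1 := hmid i hi
          by_cases h2 : |a (Y (i + 1)) x o| ≤ θ
          · right
            intro y hy
            rcases S.beh h hh _ (hP (i + 1)) (hc (i + 1) hj) x' o ho y hy with h3 | h3
            · exact h3
            · exfalso
              have h4 := S.add _ (hP (i + 1)) x x' o
              rw [abs_le] at *
              omega
          · left
            intro y hy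
            rcases S.beh h hh _ (hP (i + 1)) (hc (i + 1) hj) x o ho y hy with h3 | h3
            · exact h3
            · exact absurd h3 h2
      have hfin : ∀ j, j ≤ M + 2 → (∀ y ∈ O (Y j), |a h x y| ≤ θ) ∨ |a h x x'| ≤ 2 * θ + Δ := by
        intro j
        induction j with
        | zero => exact fun _ => Or.inl hA0
        | succ j ih =>
          intro hj
          rcases ih (by omega) with h1 | h1
          · rcases hAB (j + 1) hj with h2 | h2
            · exact Or.inl h2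
            · right
              obtain ⟨u, hu⟩ := S.nonempty _ (hP j)
              obtain ⟨v, hv⟩ := S.nonempty _ (hP (j + 1))
              have h3 := h1 u hu
              have h4 := h2 v hv
              have h5 := hD j h hh (hc j (by omega)) (hc (j + 1) hj) u hu v hv
              have h6 := S.add h hh x u v
              have h7 := S.add h hh x v x'
              have h8 := a_symm S hh x' v
              rw [abs_le] at *
              constructor <;> omega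
          · exact Or.inr h1
      rcases hfin (M + 2) le_rfl with h1 | h1
      · have := h1 x' hx'
        rw [abs_le] at *
        constructor <;> omega
      · rw [abs_le] at *
        constructor <;> omega

end Windmill

open Windmill

theorem ping {P : Set G} {a : G → G → G → ℤ} {O : G → Set G} {dist : G → G → ℤ} {θ K : ℤ}
    (S : RotSys P a O dist θ K) {h₁ h₂ : G} (H₁ : h₁ ∈ P) (H₂ : h₂ ∈ P) (hne : h₁ ≠ h₂) {x : G}
    (hx : x ∈ O h₁) {Δ : ℤ}
    (hΔ : ∀ h ∈ P, ∀ y ∈ O h₁, ∀ z ∈ O h₂, h ≠ h₁ → h ≠ h₂ → |a h y z| ≤ Δ)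
    (hΔ₁ : ∀ z ∈ O h₂, |a h₁ x z| ≤ Δ) (k : ℕ) (hk : 10 * θ + 10 * Δ < k) (m : ℕ) (hm : 0 < m) :
    (h₁ ^ k * h₂ ^ k) ^ m ≠ 1 ∧
      ∀ h ∈ P, |a h x ((h₁ ^ k * h₂ ^ k) ^ m * x)| ≤ k + 10 * θ + 10 * Δ := by
  obtain ⟨y₀, hy₀⟩ := S.nonempty _ H₂
  have hΔ0 : 0 ≤ Δ := (abs_nonneg _).trans (hΔ₁ y₀ hy₀)
  have hθ0 : 0 ≤ θ := (abs_nonneg _).trans (S.bdd _ H₁ _ H₂ hne y₀ hy₀ y₀ hy₀)
  set w := h₁ ^ k * h₂ ^ k with hw
  -- equivariance on the axes
  have hback : ∀ {h : G}, h ∈ P → ∀ (g y : G), y ∈ O (g * h * g⁻¹) → g⁻¹ * y ∈ O h :=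
    fun hh g y hy => O_inv S hh g hy
  have hback' : ∀ {h : G}, h ∈ P → ∀ (g g' y : G), g * h * g⁻¹ = g' * h * g'⁻¹ →
      y ∈ O (g * h * g⁻¹) → g'⁻¹ * y ∈ O h := fun hh g g' y e hy => O_inv S hh g' (e ▸ hy)
  obtain ⟨Y, hYe, hYo⟩ : ∃ Y : ℕ → G, (∀ i, Y (2 * i) = w ^ i * h₁ * (w ^ i)⁻¹) ∧
      ∀ i, Y (2 * i + 1) = (w ^ i * h₁ ^ k) * h₂ * (w ^ i * h₁ ^ k)⁻¹ := by
    refine ⟨fun j => if Even j then w ^ (j / 2) * h₁ * (w ^ (j / 2))⁻¹ else
      (w ^ (j / 2) * h₁ ^ k) * h₂ * (w ^ (j / 2) * h₁ ^ k)⁻¹, ?_, ?_⟩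
    · intro i
      have h1 : Even (2 * i) := even_two_mul i
      simp only [h1, if_true]
      rw [Nat.mul_div_cancel_left i (by norm_num)]
    · intro i
      have h1 : ¬ Even (2 * i + 1) := by
        rw [Nat.not_even_iff_odd]
        exact odd_two_mul_add_one i
      simp only [h1, if_false]
      have h2 : (2 * i + 1) / 2 = i := by omega
      rw [h2]
  -- the second form of the even and odd members
  have hYe' : ∀ i, Y (2 * i) = (w ^ i * h₁ ^ k) * h₁ * (w ^ i * h₁ ^ k)⁻¹ := by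
    intro i
    rw [hYe]
    have : h₁ ^ k * h₁ * (h₁ ^ k)⁻¹ = h₁ := by group
    calc w ^ i * h₁ * (w ^ i)⁻¹ = w ^ i * (h₁ ^ k * h₁ * (h₁ ^ k)⁻¹) * (w ^ i)⁻¹ := by rw [this]
      _ = _ := by group
  have hYo' : ∀ i, Y (2 * i + 1) = w ^ (i + 1) * h₂ * (w ^ (i + 1))⁻¹ := by
    intro i
    rw [hYo]
    have : h₂ ^ k * h₂ * (h₂ ^ k)⁻¹ = h₂ := by group
    rw [pow_succ w i, hw]
    calc (h₁ ^ k * h₂ ^ k) ^ i * h₁ ^ k * h₂ * ((h₁ ^ k * h₂ ^ k) ^ i * h₁ ^ k)⁻¹
        = (h₁ ^ k * h₂ ^ k) ^ i * h₁ ^ k * (h₂ ^ k * h₂ * (h₂ ^ k)⁻¹) *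
          ((h₁ ^ k * h₂ ^ k) ^ i * h₁ ^ k)⁻¹ := by rw [this]
      _ = _ := by group
  have hYP : ∀ j, Y j ∈ P := by
    intro j
    rcases Nat.even_or_odd' j with ⟨i, rfl | rfl⟩
    · rw [hYe]; exact S.conj _ H₁ _
    · rw [hYo]; exact S.conj _ H₂ _
  have hconj_ne : ∀ g h h' : G, h ≠ h' → g * h * g⁻¹ ≠ g * h' * g⁻¹ := by
    intro g h h' hne e
    exact hne (by simpa using e)
  have hYn : ∀ j, Y j ≠ Y (j + 1) := by
    intro j
    rcases Nat.even_or_odd' j with ⟨i, rfl | rfl⟩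
    · rw [hYe', hYo]; exact hconj_ne _ _ _ hne
    · have e : 2 * i + 1 + 1 = 2 * (i + 1) := by ring
      rw [hYo', e, hYe]; exact hconj_ne _ _ _ hne.symm
  have heq : ∀ {h : G}, h ∈ P → ∀ g y z, a (g * h * g⁻¹) y z = a h (g⁻¹ * y) (g⁻¹ * z) := by
    intro h hh g y z
    have := S.equiv h hh g (g⁻¹ * y) (g⁻¹ * z)
    rwa [mul_inv_cancel_left, mul_inv_cancel_left] at this
  have hYJ : ∀ j, ∀ y ∈ O (Y j), ∀ z ∈ O (Y (j + 2)), |a (Y (j + 1)) y z - (k : ℤ)| ≤ θ := by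
    intro j y hy z hz
    rcases Nat.even_or_odd' j with ⟨i, rfl | rfl⟩
    · -- middle is odd
      rw [hYo, heq H₂]
      have e : 2 * i + 2 = 2 * (i + 1) := by ring
      rw [e, hYe] at hz
      rw [hYe'] at hy
      have h1 := hback H₁ _ _ hy
      have h2 := hback H₁ _ _ hz
      have e3 : (w ^ i * h₁ ^ k)⁻¹ * z = h₂ ^ k * ((w ^ (i + 1))⁻¹ * z) := by
        rw [pow_succ w i]
        nth_rewrite 3 [hw]
        group
      rw [e3, a_npow S H₂]
      have h3 := S.bdd _ H₂ _ H₁ hne.symm _ h1 _ h2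
      have e4 : a h₂ ((w ^ i * h₁ ^ k)⁻¹ * y) ((w ^ (i + 1))⁻¹ * z) + (k : ℤ) - k =
        a h₂ ((w ^ i * h₁ ^ k)⁻¹ * y) ((w ^ (i + 1))⁻¹ * z) := by ring
      rw [e4]
      exact h3
    · -- middle is even
      have e : 2 * i + 1 + 1 = 2 * (i + 1) := by ring
      have e' : 2 * i + 1 + 2 = 2 * (i + 1) + 1 := by ring
      rw [e, hYe, heq H₁]
      rw [e', hYo] at hz
      rw [hYo'] at hy
      have h1 := hback H₂ _ _ hy
      have h2 := hback H₂ _ _ hz
      have e3 : (w ^ (i + 1))⁻¹ * z = h₁ ^ k * ((w ^ (i + 1) * h₁ ^ k)⁻¹ * z) := by group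
      rw [e3, a_npow S H₁]
      have h3 := S.bdd _ H₁ _ H₂ hne _ h1 _ h2
      have e4 : a h₁ ((w ^ (i + 1))⁻¹ * y) ((w ^ (i + 1) * h₁ ^ k)⁻¹ * z) + (k : ℤ) - k =
        a h₁ ((w ^ (i + 1))⁻¹ * y) ((w ^ (i + 1) * h₁ ^ k)⁻¹ * z) := by ring
      rw [e4]
      exact h3
  have hYD : ∀ j, ∀ h ∈ P, h ≠ Y j → h ≠ Y (j + 1) → ∀ y ∈ O (Y j), ∀ z ∈ O (Y (j + 1)),
      |a h y z| ≤ Δ := by
    intro j h hh hne1 hne2 y hy z hz
    have hgh : ∀ g h' : G, h ≠ g * h' * g⁻¹ → g⁻¹ * h * g ≠ h' := by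
      intro g h' h3 h4
      apply h3
      rw [← h4]
      group
    have hcj : ∀ g : G, g⁻¹ * h * g ∈ P := by
      intro g
      have := S.conj h hh g⁻¹
      rwa [inv_inv] at this
    rcases Nat.even_or_odd' j with ⟨i, rfl | rfl⟩
    · rw [hYe'] at hne1 hy
      rw [hYo] at hne2 hz
      have h1 := hback H₁ _ _ hy
      have h2 := hback H₂ _ _ hz
      have := hΔ _ (hcj (w ^ i * h₁ ^ k)) _ h1 _ h2 (hgh _ _ hne1) (hgh _ _ hne2)
      rwa [a_inv S hh] at this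
    · have e : 2 * i + 1 + 1 = 2 * (i + 1) := by ring
      rw [hYo'] at hne1 hy
      rw [e, hYe] at hne2 hz
      have h1 := hback H₂ _ _ hy
      have h2 := hback H₁ _ _ hz
      have := hΔ _ (hcj (w ^ (i + 1))) _ h2 _ h1 (hgh _ _ hne2) (hgh _ _ hne1)
      rw [a_inv S hh, a_symm S hh, abs_neg] at this
      exact this
  have key := chain_ping S hYP hYn (k := (k : ℤ)) hYJ hYD hθ0 hΔ0 (by omega) (M := 2 * (m - 1))
    (x := x) (x' := w ^ m * x) (by
      have := hYe 0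
      simp only [mul_zero, pow_zero, one_mul, inv_one, mul_one] at this
      rw [this]; exact hx)
    (by
      have e : 2 * (m - 1) + 2 = 2 * m := by omega
      rw [e, hYe]
      exact S.Oequiv _ H₁ _ _ hx)
    (by
      intro y hy
      have e0 := hYe 0
      have e1 := hYo 0
      simp only [mul_zero, pow_zero, one_mul, inv_one, mul_one, zero_add] at e0 e1
      rw [e0]
      rw [e1] at hy
      have h1 := hback H₂ _ _ hy
      have h2 := hΔ₁ _ h1
      have e3 : y = h₁ ^ k * ((h₁ ^ k)⁻¹ * y) := by group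
      rw [e3, a_npow S H₁]
      rw [abs_le] at *
      constructor <;> omega)
    (by
      intro y hy
      have e : 2 * (m - 1) + 2 = 2 * m := by omega
      have e' : m - 1 + 1 = m := by omega
      rw [hYo', e'] at hy
      rw [e, hYe, heq H₁]
      have h1 := hback H₂ _ _ hy
      have h2 := hΔ₁ _ h1
      rw [inv_mul_cancel_left, a_symm S H₁, abs_neg]
      exact h2)
  refine ⟨?_, ?_⟩
  · intro h1
    apply key.1
    rw [h1, one_mul]
  · intro h hh
    have := key.2 h hh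
    omega

variable {d : G → G → ℤ} {n : ℕ} {R κ a : ℤ}
variable {P : Set G} {b : G → G} {p : G → G → ℤ}

theorem exists_ping (I : Inv n R κ a 3 d) (S : AxSys n d P b p) (hκ : 1000 ≤ κ) (ha : 1000 ≤ a)
    (hne : ¬ IsCyclic G) (hP : P.Nonempty) :
    ∃ h₁ ∈ P, ∃ h₂ ∈ P, h₁ ≠ h₂ ∧ ∃ x ∈ Ox b h₁,
      (∀ h ∈ P, ∀ y ∈ Ox b h₁, ∀ z ∈ Ox b h₂, h ≠ h₁ → h ≠ h₂ → |am p h y z| ≤ R * (3 * a + 1000)) ∧
      ∀ z ∈ Ox b h₂, |am p h₁ x z| ≤ R * (3 * a + 1000) := by
  classical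
  have hM := I.met
  obtain ⟨h₀, hh₀⟩ := hP
  have hR := (S.hlox I hh₀).pos hM
  -- a second element
  obtain ⟨g, hg⟩ : ∃ g, g ∉ Subgroup.zpowers h₀ := by
    by_contra hcon
    push Not at hcon
    exact hne ⟨⟨h₀, hcon⟩⟩
  have hne₀ : h₀ ≠ g * h₀ * g⁻¹ := by
    intro e
    apply hg
    apply (S.prm h₀ hh₀).2.1
    nth_rewrite 2 [e]
    group
  -- minimal pair
  have hex : ∃ k : ℕ, ∃ h₁ ∈ P, ∃ h₂ ∈ P, h₁ ≠ h₂ ∧ ∃ x ∈ Ox b h₁, ∃ y ∈ Ox b h₂,
      d x y = k := by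
    refine ⟨(d (ax b h₀ 0) (ax b (g * h₀ * g⁻¹) 0)).toNat, h₀, hh₀, _, S.conj _ hh₀ g, hne₀, _,
      ax_mem _ 0, _, ax_mem _ 0, ?_⟩
    have := hM.nonneg (ax b h₀ 0) (ax b (g * h₀ * g⁻¹) 0)
    omega
  obtain ⟨h₁, H₁, h₂, H₂, h12, x, hx, y, hy, hxy⟩ := Nat.find_spec hex
  have hmin : ∀ h ∈ P, ∀ h' ∈ P, h ≠ h' → ∀ u ∈ Ox b h, ∀ v ∈ Ox b h', d x y ≤ d u v := by
    intro h hh h' hh' hne' u hu v hv
    rw [hxy]
    have h1 := Nat.find_min' hex (m := (d u v).toNat) ⟨h, hh, h', hh', hne', u, hu, v, hv, by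
      have := hM.nonneg u v; omega⟩
    have := hM.nonneg u v
    omega
  refine ⟨h₁, H₁, h₂, H₂, h12, x, hx, ?_, ?_⟩
  · intro h hh y' hy' z' hz' hne1 hne2
    refine (S.am_le I hh y' z').trans (mul_le_mul_of_nonneg_left ?_ hR.le)
    have o1 := S.overlap I hκ (by omega) hh H₁ hne1 hy' hx
    have o2 := S.overlap I hκ (by omega) hh H₂ hne2 hy hz'
    have o3 : d (pr b p h x) (pr b p h y) ≤ 633 := by
      by_contra hcon
      push Not at hcon
      have h1 := (S.cross I hh x y (by omega)).2.2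
      have h2 := hmin h₁ H₁ h hh (Ne.symm hne1) x hx _ (pr_mem (b := b) (p := p) h x)
      have h3 := hM.nonneg (pr b p h y) y
      omega
    have t1 := hM.tri (pr b p h y') (pr b p h x) (pr b p h z')
    have t2 := hM.tri (pr b p h x) (pr b p h y) (pr b p h z')
    omega
  · intro z hz
    refine (S.am_le I H₁ x z).trans (mul_le_mul_of_nonneg_left ?_ hR.le)
    have o1 := S.overlap I hκ (by omega) H₁ H₂ h12 hy hz
    rw [S.pr_of_mem I H₁ hx]
    have h1 := S.proj I H₁ y hx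
    have h2 := hmin h₁ H₁ h₂ H₂ h12 _ (pr_mem (b := b) (p := p) h₁ y) y hy
    have s1 := hM.symm (pr b p h₁ y) y
    have s2 := hM.symm y x
    have t1 := hM.tri x (pr b p h₁ y) (pr b p h₁ z)
    unfold gp at h1
    omega

end Pool.Agent.Burnside
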