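import Pool.Agent.Burnside.Defs

/-! The quotient metric. -/

namespace Pool.Agent.Burnside

variable {G : Type*} [Group G]

private theorem mk_eq_of_mem {N : Subgroup G} [N.Normal] {g : G} (hg : g ∈ N) (y : G) :
    ((g * y : G) : G ⧸ N) = (y : G ⧸ N) := by
  rw [QuotientGroup.mk_mul, (QuotientGroup.eq_one_iff g).2 hg, one_mul]

private theorem exists_mem_of_mk_eq {N : Subgroup G} [N.Normal] {x y : G}
    (h : (x : G ⧸ N) = (y : G ⧸ N)) : ∃ g ∈ N, x = g * y := by
  refine ⟨x * y⁻¹, ?_, by group⟩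
  rw [← QuotientGroup.eq_one_iff, QuotientGroup.mk_mul, QuotientGroup.mk_inv, h, mul_inv_cancel]

private theorem abs_mul_ge {k : ℤ} (hk : k ≠ 0) (n : ℕ) : (n : ℤ) ≤ |k * n| := by
  rw [abs_mul, Nat.abs_cast]
  have h1 : 1 ≤ |k| := Int.one_le_abs hk
  have h2 : (0 : ℤ) ≤ n := Int.natCast_nonneg n
  nlinarith

theorem quot (N : Subgroup G) [N.Normal] (P : Set G) (a : G → G → G → ℤ) (d e : G → G → ℤ)
    (D CE KG : ℤ) (n : ℕ)
    (hd : IsMet d) (he : IsMet e) (el : LInv e) (hH : Hyp D e)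
    (add : ∀ h ∈ P, ∀ x y z, a h x z = a h x y + a h y z)
    (green : ∀ g ∈ N, g ≠ 1 → ∀ x, ∃ h ∈ P, ∃ k : ℤ, k ≠ 0 ∧ h ^ (k * n) ∈ N ∧
      |a h x (g * x) - k * n| ≤ KG)
    (exact : ∀ h ∈ P, ∀ x y, CE ≤ |a h x y| → ∀ k : ℤ, e x (h ^ k * y) ≤ e x y)
    (desc : ∀ h ∈ P, ∀ x y, ∀ k : ℤ, k ≠ 0 → |a h x y - k * n| ≤ KG →
      d x (h ^ (-(k * n)) * y) < d x y)
    (hCE : 0 ≤ CE) (hKG : 0 ≤ KG) (hn : 10 * CE + 10 * KG < n) :
    ∃ q : G ⧸ N → G ⧸ N → ℤ, IsMet q ∧ LInv q ∧ Hyp D q ∧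
      (∀ x y : G, q x y ≤ e x y) ∧
      (∀ x y : G, ∃ g ∈ N, q x y = e x (g * y)) ∧
      (∀ x y : G, (∀ h ∈ P, |a h x y| < n - KG - CE) → q x y = e x y) := by
  classical
  have hex : ∀ X Y : G ⧸ N, ∃ t : ℤ, (∃ x y : G, (x : G ⧸ N) = X ∧ (y : G ⧸ N) = Y ∧ e x y = t) ∧
      ∀ x y : G, (x : G ⧸ N) = X → (y : G ⧸ N) = Y → t ≤ e x y := by
    intro X Y
    obtain ⟨x0, rfl⟩ := QuotientGroup.mk_surjective X
    obtain ⟨y0, rfl⟩ := QuotientGroup.mk_surjective Y
    have h1 : ∃ m : ℕ, ∃ x y : G, (x : G ⧸ N) = x0 ∧ (y : G ⧸ N) = y0 ∧ e x y = m :=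
      ⟨(e x0 y0).toNat, x0, y0, rfl, rfl, (Int.toNat_of_nonneg (he.nonneg _ _)).symm⟩
    refine ⟨(Nat.find h1 : ℕ), Nat.find_spec h1, fun x y hx hy => ?_⟩
    have h2 := Nat.find_min' h1 ⟨x, y, hx, hy, (Int.toNat_of_nonneg (he.nonneg x y)).symm⟩
    have h3 := he.nonneg x y
    omega
  choose q hq1 hq2 using hex
  have hle : ∀ x y : G, q x y ≤ e x y := fun x y => hq2 _ _ x y rfl rfl
  have hlift : ∀ x y : G, ∃ g ∈ N, q x y = e x (g * y) := by
    intro x y
    obtain ⟨x', y', hx, hy, hxy⟩ := hq1 (x : G ⧸ N) (y : G ⧸ N)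
    obtain ⟨g1, hg1, rfl⟩ := exists_mem_of_mk_eq hx
    obtain ⟨g2, hg2, rfl⟩ := exists_mem_of_mk_eq hy
    refine ⟨g1⁻¹ * g2, N.mul_mem (N.inv_mem hg1) hg2, ?_⟩
    rw [← hxy, ← el g1 x (g1⁻¹ * g2 * y)]
    congr 1
    group
  have hnn : ∀ X Y, 0 ≤ q X Y := by
    intro X Y
    obtain ⟨x, y, -, -, hxy⟩ := hq1 X Y
    rw [← hxy]
    exact he.nonneg x y
  have htri : ∀ X Y Z, q X Z ≤ q X Y + q Y Z := by
    intro X Y Z
    obtain ⟨x, rfl⟩ := QuotientGroup.mk_surjective X
    obtain ⟨y, rfl⟩ := QuotientGroup.mk_surjective Y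
    obtain ⟨z, rfl⟩ := QuotientGroup.mk_surjective Z
    obtain ⟨g1, hg1, h1⟩ := hlift x y
    obtain ⟨g2, hg2, h2⟩ := hlift (g1 * y) z
    rw [mk_eq_of_mem hg1] at h2
    have h3 := hle x (g2 * z)
    rw [mk_eq_of_mem hg2] at h3
    have h4 := he.tri x (g1 * y) (g2 * z)
    omega
  have hmet : IsMet q := by
    refine ⟨?_, ?_, ?_, htri, ?_⟩
    · intro X
      obtain ⟨x, rfl⟩ := QuotientGroup.mk_surjective X
      have h1 := hle x x
      rw [he.self] at h1
      exact le_antisymm h1 (hnn _ _)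
    · intro X Y h
      obtain ⟨x, y, rfl, rfl, hxy⟩ := hq1 X Y
      rw [h] at hxy
      rw [he.sep x y hxy]
    · have h1 : ∀ X Y, q X Y ≤ q Y X := by
        intro X Y
        obtain ⟨y, x, hy, hx, hxy⟩ := hq1 Y X
        rw [← hxy, he.symm]
        exact hq2 X Y x y hx hy
      intro X Y
      exact le_antisymm (h1 X Y) (h1 Y X)
    · intro X Y t ht0 ht1
      obtain ⟨x, y, rfl, rfl, hxy⟩ := hq1 X Y
      rw [← hxy] at ht1
      obtain ⟨z, hz1, hz2⟩ := he.geo x y t ht0 ht1
      refine ⟨(z : G ⧸ N), ?_⟩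
      have h1 := hle x z
      have h2 := hle z y
      have h3 := htri (x : G ⧸ N) (z : G ⧸ N) (y : G ⧸ N)
      omega
  have hlinv : LInv q := by
    have h1 : ∀ (U X Y : G ⧸ N), q (U * X) (U * Y) ≤ q X Y := by
      intro U X Y
      obtain ⟨u, rfl⟩ := QuotientGroup.mk_surjective U
      obtain ⟨x, y, rfl, rfl, hxy⟩ := hq1 X Y
      rw [← hxy, ← el u x y]
      exact hq2 _ _ _ _ rfl rfl
    intro U X Y
    refine le_antisymm (h1 U X Y) ?_
    have h2 := h1 U⁻¹ (U * X) (U * Y)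
    rwa [inv_mul_cancel_left, inv_mul_cancel_left] at h2
  have hHyp : Hyp D q := by
    intro X Y Z W
    -- the loop, by induction on the displacement
    have key : ∀ (m : ℕ) (x y z w g : G), (x : G ⧸ N) = X → (y : G ⧸ N) = Y → (z : G ⧸ N) = Z →
        (w : G ⧸ N) = W → g ∈ N → e x y = q X Y → e y z = q Y Z → e z w = q Z W →
        e w (g * x) = q W X → (d x (g * x)).toNat = m →
        q X Z + q Y W ≤ max (q X Y + q Z W) (q X W + q Y Z) + D := by
      intro m
      induction m using Nat.strong_induction_on with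
      | _ m ih =>
      intro x y z w g hx hy hz hw hg h1 h2 h3 h4 hm
      by_cases hg1 : g = 1
      · subst hg1
        rw [one_mul] at h4
        have h5 := hH x y z w
        have h6 := hq2 X Z x z hx hz
        have h7 := hq2 Y W y w hy hw
        have h8 := hmet.symm W X
        have h9 := he.symm w x
        omega
      · obtain ⟨h, hhP, k, hk, hkN, hkn⟩ := green g hg hg1 x
        set r : G := h ^ (-(k * (n : ℤ))) with hr
        have hrN : r ∈ N := by
          rw [hr, zpow_neg]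
          exact N.inv_mem hkN
        have hdesc : d x (r * (g * x)) < d x (g * x) := desc h hhP x (g * x) k hk hkn
        have hlt : (d x (r * g * x)).toNat < m := by
          rw [mul_assoc]
          have := hd.nonneg x (r * (g * x))
          omega
        have ha1 := add h hhP x y (g * x)
        have ha2 := add h hhP y z (g * x)
        have ha3 := add h hhP z w (g * x)
        have hkn' := abs_mul_ge hk n
        have hcases : CE ≤ |a h x y| ∨ CE ≤ |a h y z| ∨ CE ≤ |a h z w| ∨ CE ≤ |a h w (g * x)| := by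
          by_contra hcon
          push Not at hcon
          obtain ⟨c1, c2, c3, c4⟩ := hcon
          rw [abs_lt] at c1 c2 c3 c4
          rw [abs_le] at hkn
          rcases le_abs.1 hkn' with h5 | h5 <;> omega
        have hrot : ∀ u v : G, e (r * u) (r * v) = e u v := fun u v => el r u v
        have hmk : ∀ u : G, ((r * u : G) : G ⧸ N) = (u : G ⧸ N) := fun u => mk_eq_of_mem hrN u
        have hgx : ((g * x : G) : G ⧸ N) = X := by rw [mk_eq_of_mem hg, hx]
        rcases hcases with c | c | c | c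
        · refine ih _ hlt x (r * y) (r * z) (r * w) (r * g) hx (by rw [hmk, hy]) (by rw [hmk, hz])
            (by rw [hmk, hw]) (N.mul_mem hrN hg) ?_ (by rw [hrot, h2]) (by rw [hrot, h3])
            (by rw [mul_assoc, hrot, h4]) rfl
          have h5 := exact h hhP x y c (-(k * (n : ℤ)))
          have h6 := hq2 X Y x (r * y) hx (by rw [hmk, hy])
          rw [← hr] at h5
          omega
        · refine ih _ hlt x y (r * z) (r * w) (r * g) hx hy (by rw [hmk, hz])
            (by rw [hmk, hw]) (N.mul_mem hrN hg) h1 ?_ (by rw [hrot, h3])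
            (by rw [mul_assoc, hrot, h4]) rfl
          have h5 := exact h hhP y z c (-(k * (n : ℤ)))
          have h6 := hq2 Y Z y (r * z) hy (by rw [hmk, hz])
          rw [← hr] at h5
          omega
        · refine ih _ hlt x y z (r * w) (r * g) hx hy hz
            (by rw [hmk, hw]) (N.mul_mem hrN hg) h1 h2 ?_
            (by rw [mul_assoc, hrot, h4]) rfl
          have h5 := exact h hhP z w c (-(k * (n : ℤ)))
          have h6 := hq2 Z W z (r * w) hz (by rw [hmk, hw])
          rw [← hr] at h5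
          omega
        · refine ih _ hlt x y z w (r * g) hx hy hz hw (N.mul_mem hrN hg) h1 h2 h3 ?_ rfl
          have h5 := exact h hhP w (g * x) c (-(k * (n : ℤ)))
          have h6 := hq2 W X w (r * (g * x)) hw (by rw [hmk, hgx])
          rw [← hr] at h5
          rw [mul_assoc]
          omega
    obtain ⟨x, rfl⟩ := QuotientGroup.mk_surjective X
    obtain ⟨y, rfl⟩ := QuotientGroup.mk_surjective Y
    obtain ⟨z, rfl⟩ := QuotientGroup.mk_surjective Z
    obtain ⟨w, rfl⟩ := QuotientGroup.mk_surjective W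
    obtain ⟨g1, hg1, h1⟩ := hlift x y
    obtain ⟨g2, hg2, h2⟩ := hlift (g1 * y) z
    obtain ⟨g3, hg3, h3⟩ := hlift (g2 * z) w
    obtain ⟨g4, hg4, h4⟩ := hlift (g3 * w) x
    rw [mk_eq_of_mem hg1] at h2
    rw [mk_eq_of_mem hg2] at h3
    rw [mk_eq_of_mem hg3] at h4
    exact key _ x (g1 * y) (g2 * z) (g3 * w) g4 rfl (mk_eq_of_mem hg1 y) (mk_eq_of_mem hg2 z)
      (mk_eq_of_mem hg3 w) hg4 h1.symm h2.symm h3.symm h4.symm rfl
  refine ⟨q, hmet, hlinv, hHyp, hle, hlift, ?_⟩
  intro x y hxy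
  have key : ∀ (m : ℕ) (g : G), g ∈ N → q x y = e x (g * y) → (d y (g * y)).toNat = m →
      q x y = e x y := by
    intro m
    induction m using Nat.strong_induction_on with
    | _ m ih =>
    intro g hg h1 hm
    by_cases hg1 : g = 1
    · rwa [hg1, one_mul] at h1
    · obtain ⟨h, hhP, k, hk, hkN, hkn⟩ := green g hg hg1 y
      set r : G := h ^ (-(k * (n : ℤ))) with hr
      have hrN : r ∈ N := by
        rw [hr, zpow_neg]
        exact N.inv_mem hkN
      have hdesc : d y (r * (g * y)) < d y (g * y) := desc h hhP y (g * y) k hk hkn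
      have hlt : (d y (r * g * y)).toNat < m := by
        rw [mul_assoc]
        have := hd.nonneg y (r * (g * y))
        omega
      have ha1 := add h hhP x y (g * y)
      have hxy' := hxy h hhP
      have hkn' := abs_mul_ge hk n
      have hc : CE ≤ |a h x (g * y)| := by
        by_contra hcon
        push Not at hcon
        rw [abs_lt] at hcon hxy'
        rw [abs_le] at hkn
        rcases le_abs.1 hkn' with h5 | h5 <;> omega
      refine ih _ hlt (r * g) (N.mul_mem hrN hg) ?_ rfl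
      have h5 := exact h hhP x (g * y) hc (-(k * (n : ℤ)))
      rw [← hr] at h5
      have h6 := hle x (r * (g * y))
      rw [mk_eq_of_mem hrN, mk_eq_of_mem hg] at h6
      rw [mul_assoc]
      omega
  obtain ⟨g, hg, h1⟩ := hlift x y
  exact key _ g hg h1 rfl

end Pool.Agent.Burnside
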