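import Pool.Agent.Burnside.Defs

/-!
Rescaling of a metric.
-/

namespace Pool.Agent.Burnside

theorem scale {H : Type*} [Group H] (q : H → H → ℤ) {M : ℤ} (hM : 2 ≤ M) (hq : IsMet q)
    (hl : LInv q) (hH : Hyp M q) :
    ∃ d' : H → H → ℤ, IsMet d' ∧ LInv d' ∧ Hyp 3 d' ∧
      ∀ x y, q x y ≤ M * d' x y ∧ M * d' x y < q x y + M := by
  have hM0 : (0 : ℤ) < M := by omega
  obtain ⟨f, hf, hfv⟩ : ∃ f : H → H → ℤ, (∀ x y, q x y ≤ M * f x y ∧ M * f x y < q x y + M) ∧
      ∀ x y x' y', q x y = q x' y' → f x y = f x' y' := by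
    refine ⟨fun x y => -((-q x y) / M), fun x y => ?_, fun x y x' y' h => by simp only [h]⟩
    have h1 := Int.emod_add_mul_ediv (-q x y) M
    have h2 := Int.emod_nonneg (-q x y) (by omega : M ≠ 0)
    have h3 := Int.emod_lt_of_pos (-q x y) hM0
    constructor <;> nlinarith
  -- comparison of integers through multiplication by `M`
  have lt_of : ∀ s t : ℤ, M * s < M * t → s < t := fun s t h => lt_of_mul_lt_mul_left h hM0.le
  have uniq : ∀ x y t, q x y ≤ M * t → M * t < q x y + M → f x y = t := by
    intro x y t h1 h2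
    obtain ⟨h3, h4⟩ := hf x y
    have h5 : f x y < t + 1 := lt_of _ _ (by rw [mul_add, mul_one]; omega)
    have h6 : t < f x y + 1 := lt_of _ _ (by rw [mul_add, mul_one]; omega)
    omega
  refine ⟨f, ⟨?_, ?_, ?_, ?_, ?_⟩, ?_, ?_, hf⟩
  · intro x
    apply uniq <;> rw [hq.self] <;> omega
  · intro x y h
    have h1 := (hf x y).1
    rw [h, mul_zero] at h1
    exact hq.sep x y (le_antisymm h1 (hq.nonneg x y))
  · intro x y
    exact hfv _ _ _ _ (hq.symm x y)
  · intro x y z
    have h1 := (hf x z).2
    have h2 := (hf x y).1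
    have h3 := (hf y z).1
    have h4 := hq.tri x y z
    have h5 : f x z < f x y + f y z + 1 := lt_of _ _ (by rw [mul_add, mul_add, mul_one]; omega)
    omega
  · intro x y t ht0 ht
    rcases eq_or_lt_of_le ht with h1 | h1
    · refine ⟨y, h1.symm, ?_⟩
      have : f y y = 0 := by apply uniq <;> rw [hq.self] <;> omega
      omega
    · have h2 : M * (t + 1) ≤ M * f x y := mul_le_mul_of_nonneg_left (by omega) hM0.le
      have h3 := (hf x y).2
      have h4 := (hf x y).1
      rw [mul_add, mul_one] at h2
      obtain ⟨z, hz1, hz2⟩ := hq.geo x y (M * t) (mul_nonneg hM0.le ht0) (by omega)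
      refine ⟨z, uniq _ _ _ (by omega) (by omega), uniq _ _ _ ?_ ?_⟩
      · rw [mul_sub]; omega
      · rw [mul_sub]; omega
  · intro u x y
    exact hfv _ _ _ _ (hl u x y)
  · intro x y z w
    have h1 := hH x y z w
    have a1 := (hf x z).2
    have a2 := (hf y w).2
    have b1 := (hf x y).1
    have b2 := (hf z w).1
    have c1 := (hf x w).1
    have c2 := (hf y z).1
    have h2 : f x z + f y w < max (f x y + f z w) (f x w + f y z) + 3 := by
      apply lt_of
      rcases le_total (q x y + q z w) (q x w + q y z) with h | h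
      · rw [max_eq_right h] at h1
        have h3 : M * (f x w + f y z) ≤ M * max (f x y + f z w) (f x w + f y z) :=
          mul_le_mul_of_nonneg_left (le_max_right _ _) hM0.le
        rw [mul_add] at h3
        rw [mul_add, mul_add]
        omega
      · rw [max_eq_left h] at h1
        have h3 : M * (f x y + f z w) ≤ M * max (f x y + f z w) (f x w + f y z) :=
          mul_le_mul_of_nonneg_left (le_max_left _ _) hM0.le
        rw [mul_add] at h3
        rw [mul_add, mul_add]
        omega
    omega

end Pool.Agent.Burnside
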