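import Pool.Agent.Burnside.Tube
import Pool.Agent.Burnside.Elec

/-!
Elements moving two far apart points (for the electric metric) a bounded distance.
-/

namespace Pool.Agent.Burnside

variable {G : Type*} [Group G] {d e : G → G → ℤ} {n : ℕ} {R κ a : ℤ}
variable {P : Set G} {b : G → G} {p : G → G → ℤ}

/-- A geodesic segment, continued by constants. -/
structure Seg {V : Type*} (d : V → V → ℤ) (x y : V) (l : ℤ) (q : ℤ → V) : Prop where
  nn : 0 ≤ l
  zero : q 0 = x
  last : q l = y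
  dist : ∀ i j, 0 ≤ i → i ≤ j → j ≤ l → d (q i) (q j) = j - i
  step : ∀ i, d (q i) (q (i + 1)) ≤ 1

theorem exists_seg {V : Type*} {d : V → V → ℤ} (h : IsMet d) (x y : V) :
    ∃ l q, Seg d x y l q := by
  obtain ⟨k, σ, c⟩ := exists_chain h x y
  refine ⟨k, fun i => σ (min i.toNat k), by omega, by simp [c.zero], by simp [c.last], ?_, ?_⟩
  · intro i j hi hij hj
    have h1 := c.dist (min i.toNat k) (min j.toNat k) (by omega) (by omega)
    rw [h1]
    omega
  · intro i
    have h1 := c.dist (min i.toNat k) (min (i + 1).toNat k) (by omega) (by omega)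
    rw [h1]
    omega

namespace Seg

variable {V : Type*} {d : V → V → ℤ} {x y : V} {l : ℤ} {q : ℤ → V}

theorem dist' (h : IsMet d) (c : Seg d x y l q) {i j : ℤ} (hi : 0 ≤ i) (hi' : i ≤ l)
    (hj : 0 ≤ j) (hj' : j ≤ l) : d (q i) (q j) = |i - j| := by
  rcases le_total i j with hij | hij
  · rw [c.dist i j hi hij hj', abs_of_nonpos (by omega)]; omega
  · rw [h.symm, c.dist j i hj hij hi', abs_of_nonneg (by omega)]

theorem dx (c : Seg d x y l q) {i : ℤ} (hi : 0 ≤ i) (hi' : i ≤ l) : d x (q i) = i := by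
  have := c.dist 0 i le_rfl hi hi'
  rw [c.zero] at this
  omega

theorem dy (c : Seg d x y l q) {i : ℤ} (hi : 0 ≤ i) (hi' : i ≤ l) : d (q i) y = l - i := by
  have := c.dist i l hi hi' le_rfl
  rwa [c.last] at this

theorem len (c : Seg d x y l q) : d x y = l := by
  have := c.dx c.nn le_rfl
  rwa [c.last] at this

theorem gp_xy (h : IsMet d) (c : Seg d x y l q) {i : ℤ} (hi : 0 ≤ i) (hi' : i ≤ l) :
    gp d x y (q i) = 0 := by
  have h1 := c.dx hi hi'
  have h2 := c.dy hi hi'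
  have h3 := c.len
  have h4 := h.symm (q i) y
  unfold gp
  omega

end Seg

/-- Far from `x` in the electric metric, products of `x` and a nearby point are large. -/
theorem xh_far (I : Inv n R κ a 3 d) (E : El d e P b) {x w z : G} {K : ℤ} (hK : e x w ≤ K)
    (hz : K + 249 < e x z) : 6 < gp d x w z := by
  by_contra hcon
  push Not at hcon
  obtain ⟨w', h1, h2⟩ := exists_geo_pt I.met I.hyp hcon
  obtain ⟨k, α, c⟩ := exists_chain E.met x w
  obtain ⟨i, hi, hi2⟩ := E.fel x w w' h1 k α c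
  have t1 := E.met.tri x (α i) z
  have t2 := E.met.tri (α i) w' z
  have t3 := E.met.symm (α i) w'
  have t4 := E.met.symm w' z
  have t5 := E.le z w'
  have t6 := c.dist 0 i (by omega) hi
  rw [c.zero] at t6
  have t7 := c.len
  omega

theorem xh_gp (I : Inv n R κ a 3 d) {x y x' y' z : G} (h0 : gp d x y z = 0)
    (hx : 6 < gp d x x' z) (hy : 6 < gp d y y' z) :
    gp d x' y z ≤ 3 ∧ gp d x y' z ≤ 3 ∧ gp d x' y' z ≤ 6 := by
  have h1 := I.hyp.gp_ge I.met x y x' z
  have h2 := I.hyp.gp_ge I.met x y y' z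
  have h3 := I.hyp.gp_ge I.met x' y y' z
  have s1 := gp_symm I.met y' y z
  omega

/-- Two points of a geodesic with about the same distance from `x`. -/
theorem xh_e (E : El d e P b) {x y z z' : G} {M : ℤ} (hz : gp d x y z = 0)
    (hz' : gp d x y z' = 0) (h1 : e x z ≤ e x z' + M) (h2 : e x z' ≤ e x z + M) :
    e z z' ≤ M + 960 := by
  obtain ⟨k, α, c⟩ := exists_chain E.met x y
  obtain ⟨i, hi, hi2⟩ := E.fel x y z hz k α c
  obtain ⟨j, hj, hj2⟩ := E.fel x y z' hz' k α c
  have a1 := c.dist 0 i (by omega) hi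
  have a2 := c.dist 0 j (by omega) hj
  rw [c.zero] at a1 a2
  have a3 : e (α i) (α j) ≤ M + 480 := by
    have t1 := E.met.tri x z (α i)
    have t2 := E.met.tri x (α i) z
    have t3 := E.met.tri x z' (α j)
    have t4 := E.met.tri x (α j) z'
    have s1 := E.met.symm (α i) z
    have s2 := E.met.symm (α j) z'
    rcases le_total i j with hij | hij
    · have := c.dist i j hij hj
      omega
    · have := c.dist j i hij hi
      have s3 := E.met.symm (α i) (α j)
      omega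
  have t1 := E.met.tri z (α i) z'
  have t2 := E.met.tri (α i) (α j) z'
  have s1 := E.met.symm (α j) z'
  omega

/-- The monotonicity of the matching. -/
theorem xh_mon (I : Inv n R κ a 3 d) {x y : G} {l : ℤ} {q : ℤ → G} (c : Seg d x y l q) {x' : G}
    {t₀ t₁ : ℤ} (h0 : 0 ≤ t₀) (h01 : t₀ ≤ t₁) (h1 : t₁ ≤ l) (hx : 6 < gp d x x' (q t₀)) :
    t₀ - d x' (q t₀) ≤ t₁ - d x' (q t₁) ∧ t₁ - d x' (q t₁) ≤ t₀ - d x' (q t₀) + 3 := by
  have a1 := c.dist t₀ t₁ h0 h01 h1
  have t1 := I.met.tri x' (q t₀) (q t₁)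
  have a2 := I.hyp.gp_ge I.met x (q t₁) x' (q t₀)
  have a3 := c.dx h0 (h01.trans h1)
  have a4 := c.dx (h0.trans h01) h1
  have s1 := I.met.symm (q t₁) (q t₀)
  have e1 : gp d x (q t₁) (q t₀) = 0 := by
    unfold gp
    omega
  have e2 : gp d x' (q t₁) (q t₀) ≤ 3 := by omega
  unfold gp at e2
  omega

theorem xh_shift (I : Inv n R κ a 3 d) (E : El d e P b) {x y u : G} {l : ℤ} {q : ℤ → G}
    (c : Seg d x y l q) {K : ℤ} (hux : e x (u * x) ≤ K) (huy : e y (u * y) ≤ K) :
    ∃ s : ℤ, ∀ t, 0 ≤ t → t ≤ l → K + 249 < e x (q t) → K + 249 < e y (q t) →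
      0 ≤ t - s ∧ t - s ≤ l ∧ d (q t) (u * q (t - s)) ≤ 12 ∧ e (q t) (q (t - s)) ≤ K + 972 := by
  by_cases hex : ∃ t, 0 ≤ t ∧ t ≤ l ∧ K + 249 < e x (q t) ∧ K + 249 < e y (q t)
  swap
  · refine ⟨0, fun t h1 h2 h3 h4 => absurd ⟨t, h1, h2, h3, h4⟩ hex⟩
  obtain ⟨t₀, p1, p2, p3, p4⟩ := hex
  refine ⟨t₀ - d (u * x) (q t₀), fun t h1 h2 h3 h4 => ?_⟩
  have hx := xh_far I E hux h3
  have hy := xh_far I E huy h4
  have hx0 := xh_far I E hux p3
  have hs : -3 ≤ (t - (t₀ - d (u * x) (q t₀))) - d (u * x) (q t) ∧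
      (t - (t₀ - d (u * x) (q t₀))) - d (u * x) (q t) ≤ 3 := by
    rcases le_total t t₀ with htt | htt
    · have := xh_mon I c h1 htt p2 hx
      omega
    · have := xh_mon I c p1 htt h2 hx0
      omega
  generalize t - (t₀ - d (u * x) (q t₀)) = r at hs
  have hK : 0 ≤ K := (E.met.nonneg _ _).trans hux
  obtain ⟨g1, g2, g3⟩ := xh_gp I (c.gp_xy I.met h1 h2) hx hy
  have b1 : 249 < d (u * x) (q t) := by
    have t1 := E.met.tri x (u * x) (q t)
    have t2 := E.le (u * x) (q t)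
    omega
  have b2 : 249 < d (u * y) (q t) := by
    have t1 := E.met.tri y (u * y) (q t)
    have t2 := E.le (u * y) (q t)
    omega
  have b3 : d (u * x) (u * y) = l := by rw [I.left]; exact c.len
  have hr0 : 0 ≤ r := by omega
  have hrl : r ≤ l := by
    unfold gp at g3
    omega
  have hd : d (q t) (u * q r) ≤ 12 := by
    have c1 : d (u * x) (u * q r) = r := by rw [I.left]; exact c.dx hr0 hrl
    have c2 : d (u * q r) (u * y) = l - r := by rw [I.left]; exact c.dy hr0 hrl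
    have c3 := I.met.symm (u * q r) (u * y)
    have c4 : gp d (u * x) (u * y) (u * q r) ≤ 0 := by
      unfold gp
      omega
    have c5 := I.hyp.near_pt I.met c4 (q t)
    have c6 := I.met.symm (q t) (u * x)
    have c7 := I.met.symm (q t) (u * y)
    unfold gp at g3
    omega
  refine ⟨hr0, hrl, hd, ?_⟩
  have h5 : e (q t) (u * q r) ≤ 12 := (E.le _ _).trans hd
  have h6 : e (u * x) (u * q r) = e x (q r) := E.left _ _ _
  have t1 := E.met.tri x (u * x) (q t)
  have t2 := E.met.tri (u * x) (u * q r) (q t)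
  have t3 := E.met.tri (u * x) x (u * q r)
  have t4 := E.met.tri x (q t) (u * q r)
  have s1 := E.met.symm (u * q r) (q t)
  have s2 := E.met.symm (u * x) x
  have := xh_e E (M := K + 12) (c.gp_xy I.met h1 h2) (c.gp_xy I.met hr0 hrl) (by omega) (by omega)
  omega

theorem xh_pick (E : El d e P b) {x y : G} {l : ℤ} {q : ℤ → G} (c : Seg d x y l q) {T : ℤ}
    (hT : 1 ≤ T) (hT' : T ≤ e x y) :
    (∃ t, 0 ≤ t ∧ t ≤ l ∧ T - 1 ≤ e x (q t) ∧ e x (q t) ≤ T) ∧
      ∃ t, 0 ≤ t ∧ t ≤ l ∧ T - 1 ≤ e y (q t) ∧ e y (q t) ≤ T := by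
  have hst : ∀ i, e (q i) (q (i + 1)) ≤ 1 := fun i => (E.le _ _).trans (c.step i)
  constructor
  · obtain ⟨k, h1, h2, h3, h4⟩ := exists_step' (f := fun i => e x (q i)) (L := 1) (by norm_num)
      (fun i => by
        have t1 := E.met.tri x (q i) (q (i + 1))
        have := hst i
        show e x (q (i + 1)) ≤ e x (q i) + 1
        omega) c.nn (t := T) (by
        show e x (q 0) ≤ T
        rw [c.zero, E.met.self]; omega) (by
        show T ≤ e x (q l)
        rw [c.last]; exact hT')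
    exact ⟨k, h1, h2, h3, h4⟩
  · obtain ⟨k, h1, h2, h3, h4⟩ := exists_step' (f := fun i => - e y (q i)) (L := 1) (by norm_num)
      (fun i => by
        have t1 := E.met.tri y (q (i + 1)) (q i)
        have s1 := E.met.symm (q i) (q (i + 1))
        have := hst i
        show - e y (q (i + 1)) ≤ - e y (q i) + 1
        omega) c.nn (t := -(T - 1)) (by
        show - e y (q 0) ≤ -(T - 1)
        rw [c.zero, E.met.symm]; omega) (by
        show -(T - 1) ≤ - e y (q l)
        rw [c.last, E.met.self]; omega)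
    exact ⟨k, h1, h2, by omega, by omega⟩

/-- Contradiction from two points close to one axis. -/
theorem xh_tube (E : El d e P b) {h : G} (hh : h ∈ P) {z₁ z₂ : G} {T : ℤ}
    (h1 : d z₁ (pr b p h z₁) ≤ T) (h2 : d z₂ (pr b p h z₂) ≤ T) : e z₁ z₂ ≤ 2 * T + 1 := by
  have t1 := E.met.tri z₁ (pr b p h z₁) z₂
  have t2 := E.met.tri (pr b p h z₁) (pr b p h z₂) z₂
  have t3 := (E.adj (pr b p h z₁) (pr b p h z₂)).2 (Or.inr ⟨h, hh, pr_mem _ _, pr_mem _ _⟩)
  have t4 := E.le z₁ (pr b p h z₁)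
  have t5 := E.le z₂ (pr b p h z₂)
  have t6 := E.met.symm (pr b p h z₂) z₂
  omega

theorem xhat_comm (I : Inv n R κ a 3 d) (S : AxSys n d P b p) (E : El d e P b) (hκ : 1000 ≤ κ)
    (ha : 2000 ≤ a) (j : ℕ) (hj : 318 * R < 2 ^ j) {κ' : ℤ} {x y u v : G}
    (hxy : 10 * κ' + 11000 + a + 322 * j ≤ e x y)
    (hux : e x (u * x) ≤ κ') (huy : e y (u * y) ≤ κ') (hvx : e x (v * x) ≤ κ')
    (hvy : e y (v * y) ≤ κ') : u * v = v * u := by
  obtain ⟨l, q, c⟩ := exists_seg I.met x y
  have hK : 0 ≤ κ' := (E.met.nonneg _ _).trans hux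
  obtain ⟨su, Hu⟩ := xh_shift I E c hux huy
  obtain ⟨sv, Hv⟩ := xh_shift I E c hvx hvy
  have key : ∀ t, 0 ≤ t → t ≤ l → 2 * κ' + 1222 ≤ e x (q t) → 2 * κ' + 1222 ≤ e y (q t) →
      ∃ z, d z (((v * u)⁻¹ * (u * v)) * z) ≤ 48 ∧ e (q t) z ≤ 2 * κ' + 1944 := by
    intro t h1 h2 h3 h4
    obtain ⟨u1, u2, u3, u4⟩ := Hu t h1 h2 (by omega) (by omega)
    obtain ⟨v1, v2, v3, v4⟩ := Hv t h1 h2 (by omega) (by omega)
    have t1 := E.met.tri x (q (t - su)) (q t)
    have t2 := E.met.tri y (q (t - su)) (q t)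
    have t3 := E.met.tri x (q (t - sv)) (q t)
    have t4 := E.met.tri y (q (t - sv)) (q t)
    have s1 := E.met.symm (q t) (q (t - su))
    have s2 := E.met.symm (q t) (q (t - sv))
    obtain ⟨w1, w2, w3, w4⟩ := Hv (t - su) u1 u2 (by omega) (by omega)
    obtain ⟨w1', w2', w3', w4'⟩ := Hu (t - sv) v1 v2 (by omega) (by omega)
    have e1 : t - sv - su = t - su - sv := by ring
    rw [e1] at w3' w4'
    refine ⟨q (t - su - sv), ?_, ?_⟩
    · rw [mul_assoc, I.left.inv_right]
      have a1 := I.met.tri (q t) (u * q (t - su)) (u * (v * q (t - su - sv)))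
      rw [I.left] at a1
      have a2 := I.met.tri (q t) (v * q (t - sv)) (v * (u * q (t - su - sv)))
      rw [I.left] at a2
      have a3 := I.met.tri (v * (u * q (t - su - sv))) (q t) (u * (v * q (t - su - sv)))
      have a4 := I.met.symm (q t) (v * (u * q (t - su - sv)))
      rw [mul_assoc, mul_assoc]
      omega
    · have := E.met.tri (q t) (q (t - su)) (q (t - su - sv))
      omega
  obtain ⟨⟨t₁, a1, a2, a3, a4⟩, t₂, b1, b2, b3, b4⟩ := xh_pick E c (T := 2 * κ' + 1223)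
    (by omega) (by omega)
  have s0 := E.met.symm x y
  obtain ⟨z₁, c1, c2⟩ := key t₁ a1 a2 (by omega) (by
    have t1 := E.met.tri x (q t₁) y
    have s1 := E.met.symm (q t₁) y
    omega)
  obtain ⟨z₂, d1, d2⟩ := key t₂ b1 b2 (by
    have t1 := E.met.tri x (q t₂) y
    have s1 := E.met.symm (q t₂) y
    omega) (by omega)
  have hz : a + 322 * j + 2002 ≤ e z₁ z₂ := by
    have t1 := E.met.tri x (q t₁) y
    have t2 := E.met.tri (q t₁) z₁ y
    have t3 := E.met.tri z₁ z₂ y
    have t4 := E.met.tri z₂ (q t₂) y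
    have s1 := E.met.symm (q t₂) y
    have s2 := E.met.symm z₂ (q t₂)
    omega
  have hzd := E.le z₁ z₂
  set g : G := (v * u)⁻¹ * (u * v) with hg
  by_cases hc : g ^ n = 1
  · have h1 := (I.comm z₁ z₂ g g (by omega) (by omega) (by omega) (by omega) (by omega)).2 hc
    rw [hg, inv_mul_eq_one] at h1
    exact h1.symm
  · exfalso
    obtain ⟨h, hh, hm⟩ := S.all g hc z₁ (by omega)
    obtain ⟨k, hk⟩ := Subgroup.mem_zpowers_iff.1 hm
    have hk0 : k ≠ 0 := by
      rintro rfl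
      rw [zpow_zero] at hk
      exact hc (by rw [← hk, one_pow])
    have e1 := tube I S hh hk.symm hk0 j hj (z := z₁) (Or.inr (by omega))
    have e2 := tube I S hh hk.symm hk0 j hj (z := z₂) (Or.inr (by omega))
    have := xh_tube E hh e1 e2
    omega

/-- The amplitude bound. -/
theorem xh_am (I : Inv n R κ a 3 d) (S : AxSys n d P b p) {x y u : G} {l : ℤ} {q : ℤ → G}
    (c : Seg d x y l q) {t s : ℤ} (h0 : 0 ≤ t) (h0' : t ≤ l) (h1 : 0 ≤ t - s) (h1' : t - s ≤ l)
    (h2 : 0 ≤ t - s - s) (h2' : t - s - s ≤ l) (hd1 : d (q t) (u * q (t - s)) ≤ 12)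
    (hd2 : d (q (t - s)) (u * q (t - s - s)) ≤ 12) {w : G}
    (hw : gp d (q (t - s - s)) (u * q (t - s - s)) w = 0) {h : G} (hh : h ∈ P) :
    |am p h w (u * w)| ≤ |am p h x y| + 2712 * R := by
  have hR := (S.hlox I hh).pos I.met
  -- notation
  have q0 := c.dx h0 h0'
  have q1 := c.dx h1 h1'
  have q2 := c.dx h2 h2'
  have r0 := c.dy h0 h0'
  have r1 := c.dy h1 h1'
  have r2 := c.dy h2 h2'
  have hl := c.len
  have m01 := c.dist' I.met h0 h0' h1 h1'
  have m12 := c.dist' I.met h1 h1' h2 h2'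
  have e01 : t - (t - s) = s := by ring
  have e12 : t - s - (t - s - s) = s := by ring
  rw [e01] at m01
  rw [e12] at m12
  generalize hz0 : q (t - s - s) = z at *
  generalize hz1 : q (t - s) = z1 at *
  generalize hz2 : q t = z2 at *
  have T1 := I.met.tri z z1 (u * z)
  have S1 := I.met.symm z z1
  have hzu : d z (u * z) ≤ |s| + 12 := by omega
  have W1 : d z w + d w (u * z) = d z (u * z) := by
    have s1 := I.met.symm (u * z) w
    unfold gp at hw
    omega
  have W2 : d (u * z) (u * w) + d (u * w) (u * (u * z)) = d z (u * z) := by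
    rw [I.left, I.left]; exact W1
  have D1 : d (u * z1) (u * (u * z)) ≤ 12 := by rw [I.left]; exact hd2
  have T2 := I.met.tri z2 (u * z1) (u * (u * z))
  have hA : gp d x y w ≤ 24 := by
    have sy := I.met.symm y w
    unfold gp
    rcases le_total 0 s with hs | hs
    · rw [abs_of_nonneg hs] at hzu
      have u1 := I.met.tri x z w
      have u2 := I.met.tri w (u * z) y
      have u3 := I.met.tri (u * z) z1 y
      have s1 := I.met.symm (u * z) z1
      omega
    · rw [abs_of_nonpos hs] at hzu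
      have u1 := I.met.tri x z1 w
      have u2 := I.met.tri z1 (u * z) w
      have u3 := I.met.tri w z y
      have s1 := I.met.symm (u * z) w
      have s2 := I.met.symm w z
      omega
  have hB : gp d x y (u * w) ≤ 48 := by
    have sy := I.met.symm y (u * w)
    unfold gp
    rcases le_total 0 s with hs | hs
    · rw [abs_of_nonneg hs] at hzu
      have u1 := I.met.tri x z1 (u * w)
      have u2 := I.met.tri z1 (u * z) (u * w)
      have u3 := I.met.tri (u * w) (u * (u * z)) y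
      have u4 := I.met.tri (u * (u * z)) z2 y
      have s1 := I.met.symm (u * (u * z)) z2
      omega
    · rw [abs_of_nonpos hs] at hzu
      have u1 := I.met.tri x z2 (u * w)
      have u2 := I.met.tri z2 (u * (u * z)) (u * w)
      have u3 := I.met.tri (u * w) (u * z) y
      have u4 := I.met.tri (u * z) z1 y
      have s1 := I.met.symm (u * z) z1
      have s2 := I.met.symm (u * w) (u * z)
      have s3 := I.met.symm (u * (u * z)) (u * w)
      omega
  obtain ⟨g1, g2⟩ := mono I S hh hA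
  obtain ⟨g3, g4⟩ := mono I S hh hB
  unfold am
  have e1 : R * (24 + 1308) = 1332 * R := by ring
  have e2 : R * (48 + 1308) = 1356 * R := by ring
  rw [e1] at g1 g2
  rw [e2] at g3 g4
  rw [abs_le]
  have f1 := le_abs_self (p h y - p h x)
  have f2 := neg_abs_le (p h y - p h x)
  omega

theorem xhat_long (I : Inv n R κ a 3 d) (S : AxSys n d P b p) (E : El d e P b) (hκ : 1000 ≤ κ)
    (ha : 2000 ≤ a) (hn : 0 < n) (j : ℕ) (hj : 318 * R < 2 ^ j) {κ' : ℤ} {x y u : G}
    (hxy : 10 * κ' + 11000 + a + 322 * j ≤ e x y)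
    (hux : e x (u * x) ≤ κ') (huy : e y (u * y) ≤ κ') (hu : u ≠ 1) :
    u ^ n ≠ 1 ∧ (∀ h ∈ P, u ∉ Subgroup.zpowers h) ∧ ∃ z, 101 ≤ d z (u * z) ∧
      gp d (u⁻¹ * z) (u * z) z ≤ 48 ∧
      ∀ w, gp d z (u * z) w = 0 → ∀ h ∈ P, |am p h w (u * w)| ≤ |am p h x y| + 2712 * R := by
  obtain ⟨l, q, c⟩ := exists_seg I.met x y
  have hK : 0 ≤ κ' := (E.met.nonneg _ _).trans hux
  obtain ⟨s, Hs⟩ := xh_shift I E c hux huy
  have key : ∀ t, 0 ≤ t → t ≤ l → 3 * κ' + 2194 ≤ e x (q t) → 3 * κ' + 2194 ≤ e y (q t) →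
      0 ≤ t - s ∧ t - s ≤ l ∧ 0 ≤ t - s - s ∧ t - s - s ≤ l ∧
      0 ≤ t - s - s - s ∧ t - s - s - s ≤ l ∧ d (q t) (u * q (t - s)) ≤ 12 ∧
      d (q (t - s)) (u * q (t - s - s)) ≤ 12 ∧
      d (q (t - s - s)) (u * q (t - s - s - s)) ≤ 12 ∧
      e (q t) (q (t - s - s)) ≤ 2 * κ' + 1944 := by
    intro t h1 h2 h3 h4
    obtain ⟨u1, u2, u3, u4⟩ := Hs t h1 h2 (by omega) (by omega)
    have t1 := E.met.tri x (q (t - s)) (q t)
    have t2 := E.met.tri y (q (t - s)) (q t)
    have s1 := E.met.symm (q t) (q (t - s))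
    obtain ⟨v1, v2, v3, v4⟩ := Hs (t - s) u1 u2 (by omega) (by omega)
    have t3 := E.met.tri x (q (t - s - s)) (q (t - s))
    have t4 := E.met.tri y (q (t - s - s)) (q (t - s))
    have s2 := E.met.symm (q (t - s)) (q (t - s - s))
    obtain ⟨w1, w2, w3, w4⟩ := Hs (t - s - s) v1 v2 (by omega) (by omega)
    have t5 := E.met.tri (q t) (q (t - s)) (q (t - s - s))
    exact ⟨u1, u2, v1, v2, w1, w2, u3, v3, w3, by omega⟩
  obtain ⟨⟨t₁, a1, a2, a3, a4⟩, t₂, b1, b2, b3, b4⟩ := xh_pick E c (T := 3 * κ' + 2195)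
    (by omega) (by omega)
  have s0 := E.met.symm x y
  have K1 := key t₁ a1 a2 (by omega) (by
    have t1 := E.met.tri x (q t₁) y
    have s1 := E.met.symm (q t₁) y
    omega)
  have K2 := key t₂ b1 b2 (by
    have t1 := E.met.tri x (q t₂) y
    have s1 := E.met.symm (q t₂) y
    omega) (by omega)
  -- the displacement near `z`
  have disp : ∀ t, 0 ≤ t → t ≤ l → (0 ≤ t - s ∧ t - s ≤ l ∧ 0 ≤ t - s - s ∧ t - s - s ≤ l ∧
      0 ≤ t - s - s - s ∧ t - s - s - s ≤ l ∧ d (q t) (u * q (t - s)) ≤ 12 ∧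
      d (q (t - s)) (u * q (t - s - s)) ≤ 12 ∧
      d (q (t - s - s)) (u * q (t - s - s - s)) ≤ 12 ∧
      e (q t) (q (t - s - s)) ≤ 2 * κ' + 1944) →
      d (q (t - s - s)) (u * q (t - s - s)) ≤ |s| + 12 ∧
      2 * |s| - 24 ≤ d (q (t - s - s)) (u ^ 2 * q (t - s - s)) ∧
      gp d (u⁻¹ * q (t - s - s)) (u * q (t - s - s)) (q (t - s - s)) ≤ 48 := by
    rintro t h1 h2 ⟨u1, u2, v1, v2, w1, w2, u3, v3, w3, -⟩
    have m12 := c.dist' I.met u1 u2 v1 v2
    have m02 := c.dist' I.met h1 h2 v1 v2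
    have e12 : t - s - (t - s - s) = s := by ring
    have e02 : t - (t - s - s) = 2 * s := by ring
    rw [e12] at m12
    rw [e02, abs_mul, abs_two] at m02
    refine ⟨?_, ?_, ?_⟩
    · have T1 := I.met.tri (q (t - s - s)) (q (t - s)) (u * q (t - s - s))
      have S1 := I.met.symm (q (t - s - s)) (q (t - s))
      omega
    · have e1 : u ^ 2 * q (t - s - s) = u * (u * q (t - s - s)) := by
        rw [pow_two, mul_assoc]
      rw [e1]
      have D1 : d (u * q (t - s)) (u * (u * q (t - s - s))) ≤ 12 := by rw [I.left]; exact v3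
      have T1 := I.met.tri (q t) (u * q (t - s)) (q (t - s - s))
      have T2 := I.met.tri (u * q (t - s)) (u * (u * q (t - s - s))) (q (t - s - s))
      have S1 := I.met.symm (u * (u * q (t - s - s))) (q (t - s - s))
      omega
    · have g1 := gp_lip I.met (q (t - s - s - s)) (q (t - s)) (q (t - s - s))
        (u⁻¹ * q (t - s - s)) (u * q (t - s - s))
      have g2 : gp d (q (t - s - s - s)) (q (t - s)) (q (t - s - s)) = 0 := by
        have m23 := c.dist' I.met w1 w2 v1 v2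
        have m13 := c.dist' I.met w1 w2 u1 u2
        have e3 : t - s - s - s - (t - s - s) = -s := by ring
        have e4 : t - s - s - s - (t - s) = 2 * (-s) := by ring
        rw [e3] at m23
        rw [e4, abs_mul, abs_two] at m13
        rw [abs_neg] at m23 m13
        unfold gp
        omega
      have g3 : d (q (t - s - s - s)) (u⁻¹ * q (t - s - s)) ≤ 12 := by
        rw [I.left.inv_right, I.met.symm]
        exact w3
      omega
  obtain ⟨f1, f2, f3⟩ := disp t₁ a1 a2 K1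
  obtain ⟨f1', f2', f3'⟩ := disp t₂ b1 b2 K2
  obtain ⟨k1, k2, k3, k4, k5, k6, k7, k8, k9, k10⟩ := K1
  obtain ⟨k1', k2', k3', k4', k5', k6', k7', k8', k9', k10'⟩ := K2
  have hz : a + 322 * j + 2002 ≤ e (q (t₁ - s - s)) (q (t₂ - s - s)) := by
    have t1 := E.met.tri x (q t₁) y
    have t2 := E.met.tri (q t₁) (q (t₁ - s - s)) y
    have t3 := E.met.tri (q (t₁ - s - s)) (q (t₂ - s - s)) y
    have t4 := E.met.tri (q (t₂ - s - s)) (q t₂) y
    have s1 := E.met.symm (q t₂) y
    have s2 := E.met.symm (q (t₂ - s - s)) (q t₂)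
    omega
  have hzd := E.le (q (t₁ - s - s)) (q (t₂ - s - s))
  have hun : u ^ n ≠ 1 := by
    intro hc
    have g1 := disp_torsion I.met I.left I.hyp u (q (t₁ - s - s)) hn hc
    have hs39 : |s| ≤ 39 := by omega
    exact hu ((I.comm (q (t₁ - s - s)) (q (t₂ - s - s)) u u (by omega) (by omega) (by omega)
      (by omega) (by omega)).2 hc)
  have hmem : ∀ h ∈ P, u ∉ Subgroup.zpowers h := by
    intro h hh hm
    obtain ⟨k, hk⟩ := Subgroup.mem_zpowers_iff.1 hm
    have hk0 : k ≠ 0 := by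
      rintro rfl
      rw [zpow_zero] at hk
      exact hu hk.symm
    have e1 := tube I S hh hk.symm hk0 j hj (z := q (t₁ - s - s)) (Or.inl f3)
    have e2 := tube I S hh hk.symm hk0 j hj (z := q (t₂ - s - s)) (Or.inl f3')
    have := xh_tube E hh e1 e2
    omega
  refine ⟨hun, hmem, q (t₁ - s - s), ?_, f3, ?_⟩
  · by_contra hcon
    push Not at hcon
    obtain ⟨h, hh, hm⟩ := S.all u hun (q (t₁ - s - s)) (by omega)
    exact hmem h hh hm
  · intro w hw h hh
    exact xh_am I S c a1 a2 k1 k2 k3 k4 k7 k8 hw hh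

end Pool.Agent.Burnside
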