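import Pool.Agent.Burnside.Bend
import Pool.Agent.Burnside.Xhat
import Pool.Agent.Burnside.LongE
import Pool.Agent.Burnside.LongAm
import Pool.Agent.Burnside.Min
import Pool.Agent.Burnside.Scale
import Pool.Agent.Burnside.Ping
import Pool.Agent.Burnside.Quot

/-!
The inductive step.
-/

namespace Pool.Agent.Burnside

theorem rotN_normal {G : Type*} [Group G] {P : Set G} (n : ℕ)
    (conj : ∀ h ∈ P, ∀ g, g * h * g⁻¹ ∈ P) : (rotN P n).Normal := by
  refine ⟨fun x hx g => ?_⟩
  unfold rotN at hx ⊢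
  induction hx using Subgroup.closure_induction with
  | mem x hx =>
    obtain ⟨h, hh, rfl⟩ := hx
    apply Subgroup.subset_closure
    exact ⟨_, conj h hh g, by rw [conj_pow]⟩
  | one => simp
  | mul x y _ _ hx hy =>
    have : g * (x * y) * g⁻¹ = (g * x * g⁻¹) * (g * y * g⁻¹) := by group
    rw [this]
    exact Subgroup.mul_mem _ hx hy
  | inv x _ hx =>
    have : g * x⁻¹ * g⁻¹ = (g * x * g⁻¹)⁻¹ := by group
    rw [this]
    exact Subgroup.inv_mem _ hx

theorem rotN_mem {G : Type*} [Group G] {P : Set G} (n : ℕ) {h : G} (hh : h ∈ P) :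
    h ^ n ∈ rotN P n := Subgroup.subset_closure ⟨h, hh, rfl⟩

theorem lox_of_point {H : Type*} [Group H] {q : H → H → ℤ} (hq : IsMet q) (hl : LInv q) {C : ℤ}
    (hC : 0 < C) {u z : H} (hz : ∀ m : ℕ, (m : ℤ) ≤ C * q z (u ^ m * z)) : Lox q C u := by
  intro y m
  by_contra hcon
  push Not at hcon
  have hpow : ∀ t : ℕ, q y (u ^ (m * t) * y) ≤ t * q y (u ^ m * y) := by
    intro t
    induction t with
    | zero => simp [hq.self]
    | succ t ih =>
      have h1 := hq.tri y (u ^ (m * t) * y) (u ^ (m * (t + 1)) * y)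
      have e1 : u ^ (m * (t + 1)) * y = u ^ (m * t) * (u ^ m * y) := by
        rw [mul_add, mul_one, pow_add, mul_assoc]
      rw [e1, hl] at h1
      rw [e1]
      push_cast
      linarith
  obtain ⟨t, ht⟩ : ∃ t : ℕ, (t : ℤ) = 2 * C * q z y + 1 :=
    ⟨(2 * C * q z y + 1).toNat, by
      have := mul_nonneg hC.le (hq.nonneg z y)
      have e : 2 * C * q z y = 2 * (C * q z y) := by ring
      omega⟩
  have h1 := hz (m * t)
  have h2 := hq.tri z y (u ^ (m * t) * z)
  have h3 := hq.tri y (u ^ (m * t) * y) (u ^ (m * t) * z)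
  rw [hl (u ^ (m * t))] at h3
  have h4 := hq.symm y z
  have h5 : q z (u ^ (m * t) * z) ≤ 2 * q z y + t * q y (u ^ m * y) := by
    have := hpow t
    linarith
  have h6 : C * q z (u ^ (m * t) * z) ≤ C * (2 * q z y + t * q y (u ^ m * y)) :=
    mul_le_mul_of_nonneg_left h5 hC.le
  push_cast at h1
  have h7 : (t : ℤ) * (C * q y (u ^ m * y) + 1) ≤ t * m :=
    mul_le_mul_of_nonneg_left (by linarith) (by positivity)
  nlinarith

theorem step_holds (n : ℕ) (hn : Odd n) (hn' : (10 : ℤ) ^ 30 ≤ n) :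
    StepHolds n 512400000 1000 100000 3 := by
  intro G _ d I hcyc hu
  obtain ⟨P, b, p, S⟩ := exists_axSys I hn (by norm_num)
  obtain ⟨e, E⟩ := exists_el I S
  have W := S.rotSys I (by norm_num) (by norm_num)
  have hn0 : (1000000000000000000000000000000 : ℤ) ≤ n := le_trans (by norm_num) hn'
  have hNn : (rotN P n).Normal := rotN_normal n S.conj
  obtain ⟨N, hNdef⟩ : ∃ N, N = rotN P n := ⟨_, rfl⟩
  have green := windmill W (by norm_num) (by norm_num) n (by norm_num; linarith)
  rw [← hNdef] at green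
  have hNn' : N.Normal := hNdef ▸ hNn
  have hN : ∀ h ∈ P, h ^ n ∈ N := fun h hh => hNdef ▸ rotN_mem n hh
  norm_num at green
  obtain ⟨q, hq, hql, hqH, hqe, hqN, hqeq⟩ := quot N P (am p) d e 4880
    (512400000 * (1130 * 100000) + 1) 2062573968000020 n I.met E.met E.left E.hyp W.add
    (fun g hg hg1 x => by
      obtain ⟨h, hh, k, hk, hk'⟩ := green g hg hg1 x
      refine ⟨h, hh, k, hk, ?_, hk'⟩
      rw [mul_comm, zpow_mul, zpow_natCast]
      exact N.zpow_mem (hN h hh) k)
    (fun h hh x y hxy k => exact_rot I S E (by norm_num) (by norm_num) hh (by linarith) k)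
    (fun h hh x y k hk hxy => desc I S hh hk (by norm_num) (by norm_num; linarith) hxy)
    (by norm_num) (by norm_num) (by norm_num; linarith)
  obtain ⟨d', hd', hdl, hdH, hdq⟩ := scale q (M := 4880) (by norm_num) hq hql hqH
  refine ⟨N, hNn', d', ⟨hd', hdH, hdl, ?_, ?_⟩, ?_, ?_, ?_, ?_⟩
  · -- loxodromic
    intro u'
    obtain ⟨u, rfl⟩ := QuotientGroup.mk_surjective u'
    by_cases hun : u ^ n ∈ N
    · left
      rw [← QuotientGroup.mk_pow]
      exact (QuotientGroup.eq_one_iff _).2 hun
    right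
    obtain ⟨g, z, hgu, hA, hc, hg, hw⟩ := exists_min I S (by norm_num) (by norm_num)
      (by norm_num; linarith) N hN hun
    have e1 : (u : G ⧸ N) = (g : G ⧸ N) := QuotientGroup.eq.2 hgu
    have h1 : ∀ m : ℕ, (m : ℤ) ≤ 105000 * q (z : G ⧸ N) ((g : G ⧸ N) ^ m * (z : G ⧸ N)) := by
      intro m
      have h2 := long_am I S (by norm_num) (by norm_num) hA hc hg
        (W := (n + 512400000000) / 2) (fun w hw' h hh => by
          have := hw w hw' h hh
          norm_num at this
          omega) m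
      have h3 := hqeq z (g ^ m * z) (fun h hh => by
        have := h2 h hh
        norm_num at this ⊢
        omega)
      have h4 := long_e I S E (by norm_num) (by norm_num) hA hc hg m
      rw [← QuotientGroup.mk_pow, ← QuotientGroup.mk_mul, h3]
      norm_num at h4
      exact h4
    rw [e1]
    have h5 := lox_of_point hq hql (by norm_num) h1
    intro y m
    have h6 := h5 y m
    have h7 := (hdq y ((g : G ⧸ N) ^ m * y)).1
    linarith
  · -- almost fixed segments
    intro x' y' u' v' hxy hux huy hvx hvy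
    obtain ⟨x, rfl⟩ := QuotientGroup.mk_surjective x'
    obtain ⟨u, rfl⟩ := QuotientGroup.mk_surjective u'
    obtain ⟨v, rfl⟩ := QuotientGroup.mk_surjective v'
    have hb : ∀ s t : G ⧸ N, d' s t ≤ 1000 → q s t ≤ 4880000 := by
      intro s t hst
      have := (hdq s t).1
      linarith
    obtain ⟨y₂, hy1, hy2⟩ := hq.geo x y' 487995120 (by norm_num) (by
      have := (hdq x y').2
      linarith)
    obtain ⟨y, rfl⟩ := QuotientGroup.mk_surjective y₂
    have hmid : ∀ w : G ⧸ N, d' x (w * x) ≤ 1000 → d' y' (w * y') ≤ 1000 →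
        q y (w * y) ≤ 4884880 := by
      intro w hwx hwy
      have hz : gp q (x : G ⧸ N) y' y ≤ 0 := by
        unfold gp
        have := hq.symm y' y
        omega
      have h1 := hqH.near_pt hq hz (w * y)
      have t1 := hq.tri (w * y) (w * x) x
      have t2 := hq.tri (w * y) (w * y') y'
      rw [hql] at t1 t2
      have s1 := hq.symm (w * x) x
      have s2 := hq.symm (w * y') y'
      have s3 := hq.symm (y : G ⧸ N) x
      have s4 := hq.symm (y : G ⧸ N) y'
      have s5 := hq.symm (y : G ⧸ N) (w * y)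
      have b1 := hb _ _ hwx
      have b2 := hb _ _ hwy
      omega
    obtain ⟨x₁, y₁, hxy₁, ham, hlift⟩ := bend I S E (by norm_num) (by norm_num) (by norm_num) N hN
      (KG := 2062573968000020) (by norm_num) green (by norm_num; linarith) q hq hql hqe hqN
      (κ' := 4884880) (by norm_num) x y 487995120 (by rw [hy1]; norm_num)
      (by norm_num; linarith) (by norm_num)
    norm_num at hxy₁
    have hl' : ∀ w : G, d' x ((w : G ⧸ N) * x) ≤ 1000 → d' y' ((w : G ⧸ N) * y') ≤ 1000 →
        ∃ g ∈ N, e x₁ (g * w * x₁) ≤ 4889760 ∧ e y₁ (g * w * y₁) ≤ 4889760 := by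
      intro w hwx hwy
      have h1 := hlift w (by
        rw [QuotientGroup.mk_mul]
        exact (hb _ _ hwx).trans (by norm_num)) (by
        rw [QuotientGroup.mk_mul]
        exact hmid _ hwx hwy)
      norm_num at h1
      exact h1
    obtain ⟨g₁, hg₁, a1, a2⟩ := hl' u hux huy
    obtain ⟨g₂, hg₂, a3, a4⟩ := hl' v hvx hvy
    constructor
    · have h1 := xhat_comm I S E (by norm_num) (by norm_num) 38 (by norm_num)
        (κ' := 4889760) (by norm_num; linarith) a1 a2 a3 a4
      have h2 : ((g₁ * u * (g₂ * v) : G) : G ⧸ N) = ((g₂ * v * (g₁ * u) : G) : G ⧸ N) := by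
        rw [h1]
      simpa [(QuotientGroup.eq_one_iff g₁).2 hg₁, (QuotientGroup.eq_one_iff g₂).2 hg₂] using h2
    · intro hun
      by_contra hu1
      have hgu : g₁ * u ≠ 1 := by
        intro h1
        apply hu1
        have : ((g₁ * u : G) : G ⧸ N) = 1 := by rw [h1]; rfl
        rwa [mk_mul_left N hg₁] at this
      obtain ⟨h1, h2, z, hA, hc, hw⟩ := xhat_long I S E (by norm_num) (by norm_num) hn.pos 38 (by norm_num)
        (κ' := 4889760) (by norm_num; linarith) a1 a2 hgu
      have h3 : (g₁ * u) ^ n ∈ N := by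
        rw [← QuotientGroup.eq_one_iff, QuotientGroup.mk_pow, mk_mul_left N hg₁]
        exact hun
      obtain ⟨h, hh, k, hk, hk'⟩ := green _ h3 h1 z
      have h4 := long_am I S (by norm_num) (by norm_num) hA hc h2
        (W := (3 * n + 463209600000000000) / 4 + 1389628800000) (fun w hw' h hh => by
          have := hw w hw' h hh
          have := ham h hh
          norm_num at *
          omega) n h hh
      have h5 : (n : ℤ) ≤ |k * n| := by
        rw [abs_mul, Nat.abs_cast]
        have : 1 ≤ |k| := Int.one_le_abs hk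
        calc (n : ℤ) = 1 * n := by ring
          _ ≤ |k| * n := mul_le_mul_of_nonneg_right this (by positivity)
      have h6 := abs_sub_abs_le_abs_sub (k * (n : ℤ)) (am p h z ((g₁ * u) ^ n * z))
      rw [abs_sub_comm] at h6
      norm_num at h4
      omega
  · rw [hNdef]
    unfold rotN
    rw [Subgroup.closure_le]
    rintro _ ⟨h, hh, rfl⟩
    exact Subgroup.subset_normalClosure ⟨h, rfl⟩
  · intro g hg
    by_cases hgn : g ^ n = 1
    · rw [hgn]
      exact N.one_mem
    · obtain ⟨h, hh, hgh⟩ := S.all g hgn 1 (by rw [mul_one]; linarith)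
      obtain ⟨j, rfl⟩ := Subgroup.mem_zpowers_iff.1 hgh
      have e1 : (h ^ j) ^ n = (h ^ n) ^ j := by
        rw [← zpow_natCast, ← zpow_mul, mul_comm, zpow_mul, zpow_natCast]
      rw [e1]
      exact N.zpow_mem (hN h hh) j
  · intro g
    have h1 := (hdq ((1 : G) : G ⧸ N) (g : G ⧸ N)).2
    have h2 := hqe 1 g
    have h3 := E.le 1 g
    have h4 := I.met.nonneg 1 g
    rw [QuotientGroup.mk_one] at h1 h2
    omega
  · rcases Set.eq_empty_or_nonempty P with hP | hP
    · obtain ⟨u, hu⟩ := hu
      refine ⟨(u : G ⧸ N), fun hcon => ?_⟩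
      rw [← QuotientGroup.mk_pow, QuotientGroup.eq_one_iff] at hcon
      obtain ⟨h, hh, -⟩ := green _ hcon hu 1
      rw [hP] at hh
      exact hh
    · obtain ⟨h₁, H₁, h₂, H₂, hne, x, hx, hΔ, hΔ₁⟩ := exists_ping I S (by norm_num) (by norm_num)
        hcyc hP
      have hn4 : ((n / 4 : ℕ) : ℤ) = n / 4 := by push_cast; rfl
      obtain ⟨c1, c2⟩ := ping W H₁ H₂ hne hx hΔ hΔ₁ (n / 4) (by rw [hn4]; norm_num; omega) n
        hn.pos
      refine ⟨((h₁ ^ (n / 4) * h₂ ^ (n / 4) : G) : G ⧸ N), fun hcon => ?_⟩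
      rw [← QuotientGroup.mk_pow, QuotientGroup.eq_one_iff] at hcon
      obtain ⟨h, hh, k, hk, hk'⟩ := green _ hcon c1 x
      have h4 := c2 h hh
      have h5 : (n : ℤ) ≤ |k * n| := by
        rw [abs_mul, Nat.abs_cast]
        have : 1 ≤ |k| := Int.one_le_abs hk
        calc (n : ℤ) = 1 * n := by ring
          _ ≤ |k| * n := mul_le_mul_of_nonneg_right this (by positivity)
      have h6 := abs_sub_abs_le_abs_sub (k * (n : ℤ))
        (am p h x ((h₁ ^ (n / 4) * h₂ ^ (n / 4)) ^ n * x))
      rw [abs_sub_comm] at h6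
      rw [hn4] at h4
      norm_num at h4
      omega

end Pool.Agent.Burnside
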